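import Pool.Agent.UST.FI1

set_option autoImplicit false

/-!
The exponential bounds.

Proof. `C_half`: `C (n-1) n`, `C (n-1) (n-1)` tend to `1/2` (`C (n+1) n = 1/2`, `C_lip` with `k = 2`; `P_one`).
`P_upper`: `q = ⌊1/c⌋ ≥ 1` (else trivial), `b = ⌊cn⌋ ≥ 1`: `q b ≤ n`, `C n b ≤ C (q b - 1) b = C ((q-1) (w+1) + w) b ≤
C w b ^ q`, `w = b - 1` (`C_pow`, `C_anti`). `P_low`: `q = ⌊c⌋`, duality `C n b = 1 - C (b+1) (n-1)`,
`b + 1 ≥ q n + 1 > q n - 1 = (q-1)(w+1) + w`, `w = n - 1`: `C (b+1) (n-1) ≤ C (n-1) (n-1) ^ q`.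
-/

namespace Pool.Agent.UST

open Filter

private theorem C_nonneg (a b : ℕ) : 0 ≤ C a b :=
  le_trans (by positivity) (C_lower a b)

private theorem C_le_one (a b : ℕ) : C a b ≤ 1 := by
  cases a with
  | zero => exact (C_zero b).le
  | succ a =>
    have h1 := C_dual a b
    have h2 := C_nonneg (b + 1) a
    linarith

private theorem C_mono_width {a a' b : ℕ} (h : a ≤ a') : C a' b ≤ C a b := by
  obtain ⟨k, rfl⟩ := Nat.exists_eq_add_of_le h
  exact C_anti

private theorem C_diag (n : ℕ) : C (n + 1) n = 1 / 2 := by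
  have := C_dual n n
  linarith

/-- `C (n + 1) (n + 2) → 1 / 2` and `C (n + 1) (n + 1) → 1 / 2`. -/
private theorem C_half1 : Tendsto (fun n : ℕ => C (n + 1) (n + 1)) atTop (nhds (1 / 2)) := by
  have h0 : Tendsto (fun n : ℕ => (6 * Real.exp (2 * Real.pi)) * (1 / ((n : ℝ) + 1))) atTop (nhds 0) := by
    have := tendsto_one_div_add_atTop_nhds_zero_nat (𝕜 := ℝ)
    simpa using this.const_mul (6 * Real.exp (2 * Real.pi))
  have h1 : Tendsto (fun n : ℕ => 1 / 2 + (6 * Real.exp (2 * Real.pi)) * (1 / ((n : ℝ) + 1))) atTop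
      (nhds (1 / 2)) := by
    have h2 := h0.const_add (1 / 2 : ℝ)
    rwa [add_zero] at h2
  refine tendsto_of_tendsto_of_tendsto_of_le_of_le tendsto_const_nhds h1 ?_ ?_
  · intro n
    have := C_anti (a := n + 1) (b := n + 1) (k := 1)
    rw [C_diag] at this
    exact this
  · intro n
    have := C_lip (a := n + 1) (b := n + 1) (k := 1) (by omega) (by omega)
    rw [C_diag] at this
    have e : 2 * Real.pi * (((n + 1 : ℕ) : ℝ) + 1) / (((n + 1 : ℕ) : ℝ) + 1) = 2 * Real.pi := by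
      have : ((n + 1 : ℕ) : ℝ) + 1 ≠ 0 := by positivity
      field_simp
    rw [e] at this
    push_cast at this
    simp only []
    linarith

private theorem C_half2 : Tendsto (fun n : ℕ => C n (n + 1)) atTop (nhds (1 / 2)) := by
  have h0 : Tendsto (fun n : ℕ => (24 * Real.exp (4 * Real.pi)) * (1 / ((n : ℝ) + 1))) atTop (nhds 0) := by
    have := tendsto_one_div_add_atTop_nhds_zero_nat (𝕜 := ℝ)
    simpa using this.const_mul (24 * Real.exp (4 * Real.pi))
  have h1 : Tendsto (fun n : ℕ => 1 / 2 + (24 * Real.exp (4 * Real.pi)) * (1 / ((n : ℝ) + 1))) atTop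
      (nhds (1 / 2)) := by
    have h2 := h0.const_add (1 / 2 : ℝ)
    rwa [add_zero] at h2
  refine tendsto_of_tendsto_of_tendsto_of_le_of_le' tendsto_const_nhds h1 ?_ ?_
  · filter_upwards with n
    have := C_anti (a := n) (b := n + 1) (k := 2)
    have h2 : C (n + 2) (n + 1) = 1 / 2 := C_diag (n + 1)
    rw [h2] at this
    exact this
  · filter_upwards [eventually_ge_atTop 1] with n hn
    have := C_lip (a := n) (b := n + 1) (k := 2) hn (by omega)
    have h2 : C (n + 2) (n + 1) = 1 / 2 := C_diag (n + 1)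
    rw [h2] at this
    have hn' : (1 : ℝ) ≤ n := by exact_mod_cast hn
    have e : 2 * Real.pi * (((n + 1 : ℕ) : ℝ) + 1) / ((n : ℝ) + 1) ≤ 4 * Real.pi := by
      push_cast
      rw [div_le_iff₀ (by positivity)]
      nlinarith [Real.pi_pos]
    have e2 : Real.exp (2 * Real.pi * (((n + 1 : ℕ) : ℝ) + 1) / ((n : ℝ) + 1))
        ≤ Real.exp (4 * Real.pi) := Real.exp_le_exp.2 e
    have e3 : ((2 : ℕ) : ℝ) / n ≤ 4 * (1 / ((n : ℝ) + 1)) := by
      push_cast
      rw [div_le_iff₀ (by positivity), mul_one_div, div_mul_eq_mul_div, le_div_iff₀ (by positivity)]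
      linarith
    have e4 : 6 * (((2 : ℕ) : ℝ) / n) * Real.exp (2 * Real.pi * (((n + 1 : ℕ) : ℝ) + 1) / ((n : ℝ) + 1))
        ≤ 6 * (4 * (1 / ((n : ℝ) + 1))) * Real.exp (4 * Real.pi) := by
      gcongr
    linarith

private theorem floor_tendsto {c : ℝ} (hc : 0 < c) :
    Tendsto (fun n : ℕ => ⌊c * n⌋₊) atTop atTop := by
  apply tendsto_nat_floor_atTop.comp
  exact tendsto_natCast_atTop_atTop.const_mul_atTop hc

theorem P_upper {c : ℝ} (hc : 0 < c) :
    Filter.limsup (fun n : ℕ => P n c) Filter.atTop ≤ (1 / 2) ^ ⌊1 / c⌋₊ := by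
  have hcob : IsCoboundedUnder (· ≤ ·) atTop (fun n : ℕ => P n c) :=
    (isBoundedUnder_of ⟨0, fun n => C_nonneg _ _⟩ :
      IsBoundedUnder (· ≥ ·) atTop (fun n : ℕ => P n c)).isCoboundedUnder_le
  rcases Nat.eq_zero_or_pos ⌊1 / c⌋₊ with hq | hq
  · rw [hq, pow_zero]
    exact limsup_le_of_le hcob (Eventually.of_forall fun n => C_le_one _ _)
  · set q := ⌊1 / c⌋₊ with hqdef
    have hqc : (q : ℝ) * c ≤ 1 := by
      have h1 : (q : ℝ) ≤ 1 / c := Nat.floor_le (by positivity)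
      rwa [le_div_iff₀ hc] at h1
    have hlim : Tendsto (fun n : ℕ => C (⌊c * n⌋₊ - 1) ((⌊c * n⌋₊ - 1) + 1) ^ q) atTop
        (nhds ((1 / 2) ^ q)) := by
      apply Tendsto.pow
      have h1 : Tendsto (fun n : ℕ => ⌊c * n⌋₊ - 1) atTop atTop :=
        (tendsto_sub_atTop_nat 1).comp (floor_tendsto hc)
      exact C_half2.comp h1
    have hle : ∀ᶠ n : ℕ in atTop, P n c ≤ C (⌊c * n⌋₊ - 1) ((⌊c * n⌋₊ - 1) + 1) ^ q := by
      filter_upwards [(floor_tendsto hc).eventually_ge_atTop 1] with n hn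
      unfold P
      obtain ⟨w, hw⟩ : ∃ w, ⌊c * n⌋₊ = w + 1 := ⟨⌊c * n⌋₊ - 1, by omega⟩
      obtain ⟨r, hr⟩ : ∃ r, q = r + 1 := ⟨q - 1, by omega⟩
      have hb : ((w + 1 : ℕ) : ℝ) ≤ c * n := by
        rw [← hw]
        exact Nat.floor_le (by positivity)
      have hqn : q * (w + 1) ≤ n := by
        have h1 : ((q * (w + 1) : ℕ) : ℝ) ≤ n := by
          push_cast at hb ⊢
          have h2 : (q : ℝ) * ((w : ℝ) + 1) ≤ q * (c * n) :=
            mul_le_mul_of_nonneg_left hb (Nat.cast_nonneg q)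
          have h3 : (q : ℝ) * (c * n) = (q * c) * n := by ring
          have h4 : ((q : ℝ) * c) * n ≤ 1 * n := mul_le_mul_of_nonneg_right hqc (Nat.cast_nonneg n)
          linarith
        exact_mod_cast h1
      rw [hw, Nat.add_sub_cancel]
      have h5 : r * (w + 1) + w ≤ n := by
        rw [hr] at hqn
        have : (r + 1) * (w + 1) = r * (w + 1) + w + 1 := by ring
        omega
      rw [hr]
      exact (C_mono_width h5).trans (C_pow r w (w + 1))
    exact (limsup_le_limsup hle hcob hlim.isBoundedUnder_le).trans hlim.limsup_eq.le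

theorem P_low {c : ℝ} (hc : 0 < c) :
    1 - (1 / 2) ^ ⌊c⌋₊ ≤ Filter.liminf (fun n : ℕ => P n c) Filter.atTop := by
  have hcob : IsCoboundedUnder (· ≥ ·) atTop (fun n : ℕ => P n c) :=
    (isBoundedUnder_of ⟨1, fun n => C_le_one _ _⟩ :
      IsBoundedUnder (· ≤ ·) atTop (fun n : ℕ => P n c)).isCoboundedUnder_ge
  rcases Nat.eq_zero_or_pos ⌊c⌋₊ with hq | hq
  · rw [hq, pow_zero, sub_self]
    exact le_liminf_of_le hcob (Eventually.of_forall fun n => C_nonneg _ _)
  · set q := ⌊c⌋₊ with hqdef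
    have hqc : (q : ℝ) ≤ c := Nat.floor_le hc.le
    have hlim : Tendsto (fun n : ℕ => 1 - C (n - 2 + 1) (n - 2 + 1) ^ q) atTop
        (nhds (1 - (1 / 2) ^ q)) := by
      apply Tendsto.const_sub
      apply Tendsto.pow
      exact C_half1.comp (tendsto_sub_atTop_nat 2)
    have hle : ∀ᶠ n : ℕ in atTop, 1 - C (n - 2 + 1) (n - 2 + 1) ^ q ≤ P n c := by
      filter_upwards [eventually_ge_atTop 2] with n hn
      unfold P
      obtain ⟨m, rfl⟩ : ∃ m, n = m + 2 := ⟨n - 2, by omega⟩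
      obtain ⟨r, hr⟩ : ∃ r, q = r + 1 := ⟨q - 1, by omega⟩
      rw [Nat.add_sub_cancel]
      have hd := C_dual (m + 1) ⌊c * ((m + 2 : ℕ) : ℝ)⌋₊
      have hfl : q * (m + 2) ≤ ⌊c * ((m + 2 : ℕ) : ℝ)⌋₊ := by
        apply Nat.le_floor
        push_cast
        exact mul_le_mul_of_nonneg_right hqc (by positivity)
      have h5 : r * (m + 1 + 1) + (m + 1) ≤ ⌊c * ((m + 2 : ℕ) : ℝ)⌋₊ + 1 := by
        rw [hr] at hfl
        have : (r + 1) * (m + 2) = r * (m + 1 + 1) + (m + 1) + 1 := by ring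
        omega
      have h6 := (C_mono_width (b := m + 1) h5).trans (C_pow r (m + 1) (m + 1))
      rw [← hr] at h6
      have h7 : C (m + 2) ⌊c * ((m + 2 : ℕ) : ℝ)⌋₊ = C (m + 1 + 1) ⌊c * ((m + 2 : ℕ) : ℝ)⌋₊ := rfl
      rw [h7]
      linarith
    exact hlim.liminf_eq.symm.le.trans (liminf_le_liminf hle hlim.isBoundedUnder_ge hcob)

end Pool.Agent.UST
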