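import Pool.Agent.UST.FI1

set_option autoImplicit false

/-! Upper bound for all `n`. -/

namespace Pool.Agent.UST

theorem P_upper_all {n : ℕ} {c : ℝ} (hn : 1 ≤ n) (hc : 0 < c) :
    P n c ≤ 1 - 1 / 2 * Real.exp (-(Real.pi * max c 1)) := by
  have hpi := Real.pi_pos
  have hn0 : (0 : ℝ) < n := by exact_mod_cast hn
  obtain ⟨b, hb⟩ : ∃ b : ℕ, b = ⌊c * n⌋₊ := ⟨_, rfl⟩
  have hb1 : (b : ℝ) ≤ c * n := by rw [hb]; exact Nat.floor_le (by positivity)
  unfold P
  rw [← hb]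
  have h1 := C_dual (n - 1) b
  rw [Nat.sub_add_cancel hn] at h1
  have h2 := C_lower (b + 1) (n - 1)
  push_cast [Nat.cast_sub hn] at h2
  have h3 : Real.exp (-(Real.pi * max c 1)) ≤
      Real.exp (-(Real.pi * ((b : ℝ) + 1) / ((n : ℝ) - 1 + 2))) := by
    apply Real.exp_le_exp.2
    rw [neg_le_neg_iff, div_le_iff₀ (by linarith)]
    have h4 : (b : ℝ) + 1 ≤ max c 1 * (n - 1 + 2) := by
      have h5 : c * n ≤ max c 1 * n := mul_le_mul_of_nonneg_right (le_max_left _ _) hn0.le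
      have h6 : (1 : ℝ) ≤ max c 1 := le_max_right _ _
      nlinarith
    calc Real.pi * ((b : ℝ) + 1) ≤ Real.pi * (max c 1 * (n - 1 + 2)) := by gcongr
      _ = _ := by ring
  linarith

end Pool.Agent.UST
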