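import Pool.Agent.UST.FI1

set_option autoImplicit false

/-! The crossing probabilities are strictly increasing in the limit. -/

namespace Pool.Agent.UST

theorem P_incr {n : ℕ} {c c' : ℝ} (hc : 0 < c) (hcc : c < c') (h : 4 ≤ (c' - c) * n) :
    1 / 4 * Real.exp (-(Real.pi * max c 1 + 2 * Real.pi / (c' - c))) ≤ P n c' - P n c := by
  have hpi := Real.pi_pos
  have hd : 0 < c' - c := by linarith
  have hn0 : (0 : ℝ) < n := by
    by_contra hcon
    push Not at hcon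
    nlinarith
  have hn : 1 ≤ n := by exact_mod_cast hn0
  have hc' : 0 < c' := by linarith
  obtain ⟨b, hb⟩ : ∃ b : ℕ, b = ⌊c * n⌋₊ := ⟨_, rfl⟩
  obtain ⟨b', hb'⟩ : ∃ b' : ℕ, b' = ⌊c' * n⌋₊ := ⟨_, rfl⟩
  have hb1 : (b : ℝ) ≤ c * n := by rw [hb]; exact Nat.floor_le (by positivity)
  have hb2 : c' * n < b' + 1 := by rw [hb']; exact Nat.lt_floor_add_one _
  have hk0 : (b : ℝ) + ((c' - c) * n - 1) < b' := by linarith
  obtain ⟨k, hk⟩ : ∃ k, b' = b + (k + 3) := by
    have : (b : ℝ) + 3 < b' + 1 := by linarith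
    have : b + 3 < b' + 1 := by exact_mod_cast this
    exact ⟨b' - b - 3, by omega⟩
  have hkr : (c' - c) * n - 1 < (k : ℝ) + 3 := by
    rw [hk] at hk0
    push_cast at hk0
    linarith
  unfold P
  rw [← hb, ← hb']
  have h1 := C_dual (n - 1) b
  have h2 := C_dual (n - 1) b'
  rw [Nat.sub_add_cancel hn] at h1 h2
  have h3 := C_submul (b + 1) (k + 2) (n - 1)
  have e1 : b + 1 + (k + 2) + 1 = b' + 1 := by omega
  rw [e1] at h3
  have h4 := C_dual (k + 1) (n - 1)
  rw [Nat.sub_add_cancel hn] at h4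
  have h5 := C_lower n (k + 1)
  have h6 := C_lower (b + 1) (n - 1)
  push_cast [Nat.cast_sub hn] at h5 h6
  have h7 : Real.exp (-(Real.pi * max c 1)) ≤
      Real.exp (-(Real.pi * ((b : ℝ) + 1) / ((n : ℝ) - 1 + 2))) := by
    apply Real.exp_le_exp.2
    rw [neg_le_neg_iff, div_le_iff₀ (by linarith)]
    have h8 : (b : ℝ) + 1 ≤ max c 1 * (n - 1 + 2) := by
      have h9 : c * n ≤ max c 1 * n := mul_le_mul_of_nonneg_right (le_max_left _ _) hn0.le
      have h10 : (1 : ℝ) ≤ max c 1 := le_max_right _ _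
      nlinarith
    calc Real.pi * ((b : ℝ) + 1) ≤ Real.pi * (max c 1 * (n - 1 + 2)) := by gcongr
      _ = _ := by ring
  have h8 : Real.exp (-(2 * Real.pi / (c' - c))) ≤
      Real.exp (-(Real.pi * (n : ℝ) / ((k : ℝ) + 1 + 2))) := by
    apply Real.exp_le_exp.2
    rw [neg_le_neg_iff, div_le_div_iff₀ (by positivity) hd]
    have h9 : n * (c' - c) ≤ 2 * ((k : ℝ) + 1 + 2) := by nlinarith
    calc Real.pi * (n : ℝ) * (c' - c) = Real.pi * (n * (c' - c)) := by ring
      _ ≤ Real.pi * (2 * ((k : ℝ) + 1 + 2)) := by gcongr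
      _ = _ := by ring
  have h9 : C n b' - C n b = C (b + 1) (n - 1) - C (b' + 1) (n - 1) := by linarith
  rw [h9]
  have e2 : (1 : ℝ) / 4 * Real.exp (-(Real.pi * max c 1 + 2 * Real.pi / (c' - c)))
      = (1 / 2 * Real.exp (-(Real.pi * max c 1))) * (1 / 2 * Real.exp (-(2 * Real.pi / (c' - c)))) := by
    rw [neg_add, Real.exp_add]; ring
  rw [e2]
  have p1 : 1 / 2 * Real.exp (-(Real.pi * max c 1)) ≤ C (b + 1) (n - 1) := by linarith
  have p2 : 1 / 2 * Real.exp (-(2 * Real.pi / (c' - c))) ≤ 1 - C (k + 2) (n - 1) := by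
    have e3 : k + 1 + 1 = k + 2 := by omega
    rw [e3] at h4
    linarith
  have p3 : (0 : ℝ) ≤ 1 / 2 * Real.exp (-(2 * Real.pi / (c' - c))) := by positivity
  have p4 : (0 : ℝ) ≤ C (b + 1) (n - 1) := by
    have : (0 : ℝ) ≤ 1 / 2 * Real.exp (-(Real.pi * max c 1)) := by positivity
    linarith
  have p5 := mul_le_mul p1 p2 p3 p4
  nlinarith

end Pool.Agent.UST
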