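import Pool.Agent.UST.FI2

set_option autoImplicit false

/-! The reflection law with a rate. -/

namespace Pool.Agent.UST

private theorem C_mem (a b : ℕ) : 0 ≤ C a b ∧ C a b ≤ 1 :=
  ⟨pinf_nonneg (HCr_inc _ _ _ _) (HCr_loc _ _ _ _), pinf_le_one (HCr_inc _ _ _ _) (HCr_loc _ _ _ _)⟩

private theorem refl_large {c : ℝ} (hc : 0 < c) {n : ℕ} (hn : 6 / c + 2 ≤ n) :
    |P n c + P ⌊c * n⌋₊ (1 / c) - 1| ≤
      (12 / c * Real.exp (4 * Real.pi / c) + 6 * Real.exp (2 * Real.pi * (c + 1))
        + 12 / c * Real.exp (4 * Real.pi * c)) / n := by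
  have hpi := Real.pi_pos
  have h6 : 0 < 6 / c := by positivity
  have hn0 : (0 : ℝ) < n := by linarith
  have hn1 : 1 ≤ n := by
    have : (0 : ℝ) < n := hn0
    exact_mod_cast this
  have hcn : 6 + 2 * c ≤ c * n := by
    have := mul_le_mul_of_nonneg_left hn hc.le
    have e : c * (6 / c + 2) = 6 + 2 * c := by field_simp
    linarith
  obtain ⟨b, hb⟩ : ∃ b : ℕ, b = ⌊c * n⌋₊ := ⟨_, rfl⟩
  have hb1 : (b : ℝ) ≤ c * n := by rw [hb]; exact Nat.floor_le (by positivity)
  have hb2 : c * n < b + 1 := by rw [hb]; exact Nat.lt_floor_add_one _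
  obtain ⟨n', hn'⟩ : ∃ n' : ℕ, n' = ⌊1 / c * b⌋₊ := ⟨_, rfl⟩
  have hn'1 : (n' : ℝ) ≤ 1 / c * b := by rw [hn']; exact Nat.floor_le (by positivity)
  have hn'2 : 1 / c * b < n' + 1 := by rw [hn']; exact Nat.lt_floor_add_one _
  have hic : 0 < 1 / c := by positivity
  have e1 : 1 / c * (c * n) = n := by field_simp
  have hn'n : (n' : ℝ) ≤ n := by
    have := mul_le_mul_of_nonneg_left hb1 hic.le
    linarith
  have hn'l : (n : ℝ) - 1 / c - 1 ≤ n' := by
    have : 1 / c * (c * n) < 1 / c * (b + 1) := mul_lt_mul_of_pos_left hb2 hic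
    have e2 : 1 / c * ((b : ℝ) + 1) = 1 / c * b + 1 / c := by ring
    linarith
  have h6c : 6 / c = 6 * (1 / c) := by ring
  have hn'h : (n : ℝ) / 2 ≤ n' := by linarith
  have hbc : c * n / 2 ≤ b := by linarith
  have hbpos : (0 : ℝ) < b := by linarith
  have hb3 : 2 ≤ b := by
    have : (2 : ℝ) ≤ b := by linarith
    exact_mod_cast this
  have hnn : n' ≤ n := by exact_mod_cast hn'n
  have hP : P n c + P ⌊c * n⌋₊ (1 / c) - 1 = C b n' - C (b + 1) (n - 1) := by
    unfold P
    rw [← hb, ← hn']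
    have := C_dual (n - 1) b
    rw [Nat.sub_add_cancel hn1] at this
    linarith
  rw [hP, abs_le]
  have hA : C b n' - C (b + 1) (n - 1) ≤
      (12 / c * Real.exp (4 * Real.pi / c) + 6 * Real.exp (2 * Real.pi * (c + 1))) / n := by
    have s1 : C b n' ≤ C b n := C_mono_height hnn
    have s2 := C_lip (a := b) (b := n) (k := 1) (by omega) hn1
    have s3 := C_lip_height (a := b + 1) (b := n - 1) (k := 1) (by omega)
    rw [Nat.sub_add_cancel hn1] at s3
    push_cast [Nat.cast_sub hn1] at s2 s3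
    have t2 : 6 * (1 / (b : ℝ)) * Real.exp (2 * Real.pi * (n + 1) / (b + 1))
        ≤ 12 / c * Real.exp (4 * Real.pi / c) / n := by
      have u1 : 1 / (b : ℝ) ≤ 2 / (c * n) := by
        rw [div_le_div_iff₀ hbpos (by positivity)]
        linarith
      have u2 : 2 * Real.pi * (n + 1) / ((b : ℝ) + 1) ≤ 4 * Real.pi / c := by
        rw [div_le_div_iff₀ (by positivity) hc]
        have hn2 : (n : ℝ) + 1 ≤ 2 * n := by
          have : (1 : ℝ) ≤ n := by exact_mod_cast hn1
          linarith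
        have v1 : 2 * Real.pi * ((n : ℝ) + 1) * c ≤ 2 * Real.pi * (2 * n) * c := by gcongr
        have v2 : 4 * Real.pi * (c * n) ≤ 4 * Real.pi * ((b : ℝ) + 1) := by gcongr
        linarith
      calc 6 * (1 / (b : ℝ)) * Real.exp (2 * Real.pi * (n + 1) / (b + 1))
          ≤ 6 * (2 / (c * n)) * Real.exp (4 * Real.pi / c) := by
            gcongr
        _ = 12 / c * Real.exp (4 * Real.pi / c) / n := by field_simp; ring
    have t3 : 6 * (1 / ((n : ℝ) - 1 + 1)) * Real.exp (2 * Real.pi * (b + 1) / (n - 1 + 2))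
        ≤ 6 * Real.exp (2 * Real.pi * (c + 1)) / n := by
      rw [show (n : ℝ) - 1 + 1 = n by ring, show (n : ℝ) - 1 + 2 = n + 1 by ring]
      have u2 : 2 * Real.pi * (b + 1) / ((n : ℝ) + 1) ≤ 2 * Real.pi * (c + 1) := by
        rw [div_le_iff₀ (by positivity)]
        have : (b : ℝ) + 1 ≤ (c + 1) * (n + 1) := by nlinarith
        calc 2 * Real.pi * ((b : ℝ) + 1) ≤ 2 * Real.pi * ((c + 1) * (n + 1)) := by gcongr
          _ = _ := by ring
      calc 6 * (1 / (n : ℝ)) * Real.exp (2 * Real.pi * (b + 1) / (n + 1))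
          ≤ 6 * (1 / (n : ℝ)) * Real.exp (2 * Real.pi * (c + 1)) := by gcongr
        _ = _ := by ring
    have e3 : (12 / c * Real.exp (4 * Real.pi / c) + 6 * Real.exp (2 * Real.pi * (c + 1))) / n
        = 12 / c * Real.exp (4 * Real.pi / c) / n + 6 * Real.exp (2 * Real.pi * (c + 1)) / n := by
      ring
    rw [e3]
    linarith
  have hB : C (b + 1) (n - 1) - C b n' ≤ 12 / c * Real.exp (4 * Real.pi * c) / n := by
    have s1 : C (b + 1) (n - 1) ≤ C b (n - 1) := C_anti
    by_cases hk : n - 1 ≤ n'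
    · have s2 : C b (n - 1) ≤ C b n' := C_mono_height hk
      have : 0 ≤ 12 / c * Real.exp (4 * Real.pi * c) / n := by positivity
      linarith
    · push Not at hk
      obtain ⟨k, hk'⟩ : ∃ k, n - 1 = n' + k := ⟨n - 1 - n', by omega⟩
      have s3 := C_lip_height (a := b) (b := n') (k := k) hb3
      rw [← hk'] at s3
      have hkr : (k : ℝ) ≤ 1 / c := by
        have : ((n - 1 : ℕ) : ℝ) = n' + k := by exact_mod_cast congrArg (Nat.cast (R := ℝ)) hk'
        rw [Nat.cast_sub hn1] at this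
        push_cast at this
        linarith
      have u2 : 2 * Real.pi * b / ((n' : ℝ) + 2) ≤ 4 * Real.pi * c := by
        rw [div_le_iff₀ (by positivity)]
        have v1 : 2 * Real.pi * (b : ℝ) ≤ 2 * Real.pi * (c * n) := by gcongr
        have v2 : 4 * Real.pi * c * ((n : ℝ) / 2) ≤ 4 * Real.pi * c * (n' + 2) := by
          apply mul_le_mul_of_nonneg_left _ (by positivity)
          linarith
        linarith
      have u1 : (k : ℝ) / (n' + 1) ≤ (1 / c) / (n / 2) := by
        apply div_le_div₀ hic.le hkr (by positivity)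
        linarith
      have s4 : 6 * ((k : ℝ) / (n' + 1)) * Real.exp (2 * Real.pi * b / (n' + 2))
          ≤ 12 / c * Real.exp (4 * Real.pi * c) / n := by
        calc 6 * ((k : ℝ) / (n' + 1)) * Real.exp (2 * Real.pi * b / (n' + 2))
            ≤ 6 * ((1 / c) / (n / 2)) * Real.exp (4 * Real.pi * c) := by gcongr
          _ = _ := by field_simp; ring
      linarith
  have e4 : (12 / c * Real.exp (4 * Real.pi / c) + 6 * Real.exp (2 * Real.pi * (c + 1))
        + 12 / c * Real.exp (4 * Real.pi * c)) / n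
      = (12 / c * Real.exp (4 * Real.pi / c) + 6 * Real.exp (2 * Real.pi * (c + 1))) / n
        + 12 / c * Real.exp (4 * Real.pi * c) / n := by ring
  rw [e4]
  have p1 : 0 ≤ (12 / c * Real.exp (4 * Real.pi / c) + 6 * Real.exp (2 * Real.pi * (c + 1))) / n := by
    positivity
  have p2 : 0 ≤ 12 / c * Real.exp (4 * Real.pi * c) / n := by positivity
  constructor
  · linarith
  · linarith

/-- the reflection law with the rate `1/n` -/
theorem P_refl_rate {c : ℝ} (hc : 0 < c) :
    ∃ K : ℝ, ∀ n : ℕ, 1 ≤ n → |P n c + P ⌊c * n⌋₊ (1 / c) - 1| ≤ K / n := by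
  refine ⟨(12 / c * Real.exp (4 * Real.pi / c) + 6 * Real.exp (2 * Real.pi * (c + 1))
        + 12 / c * Real.exp (4 * Real.pi * c)) + (6 / c + 2), fun n hn => ?_⟩
  have hn0 : (0 : ℝ) < n := by exact_mod_cast hn
  by_cases h : 6 / c + 2 ≤ n
  · refine (refl_large hc h).trans ?_
    apply div_le_div_of_nonneg_right _ hn0.le
    have : 0 < 6 / c := by positivity
    linarith
  · push Not at h
    have h1 := C_mem n ⌊c * n⌋₊
    have h2 := C_mem ⌊c * n⌋₊ ⌊1 / c * (⌊c * n⌋₊ : ℝ)⌋₊
    have h3 : |P n c + P ⌊c * n⌋₊ (1 / c) - 1| ≤ 1 := by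
      unfold P
      rw [abs_le]
      constructor <;> linarith
    refine h3.trans ?_
    rw [le_div_iff₀ hn0]
    have : 0 ≤ 12 / c * Real.exp (4 * Real.pi / c) + 6 * Real.exp (2 * Real.pi * (c + 1))
        + 12 / c * Real.exp (4 * Real.pi * c) := by positivity
    linarith

end Pool.Agent.UST
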