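import Pool.Agent.UST.Defs

set_option autoImplicit false

/-!
The exponent `φ` of the discrete harmonic functions `cos (θ x) cosh (φ y)`.

Proof. `φ = 2 arsinh (sin (θ/2))`: `cosh φ - 1 = 2 sinh² (φ/2) = 2 sin² (θ/2) = 1 - cos θ`; `φ/2 ≤ sinh (φ/2) = sin (θ/2) ≤
θ/2`; `arsinh s ≥ s/2` for `0 ≤ s ≤ 1` (`sinh (s/2) ≤ s`), so `φ ≥ sin (θ/2) ≥ θ/π` (`Real.mul_le_sin` or concavity on
`[0, π/2]`: `sin x ≥ 2x/π`).
`sinh_ratio`: `sinh p / sinh (p + n') ≥ e^{-n'} (1 - e^{-2p})`: multiply out.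
-/

namespace Pool.Agent.UST

private theorem sinh_le_two {z : ℝ} (h0 : 0 ≤ z) (h1 : z ≤ 1) : Real.sinh z ≤ 2 * z := by
  rw [Real.sinh_eq]
  have h2 : |Real.exp z - 1 - z| ≤ z ^ 2 :=
    Real.abs_exp_sub_one_sub_id_le (by rw [abs_of_nonneg h0]; exact h1)
  have h3 := Real.add_one_le_exp (-z)
  have h4 := (abs_le.1 h2).2
  nlinarith

theorem phi_exists {θ : ℝ} (h0 : 0 < θ) (h1 : θ ≤ Real.pi / 2) :
    ∃ φ : ℝ, 0 < φ ∧ φ ≤ θ ∧ θ / Real.pi ≤ φ ∧ Real.cosh φ = 2 - Real.cos θ := by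
  have hpi := Real.pi_pos
  have hpi3 := Real.pi_gt_three
  have hs : 0 < Real.sin (θ / 2) := Real.sin_pos_of_pos_of_lt_pi (by linarith) (by linarith)
  have hlow : θ / Real.pi ≤ Real.sin (θ / 2) := by
    have := Real.mul_le_sin (x := θ / 2) (by linarith) (by linarith)
    calc θ / Real.pi = 2 / Real.pi * (θ / 2) := by field_simp
      _ ≤ _ := this
  refine ⟨2 * Real.arsinh (Real.sin (θ / 2)), ?_, ?_, ?_, ?_⟩
  · have := Real.arsinh_pos_iff.2 hs
    linarith
  · have h2 : Real.sin (θ / 2) ≤ Real.sinh (θ / 2) :=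
      (Real.sin_le (by linarith)).trans (Real.self_le_sinh_iff.2 (by linarith))
    have h3 := Real.arsinh_le_arsinh.2 h2
    rw [Real.arsinh_sinh] at h3
    linarith
  · have hz : Real.sinh (θ / (2 * Real.pi)) ≤ Real.sin (θ / 2) := by
      refine (sinh_le_two (by positivity) ?_).trans ?_
      · rw [div_le_one (by positivity)]
        linarith
      · calc 2 * (θ / (2 * Real.pi)) = θ / Real.pi := by field_simp
          _ ≤ _ := hlow
    have h3 := Real.arsinh_le_arsinh.2 hz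
    rw [Real.arsinh_sinh] at h3
    calc θ / Real.pi = 2 * (θ / (2 * Real.pi)) := by field_simp
      _ ≤ _ := by linarith
  · rw [Real.cosh_two_mul, Real.cosh_sq, Real.sinh_arsinh]
    have : Real.cos θ = 2 * Real.cos (θ / 2) ^ 2 - 1 := by
      rw [← Real.cos_two_mul]; congr 1; ring
    rw [this, Real.cos_sq']
    ring

/-- discrete Laplacian of `cos (θ x) cosh (φ y)` -/
theorem lap_cosh {θ φ : ℝ} (h : Real.cosh φ = 2 - Real.cos θ) (x y : ℝ) :
    Real.cos (θ * (x + 1)) * Real.cosh (φ * y) + Real.cos (θ * (x - 1)) * Real.cosh (φ * y)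
      + Real.cos (θ * x) * Real.cosh (φ * (y + 1)) + Real.cos (θ * x) * Real.cosh (φ * (y - 1))
      = 4 * (Real.cos (θ * x) * Real.cosh (φ * y)) := by
  rw [show θ * (x + 1) = θ * x + θ by ring, show θ * (x - 1) = θ * x - θ by ring,
    show φ * (y + 1) = φ * y + φ by ring, show φ * (y - 1) = φ * y - φ by ring,
    Real.cos_add, Real.cos_sub, Real.cosh_add, Real.cosh_sub]
  linear_combination (2 * Real.cos (θ * x) * Real.cosh (φ * y)) * h

theorem lap_sinh {θ φ : ℝ} (h : Real.cosh φ = 2 - Real.cos θ) (x y : ℝ) :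
    Real.cos (θ * (x + 1)) * Real.sinh (φ * y) + Real.cos (θ * (x - 1)) * Real.sinh (φ * y)
      + Real.cos (θ * x) * Real.sinh (φ * (y + 1)) + Real.cos (θ * x) * Real.sinh (φ * (y - 1))
      = 4 * (Real.cos (θ * x) * Real.sinh (φ * y)) := by
  rw [show θ * (x + 1) = θ * x + θ by ring, show θ * (x - 1) = θ * x - θ by ring,
    show φ * (y + 1) = φ * y + φ by ring, show φ * (y - 1) = φ * y - φ by ring,
    Real.cos_add, Real.cos_sub, Real.sinh_add, Real.sinh_sub]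
  linear_combination (2 * Real.cos (θ * x) * Real.sinh (φ * y)) * h

theorem sinh_ratio {p n' : ℝ} (hp : 1 ≤ p) (hn : 0 ≤ n') :
    4 / 5 * Real.exp (-n') * Real.sinh (p + n') ≤ Real.sinh p := by
  rw [Real.sinh_eq, Real.sinh_eq]
  have e1 : Real.exp (-n') * Real.exp (p + n') = Real.exp p := by
    rw [← Real.exp_add]; congr 1; ring
  have e2 : 0 < Real.exp (-n') * Real.exp (-(p + n')) := by positivity
  have h1 := Real.exp_one_gt_d9
  have h2 : Real.exp 1 ≤ Real.exp p := Real.exp_le_exp.2 hp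
  have h3 : Real.exp (-p) ≤ Real.exp (-1) := Real.exp_le_exp.2 (by linarith)
  have h4 : Real.exp (-1) * Real.exp 1 = 1 := by rw [← Real.exp_add]; norm_num
  have h5 : Real.exp (-1) ≤ 1 / 2 := by
    by_contra hcon
    push Not at hcon
    nlinarith
  nlinarith

theorem cos_half {a : ℝ} (ha : 1 ≤ a) {t : ℝ} (ht : |t| ≤ 1 / 2) :
    7 / 10 ≤ Real.cos (Real.pi / (a + 1) * t) := by
  have hpi := Real.pi_pos
  rw [← Real.cos_abs]
  have h1 : |Real.pi / (a + 1) * t| ≤ Real.pi / 4 := by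
    rw [abs_mul, abs_of_pos (by positivity : (0 : ℝ) < Real.pi / (a + 1))]
    have h2 : Real.pi / (a + 1) ≤ Real.pi / 2 :=
      div_le_div_of_nonneg_left hpi.le (by norm_num) (by linarith)
    calc Real.pi / (a + 1) * |t| ≤ Real.pi / 2 * (1 / 2) :=
          mul_le_mul h2 ht (abs_nonneg _) (by positivity)
      _ = Real.pi / 4 := by ring
  have h3 : Real.cos (Real.pi / 4) ≤ Real.cos |Real.pi / (a + 1) * t| :=
    Real.cos_le_cos_of_nonneg_of_le_pi (abs_nonneg _) (by linarith) h1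
  rw [Real.cos_pi_div_four] at h3
  have h4 : (7 : ℝ) / 10 ≤ Real.sqrt 2 / 2 := by
    have : (7 : ℝ) / 5 ≤ Real.sqrt 2 := Real.le_sqrt_of_sq_le (by norm_num)
    linarith
  linarith

end Pool.Agent.UST
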