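import Mathlib

set_option autoImplicit false

/-!
# UST (MP_2756d0_pr): rectangle crossing for the planar uniform spanning tree. Definitions.

General part: multigraphs `MG V E`, rooted spanning forests (`Bases S W`: all vertices outside `W` are
one root), the uniform measure `pr S W`.  Lattice part: `ℤ²`, its edges, the dual edge map, crossings.
See `UST_BLUEPRINT.md` in the team store.
-/

namespace Pool.Agent.UST

/-- a multigraph (orientations of the edges are irrelevant) -/
structure MG (V E : Type) where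
  src : E → V
  tgt : E → V

namespace MG

variable {V E : Type} (G : MG V E)

/-- `e` touches `v` -/
def Touch (e : E) (v : V) : Prop := G.src e = v ∨ G.tgt e = v

/-- one step along an edge of `T` -/
def Step (T : Finset E) (u v : V) : Prop :=
  ∃ e ∈ T, (G.src e = u ∧ G.tgt e = v) ∨ (G.src e = v ∧ G.tgt e = u)

/-- connected by edges of `T` -/
def Conn (T : Finset E) : V → V → Prop := Relation.ReflTransGen (G.Step T)

/-- connected by a path of `T` all of whose vertices are in `X` (reflexive) -/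
def ConnIn (T : Finset E) (X : Set V) : V → V → Prop :=
  Relation.ReflTransGen (fun u v => G.Step T u v ∧ u ∈ X ∧ v ∈ X)

open Classical in
/-- edge sets `T ⊆ S` with `|W|` edges which connect every vertex of `W` to the complement of `W`:
the spanning trees of the graph in which the complement of `W` is contracted to one vertex -/
noncomputable def Bases (S : Finset E) (W : Finset V) : Finset (Finset E) :=
  S.powerset.filter fun T => T.card = W.card ∧ ∀ w ∈ W, ∃ r, r ∉ W ∧ G.Conn T w r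

open Classical in
/-- number of bases with property `A` -/
noncomputable def cnt (S : Finset E) (W : Finset V) (A : Finset E → Prop) : ℕ :=
  ((G.Bases S W).filter A).card

open Classical in
/-- number of edges of `C` with exactly one end point equal to `v` -/
noncomputable def dg (C : Finset E) (v : V) : ℕ :=
  (C.filter fun e => (G.src e = v ∧ G.tgt e ≠ v) ∨ (G.src e ≠ v ∧ G.tgt e = v)).card

open Classical in
/-- vertices of `W` connected to `Q` inside `W ∪ Q` -/
noncomputable def expl (T : Finset E) (W : Finset V) (Q : Set V) : Finset V :=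
  W.filter fun w => ∃ q ∈ Q, G.ConnIn T ((W : Set V) ∪ Q) w q

open Classical in
/-- edges of `S` touching `W \ F` and touching neither `F` nor `Q` -/
noncomputable def rest (S : Finset E) (W F : Finset V) (Q : Set V) : Finset E :=
  S.filter fun e => (∃ v ∈ W, v ∉ F ∧ G.Touch e v) ∧ ∀ v, G.Touch e v → v ∉ F ∧ v ∉ Q

/-- the uniform measure on the bases -/
noncomputable def pr (S : Finset E) (W : Finset V) (A : Finset E → Prop) : ℝ :=
  (G.cnt S W A : ℝ) / ((G.Bases S W).card : ℝ)

open Classical in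
/-- probability that the tree path of `v` ends at a root in `B` -/
noncomputable def hit (S : Finset E) (W : Finset V) (B : Set V) (v : V) : ℝ :=
  if v ∈ W then G.pr S W (fun T => ∃ r, r ∉ W ∧ r ∈ B ∧ G.Conn T v r) else if v ∈ B then 1 else 0

end MG

/-- increasing event -/
def Inc {E : Type} (A : Finset E → Prop) : Prop := ∀ T T' : Finset E, T ⊆ T' → A T → A T'

/-- the event depends only on the edges in `S` -/
def Loc {E : Type} [DecidableEq E] (S : Finset E) (A : Finset E → Prop) : Prop :=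
  ∀ T : Finset E, A T ↔ A (T ∩ S)

/-! ## The lattice -/

abbrev V2 := ℤ × ℤ
/-- `(x, y, false)`: the edge from `(x,y)` to `(x+1,y)`; `(x, y, true)`: the edge from `(x,y)` to
`(x,y+1)` -/
abbrev E2 := ℤ × ℤ × Bool

/-- the square lattice -/
def L2 : MG V2 E2 where
  src e := (e.1, e.2.1)
  tgt e := if e.2.2 then (e.1, e.2.1 + 1) else (e.1 + 1, e.2.1)

/-- the dual edge; the face `(i,j)` is the square `[i,i+1] × [j,j+1]` -/
def dl (e : E2) : E2 := if e.2.2 then (e.1 - 1, e.2.1, false) else (e.1, e.2.1 - 1, true)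

/-- the box `[x0,x1] × [y0,y1]` of vertices -/
noncomputable def bx (x0 x1 y0 y1 : ℤ) : Finset V2 := Finset.Icc x0 x1 ×ˢ Finset.Icc y0 y1

/-- edges touching `X` -/
def eTouch (X : Finset V2) : Finset E2 :=
  X.biUnion fun v =>
    {(v.1, v.2, false), (v.1, v.2, true), (v.1 - 1, v.2, false), (v.1, v.2 - 1, true)}

/-- edges with both end points in `X` -/
def eIn (X : Finset V2) : Finset E2 := (eTouch X).filter fun e => L2.src e ∈ X ∧ L2.tgt e ∈ X

/-- `T` contains a left-right crossing of `[x0,x1] × [y0,y1]` inside the rectangle -/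
def HCr (T : Finset E2) (x0 x1 y0 y1 : ℤ) : Prop :=
  ∃ u ∈ bx x0 x1 y0 y1, ∃ v ∈ bx x0 x1 y0 y1, u.1 = x0 ∧ v.1 = x1 ∧
    L2.ConnIn T (bx x0 x1 y0 y1 : Set V2) u v

/-- `T` contains a bottom-top crossing of `[x0,x1] × [y0,y1]` inside the rectangle -/
def VCr (T : Finset E2) (x0 x1 y0 y1 : ℤ) : Prop :=
  ∃ u ∈ bx x0 x1 y0 y1, ∃ v ∈ bx x0 x1 y0 y1, u.2 = y0 ∧ v.2 = y1 ∧
    L2.ConnIn T (bx x0 x1 y0 y1 : Set V2) u v

/-- the set `X` is a left-right crossing set: `T`-connected inside itself, with a vertex in the column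
`x0` and a vertex in the column `x1` -/
def CSet (T : Finset E2) (X : Finset V2) (x0 x1 : ℤ) : Prop :=
  (∃ u ∈ X, u.1 = x0) ∧ (∃ v ∈ X, v.1 = x1) ∧ ∀ u ∈ X, ∀ v ∈ X, L2.ConnIn T (X : Set V2) u v

/-- `T` contains `j` vertex disjoint left-right crossings of the rectangle -/
def AJ (T : Finset E2) (x0 x1 y0 y1 : ℤ) (j : ℕ) : Prop :=
  ∃ X : Fin j → Finset V2, (∀ i, X i ⊆ bx x0 x1 y0 y1) ∧ (∀ i i', i ≠ i' → Disjoint (X i) (X i')) ∧
    ∀ i, CSet T (X i) x0 x1

/-- the primal configuration in `X` complementary to the dual configuration `T'` -/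
def cmp (X : Finset V2) (T' : Finset E2) : Finset E2 := (eIn X).filter fun e => dl e ∉ T'

/-- mod 2 boundary of the chain `P` is `u + v` -/
def Bd (P : Finset E2) (u v : V2) : Prop :=
  ∀ w, L2.dg P w % 2 = ((if w = u then 1 else 0) + (if w = v then 1 else 0)) % 2

/-- number of horizontal edges of `P` below the face `f`, in its column -/
def sg (P : Finset E2) (f : V2) : ℕ :=
  (P.filter fun e => e.2.2 = false ∧ e.1 = f.1 ∧ e.2.1 ≤ f.2).card

/-- a left-right crossing chain of the rectangle in `T` -/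
def CrChain (T : Finset E2) (x0 x1 y0 y1 : ℤ) (P : Finset E2) : Prop :=
  P ⊆ T ∧ P ⊆ eIn (bx x0 x1 y0 y1) ∧ ∃ u v : V2, u.1 = x0 ∧ v.1 = x1 ∧ Bd P u v

/-- the vertex `v` is a corner of the face `f` -/
def Near (f v : V2) : Prop := (f.1 = v.1 ∨ f.1 = v.1 - 1) ∧ (f.2 = v.2 ∨ f.2 = v.2 - 1)

/-- the faces in the row `y` and the columns `x0, ..., x1 - 1` -/
def rowQ (x0 x1 y : ℤ) : Set V2 := {v | x0 ≤ v.1 ∧ v.1 ≤ x1 - 1 ∧ v.2 = y}

/-- faces of the rectangle together with the row below it -/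
noncomputable def W2 (x0 x1 y0 y1 : ℤ) : Finset V2 := bx x0 (x1 - 1) (y0 - 1) (y1 - 1)

/-- dual edges touching `W2` and not going below the row `y0 - 1` (the bottom side of the rectangle is
wired for the primal tree, reflecting for the dual tree) -/
noncomputable def S2 (x0 x1 y0 y1 : ℤ) : Finset E2 :=
  (eTouch (W2 x0 x1 y0 y1)).filter fun e => y0 - 1 ≤ e.2.1

/-- the box of radius `k` -/
noncomputable def Bk (k : ℕ) : Finset V2 := bx (-(k : ℤ)) k (-(k : ℤ)) k

/-- the uniform spanning tree of the box of radius `k` (free boundary) -/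
noncomputable def frP (k : ℕ) (A : Finset E2 → Prop) : ℝ :=
  L2.pr (eIn (Bk k)) ((Bk k).erase (-(k : ℤ), -(k : ℤ))) A

/-- the infinite volume measure (limit along the boxes), used for increasing local events -/
noncomputable def Pinf (A : Finset E2 → Prop) : ℝ := Filter.limsup (fun k => frP k A) Filter.atTop

/-- the crossing probability of `[0,a] × [0,b]` -/
noncomputable def C (a b : ℕ) : ℝ := Pinf fun T => HCr T 0 a 0 b

theorem mem_bx {x0 x1 y0 y1 : ℤ} {v : V2} :
    v ∈ bx x0 x1 y0 y1 ↔ x0 ≤ v.1 ∧ v.1 ≤ x1 ∧ y0 ≤ v.2 ∧ v.2 ≤ y1 := by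
  unfold bx
  rw [Finset.mem_product, Finset.mem_Icc, Finset.mem_Icc]
  tauto

theorem L2_src (x y : ℤ) (b : Bool) : L2.src (x, y, b) = (x, y) := rfl
theorem L2_tgt_false (x y : ℤ) : L2.tgt (x, y, false) = (x + 1, y) := rfl
theorem L2_tgt_true (x y : ℤ) : L2.tgt (x, y, true) = (x, y + 1) := rfl
theorem dl_false (x y : ℤ) : dl (x, y, false) = (x, y - 1, true) := rfl
theorem dl_true (x y : ℤ) : dl (x, y, true) = (x - 1, y, false) := rfl

theorem mem_eTouch {X : Finset V2} {e : E2} : e ∈ eTouch X ↔ L2.src e ∈ X ∨ L2.tgt e ∈ X := by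
  obtain ⟨x, y, b⟩ := e
  unfold eTouch
  rw [Finset.mem_biUnion]
  constructor
  · rintro ⟨⟨p, q⟩, hv, he⟩
    simp only [Finset.mem_insert, Finset.mem_singleton, Prod.mk.injEq] at he
    rcases he with ⟨rfl, rfl, rfl⟩ | ⟨rfl, rfl, rfl⟩ | ⟨rfl, rfl, rfl⟩ | ⟨rfl, rfl, rfl⟩
    · left; exact hv
    · left; exact hv
    · right; rw [L2_tgt_false, sub_add_cancel]; exact hv
    · right; rw [L2_tgt_true, sub_add_cancel]; exact hv
  · rintro (h | h)
    · refine ⟨(x, y), h, ?_⟩
      cases b <;> simp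
    · cases b
      · rw [L2_tgt_false] at h
        exact ⟨(x + 1, y), h, by simp⟩
      · rw [L2_tgt_true] at h
        exact ⟨(x, y + 1), h, by simp⟩

theorem mem_eIn {X : Finset V2} {e : E2} : e ∈ eIn X ↔ L2.src e ∈ X ∧ L2.tgt e ∈ X := by
  unfold eIn
  rw [Finset.mem_filter, mem_eTouch]
  tauto

theorem mem_cmp {X : Finset V2} {T' : Finset E2} {e : E2} :
    e ∈ cmp X T' ↔ e ∈ eIn X ∧ dl e ∉ T' := by
  unfold cmp
  rw [Finset.mem_filter]

theorem dl_injective : Function.Injective dl := by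
  rintro ⟨x, y, b⟩ ⟨x', y', b'⟩ h
  cases b <;> cases b' <;> simp [dl] at h ⊢ <;> omega

section
variable {V E : Type} {G : MG V E}

theorem MG.mem_Bases {S T : Finset E} {W : Finset V} :
    T ∈ G.Bases S W ↔ T ⊆ S ∧ T.card = W.card ∧ ∀ w ∈ W, ∃ r, r ∉ W ∧ G.Conn T w r := by
  classical
  unfold MG.Bases
  rw [Finset.mem_filter, Finset.mem_powerset]

theorem MG.Step.mono {T T' : Finset E} (h : T ⊆ T') {u v : V} (hs : G.Step T u v) :
    G.Step T' u v := by
  obtain ⟨e, he, h2⟩ := hs
  exact ⟨e, h he, h2⟩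

theorem MG.Step.symm {T : Finset E} {u v : V} (hs : G.Step T u v) : G.Step T v u := by
  obtain ⟨e, he, h2⟩ := hs
  exact ⟨e, he, h2.symm⟩

theorem MG.Conn.mono {T T' : Finset E} (h : T ⊆ T') {u v : V} (hs : G.Conn T u v) :
    G.Conn T' u v := Relation.ReflTransGen.mono (fun _ _ => MG.Step.mono h) _ _ hs

theorem MG.Conn.symm {T : Finset E} {u v : V} (hs : G.Conn T u v) : G.Conn T v u := by
  have : Std.Symm (G.Step T) := ⟨fun _ _ => MG.Step.symm⟩
  exact Std.Symm.symm (r := Relation.ReflTransGen (G.Step T)) _ _ hs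

theorem MG.Conn.trans {T : Finset E} {u v w : V} (h1 : G.Conn T u v) (h2 : G.Conn T v w) :
    G.Conn T u w := Relation.ReflTransGen.trans h1 h2

theorem MG.ConnIn.conn {T : Finset E} {X : Set V} {u v : V} (hs : G.ConnIn T X u v) :
    G.Conn T u v := Relation.ReflTransGen.mono (fun _ _ h => h.1) _ _ hs

theorem MG.ConnIn.mono {T T' : Finset E} (h : T ⊆ T') {X X' : Set V} (hX : X ⊆ X') {u v : V}
    (hs : G.ConnIn T X u v) : G.ConnIn T' X' u v :=
  Relation.ReflTransGen.mono (fun _ _ h' => ⟨h'.1.mono h, hX h'.2.1, hX h'.2.2⟩) _ _ hs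

theorem MG.ConnIn.symm {T : Finset E} {X : Set V} {u v : V} (hs : G.ConnIn T X u v) :
    G.ConnIn T X v u := by
  have : Std.Symm (fun u v => G.Step T u v ∧ u ∈ X ∧ v ∈ X) :=
    ⟨fun _ _ h => ⟨h.1.symm, h.2.2, h.2.1⟩⟩
  exact Std.Symm.symm (r := Relation.ReflTransGen (fun u v => G.Step T u v ∧ u ∈ X ∧ v ∈ X)) _ _ hs

theorem MG.ConnIn.trans {T : Finset E} {X : Set V} {u v w : V} (h1 : G.ConnIn T X u v)
    (h2 : G.ConnIn T X v w) : G.ConnIn T X u w := Relation.ReflTransGen.trans h1 h2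

theorem MG.cnt_le (S : Finset E) (W : Finset V) (A : Finset E → Prop) :
    G.cnt S W A ≤ (G.Bases S W).card := by
  classical
  unfold MG.cnt
  exact Finset.card_filter_le _ _

theorem MG.pr_nonneg (S : Finset E) (W : Finset V) (A : Finset E → Prop) : 0 ≤ G.pr S W A := by
  unfold MG.pr
  positivity

theorem MG.pr_le_one (S : Finset E) (W : Finset V) (A : Finset E → Prop) : G.pr S W A ≤ 1 := by
  unfold MG.pr
  apply div_le_one_of_le₀ _ (by positivity)
  exact_mod_cast MG.cnt_le S W A

theorem MG.pr_mono_event {S : Finset E} {W : Finset V} {A B : Finset E → Prop}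
    (h : ∀ T ∈ G.Bases S W, A T → B T) : G.pr S W A ≤ G.pr S W B := by
  classical
  unfold MG.pr MG.cnt
  apply div_le_div_of_nonneg_right _ (by positivity)
  norm_cast
  apply Finset.card_le_card
  intro T hT
  rw [Finset.mem_filter] at hT ⊢
  exact ⟨hT.1, h T hT.1 hT.2⟩

theorem MG.pr_congr {S : Finset E} {W : Finset V} {A B : Finset E → Prop}
    (h : ∀ T ∈ G.Bases S W, A T ↔ B T) : G.pr S W A = G.pr S W B :=
  le_antisymm (MG.pr_mono_event fun T hT => (h T hT).1) (MG.pr_mono_event fun T hT => (h T hT).2)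

theorem MG.pr_not {S : Finset E} {W : Finset V} (hne : (G.Bases S W).Nonempty)
    (A : Finset E → Prop) : G.pr S W (fun T => ¬ A T) = 1 - G.pr S W A := by
  classical
  unfold MG.pr MG.cnt
  have h0 : ((G.Bases S W).card : ℝ) ≠ 0 := by
    have := hne.card_pos
    positivity
  have h1 := Finset.card_filter_add_card_filter_not (s := G.Bases S W) A
  rw [eq_sub_iff_add_eq, ← add_div, div_eq_one_iff_eq h0]
  rw [← h1]
  push_cast
  rw [add_comm]
  congr

end

end Pool.Agent.UST
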