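import Mathlib

/-!
Project UST, module CB: the Cauchy and Binet expansion of `det (∑ x_e v_e v_e^T)` and the
inequality `det (M) det (M + a + b) ≤ det (M + a) det (M + b)` for rank one symmetric updates.
-/

namespace UST

open Finset Matrix

variable {α ι : Type*} [DecidableEq α] [Fintype ι] [DecidableEq ι]

/-- the matrix `∑_{e ∈ U} x_e v_e v_e^T` -/
noncomputable def lapM (v : α → ι → ℝ) (U : Finset α) (x : α → ℝ) : Matrix ι ι ℝ :=
  Matrix.of (fun i j => ∑ e ∈ U, x e * v e i * v e j)

/-- the term of the expansion which belongs to the function `r` -/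
noncomputable def cbTerm (v : α → ι → ℝ) (r : ι → α) : ℝ :=
  (∏ i, v (r i) i) * Matrix.det (Matrix.of (fun i => v (r i)))

omit [DecidableEq α] in
lemma cbTerm_eq_zero (v : α → ι → ℝ) (r : ι → α) (hr : ¬ Function.Injective r) :
    cbTerm v r = 0 := by
  unfold cbTerm
  obtain ⟨i, j, hij, hne⟩ : ∃ i j, r i = r j ∧ i ≠ j := by
    unfold Function.Injective at hr
    push Not at hr
    obtain ⟨i, j, h1, h2⟩ := hr
    exact ⟨i, j, h1, h2⟩
  rw [Matrix.det_zero_of_row_eq hne (by funext k; simp [hij]), mul_zero]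

omit [DecidableEq α] in
lemma det_lapM_expand (v : α → ι → ℝ) (U : Finset α) (x : α → ℝ) :
    (lapM v U x).det = ∑ r ∈ Fintype.piFinset (fun _ : ι => U), (∏ i, x (r i)) * cbTerm v r := by
  have h1 : lapM v U x = Matrix.of (fun i => ∑ e ∈ U, (x e * v e i) • v e) := by
    ext i j
    simp [lapM, Finset.sum_apply]
  have h2 : (lapM v U x).det =
      (Matrix.detRowAlternating : (ι → ℝ) [⋀^ι]→ₗ[ℝ] ℝ).toMultilinearMap
        (fun i => ∑ e ∈ U, (x e * v e i) • v e) := by
    rw [h1]; rfl
  rw [h2, MultilinearMap.map_sum_finset]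
  refine Finset.sum_congr rfl (fun r _ => ?_)
  rw [MultilinearMap.map_smul_univ]
  unfold cbTerm
  rw [smul_eq_mul, Finset.prod_mul_distrib, mul_assoc]
  rfl

/-- the Cauchy and Binet expansion -/
theorem det_lapM (v : α → ι → ℝ) (U : Finset α) (x : α → ℝ) :
    (lapM v U x).det =
      ∑ S ∈ U.powersetCard (Fintype.card ι), (∏ e ∈ S, x e) * (lapM v S (fun _ => 1)).det := by
  classical
  rw [det_lapM_expand]
  have hcard : ∀ r : ι → α, Function.Injective r →
      (Finset.univ.image r).card = Fintype.card ι := fun r hr => by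
    rw [Finset.card_image_of_injective _ hr, Finset.card_univ]
  have h1 : ∀ (V : Finset α) (y : α → ℝ),
      ∑ r ∈ Fintype.piFinset (fun _ : ι => V), (∏ i, y (r i)) * cbTerm v r =
      ∑ r ∈ (Fintype.piFinset (fun _ : ι => V)).filter (fun r => Function.Injective r),
        (∏ i, y (r i)) * cbTerm v r := by
    intro V y
    rw [Finset.sum_filter]
    refine Finset.sum_congr rfl (fun r _ => ?_)
    by_cases hr : Function.Injective r
    · rw [if_pos hr]
    · rw [if_neg hr, cbTerm_eq_zero v r hr, mul_zero]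
  rw [h1, ← Finset.sum_fiberwise_of_maps_to (s := (Fintype.piFinset (fun _ : ι => U)).filter
    (fun r => Function.Injective r)) (t := U.powersetCard (Fintype.card ι))
    (g := fun r => Finset.univ.image r)]
  · refine Finset.sum_congr rfl (fun S hS => ?_)
    rw [Finset.mem_powersetCard] at hS
    rw [det_lapM_expand, h1 S (fun _ => 1), Finset.mul_sum]
    have h2 : ((Fintype.piFinset (fun _ : ι => U)).filter
        (fun r => Function.Injective r)).filter (fun r => Finset.univ.image r = S) =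
        (Fintype.piFinset (fun _ : ι => S)).filter (fun r => Function.Injective r) := by
      ext r
      simp only [Finset.mem_filter, Fintype.mem_piFinset]
      constructor
      · rintro ⟨⟨_, hr⟩, h⟩
        refine ⟨fun i => ?_, hr⟩
        rw [← h]; exact Finset.mem_image_of_mem r (Finset.mem_univ i)
      · rintro ⟨h, hr⟩
        refine ⟨⟨fun i => hS.1 (h i), hr⟩, ?_⟩
        refine Finset.eq_of_subset_of_card_le ?_ ?_
        · intro e he
          obtain ⟨i, _, rfl⟩ := Finset.mem_image.1 he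
          exact h i
        · rw [hcard r hr, hS.2]
    rw [h2]
    refine Finset.sum_congr rfl (fun r hr => ?_)
    rw [Finset.mem_filter, Fintype.mem_piFinset] at hr
    have himg : Finset.univ.image r = S := by
      refine Finset.eq_of_subset_of_card_le ?_ ?_
      · intro e he
        obtain ⟨i, _, rfl⟩ := Finset.mem_image.1 he
        exact hr.1 i
      · rw [hcard r hr.2, hS.2]
    have h3 : ∏ i, x (r i) = ∏ e ∈ S, x e := by
      rw [← himg, Finset.prod_image (fun a _ b _ h => hr.2 h)]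
    rw [h3]; simp
  · intro r hr
    rw [Finset.mem_filter, Fintype.mem_piFinset] at hr
    rw [Finset.mem_powersetCard]
    refine ⟨fun e he => ?_, hcard r hr.2⟩
    obtain ⟨i, _, rfl⟩ := Finset.mem_image.1 he
    exact hr.1 i

/-- the inequality for rank one updates of an invertible symmetric matrix -/
lemma det_update_of_isUnit (M : Matrix ι ι ℝ) (hM : M.IsSymm) (hu : IsUnit M.det)
    (a b : ι → ℝ) {p q : ℝ} (hp : 0 ≤ p) (hq : 0 ≤ q) :
    M.det * (M + p • vecMulVec a a + q • vecMulVec b b).det ≤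
      (M + p • vecMulVec a a).det * (M + q • vecMulVec b b).det := by
  have key : ∀ s t : ℝ, (M + s • vecMulVec a a + t • vecMulVec b b).det =
      M.det * ((1 + s * (a ⬝ᵥ M⁻¹ *ᵥ a)) * (1 + t * (b ⬝ᵥ M⁻¹ *ᵥ b)) -
        s * t * (a ⬝ᵥ M⁻¹ *ᵥ b) * (b ⬝ᵥ M⁻¹ *ᵥ a)) := by
    intro s t
    have h1 : M + s • vecMulVec a a + t • vecMulVec b b =
        M + (Matrix.of (fun (i : ι) (k : Fin 2) => (![s * a i, t * b i] : Fin 2 → ℝ) k)) *
          (Matrix.of (fun (k : Fin 2) (i : ι) => (![a i, b i] : Fin 2 → ℝ) k)) := by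
      ext i j
      simp [Matrix.mul_apply, Fin.sum_univ_two, vecMulVec_apply]
      ring
    rw [h1, det_add_mul _ _ hu, Matrix.det_fin_two]
    congr 1
    have h2 : ∀ (k l : Fin 2),
        ((Matrix.of (fun (k : Fin 2) (i : ι) => (![a i, b i] : Fin 2 → ℝ) k)) * M⁻¹ *
        (Matrix.of (fun (i : ι) (k : Fin 2) => (![s * a i, t * b i] : Fin 2 → ℝ) k))) k l =
        (fun i => (![a i, b i] : Fin 2 → ℝ) k) ⬝ᵥ
          M⁻¹ *ᵥ (fun i => (![s * a i, t * b i] : Fin 2 → ℝ) l) := by
      intro k l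
      rw [Matrix.mul_assoc, Matrix.mul_apply]
      rfl
    simp only [Matrix.add_apply, h2, Matrix.one_apply]
    have h3 : M⁻¹ *ᵥ (fun i => s * a i) = s • (M⁻¹ *ᵥ a) := by
      rw [← Matrix.mulVec_smul]; rfl
    have h4 : M⁻¹ *ᵥ (fun i => t * b i) = t • (M⁻¹ *ᵥ b) := by
      rw [← Matrix.mulVec_smul]; rfl
    simp [h3, h4]
    ring
  have hsym : a ⬝ᵥ M⁻¹ *ᵥ b = b ⬝ᵥ M⁻¹ *ᵥ a := by
    have hMi : (M⁻¹)ᵀ = M⁻¹ := by rw [Matrix.transpose_nonsing_inv, hM]
    rw [dotProduct_mulVec, ← Matrix.mulVec_transpose, hMi, dotProduct_comm]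
  have k1 := key p q
  have k2 := key p 0
  have k3 := key 0 q
  simp only [zero_smul, add_zero, zero_mul, mul_zero, sub_zero, mul_one, one_mul] at k2 k3
  rw [k1, k2, k3, hsym]
  nlinarith [mul_nonneg (mul_nonneg hp hq) (sq_nonneg (M.det * (b ⬝ᵥ M⁻¹ *ᵥ a)))]

/-- the inequality for rank one updates of a symmetric matrix -/
theorem det_update (M : Matrix ι ι ℝ) (hM : M.IsSymm)
    (a b : ι → ℝ) {p q : ℝ} (hp : 0 ≤ p) (hq : 0 ≤ q) :
    M.det * (M + p • vecMulVec a a + q • vecMulVec b b).det ≤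
      (M + p • vecMulVec a a).det * (M + q • vecMulVec b b).det := by
  -- perturb `M` by a small multiple of the identity
  have hfin : {s : ℝ | (M + s • (1 : Matrix ι ι ℝ)).det = 0}.Finite := by
    have h1 : {s : ℝ | (M + s • (1 : Matrix ι ι ℝ)).det = 0} ⊆
        (fun s => s) '' (((-M).charpoly.roots.toFinset : Finset ℝ) : Set ℝ) := by
      intro s hs
      refine ⟨s, ?_, rfl⟩
      rw [Finset.mem_coe, Multiset.mem_toFinset, Polynomial.mem_roots (Matrix.charpoly_monic _).ne_zero,
        Polynomial.IsRoot, Matrix.eval_charpoly]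
      have : (scalar ι) s - -M = M + s • (1 : Matrix ι ι ℝ) := by
        rw [sub_neg_eq_add, add_comm, Matrix.smul_one_eq_diagonal]; rfl
      rw [this]; exact hs
    exact (Set.Finite.image _ (Finset.finite_toSet _)).subset h1
  have hcont : ∀ N : Matrix ι ι ℝ, Continuous (fun s : ℝ => (M + s • (1 : Matrix ι ι ℝ) + N).det) := by
    intro N
    refine Continuous.matrix_det ?_
    fun_prop
  set φ : ℝ → ℝ := fun s =>
    (M + s • (1 : Matrix ι ι ℝ) + p • vecMulVec a a).det *
      (M + s • (1 : Matrix ι ι ℝ) + q • vecMulVec b b).det -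
    (M + s • (1 : Matrix ι ι ℝ) + 0).det *
      (M + s • (1 : Matrix ι ι ℝ) + (p • vecMulVec a a + q • vecMulVec b b)).det with hφ
  have hφc : Continuous φ := by
    exact ((hcont _).mul (hcont _)).sub ((hcont _).mul (hcont _))
  have hdense : Dense ({s : ℝ | (M + s • (1 : Matrix ι ι ℝ)).det = 0}ᶜ : Set ℝ) :=
    Set.Countable.dense_compl ℝ hfin.countable
  have hnn : ∀ s : ℝ, 0 ≤ φ s := by
    have hcl : IsClosed {s : ℝ | 0 ≤ φ s} := isClosed_le continuous_const hφc
    have hsub : ({s : ℝ | (M + s • (1 : Matrix ι ι ℝ)).det = 0}ᶜ : Set ℝ) ⊆ {s : ℝ | 0 ≤ φ s} := by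
      intro s hs
      have hu : IsUnit (M + s • (1 : Matrix ι ι ℝ)).det := isUnit_iff_ne_zero.2 hs
      have hsymm : (M + s • (1 : Matrix ι ι ℝ)).IsSymm := by
        unfold Matrix.IsSymm
        rw [Matrix.transpose_add, Matrix.transpose_smul, Matrix.transpose_one, hM]
      have := det_update_of_isUnit _ hsymm hu a b hp hq
      rw [Set.mem_ofPred_eq, hφ]
      simp only [add_zero]
      rw [← add_assoc]
      linarith
    intro s
    have : s ∈ closure ({s : ℝ | (M + s • (1 : Matrix ι ι ℝ)).det = 0}ᶜ : Set ℝ) := hdense s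
    exact (closure_minimal hsub hcl) this
  have h0 := hnn 0
  rw [hφ] at h0
  simp only [zero_smul, add_zero] at h0
  rw [← add_assoc] at h0
  linarith

end UST
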