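import Mathlib

/-!
Project UST, module NA: negative association of homogeneous Rayleigh families
(Feder and Mihail), in finite sum form.  A state is a finite family `F` of finite sets with
nonnegative weights `w`; conditioning on an element is filtering the family.
-/

namespace UST

open Finset

variable {α : Type*} [DecidableEq α]

/-- the sum of `w S * g S` over the family `F` -/
noncomputable def ex (F : Finset (Finset α)) (w g : Finset α → ℝ) : ℝ := ∑ S ∈ F, w S * g S

/-- the total weight of the family `F` -/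
noncomputable def tot (F : Finset (Finset α)) (w : Finset α → ℝ) : ℝ := ∑ S ∈ F, w S

/-- the subfamily of the sets which contain `e` -/
def con (F : Finset (Finset α)) (e : α) : Finset (Finset α) := F.filter (fun S => e ∈ S)

/-- the subfamily of the sets which do not contain `e` -/
def del (F : Finset (Finset α)) (e : α) : Finset (Finset α) := F.filter (fun S => e ∉ S)

/-- the weights `w` tilted by the product of the numbers `x` -/
noncomputable def tilt (w : Finset α → ℝ) (x : α → ℝ) : Finset α → ℝ :=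
  fun S => w S * ∏ i ∈ S, x i

/-- the Rayleigh property (pairwise negative correlation for all positive tilts) -/
structure Ray (F : Finset (Finset α)) (w : Finset α → ℝ) : Prop where
  nonneg : ∀ S ∈ F, 0 ≤ w S
  ray : ∀ x : α → ℝ, (∀ i, 0 < x i) → ∀ e f : α, e ≠ f →
    tot (con (con F e) f) (tilt w x) * tot (del (del F e) f) (tilt w x) ≤
      tot (del (con F e) f) (tilt w x) * tot (con (del F e) f) (tilt w x)

lemma mem_con {F : Finset (Finset α)} {e : α} {S : Finset α} :
    S ∈ con F e ↔ S ∈ F ∧ e ∈ S := by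
  simp [con]

lemma mem_del {F : Finset (Finset α)} {e : α} {S : Finset α} :
    S ∈ del F e ↔ S ∈ F ∧ e ∉ S := by
  simp [del]

lemma tot_split (F : Finset (Finset α)) (w : Finset α → ℝ) (e : α) :
    tot F w = tot (con F e) w + tot (del F e) w := by
  unfold tot con del
  exact (Finset.sum_filter_add_sum_filter_not F (fun S => e ∈ S) w).symm

lemma ex_split (F : Finset (Finset α)) (w g : Finset α → ℝ) (e : α) :
    ex F w g = ex (con F e) w g + ex (del F e) w g := by
  unfold ex con del
  exact (Finset.sum_filter_add_sum_filter_not F (fun S => e ∈ S) (fun S => w S * g S)).symm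

omit [DecidableEq α] in
lemma ex_one (F : Finset (Finset α)) (w : Finset α → ℝ) :
    ex F w (fun _ => 1) = tot F w := by
  simp [ex, tot]

lemma con_con (F : Finset (Finset α)) (e f : α) : con (con F e) f = con (con F f) e := by
  ext S; simp only [mem_con]; tauto

lemma con_del (F : Finset (Finset α)) (e f : α) : con (del F e) f = del (con F f) e := by
  ext S; simp only [mem_con, mem_del]; tauto

lemma del_del (F : Finset (Finset α)) (e f : α) : del (del F e) f = del (del F f) e := by
  ext S; simp only [mem_del]; tauto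

omit [DecidableEq α] in
lemma tot_nonneg {F : Finset (Finset α)} {w : Finset α → ℝ} (h : ∀ S ∈ F, 0 ≤ w S) :
    0 ≤ tot F w := Finset.sum_nonneg h

omit [DecidableEq α] in
lemma eq_zero_of_tot {F : Finset (Finset α)} {w : Finset α → ℝ} (h : ∀ S ∈ F, 0 ≤ w S)
    (h0 : tot F w = 0) : ∀ S ∈ F, w S = 0 :=
  (Finset.sum_eq_zero_iff_of_nonneg h).1 h0

omit [DecidableEq α] in
lemma ex_eq_zero {F : Finset (Finset α)} {w g : Finset α → ℝ} (h : ∀ S ∈ F, 0 ≤ w S)
    (h0 : tot F w = 0) : ex F w g = 0 :=
  Finset.sum_eq_zero (fun S hS => by rw [eq_zero_of_tot h h0 S hS, zero_mul])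

omit [DecidableEq α] in
lemma tilt_one (w : Finset α → ℝ) : tilt w (fun _ => 1) = w := by
  funext S; simp [tilt]

/-- the tilt which multiplies the number of one element -/
lemma tilt_update (w : Finset α → ℝ) (x : α → ℝ) (e : α) (t : ℝ) (S : Finset α) :
    tilt w (Function.update x e (t * x e)) S = (if e ∈ S then t else 1) * tilt w x S := by
  unfold tilt
  by_cases h : e ∈ S
  · rw [if_pos h, ← Finset.mul_prod_erase S x h,
      ← Finset.mul_prod_erase S (Function.update x e (t * x e)) h, Function.update_self]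
    have : ∏ i ∈ S.erase e, Function.update x e (t * x e) i = ∏ i ∈ S.erase e, x i :=
      Finset.prod_congr rfl (fun i hi => by
        rw [Function.update_of_ne (Finset.ne_of_mem_erase hi)])
    rw [this]; ring
  · rw [if_neg h, one_mul]
    have : ∏ i ∈ S, Function.update x e (t * x e) i = ∏ i ∈ S, x i :=
      Finset.prod_congr rfl (fun i hi => by
        have hne : i ≠ e := fun h' => h (by rw [← h']; exact hi)
        rw [Function.update_of_ne hne])
    rw [this]

lemma tot_tilt_update (F : Finset (Finset α)) (w : Finset α → ℝ) (x : α → ℝ) (e : α) (t : ℝ) :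
    tot F (tilt w (Function.update x e (t * x e))) =
      t * tot (con F e) (tilt w x) + tot (del F e) (tilt w x) := by
  rw [tot_split F _ e]
  unfold tot
  rw [Finset.mul_sum]
  congr 1
  · exact Finset.sum_congr rfl (fun S hS => by
      rw [tilt_update, if_pos (mem_con.1 hS).2])
  · exact Finset.sum_congr rfl (fun S hS => by
      rw [tilt_update, if_neg (mem_del.1 hS).2, one_mul])

/-- comparison of the constant terms of two quadratic inequalities -/
lemma quad_zero {A B C : ℝ} (h : ∀ s : ℝ, 0 < s → 0 ≤ A + B * s + C * s ^ 2) : 0 ≤ A := by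
  have hc : Filter.Tendsto (fun s : ℝ => A + B * s + C * s ^ 2)
      (nhdsWithin 0 (Set.Ioi 0)) (nhds (A + B * 0 + C * 0 ^ 2)) := by
    have : Continuous (fun s : ℝ => A + B * s + C * s ^ 2) := by fun_prop
    exact (this.tendsto 0).mono_left nhdsWithin_le_nhds
  have := ge_of_tendsto hc (Filter.eventually_of_mem self_mem_nhdsWithin
    (fun s hs => h s hs))
  simpa using this

lemma quad_lo {P1 P0 Q1 Q0 R1 R0 S1 S0 : ℝ}
    (h : ∀ t : ℝ, 0 < t → (t * P1 + P0) * (t * Q1 + Q0) ≤ (t * R1 + R0) * (t * S1 + S0)) :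
    P0 * Q0 ≤ R0 * S0 := by
  have := quad_zero (A := R0 * S0 - P0 * Q0) (B := R1 * S0 + R0 * S1 - (P1 * Q0 + P0 * Q1))
    (C := R1 * S1 - P1 * Q1) (fun s hs => by nlinarith [h s hs])
  linarith

lemma quad_hi {P1 P0 Q1 Q0 R1 R0 S1 S0 : ℝ}
    (h : ∀ t : ℝ, 0 < t → (t * P1 + P0) * (t * Q1 + Q0) ≤ (t * R1 + R0) * (t * S1 + S0)) :
    P1 * Q1 ≤ R1 * S1 := by
  refine quad_lo (P1 := P0) (Q1 := Q0) (R1 := R0) (S1 := S0) (fun s hs => ?_)
  have h1 := h s⁻¹ (inv_pos.2 hs)
  have h2 : (s * P0 + P1) * (s * Q0 + Q1) = s ^ 2 * ((s⁻¹ * P1 + P0) * (s⁻¹ * Q1 + Q0)) := by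
    field_simp; ring
  have h3 : (s * R0 + R1) * (s * S0 + S1) = s ^ 2 * ((s⁻¹ * R1 + R0) * (s⁻¹ * S1 + S0)) := by
    field_simp; ring
  rw [h2, h3]
  exact mul_le_mul_of_nonneg_left h1 (sq_nonneg s)

theorem Ray.con {F : Finset (Finset α)} {w : Finset α → ℝ} (h : Ray F w) (g : α) :
    Ray (con F g) w := by
  refine ⟨fun S hS => h.nonneg S (mem_con.1 hS).1, fun x hx e f hef => ?_⟩
  have hN : ∀ G : Finset (Finset α), G ⊆ F → 0 ≤ tot G (tilt w x) := fun G hG =>
    tot_nonneg (fun S hS => mul_nonneg (h.nonneg S (hG hS))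
      (Finset.prod_nonneg (fun i _ => (hx i).le)))
  by_cases hge : g = e
  · subst hge
    have h0 : del (UST.con F g) g = ∅ := by
      ext S; simp only [mem_con, mem_del]; simp
    rw [h0]
    have h1 : tot (del (∅ : Finset (Finset α)) f) (tilt w x) = 0 := by simp [del, tot]
    rw [h1, mul_zero]
    refine mul_nonneg (hN _ ?_) (hN _ ?_)
    · intro S hS; exact (mem_con.1 (mem_con.1 (mem_del.1 hS).1).1).1
    · intro S hS; simp [UST.con] at hS
  by_cases hgf : g = f
  · subst hgf
    have h0 : del (del (UST.con F g) e) g = ∅ := by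
      ext S; simp only [mem_con, mem_del]; simp; tauto
    rw [h0]
    have h1 : tot (∅ : Finset (Finset α)) (tilt w x) = 0 := by simp [tot]
    rw [h1, mul_zero]
    refine mul_nonneg (hN _ ?_) (hN _ ?_)
    · intro S hS; exact (mem_con.1 (mem_con.1 (mem_del.1 hS).1).1).1
    · intro S hS; exact (mem_con.1 (mem_del.1 (mem_con.1 hS).1).1).1
  have key := quad_hi (P1 := tot (UST.con (UST.con (UST.con F e) f) g) (tilt w x))
    (P0 := tot (del (UST.con (UST.con F e) f) g) (tilt w x))
    (Q1 := tot (UST.con (del (del F e) f) g) (tilt w x))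
    (Q0 := tot (del (del (del F e) f) g) (tilt w x))
    (R1 := tot (UST.con (del (UST.con F e) f) g) (tilt w x))
    (R0 := tot (del (del (UST.con F e) f) g) (tilt w x))
    (S1 := tot (UST.con (UST.con (del F e) f) g) (tilt w x))
    (S0 := tot (del (UST.con (del F e) f) g) (tilt w x))
    (fun t ht => by
      have := h.ray (Function.update x g (t * x g)) (fun i => by
        by_cases hi : i = g
        · subst hi; rw [Function.update_self]; exact mul_pos ht (hx _)
        · rw [Function.update_of_ne hi]; exact hx i) e f hef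
      simpa only [tot_tilt_update] using this)
  have e1 : UST.con (UST.con (UST.con F e) f) g = UST.con (UST.con (UST.con F g) e) f := by
    ext S; simp only [mem_con]; tauto
  have e2 : UST.con (del (del F e) f) g = del (del (UST.con F g) e) f := by
    ext S; simp only [mem_con, mem_del]; tauto
  have e3 : UST.con (del (UST.con F e) f) g = del (UST.con (UST.con F g) e) f := by
    ext S; simp only [mem_con, mem_del]; tauto
  have e4 : UST.con (UST.con (del F e) f) g = UST.con (del (UST.con F g) e) f := by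
    ext S; simp only [mem_con, mem_del]; tauto
  rw [e1, e2, e3, e4] at key
  exact key

theorem Ray.del {F : Finset (Finset α)} {w : Finset α → ℝ} (h : Ray F w) (g : α) :
    Ray (del F g) w := by
  refine ⟨fun S hS => h.nonneg S (mem_del.1 hS).1, fun x hx e f hef => ?_⟩
  have hN : ∀ G : Finset (Finset α), G ⊆ F → 0 ≤ tot G (tilt w x) := fun G hG =>
    tot_nonneg (fun S hS => mul_nonneg (h.nonneg S (hG hS))
      (Finset.prod_nonneg (fun i _ => (hx i).le)))
  by_cases hge : g = e
  · subst hge
    have h0 : UST.con (UST.del F g) g = ∅ := by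
      ext S; simp only [mem_con, mem_del]; simp
    rw [h0]
    have h1 : tot (UST.con (∅ : Finset (Finset α)) f) (tilt w x) = 0 := by simp [UST.con, tot]
    rw [h1, zero_mul]
    refine mul_nonneg (hN _ ?_) (hN _ ?_)
    · intro S hS; simp [UST.del] at hS
    · intro S hS; exact (mem_del.1 (mem_del.1 (mem_con.1 hS).1).1).1
  by_cases hgf : g = f
  · subst hgf
    have h0 : UST.con (UST.con (UST.del F g) e) g = ∅ := by
      ext S; simp only [mem_con, mem_del]; simp; tauto
    rw [h0]
    have h1 : tot (∅ : Finset (Finset α)) (tilt w x) = 0 := by simp [tot]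
    rw [h1, zero_mul]
    refine mul_nonneg (hN _ ?_) (hN _ ?_)
    · intro S hS; exact (mem_del.1 (mem_con.1 (mem_del.1 hS).1).1).1
    · intro S hS; exact (mem_del.1 (mem_del.1 (mem_con.1 hS).1).1).1
  have key := quad_lo (P1 := tot (UST.con (UST.con (UST.con F e) f) g) (tilt w x))
    (P0 := tot (UST.del (UST.con (UST.con F e) f) g) (tilt w x))
    (Q1 := tot (UST.con (UST.del (UST.del F e) f) g) (tilt w x))
    (Q0 := tot (UST.del (UST.del (UST.del F e) f) g) (tilt w x))
    (R1 := tot (UST.con (UST.del (UST.con F e) f) g) (tilt w x))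
    (R0 := tot (UST.del (UST.del (UST.con F e) f) g) (tilt w x))
    (S1 := tot (UST.con (UST.con (UST.del F e) f) g) (tilt w x))
    (S0 := tot (UST.del (UST.con (UST.del F e) f) g) (tilt w x))
    (fun t ht => by
      have := h.ray (Function.update x g (t * x g)) (fun i => by
        by_cases hi : i = g
        · subst hi; rw [Function.update_self]; exact mul_pos ht (hx _)
        · rw [Function.update_of_ne hi]; exact hx i) e f hef
      simpa only [tot_tilt_update] using this)
  have e1 : UST.del (UST.con (UST.con F e) f) g = UST.con (UST.con (UST.del F g) e) f := by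
    ext S; simp only [mem_con, mem_del]; tauto
  have e2 : UST.del (UST.del (UST.del F e) f) g = UST.del (UST.del (UST.del F g) e) f := by
    ext S; simp only [mem_del]; tauto
  have e3 : UST.del (UST.del (UST.con F e) f) g = UST.del (UST.con (UST.del F g) e) f := by
    ext S; simp only [mem_con, mem_del]; tauto
  have e4 : UST.del (UST.con (UST.del F e) f) g = UST.con (UST.del (UST.del F g) e) f := by
    ext S; simp only [mem_con, mem_del]; tauto
  rw [e1, e2, e3, e4] at key
  exact key

/-- double counting of the pairs (set, element of `U`) -/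
lemma sum_ex_con (F : Finset (Finset α)) (w g : Finset α → ℝ) (U : Finset α) (k : ℕ)
    (hk : ∀ S ∈ F, w S ≠ 0 → (S ∩ U).card = k) :
    ∑ f ∈ U, ex (con F f) w g = k * ex F w g := by
  unfold ex con
  simp_rw [Finset.sum_filter]
  rw [Finset.sum_comm, Finset.mul_sum]
  refine Finset.sum_congr rfl (fun S hS => ?_)
  rw [← Finset.sum_filter, Finset.sum_const, nsmul_eq_mul]
  by_cases h0 : w S = 0
  · rw [h0]; ring
  · have h1 : (U.filter (fun f => f ∈ S)) = S ∩ U := by
      ext i; simp only [Finset.mem_filter, Finset.mem_inter]; tauto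
    rw [h1, hk S hS h0]

/-- there is an element which is positively correlated with `g` among the undetermined ones -/
lemma exists_pos {F : Finset (Finset α)} {w g : Finset α → ℝ} (hw : ∀ S ∈ F, 0 ≤ w S)
    (U : Finset α) (k : ℕ) (hk : ∀ S ∈ F, w S ≠ 0 → (S ∩ U).card = k)
    (hne : ∃ f ∈ U, 0 < tot (con F f) w ∧ 0 < tot (del F f) w) :
    ∃ f ∈ U, 0 < tot (con F f) w ∧ 0 < tot (del F f) w ∧
      ex F w g * tot (con F f) w ≤ ex (con F f) w g * tot F w := by
  classical
  set V : Finset α := U.filter (fun f => 0 < tot (con F f) w ∧ 0 < tot (del F f) w) with hV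
  have h1 : ∑ f ∈ U, (ex (con F f) w g * tot F w - ex F w g * tot (con F f) w) = 0 := by
    rw [Finset.sum_sub_distrib, ← Finset.sum_mul, ← Finset.mul_sum, sum_ex_con F w g U k hk]
    have h2 := sum_ex_con F w (fun _ => 1) U k hk
    simp only [ex_one] at h2
    rw [h2]; ring
  have h2 : ∑ f ∈ V, (ex (con F f) w g * tot F w - ex F w g * tot (con F f) w) = 0 := by
    rw [← h1]
    refine Finset.sum_subset (Finset.filter_subset _ _) (fun f hf hfV => ?_)
    have hc : ∀ S ∈ con F f, 0 ≤ w S := fun S hS => hw S (mem_con.1 hS).1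
    have hd : ∀ S ∈ del F f, 0 ≤ w S := fun S hS => hw S (mem_del.1 hS).1
    by_cases hp : 0 < tot (con F f) w
    · have hq : tot (del F f) w = 0 := by
        refine le_antisymm (not_lt.1 (fun hq => hfV ?_)) (tot_nonneg hd)
        rw [hV, Finset.mem_filter]; exact ⟨hf, hp, hq⟩
      rw [tot_split F w f, ex_split F w g f, hq, ex_eq_zero hd hq]; ring
    · have hp0 : tot (con F f) w = 0 := le_antisymm (not_lt.1 hp) (tot_nonneg hc)
      rw [hp0, ex_eq_zero hc hp0]; ring
  have hVne : V.Nonempty := by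
    obtain ⟨f, hf, hfp⟩ := hne
    exact ⟨f, by rw [hV, Finset.mem_filter]; exact ⟨hf, hfp⟩⟩
  obtain ⟨f, hfV, hf⟩ : ∃ f ∈ V, 0 ≤ ex (con F f) w g * tot F w - ex F w g * tot (con F f) w := by
    by_contra hcon
    push Not at hcon
    have := Finset.sum_lt_sum_of_nonempty hVne hcon
    rw [h2, Finset.sum_const_zero] at this
    exact lt_irrefl _ this
  rw [hV, Finset.mem_filter] at hfV
  exact ⟨f, hfV.1, hfV.2.1, hfV.2.2, by linarith⟩

lemma fm_algebra {p11 p10 p01 p00 g11 g10 g01 g00 : ℝ} (h11 : 0 < p11) (h10 : 0 < p10)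
    (_h01 : 0 ≤ p01) (_h00 : 0 ≤ p00) (i1 : g11 * p01 ≤ g01 * p11) (i2 : g10 * p00 ≤ g00 * p10)
    (hs : g10 * p11 ≤ g11 * p10) (hr : p11 * p00 ≤ p10 * p01) :
    (g11 + g10) * (p01 + p00) ≤ (g01 + g00) * (p11 + p10) := by
  obtain ⟨a, ha⟩ : ∃ a, g11 = a * p11 := ⟨g11 / p11, by field_simp⟩
  obtain ⟨b, hb⟩ : ∃ b, g10 = b * p10 := ⟨g10 / p10, by field_simp⟩
  subst ha; subst hb
  have j1 : a * p01 ≤ g01 := by
    have : (a * p01) * p11 ≤ g01 * p11 := by linarith [i1]
    exact le_of_mul_le_mul_right this h11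
  have j2 : b * p00 ≤ g00 := by
    have : (b * p00) * p10 ≤ g00 * p10 := by linarith [i2]
    exact le_of_mul_le_mul_right this h10
  have j3 : b ≤ a := by
    have : b * (p10 * p11) ≤ a * (p10 * p11) := by linarith [hs]
    exact le_of_mul_le_mul_right this (mul_pos h10 h11)
  have j4 : (a * p01 + b * p00) * (p11 + p10) ≤ (g01 + g00) * (p11 + p10) :=
    mul_le_mul_of_nonneg_right (by linarith) (by linarith)
  refine le_trans ?_ j4
  nlinarith [mul_nonneg (sub_nonneg.2 j3) (sub_nonneg.2 hr)]

/-- the case of `fm_one` in which everything is determined once `e` is present -/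
lemma fm_det {F : Finset (Finset α)} {w g : Finset α → ℝ} {e : α} {U I : Finset α}
    (hR : Ray F w) (hI : ∀ S ∈ F, w S ≠ 0 → S.erase e \ U = I)
    (hg : ∀ S T : Finset α, S ⊆ T → g S ≤ g T) (hge : ∀ S : Finset α, g (insert e S) = g S)
    (heU : e ∉ U)
    (hno : ¬ ∃ f ∈ U, 0 < tot (con (con F e) f) w ∧ 0 < tot (del (con F e) f) w)
    (hpos : 0 < tot (con F e) w) :
    ex (con F e) w g * tot (del F e) w ≤ ex (del F e) w g * tot (con F e) w := by
  have hcn : ∀ S ∈ con F e, 0 ≤ w S := fun S hS => hR.nonneg S (mem_con.1 hS).1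
  have hdn : ∀ S ∈ del F e, 0 ≤ w S := fun S hS => hR.nonneg S (mem_del.1 hS).1
  obtain ⟨S1, hS1, hw1⟩ : ∃ S ∈ con F e, 0 < w S := by
    by_contra hcon
    push Not at hcon
    exact absurd hpos (not_lt.2 (Finset.sum_nonpos hcon))
  have hS1' := mem_con.1 hS1
  -- presence of f in a set of positive weight makes the total positive
  have hposc : ∀ f, f ∈ S1 → 0 < tot (con (con F e) f) w := fun f hf =>
    lt_of_lt_of_le hw1 (Finset.single_le_sum (f := w)
      (fun S hS => hcn S (mem_con.1 hS).1) (mem_con.2 ⟨hS1, hf⟩))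
  have hposd : ∀ f, f ∉ S1 → 0 < tot (del (con F e) f) w := fun f hf =>
    lt_of_lt_of_le hw1 (Finset.single_le_sum (f := w)
      (fun S hS => hcn S (mem_del.1 hS).1) (mem_del.2 ⟨hS1, hf⟩))
  -- all the sets of positive weight which contain `e` are equal to `S1`
  have huniq : ∀ S ∈ con F e, w S ≠ 0 → S = S1 := by
    intro S hS hwS
    have hS' := mem_con.1 hS
    have h1 := hI S hS'.1 hwS
    have h2 := hI S1 hS1'.1 hw1.ne'
    ext f
    by_cases hfe : f = e
    · subst hfe; exact ⟨fun _ => hS1'.2, fun _ => hS'.2⟩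
    by_cases hfU : f ∈ U
    · by_cases hf1 : f ∈ S1
      · have hd0 : ¬ 0 < tot (del (con F e) f) w := fun h => hno ⟨f, hfU, hposc f hf1, h⟩
        refine ⟨fun _ => hf1, fun _ => ?_⟩
        by_contra hfS
        exact hd0 (lt_of_lt_of_le (lt_of_le_of_ne (hcn S hS) (Ne.symm hwS))
          (Finset.single_le_sum (f := w)
          (fun S hS => hcn S (mem_del.1 hS).1) (mem_del.2 ⟨hS, hfS⟩)))
      · have hc0 : ¬ 0 < tot (con (con F e) f) w := fun h => hno ⟨f, hfU, h, hposd f hf1⟩
        refine ⟨fun hfS => ?_, fun h => absurd h hf1⟩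
        exact absurd (lt_of_lt_of_le (lt_of_le_of_ne (hcn S hS) (Ne.symm hwS))
          (Finset.single_le_sum (f := w)
          (fun S hS => hcn S (mem_con.1 hS).1) (mem_con.2 ⟨hS, hfS⟩))) hc0
    · have h3 : f ∈ S.erase e \ U ↔ f ∈ S1.erase e \ U := by rw [h1, h2]
      simpa [hfe, hfU] using h3
  have hec : ex (con F e) w g = g S1 * tot (con F e) w := by
    unfold ex tot
    rw [Finset.mul_sum]
    refine Finset.sum_congr rfl (fun S hS => ?_)
    by_cases hwS : w S = 0
    · rw [hwS]; ring
    · rw [huniq S hS hwS]; ring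
  have hed : g S1 * tot (del F e) w ≤ ex (del F e) w g := by
    unfold ex tot
    rw [Finset.mul_sum]
    refine Finset.sum_le_sum (fun S hS => ?_)
    by_cases hwS : w S = 0
    · rw [hwS]; simp
    · rw [mul_comm]
      refine mul_le_mul_of_nonneg_left ?_ (hdn S hS)
      have hS' := mem_del.1 hS
      have hsub : S1.erase e ⊆ S := by
        intro f hf
        have hfe := Finset.ne_of_mem_erase hf
        have hf1 := Finset.mem_of_mem_erase hf
        by_cases hfU : f ∈ U
        · by_contra hfS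
          have hd0 : tot (del (con F e) f) w = 0 :=
            le_antisymm (not_lt.1 (fun h => hno ⟨f, hfU, hposc f hf1, h⟩))
              (tot_nonneg (fun S hS => hcn S (mem_del.1 hS).1))
          have hr := hR.ray (fun _ => 1) (fun _ => one_pos) e f (Ne.symm hfe)
          rw [tilt_one, hd0, zero_mul] at hr
          have hpd : 0 < tot (del (del F e) f) w :=
            lt_of_lt_of_le (lt_of_le_of_ne (hdn S hS) (Ne.symm hwS))
              (Finset.single_le_sum (f := w)
              (fun S hS => hdn S (mem_del.1 hS).1) (mem_del.2 ⟨hS, hfS⟩))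
          exact absurd (mul_pos (hposc f hf1) hpd) (not_lt.2 hr)
        · have h1 := hI S hS'.1 hwS
          have h2 := hI S1 hS1'.1 hw1.ne'
          have h3 : f ∈ S.erase e \ U := by
            rw [h1, ← h2, Finset.mem_sdiff]; exact ⟨hf, hfU⟩
          exact Finset.mem_of_mem_erase (Finset.mem_sdiff.1 h3).1
      calc g S1 = g (insert e (S1.erase e)) := by rw [Finset.insert_erase hS1'.2]
        _ = g (S1.erase e) := hge _
        _ ≤ g S := hg _ _ hsub
  rw [hec]
  nlinarith [mul_le_mul_of_nonneg_right hed hpos.le]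

/-- one element: an increasing function which ignores `e` is negatively correlated with `e`
(Feder and Mihail) -/
theorem fm_one (n : ℕ) : ∀ (U : Finset α), U.card ≤ n → ∀ (F : Finset (Finset α))
    (w g : Finset α → ℝ) (e : α) (I : Finset α) (k : ℕ), Ray F w → e ∉ U →
    (∀ S ∈ F, w S ≠ 0 → S.erase e \ U = I) → (∀ S ∈ F, w S ≠ 0 → S.card = k) →
    (∀ S T : Finset α, S ⊆ T → g S ≤ g T) → (∀ S : Finset α, g (insert e S) = g S) →
    ex (con F e) w g * tot (del F e) w ≤ ex (del F e) w g * tot (con F e) w := by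
  induction n with
  | zero =>
    intro U hU F w g e I k hR heU hI hk hg hge
    have hcn : ∀ S ∈ con F e, 0 ≤ w S := fun S hS => hR.nonneg S (mem_con.1 hS).1
    by_cases hpos : 0 < tot (con F e) w
    · refine fm_det hR hI hg hge heU ?_ hpos
      rintro ⟨f, hf, -⟩
      rw [Finset.card_eq_zero.1 (Nat.le_zero.1 hU)] at hf
      exact absurd hf (Finset.notMem_empty f)
    · have h0 : tot (con F e) w = 0 := le_antisymm (not_lt.1 hpos) (tot_nonneg hcn)
      rw [ex_eq_zero hcn h0, h0]; simp
  | succ n ih =>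
    intro U hU F w g e I k hR heU hI hk hg hge
    have hcn : ∀ S ∈ con F e, 0 ≤ w S := fun S hS => hR.nonneg S (mem_con.1 hS).1
    have hdn : ∀ S ∈ del F e, 0 ≤ w S := fun S hS => hR.nonneg S (mem_del.1 hS).1
    by_cases hpos : 0 < tot (con F e) w
    swap
    · have h0 : tot (con F e) w = 0 := le_antisymm (not_lt.1 hpos) (tot_nonneg hcn)
      rw [ex_eq_zero hcn h0, h0]; simp
    by_cases hno : ∃ f ∈ U, 0 < tot (con (con F e) f) w ∧ 0 < tot (del (con F e) f) w
    swap
    · exact fm_det hR hI hg hge heU hno hpos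
    obtain ⟨f, hfU, hp11, hp10, hsel⟩ := exists_pos (g := g) hcn U (k - 1 - I.card)
      (fun S hS hwS => by
        have hS' := mem_con.1 hS
        have h1 : S ∩ U = S.erase e ∩ U := by
          ext i; simp only [Finset.mem_inter, Finset.mem_erase]
          refine ⟨fun h => ⟨⟨fun h' => heU (by rw [← h']; exact h.2), h.1⟩, h.2⟩, fun h => ⟨h.1.2, h.2⟩⟩
        have h2 := Finset.card_inter_add_card_sdiff (S.erase e) U
        rw [hI S hS'.1 hwS, Finset.card_erase_of_mem hS'.2, hk S hS'.1 hwS] at h2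
        rw [h1]; omega) hno
    have hef : e ≠ f := fun h => heU (by rw [h]; exact hfU)
    have hcard : (U.erase f).card ≤ n := by
      rw [Finset.card_erase_of_mem hfU]; omega
    have heU' : e ∉ U.erase f := fun h => heU (Finset.mem_of_mem_erase h)
    have i1 := ih (U.erase f) hcard (con F f) w g e (insert f I) k (hR.con f) heU'
      (fun S hS hwS => by
        have hS' := mem_con.1 hS
        rw [← hI S hS'.1 hwS]
        ext i; simp only [Finset.mem_sdiff, Finset.mem_erase, Finset.mem_insert]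
        constructor
        · rintro ⟨⟨h1, h2⟩, h3⟩
          by_cases hif : i = f
          · exact Or.inl hif
          · exact Or.inr ⟨⟨h1, h2⟩, fun h => h3 ⟨hif, h⟩⟩
        · rintro (h | ⟨⟨h1, h2⟩, h3⟩)
          · subst h; exact ⟨⟨Ne.symm hef, hS'.2⟩, fun h => h.1 rfl⟩
          · exact ⟨⟨h1, h2⟩, fun h => h3 h.2⟩)
      (fun S hS hwS => hk S (mem_con.1 hS).1 hwS) hg hge
    have i2 := ih (U.erase f) hcard (del F f) w g e I k (hR.del f) heU'
      (fun S hS hwS => by
        have hS' := mem_del.1 hS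
        rw [← hI S hS'.1 hwS]
        ext i; simp only [Finset.mem_sdiff, Finset.mem_erase]
        constructor
        · rintro ⟨⟨h1, h2⟩, h3⟩
          refine ⟨⟨h1, h2⟩, fun h => h3 ⟨fun hif => ?_, h⟩⟩
          rw [hif] at h2; exact hS'.2 h2
        · rintro ⟨⟨h1, h2⟩, h3⟩
          exact ⟨⟨h1, h2⟩, fun h => h3 h.2⟩)
      (fun S hS hwS => hk S (mem_del.1 hS).1 hwS) hg hge
    have hr := hR.ray (fun _ => 1) (fun _ => one_pos) e f hef
    rw [tilt_one] at hr
    rw [con_con F f e, ← con_del F e f] at i1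
    rw [con_del F f e, del_del F f e] at i2
    rw [ex_split (con F e) w g f, tot_split (con F e) w f] at hsel
    rw [ex_split (con F e) w g f, tot_split (del F e) w f, ex_split (del F e) w g f,
      tot_split (con F e) w f]
    refine fm_algebra hp11 hp10 (tot_nonneg (fun S hS => hdn S (mem_con.1 hS).1))
      (tot_nonneg (fun S hS => hdn S (mem_del.1 hS).1)) i1 i2 ?_ hr
    nlinarith [hsel]

/-- one element, final form: in a homogeneous Rayleigh family an increasing function which
ignores `e` is negatively correlated with the presence of `e` -/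
theorem fm1 {F : Finset (Finset α)} {w g : Finset α → ℝ} {e : α} {k : ℕ} (hR : Ray F w)
    (hk : ∀ S ∈ F, w S ≠ 0 → S.card = k) (hg : ∀ S T : Finset α, S ⊆ T → g S ≤ g T)
    (hge : ∀ S : Finset α, g (insert e S) = g S) :
    ex (con F e) w g * tot (del F e) w ≤ ex (del F e) w g * tot (con F e) w := by
  refine fm_one _ ((F.biUnion id).erase e) le_rfl F w g e ∅ k hR (Finset.notMem_erase e _)
    (fun S hS _ => ?_) hk hg hge
  ext i
  simp only [Finset.mem_sdiff, Finset.mem_erase, Finset.mem_biUnion, id, Finset.notMem_empty,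
    iff_false]
  rintro ⟨⟨h1, h2⟩, h3⟩
  exact h3 ⟨h1, S, hS, h2⟩

lemma fm2_algebra {p1 p0 g1 g0 h1 h0 u1 u0 : ℝ} (hp1 : 0 < p1) (hp0 : 0 < p0)
    (i1 : u1 * p1 ≤ g1 * h1) (i0 : u0 * p0 ≤ g0 * h0)
    (hs : 0 ≤ (g1 * p0 - g0 * p1) * (h0 * p1 - h1 * p0)) :
    (u1 + u0) * (p1 + p0) ≤ (g1 + g0) * (h1 + h0) := by
  obtain ⟨a, ha⟩ : ∃ a, g1 = a * p1 := ⟨g1 / p1, by field_simp⟩
  obtain ⟨b, hb⟩ : ∃ b, g0 = b * p0 := ⟨g0 / p0, by field_simp⟩
  obtain ⟨c, hc⟩ : ∃ c, h1 = c * p1 := ⟨h1 / p1, by field_simp⟩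
  obtain ⟨d, hd⟩ : ∃ d, h0 = d * p0 := ⟨h0 / p0, by field_simp⟩
  subst ha; subst hb; subst hc; subst hd
  have j1 : u1 ≤ a * c * p1 := by
    have : u1 * p1 ≤ (a * c * p1) * p1 := by linarith [i1]
    exact le_of_mul_le_mul_right this hp1
  have j0 : u0 ≤ b * d * p0 := by
    have : u0 * p0 ≤ (b * d * p0) * p0 := by linarith [i0]
    exact le_of_mul_le_mul_right this hp0
  have j2 : 0 ≤ (a - b) * (d - c) := by
    have h2 : (a * p1 * p0 - b * p0 * p1) * (d * p0 * p1 - c * p1 * p0) =
        ((a - b) * (d - c)) * (p1 * p0) ^ 2 := by ring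
    rw [h2] at hs
    exact nonneg_of_mul_nonneg_left hs (by positivity)
  have j3 : (u1 + u0) * (p1 + p0) ≤ (a * c * p1 + b * d * p0) * (p1 + p0) :=
    mul_le_mul_of_nonneg_right (by linarith) (by linarith)
  refine le_trans j3 ?_
  nlinarith [mul_nonneg j2 (mul_pos hp1 hp0).le]

/-- the case of `fm_two` in which everything is determined -/
lemma fm_two_det {F : Finset (Finset α)} {w g h : Finset α → ℝ} {U I : Finset α}
    (hw : ∀ S ∈ F, 0 ≤ w S) (hI : ∀ S ∈ F, w S ≠ 0 → S \ U = I)
    (hno : ¬ ∃ f ∈ U, 0 < tot (con F f) w ∧ 0 < tot (del F f) w)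
    (hpos : 0 < tot F w) :
    ex F w (fun S => g S * h S) * tot F w ≤ ex F w g * ex F w h := by
  obtain ⟨S1, hS1, hw1⟩ : ∃ S ∈ F, 0 < w S := by
    by_contra hcon
    push Not at hcon
    exact absurd hpos (not_lt.2 (Finset.sum_nonpos hcon))
  have hposc : ∀ S ∈ F, w S ≠ 0 → ∀ f, f ∈ S → 0 < tot (con F f) w := fun S hS hwS f hf =>
    lt_of_lt_of_le (lt_of_le_of_ne (hw S hS) (Ne.symm hwS)) (Finset.single_le_sum (f := w)
      (fun S hS => hw S (mem_con.1 hS).1) (mem_con.2 ⟨hS, hf⟩))
  have hposd : ∀ S ∈ F, w S ≠ 0 → ∀ f, f ∉ S → 0 < tot (del F f) w := fun S hS hwS f hf =>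
    lt_of_lt_of_le (lt_of_le_of_ne (hw S hS) (Ne.symm hwS)) (Finset.single_le_sum (f := w)
      (fun S hS => hw S (mem_del.1 hS).1) (mem_del.2 ⟨hS, hf⟩))
  have huniq : ∀ S ∈ F, w S ≠ 0 → S = S1 := by
    intro S hS hwS
    have h1 := hI S hS hwS
    have h2 := hI S1 hS1 hw1.ne'
    ext f
    by_cases hfU : f ∈ U
    · by_cases hf1 : f ∈ S1
      · refine ⟨fun _ => hf1, fun _ => ?_⟩
        by_contra hfS
        exact hno ⟨f, hfU, hposc S1 hS1 hw1.ne' f hf1, hposd S hS hwS f hfS⟩
      · refine ⟨fun hfS => ?_, fun h => absurd h hf1⟩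
        exact absurd ⟨f, hfU, hposc S hS hwS f hfS, hposd S1 hS1 hw1.ne' f hf1⟩ hno
    · have h3 : f ∈ S \ U ↔ f ∈ S1 \ U := by rw [h1, h2]
      simpa [hfU] using h3
  have hval : ∀ u : Finset α → ℝ, ex F w u = u S1 * tot F w := by
    intro u
    unfold ex tot
    rw [Finset.mul_sum]
    refine Finset.sum_congr rfl (fun S hS => ?_)
    by_cases hwS : w S = 0
    · rw [hwS]; ring
    · rw [huniq S hS hwS]; ring
  rw [hval, hval, hval]
  apply le_of_eq; ring

/-- negative association, by induction on the number of undetermined elements -/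
theorem fm_two (n : ℕ) : ∀ (U : Finset α), U.card ≤ n → ∀ (F : Finset (Finset α))
    (w g h : Finset α → ℝ) (I : Finset α) (k : ℕ), Ray F w →
    (∀ S ∈ F, w S ≠ 0 → S \ U = I) → (∀ S ∈ F, w S ≠ 0 → S.card = k) →
    (∀ S T : Finset α, S ⊆ T → g S ≤ g T) → (∀ S T : Finset α, S ⊆ T → h S ≤ h T) →
    (∀ f : α, (∀ S : Finset α, g (insert f S) = g S) ∨ (∀ S : Finset α, h (insert f S) = h S)) →
    ex F w (fun S => g S * h S) * tot F w ≤ ex F w g * ex F w h := by
  induction n with
  | zero =>
    intro U hU F w g h I k hR hI hk hg hh hgh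
    by_cases hpos : 0 < tot F w
    · refine fm_two_det hR.nonneg hI ?_ hpos
      rintro ⟨f, hf, -⟩
      rw [Finset.card_eq_zero.1 (Nat.le_zero.1 hU)] at hf
      exact absurd hf (Finset.notMem_empty f)
    · have h0 : tot F w = 0 := le_antisymm (not_lt.1 hpos) (tot_nonneg hR.nonneg)
      rw [ex_eq_zero hR.nonneg h0, ex_eq_zero hR.nonneg h0]; simp
  | succ n ih =>
    intro U hU F w g h I k hR hI hk hg hh hgh
    by_cases hpos : 0 < tot F w
    swap
    · have h0 : tot F w = 0 := le_antisymm (not_lt.1 hpos) (tot_nonneg hR.nonneg)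
      rw [ex_eq_zero hR.nonneg h0, ex_eq_zero hR.nonneg h0]; simp
    by_cases hno : ∃ f ∈ U, 0 < tot (con F f) w ∧ 0 < tot (del F f) w
    swap
    · exact fm_two_det hR.nonneg hI hno hpos
    obtain ⟨f, hfU, hp1, hp0, hsel⟩ := exists_pos (g := g) hR.nonneg U (k - I.card)
      (fun S hS hwS => by
        have h2 := Finset.card_inter_add_card_sdiff S U
        rw [hI S hS hwS, hk S hS hwS] at h2
        omega) hno
    have hcard : (U.erase f).card ≤ n := by
      rw [Finset.card_erase_of_mem hfU]; omega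
    have i1 := ih (U.erase f) hcard (con F f) w g h (insert f I) k (hR.con f)
      (fun S hS hwS => by
        have hS' := mem_con.1 hS
        rw [← hI S hS'.1 hwS]
        ext i; simp only [Finset.mem_sdiff, Finset.mem_erase, Finset.mem_insert]
        constructor
        · rintro ⟨h2, h3⟩
          by_cases hif : i = f
          · exact Or.inl hif
          · exact Or.inr ⟨h2, fun h => h3 ⟨hif, h⟩⟩
        · rintro (h | ⟨h2, h3⟩)
          · subst h; exact ⟨hS'.2, fun h => h.1 rfl⟩
          · exact ⟨h2, fun h => h3 h.2⟩)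
      (fun S hS hwS => hk S (mem_con.1 hS).1 hwS) hg hh hgh
    have i2 := ih (U.erase f) hcard (del F f) w g h I k (hR.del f)
      (fun S hS hwS => by
        have hS' := mem_del.1 hS
        rw [← hI S hS'.1 hwS]
        ext i; simp only [Finset.mem_sdiff, Finset.mem_erase]
        constructor
        · rintro ⟨h2, h3⟩
          refine ⟨h2, fun h => h3 ⟨fun hif => ?_, h⟩⟩
          rw [hif] at h2; exact hS'.2 h2
        · rintro ⟨h2, h3⟩
          exact ⟨h2, fun h => h3 h.2⟩)
      (fun S hS hwS => hk S (mem_del.1 hS).1 hwS) hg hh hgh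
    rw [ex_split F w g f, tot_split F w f] at hsel
    have hsel' : ex (del F f) w g * tot (con F f) w ≤ ex (con F f) w g * tot (del F f) w := by
      nlinarith [hsel]
    rw [ex_split F w _ f, tot_split F w f, ex_split F w g f, ex_split F w h f]
    refine fm2_algebra hp1 hp0 i1 i2 ?_
    rcases hgh f with hgf | hhf
    · have := fm1 hR hk hg hgf
      have heq : ex (con F f) w g * tot (del F f) w - ex (del F f) w g * tot (con F f) w = 0 := by
        linarith
      rw [heq, zero_mul]
    · have := fm1 hR hk hh hhf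
      exact mul_nonneg (by linarith) (by linarith)

/-- negative association, final form: two increasing functions such that every element is ignored
by one of them -/
theorem fm2 {F : Finset (Finset α)} {w g h : Finset α → ℝ} {k : ℕ} (hR : Ray F w)
    (hk : ∀ S ∈ F, w S ≠ 0 → S.card = k) (hg : ∀ S T : Finset α, S ⊆ T → g S ≤ g T)
    (hh : ∀ S T : Finset α, S ⊆ T → h S ≤ h T)
    (hgh : ∀ f : α, (∀ S : Finset α, g (insert f S) = g S) ∨
      (∀ S : Finset α, h (insert f S) = h S)) :
    ex F w (fun S => g S * h S) * tot F w ≤ ex F w g * ex F w h := by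
  refine fm_two _ (F.biUnion id) le_rfl F w g h ∅ k hR (fun S hS _ => ?_) hk hg hh hgh
  ext i
  simp only [Finset.mem_sdiff, Finset.mem_biUnion, id, Finset.notMem_empty, iff_false]
  rintro ⟨h2, h3⟩
  exact h3 ⟨S, hS, h2⟩

end UST
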