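import Mathlib
import Pool.Agent.UST.NA
import Pool.Agent.UST.CB

/-!
Project UST, module TR: the spanning trees of a finite multigraph form a homogeneous Rayleigh
family.
-/

namespace UST

open Finset Matrix

variable {α V : Type*}

/-- two vertices are joined by the edges of `S` (edge `e` has the ends `src e`, `tgt e`) -/
def Joined (src tgt : α → V) (S : Finset α) : V → V → Prop :=
  Relation.EqvGen (fun a b => ∃ e ∈ S, src e = a ∧ tgt e = b)

lemma Joined.refl (src tgt : α → V) (S : Finset α) (u : V) : Joined src tgt S u u :=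
  Relation.EqvGen.refl u

lemma Joined.symm {src tgt : α → V} {S : Finset α} {u v : V} (h : Joined src tgt S u v) :
    Joined src tgt S v u := Relation.EqvGen.symm _ _ h

lemma Joined.trans {src tgt : α → V} {S : Finset α} {u v w : V} (h : Joined src tgt S u v)
    (h' : Joined src tgt S v w) : Joined src tgt S u w := Relation.EqvGen.trans _ _ _ h h'

lemma Joined.edge {src tgt : α → V} {S : Finset α} {e : α} (he : e ∈ S) :
    Joined src tgt S (src e) (tgt e) := Relation.EqvGen.rel _ _ ⟨e, he, rfl, rfl⟩

lemma Joined.mono {src tgt : α → V} {S T : Finset α} (hST : S ⊆ T) {u v : V}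
    (h : Joined src tgt S u v) : Joined src tgt T u v := by
  induction h with
  | rel a b hab => obtain ⟨e, he, rfl, rfl⟩ := hab; exact Joined.edge (hST he)
  | refl a => exact Joined.refl _ _ _ _
  | symm a b _ ih => exact ih.symm
  | trans a b c _ _ ih1 ih2 => exact ih1.trans ih2

/-- the vertex `v` is joined by `T` to the outside of `W` (to the root) -/
def Rooted (src tgt : α → V) (T : Finset α) (W : Finset V) (v : V) : Prop :=
  ∃ r, r ∉ W ∧ Joined src tgt T v r

open Classical in
/-- the spanning trees with edges in `S` of the vertex set `W` plus one root, the root being the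
whole complement of `W` -/
noncomputable def trees (src tgt : α → V) (S : Finset α) (W : Finset V) : Finset (Finset α) :=
  (S.powersetCard W.card).filter (fun T => ∀ v ∈ W, Rooted src tgt T W v)

lemma mem_trees {src tgt : α → V} {S : Finset α} {W : Finset V} {T : Finset α} :
    T ∈ trees src tgt S W ↔ T ⊆ S ∧ T.card = W.card ∧ ∀ v ∈ W, Rooted src tgt T W v := by
  classical
  unfold trees
  rw [Finset.mem_filter, Finset.mem_powersetCard, and_assoc]

section inc

variable [DecidableEq V]

/-- the integer incidence vector of an edge, coordinates in `W` -/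
def incZ (src tgt : α → V) (W : Finset V) (e : α) : {v : V // v ∈ W} → ℤ :=
  fun i => (if tgt e = i.1 then 1 else 0) - (if src e = i.1 then 1 else 0)

/-- the real incidence vector of an edge, coordinates in `W` -/
noncomputable def inc (src tgt : α → V) (W : Finset V) (e : α) : {v : V // v ∈ W} → ℝ :=
  fun i => ((incZ src tgt W e i : ℤ) : ℝ)

/-- the integer chain of a connection -/
lemma exists_comb {src tgt : α → V} {S : Finset α} (W : Finset V) {u w : V}
    (h : Joined src tgt S u w) :
    ∃ c : α → ℤ, ∀ i : {v : V // v ∈ W}, ∑ e ∈ S, c e * incZ src tgt W e i =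
      (if w = i.1 then 1 else 0) - (if u = i.1 then 1 else 0) := by
  classical
  induction h with
  | rel a b hab =>
    obtain ⟨e, he, rfl, rfl⟩ := hab
    refine ⟨fun f => if f = e then 1 else 0, fun i => ?_⟩
    simp only [ite_mul, one_mul, zero_mul]
    rw [Finset.sum_ite_eq' S e (fun f => incZ src tgt W f i), if_pos he]
    rfl
  | refl a => exact ⟨fun _ => 0, fun i => by simp⟩
  | symm a b _ ih =>
    obtain ⟨c, hc⟩ := ih
    refine ⟨fun e => - c e, fun i => ?_⟩
    simp only [neg_mul, Finset.sum_neg_distrib, hc i]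
    ring
  | trans a b d _ _ ih1 ih2 =>
    obtain ⟨c, hc⟩ := ih1
    obtain ⟨c', hc'⟩ := ih2
    refine ⟨fun e => c e + c' e, fun i => ?_⟩
    simp only [add_mul, Finset.sum_add_distrib, hc i, hc' i]
    ring

omit [DecidableEq V] in
/-- a function which is constant on the joined vertices -/
lemma const_of_joined {src tgt : α → V} {S : Finset α} {β : Type*} (f : V → β)
    (hf : ∀ e ∈ S, f (src e) = f (tgt e)) {u w : V} (h : Joined src tgt S u w) : f u = f w := by
  induction h with
  | rel a b hab => obtain ⟨e, he, rfl, rfl⟩ := hab; exact hf e he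
  | refl a => rfl
  | symm a b _ ih => exact ih.symm
  | trans a b c _ _ ih1 ih2 => exact ih1.trans ih2

/-- the determinant of a set of edges which does not join everything to the root vanishes -/
lemma det_eq_zero_of_not_rooted {src tgt : α → V} {S : Finset α} {W : Finset V}
    (h : ¬ ∀ v ∈ W, Rooted src tgt S W v) :
    (lapM (inc src tgt W) S (fun _ => 1)).det = 0 := by
  classical
  obtain ⟨u, huW, hu⟩ : ∃ u, u ∈ W ∧ ¬ Rooted src tgt S W u := by
    by_contra hcon
    push Not at hcon
    exact h hcon
  refine Matrix.exists_mulVec_eq_zero_iff.1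
    ⟨fun i => if Rooted src tgt S W i.1 then 0 else 1, ?_, ?_⟩
  · intro h0
    have := congrFun h0 ⟨u, huW⟩
    simp [hu] at this
  · -- the vector is orthogonal to every incidence vector
    set y : V → ℝ := fun v => if Rooted src tgt S W v then 0 else 1 with hy
    have hy0 : ∀ v, v ∉ W → y v = 0 := by
      intro v hv
      rw [hy]; simp only
      rw [if_pos ⟨v, hv, Joined.refl _ _ _ _⟩]
    have horth : ∀ e ∈ S, ∑ i : {v : V // v ∈ W}, inc src tgt W e i * y i.1 = 0 := by
      intro e he
      have h1 : ∀ z : V, ∑ i : {v : V // v ∈ W}, (if z = i.1 then (1 : ℝ) else 0) * y i.1 = y z := by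
        intro z
        by_cases hz : z ∈ W
        · rw [Finset.sum_eq_single (⟨z, hz⟩ : {v : V // v ∈ W})]
          · simp
          · intro i _ hi
            have : z ≠ i.1 := fun h' => hi (Subtype.ext h'.symm)
            rw [if_neg this, zero_mul]
          · intro h'; exact absurd (Finset.mem_univ _) h'
        · rw [hy0 z hz]
          refine Finset.sum_eq_zero (fun i _ => ?_)
          rw [if_neg (fun h' => hz (by rw [h']; exact i.2)), zero_mul]
      have h2 : ∑ i : {v : V // v ∈ W}, inc src tgt W e i * y i.1 = y (tgt e) - y (src e) := by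
        rw [← h1 (tgt e), ← h1 (src e), ← Finset.sum_sub_distrib]
        refine Finset.sum_congr rfl (fun i _ => ?_)
        unfold inc incZ
        push_cast
        ring
      rw [h2]
      have h3 : y (src e) = y (tgt e) := by
        rw [hy]
        have : Rooted src tgt S W (src e) ↔ Rooted src tgt S W (tgt e) :=
          ⟨fun ⟨r, hr, h⟩ => ⟨r, hr, (Joined.edge he).symm.trans h⟩,
            fun ⟨r, hr, h⟩ => ⟨r, hr, (Joined.edge he).trans h⟩⟩
        simp [this]
      rw [h3, sub_self]
    funext i
    rw [Matrix.mulVec, dotProduct]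
    simp only [lapM, Matrix.of_apply, one_mul, Pi.zero_apply]
    have h4 : ∑ j : {v : V // v ∈ W}, (∑ e ∈ S, inc src tgt W e i * inc src tgt W e j) * y j.1 =
        ∑ e ∈ S, inc src tgt W e i * ∑ j : {v : V // v ∈ W}, inc src tgt W e j * y j.1 := by
      simp only [Finset.sum_mul, Finset.mul_sum]
      rw [Finset.sum_comm]
      refine Finset.sum_congr rfl (fun e _ => Finset.sum_congr rfl (fun j _ => by ring))
    refine Eq.trans h4 (Finset.sum_eq_zero (fun e he => ?_))
    rw [horth e he, mul_zero]

/-- the determinant of a spanning tree is one -/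
lemma det_eq_one_of_rooted {src tgt : α → V} {S : Finset α} {W : Finset V}
    (hcard : S.card = W.card) (h : ∀ v ∈ W, Rooted src tgt S W v) :
    (lapM (inc src tgt W) S (fun _ => 1)).det = 1 := by
  classical
  obtain ⟨φ⟩ : Nonempty ({v : V // v ∈ W} ≃ S) := by
    refine ⟨Fintype.equivOfCardEq ?_⟩
    rw [Fintype.card_coe, Fintype.card_coe, hcard]
  set B : Matrix {v : V // v ∈ W} {v : V // v ∈ W} ℤ :=
    Matrix.of (fun i j => incZ src tgt W (φ j).1 i) with hB
  have hcomb : ∀ w : {v : V // v ∈ W}, ∃ c : α → ℤ, ∀ i : {v : V // v ∈ W},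
      ∑ e ∈ S, c e * incZ src tgt W e i = (if w.1 = i.1 then 1 else 0) := by
    intro w
    obtain ⟨r, hr, hj⟩ := h w.1 w.2
    obtain ⟨c, hc⟩ := exists_comb W hj.symm
    refine ⟨c, fun i => ?_⟩
    rw [hc i, if_neg (fun h' : r = i.1 => hr (by rw [h']; exact i.2)), sub_zero]
  choose c hc using hcomb
  set P : Matrix {v : V // v ∈ W} {v : V // v ∈ W} ℤ :=
    Matrix.of (fun j k => c k (φ j).1) with hP
  have hBP : B * P = 1 := by
    ext i k
    rw [Matrix.mul_apply, Matrix.one_apply]
    simp only [hB, hP, Matrix.of_apply]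
    have h1 := hc k i
    have h2 : ∑ j : {v : V // v ∈ W}, incZ src tgt W (φ j).1 i * c k (φ j).1 =
        ∑ e ∈ S, c k e * incZ src tgt W e i := by
      rw [← Finset.sum_coe_sort S (fun e => c k e * incZ src tgt W e i)]
      rw [← Equiv.sum_comp φ]
      exact Finset.sum_congr rfl (fun j _ => mul_comm _ _)
    rw [h2, h1]
    by_cases hik : i = k
    · subst hik; simp
    · rw [if_neg hik, if_neg (fun h' => hik (Subtype.ext h'.symm))]
  have hdet : B.det * P.det = 1 := by rw [← Matrix.det_mul, hBP, Matrix.det_one]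
  have hsq : B.det * B.det = 1 := by
    rcases Int.isUnit_iff.1 (IsUnit.of_mul_eq_one _ hdet) with h1 | h1 <;> rw [h1] <;> norm_num
  have hlap : lapM (inc src tgt W) S (fun _ => 1) = (B * Bᵀ).map (Int.cast : ℤ → ℝ) := by
    ext i k
    simp only [lapM, Matrix.of_apply, Matrix.map_apply, Matrix.mul_apply, Matrix.transpose_apply,
      hB, one_mul]
    rw [← Finset.sum_coe_sort S (fun e => inc src tgt W e i * inc src tgt W e k),
      ← Equiv.sum_comp φ]
    push_cast
    rfl
  rw [hlap]
  have h3 : ((B * Bᵀ).map (Int.cast : ℤ → ℝ)).det = ((B * Bᵀ).det : ℝ) :=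
    (Int.cast_det (B * Bᵀ)).symm
  rw [h3, Matrix.det_mul, Matrix.det_transpose, hsq]
  norm_num

/-- the weighted matrix tree theorem -/
theorem det_lap_trees [DecidableEq α] (src tgt : α → V) (W : Finset V) (S : Finset α)
    (x : α → ℝ) :
    (lapM (inc src tgt W) S x).det = tot (trees src tgt S W) (tilt (fun _ => 1) x) := by
  classical
  rw [det_lapM, Fintype.card_coe]
  unfold tot tilt trees
  rw [Finset.sum_filter]
  refine Finset.sum_congr rfl (fun T hT => ?_)
  rw [Finset.mem_powersetCard] at hT
  by_cases h : ∀ v ∈ W, Rooted src tgt T W v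
  · rw [if_pos h, det_eq_one_of_rooted hT.2 h]; ring
  · rw [if_neg h, det_eq_zero_of_not_rooted h, mul_zero]

lemma lapM_insert [DecidableEq α] (src tgt : α → V) (W : Finset V) (U : Finset α) (x : α → ℝ)
    (e : α) (he : e ∉ U) : lapM (inc src tgt W) (insert e U) x =
      lapM (inc src tgt W) U x + x e • vecMulVec (inc src tgt W e) (inc src tgt W e) := by
  ext i j
  simp only [lapM, Matrix.of_apply, Matrix.add_apply, Matrix.smul_apply, vecMulVec_apply,
    smul_eq_mul, Finset.sum_insert he]
  ring

end inc

variable [DecidableEq α]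

lemma del_trees (src tgt : α → V) (U : Finset α) (W : Finset V) (e : α) :
    del (trees src tgt U W) e = trees src tgt (U.erase e) W := by
  ext S
  rw [mem_del, mem_trees, mem_trees]
  constructor
  · rintro ⟨⟨h1, h2, h3⟩, h4⟩
    exact ⟨fun i hi => Finset.mem_erase.2 ⟨fun h => h4 (by rw [← h]; exact hi), h1 hi⟩, h2, h3⟩
  · rintro ⟨h1, h2, h3⟩
    exact ⟨⟨fun i hi => Finset.mem_of_mem_erase (h1 hi), h2, h3⟩,
      fun h => Finset.notMem_erase e U (h1 h)⟩

/-- the spanning trees form a Rayleigh family -/
theorem ray_trees (src tgt : α → V) (U : Finset α) (W : Finset V) :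
    Ray (trees src tgt U W) (fun _ => 1) := by
  classical
  refine ⟨fun S _ => zero_le_one, fun x hx e f hef => ?_⟩
  have hN : ∀ G : Finset (Finset α), 0 ≤ tot G (tilt (fun _ => 1) x) := fun G =>
    tot_nonneg (fun S _ => mul_nonneg zero_le_one (Finset.prod_nonneg (fun i _ => (hx i).le)))
  by_cases he : e ∈ U
  swap
  · have h0 : con (con (trees src tgt U W) e) f = ∅ := by
      ext S; simp only [mem_con, mem_trees, Finset.notMem_empty, iff_false]
      rintro ⟨⟨⟨h1, _⟩, h2⟩, _⟩; exact he (h1 h2)
    rw [h0]
    have : tot (∅ : Finset (Finset α)) (tilt (fun _ => 1) x) = 0 := by simp [tot]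
    rw [this, zero_mul]
    exact mul_nonneg (hN _) (hN _)
  by_cases hf : f ∈ U
  swap
  · have h0 : con (con (trees src tgt U W) e) f = ∅ := by
      ext S; simp only [mem_con, mem_trees, Finset.notMem_empty, iff_false]
      rintro ⟨⟨⟨h1, _⟩, _⟩, h2⟩; exact hf (h1 h2)
    rw [h0]
    have : tot (∅ : Finset (Finset α)) (tilt (fun _ => 1) x) = 0 := by simp [tot]
    rw [this, zero_mul]
    exact mul_nonneg (hN _) (hN _)
  set U0 : Finset α := (U.erase e).erase f with hU0
  have he0 : e ∉ U0 := by simp [hU0]
  have hf0 : f ∉ U0 := by simp [hU0]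
  have hfe0 : f ∉ insert e U0 := by
    rw [Finset.mem_insert]; rintro (h | h)
    · exact hef h.symm
    · exact hf0 h
  have hUe : insert e U0 = U.erase f := by
    rw [hU0, Finset.erase_right_comm, Finset.insert_erase]
    exact Finset.mem_erase.2 ⟨hef, he⟩
  have hUf : insert f U0 = U.erase e := by
    rw [hU0, Finset.insert_erase]
    exact Finset.mem_erase.2 ⟨hef.symm, hf⟩
  have hsymm : (lapM (inc src tgt W) U0 x).IsSymm := by
    ext i j
    simp only [lapM, Matrix.transpose_apply, Matrix.of_apply]
    exact Finset.sum_congr rfl (fun e _ => by ring)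
  have key := det_update (lapM (inc src tgt W) U0 x) hsymm (inc src tgt W e) (inc src tgt W f)
    (hx e).le (hx f).le
  rw [← lapM_insert src tgt W U0 x e he0, ← lapM_insert src tgt W U0 x f hf0,
    ← lapM_insert src tgt W (insert e U0) x f hfe0, hUe, hUf] at key
  have hU' : insert f (U.erase f) = U := Finset.insert_erase hf
  rw [hU', det_lap_trees, det_lap_trees, det_lap_trees, det_lap_trees, hU0, ← del_trees,
    ← del_trees, ← del_trees] at key
  have s1 := tot_split (trees src tgt U W) (tilt (fun _ => 1) x) e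
  have s2 := tot_split (con (trees src tgt U W) e) (tilt (fun _ => 1) x) f
  have s3 := tot_split (del (trees src tgt U W) e) (tilt (fun _ => 1) x) f
  have s4 := tot_split (del (trees src tgt U W) f) (tilt (fun _ => 1) x) e
  rw [con_del (trees src tgt U W) f e, del_del (trees src tgt U W) f e] at s4
  rw [s4, s1, s2, s3] at key
  nlinarith [key]

/-- one edge: for `e ∈ S` and an increasing function `g` which ignores `e`, counting form:
`#(e ∈ T, g) * #trees ≤ #(g) * #(e ∈ T)` -/
theorem trees_fm (src tgt : α → V) (S : Finset α) (W : Finset V) (e : α) (g : Finset α → ℝ)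
    (hg : ∀ A B : Finset α, A ⊆ B → g A ≤ g B) (hge : ∀ A : Finset α, g (insert e A) = g A) :
    (∑ T ∈ con (trees src tgt S W) e, g T) * ((trees src tgt S W).card : ℝ) ≤
      (∑ T ∈ trees src tgt S W, g T) * ((con (trees src tgt S W) e).card : ℝ) := by
  have h := fm1 (w := fun _ => 1) (g := g) (e := e) (ray_trees src tgt S W)
    (k := W.card) (fun T hT _ => (mem_trees.1 hT).2.1) hg hge
  have e1 : ∀ F : Finset (Finset α), tot F (fun _ => (1 : ℝ)) = (F.card : ℝ) := fun F => by
    simp [tot]
  have e2 : ∀ F : Finset (Finset α), ex F (fun _ => (1 : ℝ)) g = ∑ T ∈ F, g T := fun F => by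
    simp [ex]
  have s1 := tot_split (trees src tgt S W) (fun _ => (1 : ℝ)) e
  have s2 := ex_split (trees src tgt S W) (fun _ => (1 : ℝ)) g e
  simp only [e1, e2] at h s1 s2
  rw [s1, s2]
  nlinarith [h]

/-- negative association of the spanning trees, counting form -/
theorem trees_na (src tgt : α → V) (S : Finset α) (W : Finset V) (g h : Finset α → ℝ)
    (hg : ∀ A B : Finset α, A ⊆ B → g A ≤ g B) (hh : ∀ A B : Finset α, A ⊆ B → h A ≤ h B)
    (hgh : ∀ e : α, (∀ A : Finset α, g (insert e A) = g A) ∨
      (∀ A : Finset α, h (insert e A) = h A)) :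
    (∑ T ∈ trees src tgt S W, g T * h T) * ((trees src tgt S W).card : ℝ) ≤
      (∑ T ∈ trees src tgt S W, g T) * (∑ T ∈ trees src tgt S W, h T) := by
  have h1 := fm2 (w := fun _ => 1) (g := g) (h := h) (ray_trees src tgt S W)
    (k := W.card) (fun T hT _ => (mem_trees.1 hT).2.1) hg hh hgh
  have e1 : ∀ F : Finset (Finset α), tot F (fun _ => (1 : ℝ)) = (F.card : ℝ) := fun F => by
    simp [tot]
  have e2 : ∀ (F : Finset (Finset α)) (g : Finset α → ℝ),
      ex F (fun _ => (1 : ℝ)) g = ∑ T ∈ F, g T := fun F g => by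
    simp [ex]
  simpa only [e1, e2] using h1

end UST
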