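import Mathlib
import Pool.Agent.UST.Defs
import Pool.Agent.UST.TR

/-!
Project UST, module RAY: negative association of the uniform measure on `Bases S W`
(bridge between `Defs` and `TR`), and the two monotonicity rules (deleting an edge, wiring a
vertex to the root).
-/

namespace Pool.Agent.UST

open Finset

variable {V E : Type} {G : MG V E}

theorem conn_iff_joined {T : Finset E} {u v : V} :
    G.Conn T u v ↔ _root_.UST.Joined G.src G.tgt T u v := by
  constructor
  · intro h
    induction h with
    | refl => exact _root_.UST.Joined.refl _ _ _ _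
    | tail _ hs ih =>
      obtain ⟨e, he, ⟨h1, h2⟩ | ⟨h1, h2⟩⟩ := hs
      · exact ih.trans (h1 ▸ h2 ▸ _root_.UST.Joined.edge he)
      · exact ih.trans (h1 ▸ h2 ▸ (_root_.UST.Joined.edge he).symm)
  · intro h
    induction h with
    | rel a b hab =>
      obtain ⟨e, he, rfl, rfl⟩ := hab
      exact Relation.ReflTransGen.single ⟨e, he, Or.inl ⟨rfl, rfl⟩⟩
    | refl a => exact Relation.ReflTransGen.refl
    | symm a b _ ih => exact ih.symm
    | trans a b c _ _ ih1 ih2 => exact ih1.trans ih2

theorem bases_eq_trees (S : Finset E) (W : Finset V) :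
    G.Bases S W = _root_.UST.trees G.src G.tgt S W := by
  ext T
  rw [MG.mem_Bases, _root_.UST.mem_trees]
  unfold _root_.UST.Rooted
  simp only [conn_iff_joined]

/-- negative correlation of an edge and an increasing event which ignores it, counting form -/
theorem fm_cnt (S : Finset E) (W : Finset V) (f : E) (A : Finset E → Prop) (hA : Inc A)
    (hf : ∀ T : Finset E, A (letI := Classical.decEq E; insert f T) → A T) :
    G.cnt S W (fun T => f ∈ T ∧ A T) * (G.Bases S W).card ≤
      G.cnt S W A * G.cnt S W (fun T => f ∈ T) := by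
  classical
  have key := _root_.UST.trees_fm G.src G.tgt S W f (fun T => if A T then (1 : ℝ) else 0)
    (fun T T' h => by
      by_cases h1 : A T
      · simp only [h1, hA T T' h h1, if_true]; exact le_rfl
      · simp only [h1, if_false]; split_ifs <;> norm_num)
    (fun T => by
      have : A (insert f T) ↔ A T :=
        ⟨fun h => hf T (by convert h), fun h => hA _ _ (Finset.subset_insert f T) h⟩
      simp only [this])
  rw [← bases_eq_trees] at key
  have h1 : ∀ F : Finset (Finset E), (∑ T ∈ F, if A T then (1 : ℝ) else 0) =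
      ((F.filter A).card : ℝ) := fun F => by
    rw [Finset.sum_ite, Finset.sum_const_zero, add_zero, Finset.sum_const, nsmul_eq_mul, mul_one]
  rw [h1, h1] at key
  have h2 : ((_root_.UST.con (G.Bases S W) f).filter A) =
      (G.Bases S W).filter (fun T => f ∈ T ∧ A T) := by
    ext T
    simp only [Finset.mem_filter, _root_.UST.mem_con, and_assoc]
  have h3 : _root_.UST.con (G.Bases S W) f = (G.Bases S W).filter (fun T => f ∈ T) := by
    ext T
    simp only [Finset.mem_filter, _root_.UST.mem_con]
  rw [h2, h3] at key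
  unfold MG.cnt
  have key' : (((((G.Bases S W).filter (fun T => f ∈ T ∧ A T)).card *
      (G.Bases S W).card : ℕ)) : ℝ) ≤ ((((G.Bases S W).filter A).card *
      ((G.Bases S W).filter (fun T => f ∈ T)).card : ℕ) : ℝ) := by
    push_cast; exact key
  have := Nat.cast_le.1 key'
  convert this

/-- negative association, counting form: increasing events such that every edge is ignored by one
of them -/
theorem na_cnt (S : Finset E) (W : Finset V) (A B : Finset E → Prop) (hA : Inc A) (hB : Inc B)
    (hAB : ∀ f : E, (∀ T : Finset E, A (letI := Classical.decEq E; insert f T) → A T) ∨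
      (∀ T : Finset E, B (letI := Classical.decEq E; insert f T) → B T)) :
    G.cnt S W (fun T => A T ∧ B T) * (G.Bases S W).card ≤ G.cnt S W A * G.cnt S W B := by
  classical
  have hinc : ∀ A : Finset E → Prop, Inc A → ∀ T T' : Finset E, T ⊆ T' →
      (if A T then (1 : ℝ) else 0) ≤ (if A T' then (1 : ℝ) else 0) := by
    intro A hA T T' h
    by_cases h1 : A T
    · simp only [h1, hA T T' h h1, if_true]; exact le_rfl
    · simp only [h1, if_false]; split_ifs <;> norm_num
  have hign : ∀ A : Finset E → Prop, Inc A → ∀ f : E,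
      (∀ T : Finset E, A (letI := Classical.decEq E; insert f T) → A T) →
      ∀ T : Finset E, (if A (insert f T) then (1 : ℝ) else 0) = (if A T then (1 : ℝ) else 0) := by
    intro A hA f hf T
    have : A (insert f T) ↔ A T :=
      ⟨fun h => hf T (by convert h), fun h => hA _ _ (Finset.subset_insert f T) h⟩
    simp only [this]
  have key := _root_.UST.trees_na G.src G.tgt S W (fun T => if A T then (1 : ℝ) else 0)
    (fun T => if B T then (1 : ℝ) else 0) (hinc A hA) (hinc B hB)
    (fun f => by
      rcases hAB f with h | h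
      · exact Or.inl (hign A hA f h)
      · exact Or.inr (hign B hB f h))
  rw [← bases_eq_trees] at key
  have h1 : ∀ (F : Finset (Finset E)) (A : Finset E → Prop),
      (∑ T ∈ F, if A T then (1 : ℝ) else 0) = ((F.filter A).card : ℝ) := fun F A => by
    rw [Finset.sum_ite, Finset.sum_const_zero, add_zero, Finset.sum_const, nsmul_eq_mul, mul_one]
  have h2 : (∑ T ∈ G.Bases S W, (if A T then (1 : ℝ) else 0) * (if B T then (1 : ℝ) else 0)) =
      (((G.Bases S W).filter (fun T => A T ∧ B T)).card : ℝ) := by
    rw [Finset.card_filter, Nat.cast_sum]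
    refine Finset.sum_congr rfl (fun T _ => ?_)
    by_cases h3 : A T <;> by_cases h4 : B T <;> simp [h3, h4]
  rw [h2, h1 _ A, h1 _ B] at key
  unfold MG.cnt
  have key' : (((((G.Bases S W).filter (fun T => A T ∧ B T)).card *
      (G.Bases S W).card : ℕ)) : ℝ) ≤ ((((G.Bases S W).filter A).card *
      ((G.Bases S W).filter B).card : ℕ) : ℝ) := by
    push_cast; exact key
  have := Nat.cast_le.1 key'
  convert this

/-- the event `A` ignores the edge `f` -/
def Ign (f : E) (A : Finset E → Prop) : Prop :=
  ∀ T : Finset E, A (letI := Classical.decEq E; insert f T) ↔ A T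

theorem Loc.ign [DecidableEq E] {S : Finset E} {A : Finset E → Prop} (h : Loc S A) {f : E}
    (hf : f ∉ S) : Ign f A := by
  intro T
  rw [h T, h]
  have : (letI := Classical.decEq E; insert f T) ∩ S = T ∩ S := by
    ext e
    simp only [Finset.mem_inter, Finset.mem_insert]
    constructor
    · rintro ⟨h1 | h1, h2⟩
      · exact absurd (h1 ▸ h2) hf
      · exact ⟨h1, h2⟩
    · rintro ⟨h1, h2⟩; exact ⟨Or.inr h1, h2⟩
  rw [this]

/-- negative correlation of an edge and an increasing event which ignores it -/
theorem fm_pr (S : Finset E) (W : Finset V) (f : E) (A : Finset E → Prop) (hA : Inc A)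
    (hf : Ign f A) :
    G.pr S W (fun T => f ∈ T ∧ A T) ≤ G.pr S W A * G.pr S W (fun T => f ∈ T) := by
  have h := fm_cnt (G := G) S W f A hA (fun T => (hf T).1)
  unfold MG.pr
  rcases Nat.eq_zero_or_pos (G.Bases S W).card with h0 | h0
  · rw [h0]; simp
  · have h0' : (0 : ℝ) < ((G.Bases S W).card : ℝ) := by exact_mod_cast h0
    rw [div_mul_div_comm, div_le_div_iff₀ h0' (mul_pos h0' h0')]
    have h' : ((G.cnt S W (fun T => f ∈ T ∧ A T) : ℝ)) * ((G.Bases S W).card : ℝ) ≤
        (G.cnt S W A : ℝ) * (G.cnt S W (fun T => f ∈ T) : ℝ) := by exact_mod_cast h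
    nlinarith [mul_le_mul_of_nonneg_right h' h0'.le]

/-- negative association -/
theorem na_pr (S : Finset E) (W : Finset V) (A B : Finset E → Prop) (hA : Inc A) (hB : Inc B)
    (hAB : ∀ f : E, Ign f A ∨ Ign f B) :
    G.pr S W (fun T => A T ∧ B T) ≤ G.pr S W A * G.pr S W B := by
  have h := na_cnt (G := G) S W A B hA hB (fun f => by
    rcases hAB f with h | h
    · exact Or.inl (fun T => (h T).1)
    · exact Or.inr (fun T => (h T).1))
  unfold MG.pr
  rcases Nat.eq_zero_or_pos (G.Bases S W).card with h0 | h0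
  · rw [h0]; simp
  · have h0' : (0 : ℝ) < ((G.Bases S W).card : ℝ) := by exact_mod_cast h0
    rw [div_mul_div_comm, div_le_div_iff₀ h0' (mul_pos h0' h0')]
    have h' : ((G.cnt S W (fun T => A T ∧ B T) : ℝ)) * ((G.Bases S W).card : ℝ) ≤
        (G.cnt S W A : ℝ) * (G.cnt S W B : ℝ) := by exact_mod_cast h
    nlinarith [mul_le_mul_of_nonneg_right h' h0'.le]

/-- negative association for events living on disjoint edge sets -/
theorem na_pr_loc [DecidableEq E] (S : Finset E) (W : Finset V) {S1 S2 : Finset E}
    (hd : Disjoint S1 S2) {A B : Finset E → Prop} (hA : Inc A) (hB : Inc B) (hA1 : Loc S1 A)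
    (hB2 : Loc S2 B) :
    G.pr S W (fun T => A T ∧ B T) ≤ G.pr S W A * G.pr S W B := by
  refine na_pr S W A B hA hB (fun f => ?_)
  by_cases hf : f ∈ S1
  · exact Or.inr (hB2.ign (Finset.disjoint_left.1 hd hf))
  · exact Or.inl (hA1.ign hf)

theorem bases_erase [DecidableEq E] (S : Finset E) (W : Finset V) (f : E) (T : Finset E) :
    T ∈ G.Bases (S.erase f) W ↔ T ∈ G.Bases S W ∧ f ∉ T := by
  rw [MG.mem_Bases, MG.mem_Bases]
  constructor
  · rintro ⟨h1, h2, h3⟩
    exact ⟨⟨h1.trans (Finset.erase_subset f S), h2, h3⟩, fun h => Finset.notMem_erase f S (h1 h)⟩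
  · rintro ⟨⟨h1, h2, h3⟩, h4⟩
    exact ⟨fun e he => Finset.mem_erase.2 ⟨fun h => h4 (h ▸ he), h1 he⟩, h2, h3⟩

/-- deleting an edge increases the probability of increasing events which ignore it -/
theorem pr_le_erase [DecidableEq E] (S : Finset E) (W : Finset V) (f : E) (A : Finset E → Prop)
    (hA : Inc A) (hf : Ign f A) (hne : (G.Bases (S.erase f) W).Nonempty) :
    G.pr S W A ≤ G.pr (S.erase f) W A := by
  classical
  have h := fm_cnt (G := G) S W f A hA (fun T => (hf T).1)
  have e1 : G.cnt S W A = G.cnt S W (fun T => f ∈ T ∧ A T) + G.cnt (S.erase f) W A := by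
    unfold MG.cnt
    rw [← Finset.card_filter_add_card_filter_not (s := (G.Bases S W).filter A) (fun T => f ∈ T)]
    congr 1
    · congr 1; ext T; simp only [Finset.mem_filter]; tauto
    · congr 1; ext T; simp only [Finset.mem_filter, bases_erase]; tauto
  have e2 : (G.Bases S W).card = G.cnt S W (fun T => f ∈ T) + (G.Bases (S.erase f) W).card := by
    unfold MG.cnt
    rw [← Finset.card_filter_add_card_filter_not (s := G.Bases S W) (fun T => f ∈ T)]
    have h3 : (G.Bases S W).filter (fun T => ¬ f ∈ T) = G.Bases (S.erase f) W := by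
      ext T; rw [Finset.mem_filter, bases_erase]
    rw [h3]
    congr
  have h0 := hne.card_pos
  unfold MG.pr
  rw [e1, e2] at h ⊢
  have hp0 : (0 : ℝ) < ((G.Bases (S.erase f) W).card : ℝ) := by exact_mod_cast h0
  have hp1 : (0 : ℝ) ≤ ((G.cnt S W (fun T => f ∈ T) : ℕ) : ℝ) := by positivity
  rw [Nat.cast_add, Nat.cast_add, div_le_div_iff₀ (by linarith) hp0]
  have h' : ((G.cnt S W (fun T => f ∈ T ∧ A T) : ℝ)) *
      ((G.cnt S W (fun T => f ∈ T) : ℝ) + ((G.Bases (S.erase f) W).card : ℝ)) ≤
      ((G.cnt S W (fun T => f ∈ T ∧ A T) : ℝ) + (G.cnt (S.erase f) W A : ℝ)) *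
        (G.cnt S W (fun T => f ∈ T) : ℝ) := by exact_mod_cast h
  nlinarith [h']

/-- deleting edges increases the probability of increasing events which ignore them -/
theorem pr_le_subset [DecidableEq E] {S S' : Finset E} (hS : S' ⊆ S) (W : Finset V)
    (A : Finset E → Prop) (hA : Inc A) (hf : ∀ f ∈ S, f ∉ S' → Ign f A)
    (hne : (G.Bases S' W).Nonempty) : G.pr S W A ≤ G.pr S' W A := by
  induction h : (S \ S').card generalizing S with
  | zero =>
    have : S = S' := Finset.Subset.antisymm
      (Finset.sdiff_eq_empty_iff_subset.1 (Finset.card_eq_zero.1 h)) hS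
    rw [this]
  | succ n ih =>
    obtain ⟨f, hfS⟩ : (S \ S').Nonempty := Finset.card_pos.1 (by omega)
    rw [Finset.mem_sdiff] at hfS
    have hsub : S' ⊆ S.erase f := fun e he =>
      Finset.mem_erase.2 ⟨fun h' => hfS.2 (h' ▸ he), hS he⟩
    refine le_trans (pr_le_erase S W f A hA (hf f hfS.1 hfS.2) ?_)
      (ih hsub (fun e he he' => hf e (Finset.mem_of_mem_erase he) he') ?_)
    · obtain ⟨T, hT⟩ := hne
      rw [MG.mem_Bases] at hT
      exact ⟨T, MG.mem_Bases.2 ⟨hT.1.trans hsub, hT.2⟩⟩
    · have h1 : (S.erase f) \ S' = (S \ S').erase f := by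
        ext e; simp only [Finset.mem_sdiff, Finset.mem_erase]; tauto
      rw [h1, Finset.card_erase_of_mem (Finset.mem_sdiff.2 hfS), h]; rfl

end Pool.Agent.UST
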