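import Mathlib
import Pool.Agent.UST.RAY

/-!
Project UST, module WIR: wiring a vertex to the root decreases the probability of increasing
events.
-/

namespace Pool.Agent.UST

open Finset

variable {V E : Type} {G : MG V E}

/-- the graph with one more edge `none` from `w` to `r` -/
def MG.ext (G : MG V E) (w r : V) : MG V (Option E) where
  src e := e.elim w G.src
  tgt e := e.elim r G.tgt

/-- edges of the extended graph seen in the old one -/
theorem conn_ext_some [DecidableEq E] {w r : V} {T : Finset E} {u v : V} (h : G.Conn T u v) :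
    (G.ext w r).Conn (Finset.insertNone T) u v := by
  induction h with
  | refl => exact Relation.ReflTransGen.refl
  | tail _ hs ih =>
    obtain ⟨e, he, h1⟩ := hs
    exact ih.tail ⟨some e, Finset.some_mem_insertNone.2 he, h1⟩

theorem conn_ext_map {w r : V} {T : Finset E} {u v : V} :
    (G.ext w r).Conn (T.map Function.Embedding.some) u v ↔ G.Conn T u v := by
  constructor
  · intro h
    induction h with
    | refl => exact Relation.ReflTransGen.refl
    | tail _ hs ih =>
      obtain ⟨e, he, h1⟩ := hs
      obtain ⟨e', he', rfl⟩ := Finset.mem_map.1 he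
      exact ih.tail ⟨e', he', h1⟩
  · intro h
    induction h with
    | refl => exact Relation.ReflTransGen.refl
    | tail _ hs ih =>
      obtain ⟨e, he, h1⟩ := hs
      exact ih.tail ⟨some e, Finset.mem_map.2 ⟨e, he, rfl⟩, h1⟩

/-- a connection in the extended graph avoids the new edge or reaches one of its ends -/
theorem conn_ext_insertNone {w r : V} {T : Finset E} {u v : V}
    (h : (G.ext w r).Conn (Finset.insertNone T) u v) :
    G.Conn T u v ∨ G.Conn T u w ∨ G.Conn T u r := by
  induction h with
  | refl => exact Or.inl Relation.ReflTransGen.refl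
  | tail _ hs ih =>
    rcases ih with ih | ih
    · obtain ⟨e, he, h1⟩ := hs
      cases e with
      | none =>
        rcases h1 with ⟨h1, -⟩ | ⟨-, h1⟩
        · right; left; rw [show w = _ from h1]; exact ih
        · right; right; rw [show r = _ from h1]; exact ih
      | some e =>
        left
        exact ih.tail ⟨e, Finset.some_mem_insertNone.1 he, h1⟩
    · exact Or.inr ih

theorem bases_ext_map {S T : Finset E} {W : Finset V} {w r : V} :
    T.map Function.Embedding.some ∈ (G.ext w r).Bases (Finset.insertNone S) W ↔
      T ∈ G.Bases S W := by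
  rw [MG.mem_Bases, MG.mem_Bases, Finset.card_map]
  simp only [conn_ext_map]
  refine and_congr ?_ Iff.rfl
  constructor
  · intro h e he
    exact Finset.some_mem_insertNone.1 (h (Finset.mem_map.2 ⟨e, he, rfl⟩))
  · intro h e he
    obtain ⟨e', he', rfl⟩ := Finset.mem_map.1 he
    exact Finset.some_mem_insertNone.2 (h he')

variable [DecidableEq V]

theorem bases_ext_insertNone [DecidableEq E] {S T : Finset E} {W : Finset V} {w r : V} (hw : w ∈ W) (hr : r ∉ W) :
    Finset.insertNone T ∈ (G.ext w r).Bases (Finset.insertNone S) W ↔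
      T ∈ G.Bases S (W.erase w) := by
  rw [MG.mem_Bases, MG.mem_Bases, Finset.card_insertNone, Finset.card_erase_of_mem hw]
  have hpos : 0 < W.card := Finset.card_pos.2 ⟨w, hw⟩
  refine and_congr ?_ (and_congr ?_ ?_)
  · constructor
    · intro h e he
      exact Finset.some_mem_insertNone.1 (h (Finset.some_mem_insertNone.2 he))
    · intro h e he
      cases e with
      | none => exact Finset.none_mem_insertNone
      | some e => exact Finset.some_mem_insertNone.2 (h (Finset.some_mem_insertNone.1 he))
  · omega
  · constructor
    · intro h v hv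
      obtain ⟨r', hr', hc⟩ := h v (Finset.mem_of_mem_erase hv)
      rcases conn_ext_insertNone hc with h1 | h1 | h1
      · exact ⟨r', fun h2 => hr' (Finset.mem_of_mem_erase h2), h1⟩
      · exact ⟨w, Finset.notMem_erase w W, h1⟩
      · exact ⟨r, fun h2 => hr (Finset.mem_of_mem_erase h2), h1⟩
    · intro h v hv
      have hwr : (G.ext w r).Conn (Finset.insertNone T) w r :=
        Relation.ReflTransGen.single ⟨none, Finset.none_mem_insertNone, Or.inl ⟨rfl, rfl⟩⟩
      by_cases hvw : v = w
      · exact ⟨r, hr, hvw ▸ hwr⟩
      · obtain ⟨r', hr', hc⟩ := h v (Finset.mem_erase.2 ⟨hvw, hv⟩)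
        by_cases hrw : r' = w
        · exact ⟨r, hr, (conn_ext_some (w := w) (r := r) hc).trans (hrw ▸ hwr)⟩
        · exact ⟨r', fun h2 => hr' (Finset.mem_erase.2 ⟨hrw, h2⟩), conn_ext_some hc⟩

omit [DecidableEq V] in
/-- a finite set of edges of the extended graph is of one of the two forms -/
theorem option_cases [DecidableEq E] (U : Finset (Option E)) :
    (none ∉ U ∧ U = (Finset.eraseNone U).map Function.Embedding.some) ∨
      (none ∈ U ∧ U = Finset.insertNone (Finset.eraseNone U)) := by
  by_cases h : none ∈ U
  · right
    refine ⟨h, ?_⟩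
    ext e
    cases e with
    | none => simp [h]
    | some e => simp
  · left
    refine ⟨h, ?_⟩
    ext e
    cases e with
    | none => simp [h]
    | some e => simp

/-- wiring the vertex `w` to the root decreases the probability of increasing events -/
theorem pr_wire_le (S : Finset E) (W : Finset V) (w : V) (hw : w ∈ W) (A : Finset E → Prop)
    (hA : Inc A) (hne : (G.Bases S W).Nonempty) :
    G.pr S (W.erase w) A ≤ G.pr S W A := by
  classical
  obtain ⟨T0, hT0⟩ := hne
  obtain ⟨r, hr, -⟩ := (MG.mem_Bases.1 hT0).2.2 w hw
  set G' := G.ext w r with hG'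
  set A' : Finset (Option E) → Prop := fun U => A (Finset.eraseNone U) with hA'
  have hA'inc : Inc A' := fun U U' h => hA _ _ (fun e he => by
    rw [Finset.mem_eraseNone] at he ⊢; exact h he)
  have h := fm_cnt (G := G') (Finset.insertNone S) W none A' hA'inc (fun T h => by
    have : Finset.eraseNone (letI := Classical.decEq (Option E); insert none T) =
        Finset.eraseNone T := by
      ext e
      rw [Finset.mem_eraseNone, Finset.mem_eraseNone,
        @Finset.mem_insert (Option E) (Classical.decEq _)]
      simp
    simp only [hA'] at h ⊢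
    rw [this] at h
    exact h)
  -- the counts
  have c1 : ∀ B : Finset E → Prop,
      ((G'.Bases (Finset.insertNone S) W).filter (fun U => none ∈ U ∧ B (Finset.eraseNone U))).card =
        ((G.Bases S (W.erase w)).filter B).card := by
    intro B
    symm
    refine Finset.card_bij (fun T _ => Finset.insertNone T) ?_ ?_ ?_
    · intro T hT
      rw [Finset.mem_filter] at hT ⊢
      refine ⟨(bases_ext_insertNone hw hr).2 hT.1, Finset.none_mem_insertNone, ?_⟩
      rw [Finset.eraseNone_insertNone]; exact hT.2
    · intro T _ T' _ h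
      have := congrArg Finset.eraseNone h
      rwa [Finset.eraseNone_insertNone, Finset.eraseNone_insertNone] at this
    · intro U hU
      rw [Finset.mem_filter] at hU
      rcases option_cases U with ⟨h1, -⟩ | ⟨-, h2⟩
      · exact absurd hU.2.1 h1
      · refine ⟨Finset.eraseNone U, ?_, h2.symm⟩
        rw [Finset.mem_filter]
        refine ⟨(bases_ext_insertNone hw hr).1 ?_, hU.2.2⟩
        rw [← h2]; exact hU.1
  have c0 : ∀ B : Finset E → Prop,
      ((G'.Bases (Finset.insertNone S) W).filter
        (fun U => ¬ none ∈ U ∧ B (Finset.eraseNone U))).card =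
        ((G.Bases S W).filter B).card := by
    intro B
    symm
    refine Finset.card_bij (fun T _ => T.map Function.Embedding.some) ?_ ?_ ?_
    · intro T hT
      rw [Finset.mem_filter] at hT ⊢
      refine ⟨bases_ext_map.2 hT.1, by simp, ?_⟩
      rw [Finset.eraseNone_map_some]; exact hT.2
    · intro T _ T' _ h
      exact Finset.map_injective _ h
    · intro U hU
      rw [Finset.mem_filter] at hU
      rcases option_cases U with ⟨-, h2⟩ | ⟨h1, -⟩
      · refine ⟨Finset.eraseNone U, ?_, h2.symm⟩
        rw [Finset.mem_filter]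
        refine ⟨(bases_ext_map (w := w) (r := r)).1 ?_, hU.2.2⟩
        rw [← h2]; exact hU.1
      · exact absurd h1 hU.2.1
  have d1 : G'.cnt (Finset.insertNone S) W (fun U => none ∈ U ∧ A' U) =
      G.cnt S (W.erase w) A := by
    unfold MG.cnt
    rw [← c1 A]
    congr
  have d2 : G'.cnt (Finset.insertNone S) W (fun U => none ∈ U) =
      (G.Bases S (W.erase w)).card := by
    have := c1 (fun _ => True)
    simp only [and_true, Finset.filter_true] at this
    unfold MG.cnt
    rw [← this]
    congr
  have d3 : G'.cnt (Finset.insertNone S) W A' = G.cnt S (W.erase w) A + G.cnt S W A := by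
    unfold MG.cnt
    rw [← c1 A, ← c0 A, ← Finset.card_filter_add_card_filter_not
      (s := (G'.Bases (Finset.insertNone S) W).filter A') (fun U => none ∈ U)]
    congr 1
    · congr 1; ext U; simp only [Finset.mem_filter, hA']; tauto
    · congr 1; ext U; simp only [Finset.mem_filter, hA']; tauto
  have d4 : (G'.Bases (Finset.insertNone S) W).card =
      (G.Bases S (W.erase w)).card + (G.Bases S W).card := by
    have e1 := c1 (fun _ => True)
    have e0 := c0 (fun _ => True)
    simp only [and_true, Finset.filter_true] at e1 e0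
    rw [← e1, ← e0]
    exact (Finset.card_filter_add_card_filter_not _).symm
  rw [d1, d2, d3, d4] at h
  have h0 : 0 < (G.Bases S W).card := Finset.card_pos.2 ⟨T0, hT0⟩
  unfold MG.pr
  have hp0 : (0 : ℝ) < ((G.Bases S W).card : ℝ) := by exact_mod_cast h0
  rcases Nat.eq_zero_or_pos (G.Bases S (W.erase w)).card with h1 | h1
  · rw [h1]; simp only [Nat.cast_zero, div_zero]; positivity
  · have hp1 : (0 : ℝ) < ((G.Bases S (W.erase w)).card : ℝ) := by exact_mod_cast h1
    rw [div_le_div_iff₀ hp1 hp0]
    have h' : ((G.cnt S (W.erase w) A : ℝ)) *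
        (((G.Bases S (W.erase w)).card : ℝ) + ((G.Bases S W).card : ℝ)) ≤
        ((G.cnt S (W.erase w) A : ℝ) + (G.cnt S W A : ℝ)) *
          ((G.Bases S (W.erase w)).card : ℝ) := by exact_mod_cast h
    nlinarith [h']

/-- a connection from `X` to the outside of `X` contains a step from `X` to the outside -/
theorem exists_exit {S : Finset E} (X : Set V) {u v : V} (h : G.Conn S u v) (hu : u ∈ X)
    (hv : v ∉ X) : ∃ a b, a ∈ X ∧ b ∉ X ∧ G.Step S a b := by
  induction h with
  | refl => exact absurd hu hv
  | @tail b c _ hs ih =>
    by_cases hb : b ∈ X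
    · exact ⟨b, c, hb, hv, hs⟩
    · exact ih hb

/-- if `S` connects all of `W` to the root then there is a basis inside `S` -/
theorem bases_nonempty [DecidableEq E] {S : Finset E} {W : Finset V}
    (h : ∀ w ∈ W, ∃ r, r ∉ W ∧ G.Conn S w r) : (G.Bases S W).Nonempty := by
  classical
  have key : ∀ n ≤ W.card, ∃ (R : Finset V) (T : Finset E), R ⊆ W ∧ R.card = n ∧ T ⊆ S ∧
      T.card = n ∧ (∀ w ∈ R, ∃ r, r ∉ W ∧ G.Conn T w r) ∧
      (∀ e ∈ T, (G.src e ∈ R ∨ G.src e ∉ W) ∧ (G.tgt e ∈ R ∨ G.tgt e ∉ W)) := by
    intro n
    induction n with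
    | zero => exact fun _ => ⟨∅, ∅, Finset.empty_subset _, rfl, Finset.empty_subset _, rfl,
        fun w hw => absurd hw (Finset.notMem_empty w), fun e he => absurd he (Finset.notMem_empty e)⟩
    | succ n ih =>
      intro hn
      obtain ⟨R, T, hRW, hRc, hTS, hTc, hconn, hends⟩ := ih (by omega)
      obtain ⟨w, hwW, hwR⟩ : ∃ w ∈ W, w ∉ R := by
        by_contra hcon
        push Not at hcon
        have := Finset.card_le_card (show W ⊆ R from hcon)
        omega
      obtain ⟨r, hr, hc⟩ := h w hwW
      obtain ⟨a, b, ha, hb, hs⟩ := exists_exit {v : V | v ∈ W ∧ v ∉ R} hc ⟨hwW, hwR⟩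
        (fun h' => hr h'.1)
      have hb' : b ∈ R ∨ b ∉ W := by
        by_cases hbR : b ∈ R
        · exact Or.inl hbR
        · exact Or.inr (fun h' => hb ⟨h', hbR⟩)
      obtain ⟨e, heS, he⟩ := hs
      have heT : e ∉ T := by
        intro heT
        have := hends e heT
        rcases he with ⟨h1, h2⟩ | ⟨h1, h2⟩
        · rw [h1] at this
          rcases this.1 with h3 | h3
          · exact ha.2 h3
          · exact h3 ha.1
        · rw [h2] at this
          rcases this.2 with h3 | h3
          · exact ha.2 h3
          · exact h3 ha.1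
      have hab : G.Conn (insert e T) a b :=
        Relation.ReflTransGen.single ⟨e, Finset.mem_insert_self e T, he⟩
      refine ⟨insert a R, insert e T, ?_, ?_, ?_, ?_, ?_, ?_⟩
      · exact Finset.insert_subset ha.1 hRW
      · rw [Finset.card_insert_of_notMem ha.2, hRc]
      · exact Finset.insert_subset heS hTS
      · rw [Finset.card_insert_of_notMem heT, hTc]
      · intro v hv
        rcases Finset.mem_insert.1 hv with rfl | hv
        · rcases hb' with hb' | hb'
          · obtain ⟨r', hr', hc'⟩ := hconn b hb'
            exact ⟨r', hr', hab.trans (hc'.mono (Finset.subset_insert e T))⟩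
          · exact ⟨b, hb', hab⟩
        · obtain ⟨r', hr', hc'⟩ := hconn v hv
          exact ⟨r', hr', hc'.mono (Finset.subset_insert e T)⟩
      · intro f hf
        rcases Finset.mem_insert.1 hf with rfl | hf
        · rcases he with ⟨h1, h2⟩ | ⟨h1, h2⟩
          · rw [h1, h2]
            refine ⟨Or.inl (Finset.mem_insert_self a R), ?_⟩
            rcases hb' with h3 | h3
            · exact Or.inl (Finset.mem_insert_of_mem h3)
            · exact Or.inr h3
          · rw [h1, h2]
            refine ⟨?_, Or.inl (Finset.mem_insert_self a R)⟩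
            rcases hb' with h3 | h3
            · exact Or.inl (Finset.mem_insert_of_mem h3)
            · exact Or.inr h3
        · have := hends f hf
          refine ⟨?_, ?_⟩
          · rcases this.1 with h3 | h3
            · exact Or.inl (Finset.mem_insert_of_mem h3)
            · exact Or.inr h3
          · rcases this.2 with h3 | h3
            · exact Or.inl (Finset.mem_insert_of_mem h3)
            · exact Or.inr h3
  obtain ⟨R, T, hRW, hRc, hTS, hTc, hconn, -⟩ := key W.card le_rfl
  have hRW' : R = W := Finset.eq_of_subset_of_card_le hRW (by omega)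
  subst hRW'
  exact ⟨T, MG.mem_Bases.2 ⟨hTS, hTc, hconn⟩⟩

/-- wiring vertices to the root keeps the existence of bases -/
theorem bases_nonempty_subset [DecidableEq E] {S : Finset E} {W W' : Finset V} (hW : W' ⊆ W)
    (hne : (G.Bases S W).Nonempty) : (G.Bases S W').Nonempty := by
  obtain ⟨T, hT⟩ := hne
  rw [MG.mem_Bases] at hT
  refine bases_nonempty (fun w hw => ?_)
  obtain ⟨r, hr, hc⟩ := hT.2.2 w (hW hw)
  exact ⟨r, fun h => hr (hW h), hc.mono hT.1⟩

/-- wiring vertices to the root decreases the probability of increasing events -/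
theorem pr_wire_subset_le [DecidableEq E] (S : Finset E) {W W' : Finset V} (hW : W' ⊆ W)
    (A : Finset E → Prop) (hA : Inc A) (hne : (G.Bases S W).Nonempty) :
    G.pr S W' A ≤ G.pr S W A := by
  induction h : (W \ W').card generalizing W with
  | zero =>
    have : W = W' := Finset.Subset.antisymm
      (Finset.sdiff_eq_empty_iff_subset.1 (Finset.card_eq_zero.1 h)) hW
    rw [this]
  | succ n ih =>
    obtain ⟨w, hw⟩ : (W \ W').Nonempty := Finset.card_pos.1 (by omega)
    rw [Finset.mem_sdiff] at hw
    have hsub : W' ⊆ W.erase w := fun e he =>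
      Finset.mem_erase.2 ⟨fun h' => hw.2 (h' ▸ he), hW he⟩
    refine le_trans (ih hsub (bases_nonempty_subset (Finset.erase_subset w W) hne) ?_)
      (pr_wire_le S W w hw.1 A hA hne)
    have h1 : (W.erase w) \ W' = (W \ W').erase w := by
      ext e; simp only [Finset.mem_sdiff, Finset.mem_erase]; tauto
    rw [h1, Finset.card_erase_of_mem (Finset.mem_sdiff.2 hw), h]; rfl

end Pool.Agent.UST
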