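import Mathlib
import Pool.Agent.UST.Defs
import Pool.Agent.UST.WIR

/-!
Project UST, module TD: planar duality of spanning trees.  The spanning trees of a box with free
boundary are the complements of the spanning trees of the dual box with wired boundary.
-/

namespace Pool.Agent.UST

open Finset

/-! ### connectivity of boxes -/

theorem conn_hor {x0 x1 y0 y1 : ℤ} (x y : ℤ) (n : ℕ) (h1 : (x, y) ∈ bx x0 x1 y0 y1)
    (h2 : (x + n, y) ∈ bx x0 x1 y0 y1) :
    L2.ConnIn (eIn (bx x0 x1 y0 y1)) (bx x0 x1 y0 y1 : Set V2) (x, y) (x + n, y) := by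
  induction n with
  | zero => simp only [Nat.cast_zero, add_zero]; exact Relation.ReflTransGen.refl
  | succ n ih =>
    have m1 := mem_bx.1 h1
    have m2 := mem_bx.1 h2
    simp only at m1 m2
    push_cast at m2
    have m3 : (x + (n : ℤ), y) ∈ bx x0 x1 y0 y1 :=
      mem_bx.2 ⟨by simp only; omega, by simp only; omega, m1.2.2.1, m1.2.2.2⟩
    have m4 : (x + (n : ℤ) + 1, y) ∈ bx x0 x1 y0 y1 :=
      mem_bx.2 ⟨by simp only; omega, by simp only; omega, m1.2.2.1, m1.2.2.2⟩
    have e : x + ((n + 1 : ℕ) : ℤ) = x + (n : ℤ) + 1 := by push_cast; ring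
    rw [e]
    refine (ih m3).tail ⟨⟨(x + n, y, false), mem_eIn.2 ⟨m3, m4⟩, Or.inl ⟨rfl, rfl⟩⟩,
      Finset.mem_coe.2 m3, Finset.mem_coe.2 m4⟩

theorem conn_ver {x0 x1 y0 y1 : ℤ} (x y : ℤ) (n : ℕ) (h1 : (x, y) ∈ bx x0 x1 y0 y1)
    (h2 : (x, y + n) ∈ bx x0 x1 y0 y1) :
    L2.ConnIn (eIn (bx x0 x1 y0 y1)) (bx x0 x1 y0 y1 : Set V2) (x, y) (x, y + n) := by
  induction n with
  | zero => simp only [Nat.cast_zero, add_zero]; exact Relation.ReflTransGen.refl
  | succ n ih =>
    have m1 := mem_bx.1 h1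
    have m2 := mem_bx.1 h2
    simp only at m1 m2
    push_cast at m2
    have m3 : (x, y + (n : ℤ)) ∈ bx x0 x1 y0 y1 :=
      mem_bx.2 ⟨m1.1, m1.2.1, by simp only; omega, by simp only; omega⟩
    have m4 : (x, y + (n : ℤ) + 1) ∈ bx x0 x1 y0 y1 :=
      mem_bx.2 ⟨m1.1, m1.2.1, by simp only; omega, by simp only; omega⟩
    have e : y + ((n + 1 : ℕ) : ℤ) = y + (n : ℤ) + 1 := by push_cast; ring
    rw [e]
    refine (ih m3).tail ⟨⟨(x, y + n, true), mem_eIn.2 ⟨m3, m4⟩, Or.inl ⟨rfl, rfl⟩⟩,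
      Finset.mem_coe.2 m3, Finset.mem_coe.2 m4⟩

/-- a box is connected -/
theorem connIn_box {x0 x1 y0 y1 : ℤ} {u v : V2} (hu : u ∈ bx x0 x1 y0 y1)
    (hv : v ∈ bx x0 x1 y0 y1) :
    L2.ConnIn (eIn (bx x0 x1 y0 y1)) (bx x0 x1 y0 y1 : Set V2) u v := by
  obtain ⟨x, y⟩ := u
  obtain ⟨x', y'⟩ := v
  have m1 := mem_bx.1 hu
  have m2 := mem_bx.1 hv
  simp only at m1 m2
  have hm : (x', y) ∈ bx x0 x1 y0 y1 := mem_bx.2 ⟨m2.1, m2.2.1, m1.2.2.1, m1.2.2.2⟩
  have h1 : L2.ConnIn (eIn (bx x0 x1 y0 y1)) (bx x0 x1 y0 y1 : Set V2) (x, y) (x', y) := by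
    rcases le_total x x' with h | h
    · obtain ⟨n, hn⟩ := Int.eq_ofNat_of_zero_le (sub_nonneg.2 h)
      have e : x' = x + n := by omega
      rw [e] at hm ⊢
      exact conn_hor x y n hu hm
    · obtain ⟨n, hn⟩ := Int.eq_ofNat_of_zero_le (sub_nonneg.2 h)
      have e : x = x' + n := by omega
      rw [e] at hu ⊢
      exact (conn_hor x' y n hm hu).symm
  have h2 : L2.ConnIn (eIn (bx x0 x1 y0 y1)) (bx x0 x1 y0 y1 : Set V2) (x', y) (x', y') := by
    rcases le_total y y' with h | h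
    · obtain ⟨n, hn⟩ := Int.eq_ofNat_of_zero_le (sub_nonneg.2 h)
      have e : y' = y + n := by omega
      rw [e] at hv ⊢
      exact conn_ver x' y n hm hv
    · obtain ⟨n, hn⟩ := Int.eq_ofNat_of_zero_le (sub_nonneg.2 h)
      have e : y = y' + n := by omega
      rw [e] at hm ⊢
      exact (conn_ver x' y' n hv hm).symm
  exact h1.trans h2

/-! ### the Euler count -/

theorem eIn_bx (x0 x1 y0 y1 : ℤ) : eIn (bx x0 x1 y0 y1) =
    (Finset.Ico x0 x1 ×ˢ Finset.Icc y0 y1).image (fun p : V2 => ((p.1, p.2, false) : E2)) ∪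
      (Finset.Icc x0 x1 ×ˢ Finset.Ico y0 y1).image (fun p : V2 => ((p.1, p.2, true) : E2)) := by
  ext ⟨x, y, b⟩
  rw [mem_eIn, Finset.mem_union, Finset.mem_image, Finset.mem_image]
  cases b
  · rw [L2_src, L2_tgt_false, mem_bx, mem_bx]
    simp only [Finset.mem_product, Finset.mem_Ico, Finset.mem_Icc, Prod.mk.injEq, Prod.exists]
    constructor
    · rintro ⟨h1, h2⟩
      exact Or.inl ⟨x, y, ⟨⟨h1.1, by omega⟩, h1.2.2.1, h1.2.2.2⟩, rfl, rfl, trivial⟩
    · rintro (⟨a, b, h, rfl, rfl, -⟩ | ⟨a, b, h, -, -, h'⟩)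
      · exact ⟨⟨h.1.1, by omega, h.2.1, h.2.2⟩, by omega, by omega, h.2.1, h.2.2⟩
      · simp at h'
  · rw [L2_src, L2_tgt_true, mem_bx, mem_bx]
    simp only [Finset.mem_product, Finset.mem_Ico, Finset.mem_Icc, Prod.mk.injEq, Prod.exists]
    constructor
    · rintro ⟨h1, h2⟩
      exact Or.inr ⟨x, y, ⟨⟨h1.1, h1.2.1⟩, h1.2.2.1, by omega⟩, rfl, rfl, trivial⟩
    · rintro (⟨a, b, h, -, -, h'⟩ | ⟨a, b, h, rfl, rfl, -⟩)
      · simp at h'
      · exact ⟨⟨h.1.1, h.1.2, h.2.1, by omega⟩, h.1.1, h.1.2, by omega, by omega⟩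

theorem card_eIn_bx (x0 y0 : ℤ) (a b : ℕ) :
    (eIn (bx x0 (x0 + a) y0 (y0 + b))).card = a * (b + 1) + (a + 1) * b := by
  rw [eIn_bx, Finset.card_union_of_disjoint, Finset.card_image_of_injective,
    Finset.card_image_of_injective, Finset.card_product, Finset.card_product, Int.card_Ico,
    Int.card_Icc, Int.card_Icc, Int.card_Ico]
  · congr 2 <;> omega
  · intro p q h
    simp only [Prod.mk.injEq] at h
    exact Prod.ext h.1 h.2.1
  · intro p q h
    simp only [Prod.mk.injEq] at h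
    exact Prod.ext h.1 h.2.1
  · rw [Finset.disjoint_left]
    rintro ⟨x, y, c⟩ h1 h2
    rw [Finset.mem_image] at h1 h2
    obtain ⟨p, _, hp⟩ := h1
    obtain ⟨q, _, hq⟩ := h2
    simp only [Prod.mk.injEq] at hp hq
    rw [← hp.2.2] at hq
    exact absurd hq.2.2 (by decide)

theorem card_bx (x0 y0 : ℤ) (a b : ℕ) :
    (bx x0 (x0 + a) y0 (y0 + b)).card = (a + 1) * (b + 1) := by
  unfold bx
  rw [Finset.card_product, Int.card_Icc, Int.card_Icc]
  congr 1 <;> omega

/-- vertices, edges and faces of a box -/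
theorem euler_bx {x0 x1 y0 y1 : ℤ} (hx : x0 < x1) (hy : y0 < y1) :
    (eIn (bx x0 x1 y0 y1)).card + 1 =
      (bx x0 x1 y0 y1).card + (bx x0 (x1 - 1) y0 (y1 - 1)).card := by
  obtain ⟨a, ha⟩ := Int.eq_ofNat_of_zero_le (sub_nonneg.2 hx.le)
  obtain ⟨b, hb⟩ := Int.eq_ofNat_of_zero_le (sub_nonneg.2 hy.le)
  obtain ⟨a', rfl⟩ : ∃ a', a = a' + 1 := ⟨a - 1, by omega⟩
  obtain ⟨b', rfl⟩ : ∃ b', b = b' + 1 := ⟨b - 1, by omega⟩
  have e1 : x1 = x0 + ((a' + 1 : ℕ) : ℤ) := by omega
  have e2 : y1 = y0 + ((b' + 1 : ℕ) : ℤ) := by omega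
  have e3 : x1 - 1 = x0 + (a' : ℤ) := by omega
  have e4 : y1 - 1 = y0 + (b' : ℤ) := by omega
  rw [e3, e4, card_bx, e1, e2, card_bx, card_eIn_bx]
  ring

/-! ### the dual map -/

theorem dl_mem_eTouch {x0 x1 y0 y1 : ℤ} (hx : x0 < x1) (hy : y0 < y1) (e : E2) :
    dl e ∈ eTouch (bx x0 (x1 - 1) y0 (y1 - 1)) ↔ e ∈ eIn (bx x0 x1 y0 y1) := by
  obtain ⟨x, y, b⟩ := e
  rw [mem_eTouch, mem_eIn]
  cases b
  · rw [dl_false, L2_src, L2_tgt_true, L2_src, L2_tgt_false, mem_bx, mem_bx, mem_bx, mem_bx]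
    simp only
    omega
  · rw [dl_true, L2_src, L2_tgt_false, L2_src, L2_tgt_true, mem_bx, mem_bx, mem_bx, mem_bx]
    simp only
    omega

theorem dl_surjective : Function.Surjective dl := by
  rintro ⟨x, y, b⟩
  cases b
  · exact ⟨(x + 1, y, true), by rw [dl_true]; simp⟩
  · exact ⟨(x, y + 1, false), by rw [dl_false]; simp⟩

theorem card_cmp {x0 x1 y0 y1 : ℤ} (hx : x0 < x1) (hy : y0 < y1) {T' : Finset E2}
    (hT' : T' ⊆ eTouch (bx x0 (x1 - 1) y0 (y1 - 1))) :
    (cmp (bx x0 x1 y0 y1) T').card + T'.card = (eIn (bx x0 x1 y0 y1)).card := by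
  have h1 := Finset.card_filter_add_card_filter_not (s := eIn (bx x0 x1 y0 y1))
    (fun e => dl e ∈ T')
  have h2 : ((eIn (bx x0 x1 y0 y1)).filter (fun e => dl e ∈ T')).card = T'.card := by
    refine Finset.card_bij (fun e _ => dl e) ?_ ?_ ?_
    · intro e he; exact (Finset.mem_filter.1 he).2
    · intro e _ e' _ h; exact dl_injective h
    · intro g hg
      obtain ⟨e, rfl⟩ := dl_surjective g
      exact ⟨e, Finset.mem_filter.2 ⟨(dl_mem_eTouch hx hy e).1 (hT' hg), hg⟩, rfl⟩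
  unfold cmp
  omega

/-! ### the pairing -/

theorem sum_shift (B B' : Finset V2) (g : V2 → ZMod 2) (φ : V2 ≃ V2)
    (h : ∀ p, g p ≠ 0 → p ∈ B) (h' : ∀ p, g (φ p) ≠ 0 → p ∈ B') :
    ∑ p ∈ B', g (φ p) = ∑ p ∈ B, g p := by
  rw [← finsum_eq_sum_of_support_subset g (s := B) (fun p hp => Finset.mem_coe.2 (h p hp)),
    ← finsum_eq_sum_of_support_subset (fun p => g (φ p)) (s := B')
      (fun p hp => Finset.mem_coe.2 (h' p hp))]
  exact finsum_comp_equiv φ

/-- the translation of the plane -/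
def trE (a b : ℤ) : V2 ≃ V2 where
  toFun p := (p.1 + a, p.2 + b)
  invFun p := (p.1 - a, p.2 - b)
  left_inv p := by simp
  right_inv p := by simp

/-- the pairing of a cut and of a dual cut vanishes -/
theorem pairing {x0 x1 y0 y1 : ℤ} (A C : V2 → ZMod 2)
    (hC : ∀ f, f ∉ bx x0 (x1 - 1) y0 (y1 - 1) → C f = 0) :
    ∑ e ∈ eIn (bx x0 x1 y0 y1), (A (L2.src e) + A (L2.tgt e)) *
      (C (L2.src (dl e)) + C (L2.tgt (dl e))) = 0 := by
  classical
  have hmem : ∀ p, C p ≠ 0 → x0 ≤ p.1 ∧ p.1 < x1 ∧ y0 ≤ p.2 ∧ p.2 < y1 := by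
    intro p hp
    have := mem_bx.1 (not_not.1 (fun h => hp (hC p h)))
    omega
  rw [eIn_bx, Finset.sum_union, Finset.sum_image, Finset.sum_image]
  · have e1 : ∀ p : V2, (A (L2.src (p.1, p.2, false)) + A (L2.tgt (p.1, p.2, false))) *
        (C (L2.src (dl (p.1, p.2, false))) + C (L2.tgt (dl (p.1, p.2, false)))) =
        (A p + A (p.1 + 1, p.2)) * C (p.1, p.2 - 1) + (A p + A (p.1 + 1, p.2)) * C p := by
      rintro ⟨x, y⟩
      rw [dl_false, L2_src, L2_tgt_false, L2_src, L2_tgt_true]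
      simp only [sub_add_cancel]
      ring
    have e2 : ∀ p : V2, (A (L2.src (p.1, p.2, true)) + A (L2.tgt (p.1, p.2, true))) *
        (C (L2.src (dl (p.1, p.2, true))) + C (L2.tgt (dl (p.1, p.2, true)))) =
        (A p + A (p.1, p.2 + 1)) * C (p.1 - 1, p.2) + (A p + A (p.1, p.2 + 1)) * C p := by
      rintro ⟨x, y⟩
      rw [dl_true, L2_src, L2_tgt_true, L2_src, L2_tgt_false]
      simp only [sub_add_cancel]
      ring
    simp only [e1, e2, Finset.sum_add_distrib]
    set F : Finset V2 := Finset.Ico x0 x1 ×ˢ Finset.Ico y0 y1 with hF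
    have hsub1 : ∑ p ∈ Finset.Ico x0 x1 ×ˢ Finset.Icc y0 y1, (A p + A (p.1 + 1, p.2)) * C p =
        ∑ p ∈ F, (A p + A (p.1 + 1, p.2)) * C p := by
      refine sum_shift F _ (fun p => (A p + A (p.1 + 1, p.2)) * C p) (Equiv.refl _) ?_ ?_
      · intro p hp
        have := hmem p (right_ne_zero_of_mul hp)
        rw [hF, Finset.mem_product, Finset.mem_Ico, Finset.mem_Ico]; omega
      · intro p hp
        have := hmem p (right_ne_zero_of_mul hp)
        rw [Finset.mem_product, Finset.mem_Ico, Finset.mem_Icc]; omega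
    have hsub2 : ∑ p ∈ Finset.Icc x0 x1 ×ˢ Finset.Ico y0 y1, (A p + A (p.1, p.2 + 1)) * C p =
        ∑ p ∈ F, (A p + A (p.1, p.2 + 1)) * C p := by
      refine sum_shift F _ (fun p => (A p + A (p.1, p.2 + 1)) * C p) (Equiv.refl _) ?_ ?_
      · intro p hp
        have := hmem p (right_ne_zero_of_mul hp)
        rw [hF, Finset.mem_product, Finset.mem_Ico, Finset.mem_Ico]; omega
      · intro p hp
        have := hmem p (right_ne_zero_of_mul hp)
        rw [Finset.mem_product, Finset.mem_Icc, Finset.mem_Ico]; omega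
    have hsub3 : ∑ p ∈ Finset.Ico x0 x1 ×ˢ Finset.Icc y0 y1,
        (A p + A (p.1 + 1, p.2)) * C (p.1, p.2 - 1) =
        ∑ p ∈ F, (A (p.1, p.2 + 1) + A (p.1 + 1, p.2 + 1)) * C p := by
      have := sum_shift F (Finset.Ico x0 x1 ×ˢ Finset.Icc y0 y1)
        (fun p => (A (p.1, p.2 + 1) + A (p.1 + 1, p.2 + 1)) * C p) (trE 0 (-1)) ?_ ?_
      · rw [← this]
        refine Finset.sum_congr rfl (fun p _ => ?_)
        simp only [trE, Equiv.coe_fn_mk, add_zero, Prod.mk.eta,
          ← sub_eq_add_neg, sub_add_cancel]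
      · intro p hp
        have := hmem p (right_ne_zero_of_mul hp)
        rw [hF, Finset.mem_product, Finset.mem_Ico, Finset.mem_Ico]; omega
      · intro p hp
        have := hmem _ (right_ne_zero_of_mul hp)
        simp only [trE, Equiv.coe_fn_mk] at this
        rw [Finset.mem_product, Finset.mem_Ico, Finset.mem_Icc]; omega
    have hsub4 : ∑ p ∈ Finset.Icc x0 x1 ×ˢ Finset.Ico y0 y1,
        (A p + A (p.1, p.2 + 1)) * C (p.1 - 1, p.2) =
        ∑ p ∈ F, (A (p.1 + 1, p.2) + A (p.1 + 1, p.2 + 1)) * C p := by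
      have := sum_shift F (Finset.Icc x0 x1 ×ˢ Finset.Ico y0 y1)
        (fun p => (A (p.1 + 1, p.2) + A (p.1 + 1, p.2 + 1)) * C p) (trE (-1) 0) ?_ ?_
      · rw [← this]
        refine Finset.sum_congr rfl (fun p _ => ?_)
        simp only [trE, Equiv.coe_fn_mk, add_zero, Prod.mk.eta,
          ← sub_eq_add_neg, sub_add_cancel]
      · intro p hp
        have := hmem p (right_ne_zero_of_mul hp)
        rw [hF, Finset.mem_product, Finset.mem_Ico, Finset.mem_Ico]; omega
      · intro p hp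
        have := hmem _ (right_ne_zero_of_mul hp)
        simp only [trE, Equiv.coe_fn_mk] at this
        rw [Finset.mem_product, Finset.mem_Icc, Finset.mem_Ico]; omega
    rw [hsub1, hsub2, hsub3, hsub4, ← Finset.sum_add_distrib, ← Finset.sum_add_distrib,
      ← Finset.sum_add_distrib]
    refine Finset.sum_eq_zero (fun p _ => ?_)
    have key : ∀ a b c d z : ZMod 2, (c + d) * z + (a + b) * z + ((b + d) * z + (a + c) * z) = 0 := by
      decide
    exact key _ _ _ _ _
  · intro p _ q _ h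
    simp only [Prod.mk.injEq] at h
    exact Prod.ext h.1 h.2.1
  · intro p _ q _ h
    simp only [Prod.mk.injEq] at h
    exact Prod.ext h.1 h.2.1
  · rw [Finset.disjoint_left]
    rintro ⟨x, y, c⟩ h1 h2
    rw [Finset.mem_image] at h1 h2
    obtain ⟨p, _, hp⟩ := h1
    obtain ⟨q, _, hq⟩ := h2
    simp only [Prod.mk.injEq] at hp hq
    rw [← hp.2.2] at hq
    exact absurd hq.2.2 (by decide)

/-! ### minimality of bases -/

/-- a basis without one of its edges does not connect everything to the root -/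
theorem bases_minimal {V E : Type} [DecidableEq V] [DecidableEq E] {G : MG V E} {S T : Finset E}
    {W : Finset V} (hT : T ∈ G.Bases S W) {e : E} (he : e ∈ T) :
    ∃ w ∈ W, ∀ r, r ∉ W → ¬ G.Conn (T.erase e) w r := by
  by_contra hcon
  push Not at hcon
  obtain ⟨T2, hT2⟩ := bases_nonempty (G := G) (S := T.erase e) (W := W)
    (fun w hw => by obtain ⟨r, h1, h2⟩ := hcon w hw; exact ⟨r, h1, h2⟩)
  rw [MG.mem_Bases] at hT hT2
  have h1 := Finset.card_le_card hT2.1
  have h2 := Finset.card_erase_lt_of_mem he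
  omega

/-- a function which is constant along the edges of `T` -/
theorem conn_const {V E : Type} {G : MG V E} {T : Finset E} {β : Type*} (f : V → β)
    (hf : ∀ e ∈ T, f (G.src e) = f (G.tgt e)) {u v : V} (h : G.Conn T u v) : f u = f v := by
  induction h with
  | refl => rfl
  | tail _ hs ih =>
    obtain ⟨e, he, ⟨h1, h2⟩ | ⟨h1, h2⟩⟩ := hs
    · rw [ih, ← h1, ← h2]; exact hf e he
    · rw [ih, ← h1, ← h2]; exact (hf e he).symm

/-- the two ends of an edge of `T` are connected -/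
theorem conn_edge {V E : Type} {G : MG V E} {T : Finset E} {e : E} (he : e ∈ T) :
    G.Conn T (G.src e) (G.tgt e) := Relation.ReflTransGen.single ⟨e, he, Or.inl ⟨rfl, rfl⟩⟩

/-- duality of spanning trees, membership form -/
theorem cmp_mem_bases {x0 x1 y0 y1 : ℤ} (hx : x0 < x1) (hy : y0 < y1) {v0 : V2}
    (hv0 : v0 ∈ bx x0 x1 y0 y1) {T' : Finset E2}
    (hT' : T' ⊆ eTouch (bx x0 (x1 - 1) y0 (y1 - 1))) :
    cmp (bx x0 x1 y0 y1) T' ∈ L2.Bases (eIn (bx x0 x1 y0 y1)) ((bx x0 x1 y0 y1).erase v0) ↔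
      T' ∈ L2.Bases (eTouch (bx x0 (x1 - 1) y0 (y1 - 1))) (bx x0 (x1 - 1) y0 (y1 - 1)) := by
  classical
  set X := bx x0 x1 y0 y1 with hX
  set F := bx x0 (x1 - 1) y0 (y1 - 1) with hF
  set T := cmp X T' with hTdef
  have hcard := card_cmp hx hy hT'
  have heul := euler_bx hx hy
  rw [← hX] at hcard heul
  rw [← hTdef] at hcard
  rw [← hF] at heul
  have hXe : (X.erase v0).card + 1 = X.card := Finset.card_erase_add_one hv0
  have two : ∀ z : ZMod 2, z + z = 0 := by decide
  have hTS : T ⊆ eIn X := Finset.filter_subset _ _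
  have hdl : ∀ e, e ∈ eIn X → e ∉ T → dl e ∈ T' := by
    intro e he heT
    by_contra h
    exact heT (mem_cmp.2 ⟨he, h⟩)
  constructor
  · intro hT
    have hT1 := MG.mem_Bases.1 hT
    refine MG.mem_Bases.2 ⟨hT', by omega, ?_⟩
    by_contra hcon
    push Not at hcon
    obtain ⟨f0, hf0, hcon⟩ := hcon
    set C : V2 → ZMod 2 := fun f => if ∃ r, r ∉ F ∧ L2.Conn T' f r then 0 else 1 with hC
    have hC0 : ∀ f, f ∉ F → C f = 0 := by
      intro f hf
      rw [hC]; simp only
      rw [if_pos ⟨f, hf, Relation.ReflTransGen.refl⟩]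
    have hCf0 : C f0 = 1 := by
      rw [hC]; simp only
      rw [if_neg]
      rintro ⟨r, h1, h2⟩
      exact hcon r h1 h2
    have hCc : ∀ g ∈ T', C (L2.src g) = C (L2.tgt g) := by
      intro g hg
      rw [hC]; simp only
      refine if_congr ?_ rfl rfl
      constructor
      · rintro ⟨r, h1, h2⟩; exact ⟨r, h1, (conn_edge hg).symm.trans h2⟩
      · rintro ⟨r, h1, h2⟩; exact ⟨r, h1, (conn_edge hg).trans h2⟩
    -- an edge leaving C
    obtain ⟨e, heX, heC⟩ : ∃ e, e ∈ eIn X ∧ C (L2.src (dl e)) + C (L2.tgt (dl e)) = 1 := by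
      -- the complement of the box is reached through touching edges
      have hout : ∃ r, r ∉ F ∧ L2.Conn (eTouch F) f0 r := by
        have hf0' := mem_bx.1 hf0
        have hr : (x0 - 1, f0.2) ∉ F := fun h => by have := mem_bx.1 h; simp only at this; omega
        have hl : (x0, f0.2) ∈ F := mem_bx.2 ⟨le_rfl, by simp only; omega, hf0'.2.2.1, hf0'.2.2.2⟩
        refine ⟨(x0 - 1, f0.2), hr, ?_⟩
        have h1 : L2.Conn (eIn F) f0 (x0, f0.2) := (connIn_box hf0 hl).conn
        have h2 : eIn F ⊆ eTouch F := Finset.filter_subset _ _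
        refine (h1.mono h2).tail ⟨(x0 - 1, f0.2, false), ?_, Or.inr ⟨rfl, ?_⟩⟩
        · rw [mem_eTouch, L2_tgt_false]; right; simpa using hl
        · rw [L2_tgt_false]; simp
      obtain ⟨r, hr, hc⟩ := hout
      obtain ⟨a, b, ha, hb, g, hg, hab⟩ := exists_exit {v : V2 | C v = 1} hc hCf0
        (show ¬ (C r = 1) by rw [hC0 r hr]; decide)
      obtain ⟨e, rfl⟩ := dl_surjective g
      refine ⟨e, (dl_mem_eTouch hx hy e).1 hg, ?_⟩
      have ha' : C a = 1 := ha
      have hb' : C b = 0 := by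
        have h1 : ¬ (C b = 1) := hb
        have h2 : ∀ z : ZMod 2, ¬ z = 1 → z = 0 := by decide
        exact h2 _ h1
      rcases hab with ⟨h1, h2⟩ | ⟨h1, h2⟩
      · rw [h1, h2, ha', hb']; rfl
      · rw [h1, h2, ha', hb']; rfl
    have heT : e ∈ T := by
      by_contra h
      have := hCc _ (hdl e heX h)
      rw [this, two] at heC
      exact absurd heC (by decide)
    obtain ⟨w, hw, hwc⟩ := bases_minimal hT heT
    set A : V2 → ZMod 2 := fun v => if L2.Conn (T.erase e) v0 v then 1 else 0 with hA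
    have hAc : ∀ g ∈ T.erase e, A (L2.src g) = A (L2.tgt g) := by
      intro g hg
      rw [hA]; simp only
      refine if_congr ?_ rfl rfl
      constructor
      · intro h2; exact h2.trans (conn_edge hg)
      · intro h2; exact h2.trans (conn_edge hg).symm
    have hAe : A (L2.src e) + A (L2.tgt e) = 1 := by
      by_contra hne
      have h3 : A (L2.src e) = A (L2.tgt e) := by
        have : ∀ p q : ZMod 2, ¬ p + q = 1 → p = q := by decide
        exact this _ _ hne
      have h4 : ∀ g ∈ T, A (L2.src g) = A (L2.tgt g) := by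
        intro g hg
        by_cases hge : g = e
        · rw [hge]; exact h3
        · exact hAc g (Finset.mem_erase.2 ⟨hge, hg⟩)
      obtain ⟨r, hr, hc⟩ := hT1.2.2 w hw
      have hwX := Finset.mem_of_mem_erase hw
      have hrX : r ∈ X := by
        -- the edges of T stay inside X
        by_contra hrX
        obtain ⟨a, b, ha, hb, g, hg, hab⟩ := exists_exit {v : V2 | v ∈ X} hc hwX hrX
        have hg' := mem_eIn.1 (hTS hg)
        rcases hab with ⟨h1, h2⟩ | ⟨h1, h2⟩
        · rw [h2] at hg'; exact hb hg'.2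
        · rw [h1] at hg'; exact hb hg'.1
      have hrv : r = v0 := by
        by_contra h; exact hr (Finset.mem_erase.2 ⟨h, hrX⟩)
      have h5 := conn_const A h4 hc
      rw [hrv] at h5
      have h6 : A v0 = 1 := by
        rw [hA]; simp only
        exact if_pos Relation.ReflTransGen.refl
      have h7 : A w = 0 := by
        rw [hA]; simp only
        rw [if_neg]
        intro h; exact hwc v0 (Finset.notMem_erase v0 X) h.symm
      rw [h6, h7] at h5
      exact absurd h5 (by decide)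
    have hp := pairing (x0 := x0) (x1 := x1) (y0 := y0) (y1 := y1) A C hC0
    rw [Finset.sum_eq_single e] at hp
    · rw [hAe, heC] at hp; exact absurd hp (by decide)
    · intro g hg hge
      by_cases hgT : g ∈ T
      · rw [hAc g (Finset.mem_erase.2 ⟨hge, hgT⟩), two, zero_mul]
      · rw [hCc _ (hdl g hg hgT), two, mul_zero]
    · intro h; exact absurd heX h
  · intro hT
    have hT1 := MG.mem_Bases.1 hT
    refine MG.mem_Bases.2 ⟨hTS, by omega, ?_⟩
    by_contra hcon
    push Not at hcon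
    obtain ⟨w0, hw0, hcon⟩ := hcon
    have hw0X := Finset.mem_of_mem_erase hw0
    set A : V2 → ZMod 2 := fun v => if L2.Conn T v0 v then 1 else 0 with hA
    have hAc : ∀ g ∈ T, A (L2.src g) = A (L2.tgt g) := by
      intro g hg
      rw [hA]; simp only
      refine if_congr ?_ rfl rfl
      constructor
      · intro h2; exact h2.trans (conn_edge hg)
      · intro h2; exact h2.trans (conn_edge hg).symm
    have hA1 : A v0 = 1 := by
      rw [hA]; simp only
      exact if_pos Relation.ReflTransGen.refl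
    have hA0 : A w0 = 0 := by
      rw [hA]; simp only
      rw [if_neg]
      intro h; exact hcon v0 (Finset.notMem_erase v0 X) h.symm
    obtain ⟨e, heX, heA⟩ : ∃ e, e ∈ eIn X ∧ A (L2.src e) + A (L2.tgt e) = 1 := by
      obtain ⟨a, b, ha, hb, e, he, hab⟩ := exists_exit {v : V2 | A v = 1}
        (connIn_box hv0 hw0X).conn hA1 (show ¬ (A w0 = 1) by rw [hA0]; decide)
      refine ⟨e, he, ?_⟩
      have ha' : A a = 1 := ha
      have hb' : A b = 0 := by
        have h1 : ¬ (A b = 1) := hb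
        have h2 : ∀ z : ZMod 2, ¬ z = 1 → z = 0 := by decide
        exact h2 _ h1
      rcases hab with ⟨h1, h2⟩ | ⟨h1, h2⟩
      · rw [h1, h2, ha', hb']; rfl
      · rw [h1, h2, ha', hb']; rfl
    have heT : e ∉ T := by
      intro h
      have := hAc e h
      rw [this, two] at heA
      exact absurd heA (by decide)
    have hde := hdl e heX heT
    obtain ⟨f0, hf0, hf0c⟩ := bases_minimal hT hde
    set C : V2 → ZMod 2 := fun f => if ∃ r, r ∉ F ∧ L2.Conn (T'.erase (dl e)) f r then 0 else 1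
      with hC
    have hC0 : ∀ f, f ∉ F → C f = 0 := by
      intro f hf
      rw [hC]; simp only
      rw [if_pos ⟨f, hf, Relation.ReflTransGen.refl⟩]
    have hCf0 : C f0 = 1 := by
      rw [hC]; simp only
      rw [if_neg]
      rintro ⟨r, h1, h2⟩
      exact hf0c r h1 h2
    have hCc : ∀ g ∈ T'.erase (dl e), C (L2.src g) = C (L2.tgt g) := by
      intro g hg
      rw [hC]; simp only
      refine if_congr ?_ rfl rfl
      constructor
      · rintro ⟨r, h1, h2⟩; exact ⟨r, h1, (conn_edge hg).symm.trans h2⟩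
      · rintro ⟨r, h1, h2⟩; exact ⟨r, h1, (conn_edge hg).trans h2⟩
    have heC : C (L2.src (dl e)) + C (L2.tgt (dl e)) = 1 := by
      by_contra hne
      have h3 : C (L2.src (dl e)) = C (L2.tgt (dl e)) := by
        have : ∀ p q : ZMod 2, ¬ p + q = 1 → p = q := by decide
        exact this _ _ hne
      have h4 : ∀ g ∈ T', C (L2.src g) = C (L2.tgt g) := by
        intro g hg
        by_cases hge : g = dl e
        · rw [hge]; exact h3
        · exact hCc g (Finset.mem_erase.2 ⟨hge, hg⟩)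
      obtain ⟨r, hr, hc⟩ := hT1.2.2 f0 hf0
      have h5 := conn_const C h4 hc
      rw [hCf0, hC0 r hr] at h5
      exact absurd h5 (by decide)
    have hp := pairing (x0 := x0) (x1 := x1) (y0 := y0) (y1 := y1) A C hC0
    rw [Finset.sum_eq_single e] at hp
    · rw [heA, heC] at hp; exact absurd hp (by decide)
    · intro g hg hge
      by_cases hgT : g ∈ T
      · rw [hAc g hgT, two, zero_mul]
      · have h8 : dl g ≠ dl e := fun h => hge (dl_injective h)
        rw [hCc _ (Finset.mem_erase.2 ⟨h8, hdl g hg hgT⟩), two, mul_zero]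
    · intro h; exact absurd heX h

/-- every spanning tree of the box is the complement of a dual configuration -/
theorem exists_cmp {x0 x1 y0 y1 : ℤ} (hx : x0 < x1) (hy : y0 < y1) {T : Finset E2}
    (hT : T ⊆ eIn (bx x0 x1 y0 y1)) :
    ∃ T' ⊆ eTouch (bx x0 (x1 - 1) y0 (y1 - 1)), cmp (bx x0 x1 y0 y1) T' = T := by
  classical
  refine ⟨(eIn (bx x0 x1 y0 y1) \ T).image dl, ?_, ?_⟩
  · intro g hg
    obtain ⟨e, he, rfl⟩ := Finset.mem_image.1 hg
    exact (dl_mem_eTouch hx hy e).2 (Finset.mem_sdiff.1 he).1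
  · ext e
    rw [mem_cmp]
    constructor
    · rintro ⟨h1, h2⟩
      by_contra h
      exact h2 (Finset.mem_image_of_mem dl (Finset.mem_sdiff.2 ⟨h1, h⟩))
    · intro h
      refine ⟨hT h, fun h2 => ?_⟩
      obtain ⟨e', he', h3⟩ := Finset.mem_image.1 h2
      rw [dl_injective h3] at he'
      exact (Finset.mem_sdiff.1 he').2 h

/-- `cmp` is injective on the configurations of the dual box -/
theorem cmp_injOn {x0 x1 y0 y1 : ℤ} (hx : x0 < x1) (hy : y0 < y1) {T' T'' : Finset E2}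
    (h' : T' ⊆ eTouch (bx x0 (x1 - 1) y0 (y1 - 1)))
    (h'' : T'' ⊆ eTouch (bx x0 (x1 - 1) y0 (y1 - 1)))
    (h : cmp (bx x0 x1 y0 y1) T' = cmp (bx x0 x1 y0 y1) T'') : T' = T'' := by
  ext g
  obtain ⟨e, rfl⟩ := dl_surjective g
  by_cases he : e ∈ eIn (bx x0 x1 y0 y1)
  · have h1 : e ∈ cmp (bx x0 x1 y0 y1) T' ↔ e ∈ cmp (bx x0 x1 y0 y1) T'' := by rw [h]
    rw [mem_cmp, mem_cmp] at h1
    tauto
  · constructor
    · intro h1; exact absurd ((dl_mem_eTouch hx hy e).1 (h' h1)) he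
    · intro h1; exact absurd ((dl_mem_eTouch hx hy e).1 (h'' h1)) he

/-- duality of spanning trees: the free uniform spanning tree of the box is the complement of the
wired uniform spanning tree of the dual box -/
theorem pr_dual {x0 x1 y0 y1 : ℤ} (hx : x0 < x1) (hy : y0 < y1) {v0 : V2}
    (hv0 : v0 ∈ bx x0 x1 y0 y1) (A : Finset E2 → Prop) :
    L2.pr (eIn (bx x0 x1 y0 y1)) ((bx x0 x1 y0 y1).erase v0) A =
      L2.pr (eTouch (bx x0 (x1 - 1) y0 (y1 - 1))) (bx x0 (x1 - 1) y0 (y1 - 1))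
        (fun T' => A (cmp (bx x0 x1 y0 y1) T')) := by
  classical
  have key : ∀ B : Finset E2 → Prop,
      ((L2.Bases (eIn (bx x0 x1 y0 y1)) ((bx x0 x1 y0 y1).erase v0)).filter B).card =
      ((L2.Bases (eTouch (bx x0 (x1 - 1) y0 (y1 - 1))) (bx x0 (x1 - 1) y0 (y1 - 1))).filter
        (fun T' => B (cmp (bx x0 x1 y0 y1) T'))).card := by
    intro B
    symm
    refine Finset.card_bij (fun T' _ => cmp (bx x0 x1 y0 y1) T') ?_ ?_ ?_
    · intro T' hT'
      rw [Finset.mem_filter] at hT' ⊢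
      exact ⟨(cmp_mem_bases hx hy hv0 (MG.mem_Bases.1 hT'.1).1).2 hT'.1, hT'.2⟩
    · intro T' hT' T'' hT'' h
      rw [Finset.mem_filter] at hT' hT''
      exact cmp_injOn hx hy (MG.mem_Bases.1 hT'.1).1 (MG.mem_Bases.1 hT''.1).1 h
    · intro T hT
      rw [Finset.mem_filter] at hT
      obtain ⟨T', hT', rfl⟩ := exists_cmp hx hy (MG.mem_Bases.1 hT.1).1
      exact ⟨T', Finset.mem_filter.2 ⟨(cmp_mem_bases hx hy hv0 hT').1 hT.1, hT.2⟩, rfl⟩
  unfold MG.pr MG.cnt
  have k1 := key A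
  have k2 := key (fun _ => True)
  simp only [Finset.filter_true] at k2
  rw [k1, k2]

end Pool.Agent.UST
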