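import Pool.Agent.UST.WIR
import Pool.Agent.UST.TD

set_option autoImplicit false

/-!
Basic facts on rooted spanning forests (`Bases S W`), for every multigraph. (`bases_nonempty`: WIR; `bases_minimal`: TD;
`bases_touch`: MONO.)

Proofs. `card_le_of_conn`: if `|T| < |W|`: `bases_nonempty` (WIR) with `S := T` gives a basis `T0 ⊆ T` with `|T0| = |W|`.
`root_unique`: if `r ≠ r'` were connected apply `card_le_of_conn` to `W' = W ∪ {r}`: every vertex of `W'` is connected to a
root outside `W'` (`r` to `r'`; a `w` connected to `r` also to `r'`), so `|W| + 1 ≤ |T|`, contradiction. `root_indep`: both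
sides say `|T| = |X| - 1` and `(X, T)` is connected (all edges have their end points in `X`). `no_loop`: `bases_minimal`
(removing a loop does not change connections).
-/

namespace Pool.Agent.UST

variable {V E : Type} [DecidableEq V] [DecidableEq E] (G : MG V E)

theorem card_le_of_conn {T : Finset E} {W : Finset V}
    (h : ∀ w ∈ W, ∃ r, r ∉ W ∧ G.Conn T w r) : W.card ≤ T.card := by
  obtain ⟨T0, hT0⟩ := bases_nonempty (G := G) (S := T) (W := W) h
  rw [MG.mem_Bases] at hT0
  rw [← hT0.2.1]
  exact Finset.card_le_card hT0.1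

theorem root_unique {S T : Finset E} {W : Finset V} (hT : T ∈ G.Bases S W) {r r' : V}
    (hr : r ∉ W) (hr' : r' ∉ W) (h : G.Conn T r r') : r = r' := by
  by_contra hne
  have hT' := MG.mem_Bases.1 hT
  have hr2 : r' ∉ insert r W := by
    rw [Finset.mem_insert]
    rintro (h1 | h1)
    · exact hne h1.symm
    · exact hr' h1
  have h1 : (insert r W).card ≤ T.card := by
    refine card_le_of_conn G fun w hw => ?_
    rcases Finset.mem_insert.1 hw with rfl | hw
    · exact ⟨r', hr2, h⟩
    · obtain ⟨s, hs, hc⟩ := hT'.2.2 w hw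
      by_cases hsr : s = r
      · subst hsr
        exact ⟨r', hr2, hc.trans h⟩
      · refine ⟨s, ?_, hc⟩
        rw [Finset.mem_insert]
        rintro (h1 | h1)
        · exact hsr h1
        · exact hs h1
  rw [Finset.card_insert_of_notMem hr] at h1
  omega

theorem no_loop {S T : Finset E} {W : Finset V} (hT : T ∈ G.Bases S W) {e : E} (he : e ∈ T) :
    G.src e ≠ G.tgt e := by
  intro hl
  obtain ⟨w, hw, hc⟩ := bases_minimal hT he
  obtain ⟨r, hr, hc2⟩ := (MG.mem_Bases.1 hT).2.2 w hw
  refine hc r hr ?_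
  have key : ∀ b, G.Conn T w b → G.Conn (T.erase e) w b := by
    intro b hb
    induction hb with
    | refl => exact Relation.ReflTransGen.refl
    | @tail b c _ hs ih =>
      obtain ⟨g, hg, hbc⟩ := hs
      by_cases hge : g = e
      · subst hge
        have : b = c := by
          rcases hbc with ⟨h1, h2⟩ | ⟨h1, h2⟩
          · rw [← h1, ← h2, hl]
          · rw [← h1, ← h2, hl]
        rw [← this]
        exact ih
      · exact ih.tail ⟨g, Finset.mem_erase.2 ⟨hge, hg⟩, hbc⟩
  exact key r hc2

omit [DecidableEq V] [DecidableEq E] in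
/-- edges inside `X` do not leave `X` -/
theorem conn_inside {S : Finset E} {X : Finset V} (hS : ∀ e ∈ S, G.src e ∈ X ∧ G.tgt e ∈ X)
    {u v : V} (hu : u ∈ X) (h : G.Conn S u v) : v ∈ X := by
  induction h with
  | refl => exact hu
  | tail _ hs _ =>
    obtain ⟨g, hg, ⟨_, h2⟩ | ⟨h1, _⟩⟩ := hs
    · rw [← h2]; exact (hS g hg).2
    · rw [← h1]; exact (hS g hg).1

private theorem root_indep_aux {S : Finset E} {X : Finset V}
    (hS : ∀ e ∈ S, G.src e ∈ X ∧ G.tgt e ∈ X) {x y : V} (hx : x ∈ X) (hy : y ∈ X) {T : Finset E}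
    (hT : T ∈ G.Bases S (X.erase x)) : T ∈ G.Bases S (X.erase y) := by
  rw [MG.mem_Bases] at hT ⊢
  have hcard : (X.erase x).card = (X.erase y).card := by
    rw [Finset.card_erase_of_mem hx, Finset.card_erase_of_mem hy]
  have hTX : ∀ e ∈ T, G.src e ∈ X ∧ G.tgt e ∈ X := fun e he => hS e (hT.1 he)
  have hall : ∀ v ∈ X, G.Conn T v x := by
    intro v hv
    by_cases hvx : v = x
    · subst hvx; exact Relation.ReflTransGen.refl
    · obtain ⟨r, hr, hc⟩ := hT.2.2 v (Finset.mem_erase.2 ⟨hvx, hv⟩)
      have hrX := conn_inside G hTX hv hc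
      have : r = x := by
        by_contra h
        exact hr (Finset.mem_erase.2 ⟨h, hrX⟩)
      rw [← this]; exact hc
  refine ⟨hT.1, by rw [hT.2.1, hcard], fun w hw => ⟨y, Finset.notMem_erase y X, ?_⟩⟩
  exact (hall w (Finset.mem_of_mem_erase hw)).trans (hall y hy).symm

theorem root_indep {S : Finset E} {X : Finset V} (hS : ∀ e ∈ S, G.src e ∈ X ∧ G.tgt e ∈ X)
    {x y : V} (hx : x ∈ X) (hy : y ∈ X) : G.Bases S (X.erase x) = G.Bases S (X.erase y) := by
  ext T
  exact ⟨root_indep_aux G hS hx hy, root_indep_aux G hS hy hx⟩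

end Pool.Agent.UST
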