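import Pool.Agent.UST.Defs

set_option autoImplicit false

/-!
Chains modulo 2 and the function `sg` (parity of the number of horizontal edges below a face).

Proofs. `dg_L2`: the edges with exactly one end point `(x,y)` are the four edges at `(x,y)` (no loops).
`chain_of_conn`: induction on the walk; symmetric difference with the last edge (`dg` of a symmetric difference is the sum
modulo 2; with the singleton `{e}`: `dg` is one exactly at the two end points). `sg_vert`: the filter for `(i,j)` is the
filter for `(i, j-1)` plus possibly `(i,j,false)`. `sg_horz`: sum of `dg P (i,y)` over `y ≤ j` (finitely many `y` with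
`P`-edges; sum over `Finset.Icc N j` with `N` below everything): `h(i,y) + h(i-1,y) + v(i,y) + v(i,y-1)`, the vertical part
telescopes modulo 2 to `v(i,j)`. `sg_top`: `N_i :=` number of horizontal edges of `P` in the column `i`, `= sg P (i,y)` for
`y ≥ y1`. `N_{x0}` is odd: sum of `dg P (x0, y)` over all `y` (no edges to the left of `x0`; vertical edges are counted
twice; the end point `u` has first coordinate `x0`, the end point `v` does not). Then `sg_horz` for the other columns.
-/

namespace Pool.Agent.UST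

private theorem L2_noloop (e : E2) : L2.src e ≠ L2.tgt e := by
  obtain ⟨x, y, b⟩ := e
  cases b
  · rw [L2_tgt_false, L2_src]
    intro h
    rw [Prod.mk.injEq] at h
    omega
  · rw [L2_tgt_true, L2_src]
    intro h
    rw [Prod.mk.injEq] at h
    omega

private theorem ends_iff (e : E2) (x y : ℤ) :
    ((L2.src e = (x, y) ∧ L2.tgt e ≠ (x, y)) ∨ (L2.src e ≠ (x, y) ∧ L2.tgt e = (x, y))) ↔
      e ∈ ({(x, y, false), (x - 1, y, false), (x, y, true), (x, y - 1, true)} : Finset E2) := by
  obtain ⟨a, b, c⟩ := e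
  rw [Finset.mem_insert, Finset.mem_insert, Finset.mem_insert, Finset.mem_singleton]
  cases c
  · rw [L2_tgt_false, L2_src]
    simp only [Prod.mk.injEq, Ne, reduceCtorEq, and_false, or_false, and_true]
    omega
  · rw [L2_tgt_true, L2_src]
    simp only [Prod.mk.injEq, Ne, reduceCtorEq, and_false, false_or, and_true]
    omega

theorem dg_L2 (P : Finset E2) (x y : ℤ) :
    L2.dg P (x, y) = (if (x, y, false) ∈ P then 1 else 0) + (if (x - 1, y, false) ∈ P then 1 else 0)
      + (if (x, y, true) ∈ P then 1 else 0) + (if (x, y - 1, true) ∈ P then 1 else 0) := by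
  classical
  unfold MG.dg
  have key : ∀ S : Finset E2, (∀ e, e ∈ S ↔ e ∈ P ∧ ((L2.src e = (x, y) ∧ L2.tgt e ≠ (x, y)) ∨
      (L2.src e ≠ (x, y) ∧ L2.tgt e = (x, y)))) →
      S.card = (if (x, y, false) ∈ P then 1 else 0) + (if (x - 1, y, false) ∈ P then 1 else 0)
      + (if (x, y, true) ∈ P then 1 else 0) + (if (x, y - 1, true) ∈ P then 1 else 0) := by
    intro S hS
    have h1 : S =
        ({(x, y, false), (x - 1, y, false), (x, y, true), (x, y - 1, true)} : Finset E2).filter
        (fun e => e ∈ P) := by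
      ext e
      rw [hS, Finset.mem_filter, ends_iff]
      exact and_comm
    rw [h1, Finset.card_filter, Finset.sum_insert, Finset.sum_insert, Finset.sum_insert,
      Finset.sum_singleton, ← add_assoc, ← add_assoc]
    · simp only [Finset.mem_singleton, Prod.mk.injEq, and_true]; omega
    · simp
    · simp only [Finset.mem_insert, Finset.mem_singleton, Prod.mk.injEq, and_true, reduceCtorEq,
        and_false, or_false]
      omega
  refine key _ fun e => ?_
  simp only [Finset.mem_filter]

private theorem dg_symm (P Q : Finset E2) (w : V2) :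
    L2.dg (symmDiff P Q) w % 2 = (L2.dg P w + L2.dg Q w) % 2 := by
  obtain ⟨x, y⟩ := w
  have key : ∀ e : E2, ((if e ∈ symmDiff P Q then 1 else 0) : ℕ) % 2 =
      ((if e ∈ P then 1 else 0) + (if e ∈ Q then 1 else 0)) % 2 := by
    intro e
    by_cases h1 : e ∈ P <;> by_cases h2 : e ∈ Q <;> simp [Finset.mem_symmDiff, h1, h2]
  rw [dg_L2, dg_L2, dg_L2]
  have k1 := key (x, y, false)
  have k2 := key (x - 1, y, false)
  have k3 := key (x, y, true)
  have k4 := key (x, y - 1, true)
  omega

private theorem dg_single (e : E2) (w : V2) :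
    L2.dg {e} w = (if w = L2.src e then 1 else 0) + (if w = L2.tgt e then 1 else 0) := by
  classical
  have hl := L2_noloop e
  unfold MG.dg
  rw [Finset.filter_singleton]
  by_cases h1 : w = L2.src e
  · have h2 : w ≠ L2.tgt e := by rw [h1]; exact hl
    rw [if_pos h1, if_neg h2, if_pos (Or.inl ⟨h1.symm, h2.symm⟩), Finset.card_singleton]
  · rw [if_neg h1]
    by_cases h2 : w = L2.tgt e
    · rw [if_pos h2, if_pos (Or.inr ⟨Ne.symm h1, h2.symm⟩), Finset.card_singleton]
    · rw [if_neg h2, if_neg, Finset.card_empty]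
      rintro (⟨h3, _⟩ | ⟨_, h3⟩)
      · exact h1 h3.symm
      · exact h2 h3.symm

theorem chain_of_conn {T : Finset E2} {X : Set V2} {u v : V2} (h : L2.ConnIn T X u v) :
    ∃ P ⊆ T, (∀ e ∈ P, L2.src e ∈ X ∧ L2.tgt e ∈ X) ∧ Bd P u v := by
  induction h with
  | refl =>
    refine ⟨∅, Finset.empty_subset _, by simp, ?_⟩
    intro w
    have h1 : L2.dg ∅ w = 0 := by unfold MG.dg; simp
    rw [h1]
    split_ifs <;> rfl
  | @tail w v _ hstep ih =>
    obtain ⟨P, hPT, hPX, hB⟩ := ih
    obtain ⟨⟨e, heT, he⟩, hw, hv⟩ := hstep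
    refine ⟨symmDiff P {e}, ?_, ?_, ?_⟩
    · intro a ha
      rw [Finset.mem_symmDiff, Finset.mem_singleton] at ha
      rcases ha with ⟨h1, _⟩ | ⟨h1, _⟩
      · exact hPT h1
      · rw [h1]; exact heT
    · intro a ha
      rw [Finset.mem_symmDiff, Finset.mem_singleton] at ha
      rcases ha with ⟨h1, _⟩ | ⟨h1, _⟩
      · exact hPX a h1
      · rw [h1]
        rcases he with ⟨h2, h3⟩ | ⟨h2, h3⟩
        · rw [h2, h3]; exact ⟨hw, hv⟩
        · rw [h2, h3]; exact ⟨hv, hw⟩
    · intro x
      have h1 := dg_symm P {e} x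
      have h2 := hB x
      have h3 := dg_single e x
      have h4 : ((if x = L2.src e then 1 else 0) + (if x = L2.tgt e then 1 else 0) : ℕ) =
          (if x = w then 1 else 0) + (if x = v then 1 else 0) := by
        rcases he with ⟨h5, h6⟩ | ⟨h5, h6⟩
        · rw [h5, h6]
        · rw [h5, h6, add_comm]
      rw [h4] at h3
      rw [h3] at h1
      omega

theorem sg_vert (P : Finset E2) (i j : ℤ) :
    sg P (i, j) = sg P (i, j - 1) + if (i, j, false) ∈ P then 1 else 0 := by
  unfold sg
  by_cases h : (i, j, false) ∈ P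
  · rw [if_pos h]
    have h1 : (P.filter fun e => e.2.2 = false ∧ e.1 = (i, j).1 ∧ e.2.1 ≤ (i, j).2) =
        insert (i, j, false) (P.filter fun e => e.2.2 = false ∧ e.1 = (i, j - 1).1 ∧
          e.2.1 ≤ (i, j - 1).2) := by
      ext ⟨a, b, c⟩
      simp only [Finset.mem_filter, Finset.mem_insert, Prod.mk.injEq]
      constructor
      · rintro ⟨h2, h3, h4, h5⟩
        by_cases h6 : b = j
        · left; exact ⟨h4, h6, h3⟩
        · right; exact ⟨h2, h3, h4, by omega⟩
      · rintro (⟨rfl, rfl, rfl⟩ | ⟨h2, h3, h4, h5⟩)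
        · exact ⟨h, rfl, rfl, le_rfl⟩
        · exact ⟨h2, h3, h4, by omega⟩
    rw [h1, Finset.card_insert_of_notMem]
    simp only [Finset.mem_filter, not_and]
    intro _ _ _
    omega
  · rw [if_neg h, add_zero]
    congr 1
    ext ⟨a, b, c⟩
    simp only [Finset.mem_filter]
    constructor
    · rintro ⟨h2, h3, h4, h5⟩
      refine ⟨h2, h3, h4, ?_⟩
      rcases eq_or_lt_of_le h5 with h6 | h6
      · exact absurd (by rw [← h4, ← h6, ← h3]; exact h2) h
      · omega
    · rintro ⟨h2, h3, h4, h5⟩
      exact ⟨h2, h3, h4, by omega⟩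

private theorem sg_add (P : Finset E2) (i j : ℤ) :
    (sg P (i, j) + sg P (i - 1, j) + if (i, j, true) ∈ P then 1 else 0) % 2 =
      ((sg P (i, j - 1) + sg P (i - 1, j - 1) + if (i, j - 1, true) ∈ P then 1 else 0) +
        L2.dg P (i, j)) % 2 := by
  have h1 := sg_vert P i j
  have h2 := sg_vert P (i - 1) j
  have h3 := dg_L2 P i j
  rw [h1, h2, h3]
  omega

private theorem low_bound (P : Finset E2) : ∃ N : ℤ, ∀ e ∈ P, N ≤ e.2.1 := by
  obtain ⟨N, hN⟩ := (P.image fun e => -e.2.1).exists_le
  refine ⟨-N, fun e he => ?_⟩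
  have h1 := hN _ (Finset.mem_image_of_mem (fun e => -e.2.1) he)
  omega

private theorem sg_zero {P : Finset E2} {N : ℤ} (hN : ∀ e ∈ P, N ≤ e.2.1) {i j : ℤ} (hj : j < N) :
    sg P (i, j) = 0 := by
  unfold sg
  rw [Finset.card_eq_zero, Finset.filter_eq_empty_iff]
  rintro e he ⟨_, _, h3⟩
  have := hN e he
  simp only at h3
  omega

theorem sg_horz (P : Finset E2) (i j : ℤ) (h : ∀ y ≤ j, L2.dg P (i, y) % 2 = 0) :
    (sg P (i, j) + sg P (i - 1, j) + if (i, j, true) ∈ P then 1 else 0) % 2 = 0 := by
  obtain ⟨N, hN⟩ := low_bound P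
  have base : ∀ k : ℤ, k < N →
      (sg P (i, k) + sg P (i - 1, k) + if (i, k, true) ∈ P then 1 else 0) % 2 = 0 := by
    intro k hk
    rw [sg_zero hN hk, sg_zero hN hk, if_neg]
    intro h1
    have := hN _ h1
    simp only at this
    omega
  rcases lt_or_ge j N with h1 | h1
  · exact base j h1
  · have key : ∀ k : ℤ, N ≤ k → k ≤ j →
        (sg P (i, k) + sg P (i - 1, k) + if (i, k, true) ∈ P then 1 else 0) % 2 = 0 := by
      intro k hk
      induction k, hk using Int.leInduction with
      | base =>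
        intro hNj
        rw [sg_add]
        have h2 := base (N - 1) (by omega)
        have h3 := h N hNj
        omega
      | succ k hk ih =>
        intro hkj
        rw [sg_add, add_sub_cancel_right]
        have h2 := ih (by omega)
        have h3 := h (k + 1) hkj
        omega
    exact key j h1 le_rfl

/-- the same with exactly one odd point -/
private theorem sg_horz_odd (P : Finset E2) (i y' : ℤ)
    (h : ∀ y, L2.dg P (i, y) % 2 = if y = y' then 1 else 0) (j : ℤ) (hj : y' ≤ j) :
    (sg P (i, j) + sg P (i - 1, j) + if (i, j, true) ∈ P then 1 else 0) % 2 = 1 := by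
  induction j, hj using Int.leInduction with
  | base =>
    rw [sg_add]
    have h2 := sg_horz P i (y' - 1) (fun y hy => by rw [h y, if_neg (by omega)])
    have h3 := h y'
    rw [if_pos rfl] at h3
    omega
  | succ k hk ih =>
    rw [sg_add, add_sub_cancel_right]
    have h3 := h (k + 1)
    rw [if_neg (by omega)] at h3
    omega

private theorem chain_box {T P : Finset E2} {x0 x1 y0 y1 : ℤ} (hP : CrChain T x0 x1 y0 y1 P)
    {a b : ℤ} {c : Bool} (he : (a, b, c) ∈ P) :
    (x0 ≤ a ∧ a ≤ x1 ∧ y0 ≤ b ∧ b ≤ y1) ∧ (c = true → b + 1 ≤ y1) ∧ (c = false → a + 1 ≤ x1) := by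
  have h1 := hP.2.1 he
  rw [mem_eIn, L2_src] at h1
  obtain ⟨h2, h3⟩ := h1
  rw [mem_bx] at h2
  refine ⟨h2, ?_, ?_⟩
  · rintro rfl
    rw [L2_tgt_true, mem_bx] at h3
    exact h3.2.2.2
  · rintro rfl
    rw [L2_tgt_false, mem_bx] at h3
    exact h3.2.1

/-- below the rectangle -/
theorem sg_low {T P : Finset E2} {x0 x1 y0 y1 : ℤ} (hP : CrChain T x0 x1 y0 y1 P) {f : V2}
    (hf : f.2 < y0) : sg P f = 0 := by
  obtain ⟨i, j⟩ := f
  refine sg_zero (N := y0) ?_ hf
  rintro ⟨a, b, c⟩ he
  exact (chain_box hP he).1.2.2.1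

private theorem chain_even' {T P : Finset E2} {x0 x1 y0 y1 : ℤ} (hP : CrChain T x0 x1 y0 y1 P)
    {i y : ℤ} (h0 : x0 < i) (h1 : i < x1) : L2.dg P (i, y) % 2 = 0 := by
  obtain ⟨_, _, u, v, hu, hv, hB⟩ := hP
  rw [hB (i, y), if_neg, if_neg]
  · rintro rfl
    simp only at hv
    omega
  · rintro rfl
    simp only at hu
    omega

/-- above the rectangle -/
theorem sg_top {T P : Finset E2} {x0 x1 y0 y1 : ℤ} (hx : x0 < x1) (hP : CrChain T x0 x1 y0 y1 P)
    {f : V2} (h0 : x0 ≤ f.1) (h1 : f.1 ≤ x1 - 1) (hf : y1 ≤ f.2) : sg P f % 2 = 1 := by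
  obtain ⟨i, j⟩ := f
  simp only at h0 h1 hf
  have hv0 : ∀ k : ℤ, (k, j, true) ∉ P := by
    intro k hk
    have := (chain_box hP hk).2.1 rfl
    omega
  induction i, h0 using Int.leInduction with
  | base =>
    have hP' := hP
    obtain ⟨_, _, u, v, hu, hv, hB⟩ := hP'
    have hodd : L2.dg P u % 2 = 1 := by
      rw [hB u, if_pos rfl, if_neg]
      rintro rfl
      omega
    obtain ⟨u1, u2⟩ := u
    simp only at hu
    subst hu
    have hu2 : u2 ≤ y1 := by
      rw [dg_L2] at hodd
      by_contra hcon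
      rw [if_neg, if_neg, if_neg, if_neg] at hodd
      · omega
      · intro he
        have := (chain_box hP he).2.1 rfl
        omega
      · intro he
        have := (chain_box hP he).1.2.2.2
        omega
      · intro he
        have := (chain_box hP he).1.2.2.2
        omega
      · intro he
        have := (chain_box hP he).1.2.2.2
        omega
    have h2 := sg_horz_odd P u1 u2 (fun y => by
      rw [hB (u1, y)]
      have h3 : (u1, y) ≠ v := by
        rintro rfl
        simp only at hv
        omega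
      rw [if_neg h3, add_zero]
      by_cases h4 : y = u2
      · rw [h4, if_pos rfl, if_pos rfl]
      · rw [if_neg h4, if_neg]
        intro h5
        rw [Prod.mk.injEq] at h5
        exact h4 h5.2) j (by omega)
    have h3 : sg P (u1 - 1, j) = 0 := by
      unfold sg
      rw [Finset.card_eq_zero, Finset.filter_eq_empty_iff]
      rintro ⟨a, b, c⟩ he ⟨_, h5, _⟩
      have := (chain_box hP he).1.1
      simp only at h5
      omega
    rw [h3, if_neg (hv0 _)] at h2
    omega
  | succ k hk ih =>
    have h2 := sg_horz P (k + 1) j (fun y _ => chain_even' hP (by omega) (by omega))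
    rw [if_neg (hv0 _), add_sub_cancel_right] at h2
    have h3 := ih (by omega)
    omega

/-- the chain has no boundary in the columns strictly between `x0` and `x1` -/
theorem chain_even {T P : Finset E2} {x0 x1 y0 y1 : ℤ} (hP : CrChain T x0 x1 y0 y1 P) {i y : ℤ}
    (h0 : x0 < i) (h1 : i < x1) : L2.dg P (i, y) % 2 = 0 := chain_even' hP h0 h1

/-- a dual step that does not cross `P` inside the columns `x0, ..., x1 - 1` does not change the parity -/
theorem sg_step {T P T' : Finset E2} {x0 x1 y0 y1 : ℤ} (hP : CrChain T x0 x1 y0 y1 P)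
    (hd : ∀ e ∈ P, dl e ∉ T') {f g : V2} (hs : L2.Step T' f g) (hf0 : x0 ≤ f.1)
    (hf1 : f.1 ≤ x1 - 1) (hg0 : x0 ≤ g.1) (hg1 : g.1 ≤ x1 - 1) : sg P f % 2 = sg P g % 2 := by
  have key : ∀ (a b : ℤ) (c : Bool), (a, b, c) ∈ T' → x0 ≤ a → L2.src (a, b, c) = (a, b) →
      (L2.tgt (a, b, c)).1 ≤ x1 - 1 → sg P (a, b) % 2 = sg P (L2.tgt (a, b, c)) % 2 := by
    intro a b c he ha _ ht
    cases c
    · rw [L2_tgt_false] at ht ⊢
      simp only at ht
      have h1 : (a + 1, b, true) ∉ P := by
        intro h2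
        apply hd _ h2
        rw [dl_true, add_sub_cancel_right]
        exact he
      have h2 := sg_horz P (a + 1) b (fun y _ => chain_even hP (by omega) (by omega))
      rw [if_neg h1, add_sub_cancel_right] at h2
      omega
    · rw [L2_tgt_true]
      have h1 : (a, b + 1, false) ∉ P := by
        intro h2
        apply hd _ h2
        rw [dl_false, add_sub_cancel_right]
        exact he
      have h2 := sg_vert P a (b + 1)
      rw [if_neg h1, add_sub_cancel_right, add_zero] at h2
      rw [h2]
  obtain ⟨⟨a, b, c⟩, he, h1⟩ := hs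
  rcases h1 with ⟨h2, h3⟩ | ⟨h2, h3⟩
  · rw [← h2, ← h3]
    rw [← h2] at hf0
    rw [← h3] at hg1
    exact key a b c he hf0 rfl hg1
  · rw [← h2, ← h3]
    rw [← h2] at hg0
    rw [← h3] at hf1
    exact (key a b c he hg0 rfl hf1).symm

end Pool.Agent.UST
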