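import Mathlib
import Pool.Agent.UST.TD

/-!
Project UST, module MONO: monotonicity in the domain of the wired and of the free uniform spanning
tree, and the comparison of the wired and the free tree of a box.
-/

namespace Pool.Agent.UST

open Finset

section general

variable {V E : Type} {G : MG V E} [DecidableEq V] [DecidableEq E]

/-- an edge of a basis touches `W` -/
theorem bases_touch {S T : Finset E} {W : Finset V} (hT : T ∈ G.Bases S W) {e : E} (he : e ∈ T) :
    G.src e ∈ W ∨ G.tgt e ∈ W := by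
  by_contra hcon
  push Not at hcon
  obtain ⟨w, hw, hwc⟩ := bases_minimal hT he
  obtain ⟨r, hr, hc⟩ := (MG.mem_Bases.1 hT).2.2 w hw
  have key : ∀ b, G.Conn T w b → G.Conn (T.erase e) w b ∨ ∃ r', r' ∉ W ∧ G.Conn (T.erase e) w r' := by
    intro b hb
    induction hb with
    | refl => exact Or.inl Relation.ReflTransGen.refl
    | @tail b c _ hs ih =>
      rcases ih with ih | ih
      · obtain ⟨g, hg, hbc⟩ := hs
        by_cases hge : g = e
        · subst hge
          rcases hbc with ⟨h1, h2⟩ | ⟨h1, h2⟩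
          · exact Or.inr ⟨b, by rw [← h1]; exact hcon.1, ih⟩
          · exact Or.inr ⟨b, by rw [← h2]; exact hcon.2, ih⟩
        · exact Or.inl (ih.tail ⟨g, Finset.mem_erase.2 ⟨hge, hg⟩, hbc⟩)
      · exact Or.inr ih
  rcases key r hc with h | ⟨r', h1, h2⟩
  · exact hwc r hr h
  · exact hwc r' h1 h2

/-- edges which do not touch `W` play no role -/
theorem bases_congr_touch {S S' : Finset E} {W : Finset V} (hS : S ⊆ S')
    (hl : ∀ e ∈ S', e ∉ S → G.src e ∉ W ∧ G.tgt e ∉ W) : G.Bases S' W = G.Bases S W := by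
  ext T
  constructor
  · intro hT
    have hT1 := MG.mem_Bases.1 hT
    refine MG.mem_Bases.2 ⟨fun e he => ?_, hT1.2⟩
    by_contra h
    have h1 := hl e (hT1.1 he) h
    rcases bases_touch hT he with h2 | h2
    · exact h1.1 h2
    · exact h1.2 h2
  · intro hT
    have hT1 := MG.mem_Bases.1 hT
    exact MG.mem_Bases.2 ⟨hT1.1.trans hS, hT1.2⟩

/-- monotonicity of the wired uniform spanning tree in the domain -/
theorem pr_wired_mono {S S' : Finset E} {W W' : Finset V} (hS : S ⊆ S') (hW : W ⊆ W')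
    (hl : ∀ e ∈ S', e ∉ S → G.src e ∉ W ∧ G.tgt e ∉ W) (A : Finset E → Prop) (hA : Inc A)
    (hne : (G.Bases S' W').Nonempty) : G.pr S W A ≤ G.pr S' W' A := by
  have h1 : G.pr S W A = G.pr S' W A := by
    unfold MG.pr MG.cnt
    rw [bases_congr_touch hS hl]
  rw [h1]
  exact pr_wire_subset_le S' hW A hA hne

omit [DecidableEq V] [DecidableEq E] in
/-- the two events have the same probability if they agree on the bases; decreasing version of
`pr_not` for monotone comparison -/
theorem pr_compl_le {S S' : Finset E} {W W' : Finset V} (hne : (G.Bases S W).Nonempty)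
    (hne' : (G.Bases S' W').Nonempty) (A : Finset E → Prop)
    (h : G.pr S W (fun T => ¬ A T) ≤ G.pr S' W' (fun T => ¬ A T)) :
    G.pr S' W' A ≤ G.pr S W A := by
  rw [MG.pr_not hne, MG.pr_not hne'] at h
  linarith

end general

/-! ### the lattice -/

theorem eTouch_mono {X Y : Finset V2} (h : X ⊆ Y) : eTouch X ⊆ eTouch Y := by
  intro e he
  rw [mem_eTouch] at he ⊢
  exact he.imp (fun h' => h h') (fun h' => h h')

theorem eIn_mono {X Y : Finset V2} (h : X ⊆ Y) : eIn X ⊆ eIn Y := by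
  intro e he
  rw [mem_eIn] at he ⊢
  exact ⟨h he.1, h he.2⟩

theorem eIn_subset_eTouch (X : Finset V2) : eIn X ⊆ eTouch X := Finset.filter_subset _ _

/-- the wired box has spanning trees -/
theorem bases_wired_nonempty (x0 x1 y0 y1 : ℤ) :
    (L2.Bases (eTouch (bx x0 x1 y0 y1)) (bx x0 x1 y0 y1)).Nonempty := by
  refine bases_nonempty (fun f0 hf0 => ?_)
  have hf0' := mem_bx.1 hf0
  have hr : (x0 - 1, f0.2) ∉ bx x0 x1 y0 y1 := fun h => by
    have := mem_bx.1 h; simp only at this; omega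
  have hl : (x0, f0.2) ∈ bx x0 x1 y0 y1 :=
    mem_bx.2 ⟨le_rfl, by simp only; omega, hf0'.2.2.1, hf0'.2.2.2⟩
  refine ⟨(x0 - 1, f0.2), hr, ?_⟩
  have h1 : L2.Conn (eIn (bx x0 x1 y0 y1)) f0 (x0, f0.2) := (connIn_box hf0 hl).conn
  refine (h1.mono (eIn_subset_eTouch _)).tail ⟨(x0 - 1, f0.2, false), ?_, Or.inr ⟨rfl, ?_⟩⟩
  · rw [mem_eTouch, L2_tgt_false]; right; simpa using hl
  · rw [L2_tgt_false]; simp

/-- the free box has spanning trees -/
theorem bases_free_nonempty {x0 x1 y0 y1 : ℤ} {v0 : V2} (hv0 : v0 ∈ bx x0 x1 y0 y1) :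
    (L2.Bases (eIn (bx x0 x1 y0 y1)) ((bx x0 x1 y0 y1).erase v0)).Nonempty :=
  bases_nonempty (fun w hw => ⟨v0, Finset.notMem_erase v0 _,
    (connIn_box (Finset.mem_of_mem_erase hw) hv0).conn⟩)

/-- the wired tree of a larger domain is larger -/
theorem wired_mono {x0 x1 y0 y1 x0' x1' y0' y1' : ℤ}
    (hsub : bx x0 x1 y0 y1 ⊆ bx x0' x1' y0' y1') (A : Finset E2 → Prop) (hA : Inc A) :
    L2.pr (eTouch (bx x0 x1 y0 y1)) (bx x0 x1 y0 y1) A ≤
      L2.pr (eTouch (bx x0' x1' y0' y1')) (bx x0' x1' y0' y1') A := by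
  refine pr_wired_mono (eTouch_mono hsub) hsub ?_ A hA (bases_wired_nonempty _ _ _ _)
  intro e _ he
  rw [mem_eTouch] at he
  push Not at he
  exact he

theorem bx_subset {x0 x1 y0 y1 x0' x1' y0' y1' : ℤ} (h1 : x0' ≤ x0) (h2 : x1 ≤ x1')
    (h3 : y0' ≤ y0) (h4 : y1 ≤ y1') : bx x0 x1 y0 y1 ⊆ bx x0' x1' y0' y1' := by
  intro v hv
  rw [mem_bx] at hv ⊢
  omega

/-- the free tree of a larger domain is smaller -/
theorem free_mono {x0 x1 y0 y1 x0' x1' y0' y1' : ℤ} (hx : x0 < x1) (hy : y0 < y1)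
    (h1 : x0' ≤ x0) (h2 : x1 ≤ x1') (h3 : y0' ≤ y0) (h4 : y1 ≤ y1') {v0 v0' : V2}
    (hv0 : v0 ∈ bx x0 x1 y0 y1) (hv0' : v0' ∈ bx x0' x1' y0' y1') (A : Finset E2 → Prop)
    (hA : Inc A) (hloc : Loc (eIn (bx x0 x1 y0 y1)) A) :
    L2.pr (eIn (bx x0' x1' y0' y1')) ((bx x0' x1' y0' y1').erase v0') A ≤
      L2.pr (eIn (bx x0 x1 y0 y1)) ((bx x0 x1 y0 y1).erase v0) A := by
  rw [pr_dual hx hy hv0 A, pr_dual (by omega) (by omega) hv0' A]
  have hcmp : ∀ T' : Finset E2, A (cmp (bx x0' x1' y0' y1') T') ↔ A (cmp (bx x0 x1 y0 y1) T') := by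
    intro T'
    rw [hloc (cmp (bx x0' x1' y0' y1') T')]
    have : cmp (bx x0' x1' y0' y1') T' ∩ eIn (bx x0 x1 y0 y1) = cmp (bx x0 x1 y0 y1) T' := by
      ext e
      rw [Finset.mem_inter, mem_cmp, mem_cmp]
      constructor
      · rintro ⟨⟨_, ha⟩, hb⟩; exact ⟨hb, ha⟩
      · rintro ⟨ha, hb⟩; exact ⟨⟨eIn_mono (bx_subset h1 h2 h3 h4) ha, hb⟩, ha⟩
    rw [this]
  simp only [hcmp]
  refine pr_compl_le (bases_wired_nonempty _ _ _ _) (bases_wired_nonempty _ _ _ _) _ ?_
  refine wired_mono (bx_subset (by omega) (by omega) (by omega) (by omega)) _ ?_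
  intro T T' hTT' hn h
  refine hn (hA _ _ ?_ h)
  intro e he
  rw [mem_cmp] at he ⊢
  exact ⟨he.1, fun h' => he.2 (hTT' h')⟩

/-- a free spanning tree stays in the box -/
theorem conn_stays {X : Finset V2} {T : Finset E2} (hT : T ⊆ eIn X) {u v : V2} (hu : u ∈ X)
    (h : L2.Conn T u v) : v ∈ X := by
  by_contra hv
  obtain ⟨a, b, ha, hb, g, hg, hab⟩ := exists_exit {v : V2 | v ∈ X} h hu hv
  have hg' := mem_eIn.1 (hT hg)
  rcases hab with ⟨h1, h2⟩ | ⟨h1, h2⟩
  · rw [h2] at hg'; exact hb hg'.2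
  · rw [h1] at hg'; exact hb hg'.1

/-- the probabilities of the free box do not depend on the root -/
theorem free_root {x0 x1 y0 y1 : ℤ} (hx : x0 < x1) (hy : y0 < y1) {v0 v1 : V2}
    (hv0 : v0 ∈ bx x0 x1 y0 y1) (hv1 : v1 ∈ bx x0 x1 y0 y1) (A : Finset E2 → Prop) :
    L2.pr (eIn (bx x0 x1 y0 y1)) ((bx x0 x1 y0 y1).erase v0) A =
      L2.pr (eIn (bx x0 x1 y0 y1)) ((bx x0 x1 y0 y1).erase v1) A := by
  rw [pr_dual hx hy hv0, pr_dual hx hy hv1]

/-- the wired tree is smaller than the free tree of the same box -/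
theorem wired_le_free {x0 x1 y0 y1 : ℤ} (hx : x0 < x1) (hy : y0 < y1) {v0 : V2}
    (hv0 : v0 ∈ bx x0 x1 y0 y1) (A : Finset E2 → Prop)
    (hA : Inc A) (hloc : Loc (eIn (bx x0 x1 y0 y1)) A) :
    L2.pr (eTouch (bx x0 x1 y0 y1)) (bx x0 x1 y0 y1) A ≤
      L2.pr (eIn (bx x0 x1 y0 y1)) ((bx x0 x1 y0 y1).erase v0) A := by
  classical
  set X := bx x0 x1 y0 y1 with hX
  have hv1 : (x0, y0) ∈ X := mem_bx.2 ⟨le_rfl, hx.le, le_rfl, hy.le⟩
  have hr1 : (x0 - 1, y0) ∉ X := fun h => by have := mem_bx.1 h; simp only at this; omega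
  set e1 : E2 := (x0 - 1, y0, false) with he1
  have hsrc : L2.src e1 = (x0 - 1, y0) := rfl
  have htgt : L2.tgt e1 = (x0, y0) := by rw [he1, L2_tgt_false]; simp
  have he1X : e1 ∉ eIn X := fun h => hr1 (hsrc ▸ (mem_eIn.1 h).1)
  have hloc' : ∀ f, f ∉ eIn X → Ign f A := fun f hf => hloc.ign hf
  -- the bijection
  have key : ∀ T : Finset E2, e1 ∉ T → (insert e1 T ∈ L2.Bases (insert e1 (eIn X)) X ↔
      T ∈ L2.Bases (eIn X) (X.erase (x0, y0))) := by
    intro T he1T
    have hXe : (X.erase (x0, y0)).card + 1 = X.card := Finset.card_erase_add_one hv1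
    rw [MG.mem_Bases, MG.mem_Bases, Finset.card_insert_of_notMem he1T]
    have hstep : L2.Conn (insert e1 T) (x0, y0) (x0 - 1, y0) :=
      Relation.ReflTransGen.single ⟨e1, Finset.mem_insert_self e1 T, Or.inr ⟨hsrc, htgt⟩⟩
    constructor
    · rintro ⟨h1, h2, h3⟩
      have hTX : T ⊆ eIn X := fun e he => by
        rcases Finset.mem_insert.1 (h1 (Finset.mem_insert_of_mem he)) with h | h
        · exact absurd (h ▸ he) he1T
        · exact h
      refine ⟨hTX, by omega, ?_⟩
      intro w hw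
      have hwX := Finset.mem_of_mem_erase hw
      obtain ⟨r, hr, hc⟩ := h3 w hwX
      have hk : ∀ b, L2.Conn (insert e1 T) w b → L2.Conn T w b ∨ L2.Conn T w (x0, y0) := by
        intro b hb
        induction hb with
        | refl => exact Or.inl Relation.ReflTransGen.refl
        | @tail b c _ hs ih =>
          rcases ih with ih | ih
          · obtain ⟨g, hg, hbc⟩ := hs
            rcases Finset.mem_insert.1 hg with rfl | hg
            · rcases hbc with ⟨h4, h5⟩ | ⟨h4, h5⟩
              · exfalso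
                rw [hsrc] at h4
                exact hr1 (h4 ▸ conn_stays hTX hwX ih)
              · right; rw [← htgt, h5]; exact ih
            · exact Or.inl (ih.tail ⟨g, hg, hbc⟩)
          · exact Or.inr ih
      rcases hk r hc with h | h
      · exact absurd (conn_stays hTX hwX h) hr
      · exact ⟨(x0, y0), Finset.notMem_erase _ X, h⟩
    · rintro ⟨h1, h2, h3⟩
      refine ⟨Finset.insert_subset_insert e1 h1, by omega, ?_⟩
      intro w hw
      refine ⟨(x0 - 1, y0), hr1, ?_⟩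
      by_cases hwv : w = (x0, y0)
      · rw [hwv]; exact hstep
      · obtain ⟨r, hr, hc⟩ := h3 w (Finset.mem_erase.2 ⟨hwv, hw⟩)
        have hrX := conn_stays h1 hw hc
        have hrv : r = (x0, y0) := by
          by_contra h; exact hr (Finset.mem_erase.2 ⟨h, hrX⟩)
        rw [hrv] at hc
        exact (hc.mono (Finset.subset_insert e1 T)).trans hstep
  have hall : ∀ U ∈ L2.Bases (insert e1 (eIn X)) X, e1 ∈ U := by
    intro U hU
    by_contra h
    have hU1 := MG.mem_Bases.1 hU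
    have hUX : U ⊆ eIn X := fun e he => by
      rcases Finset.mem_insert.1 (hU1.1 he) with h' | h'
      · exact absurd (h' ▸ he) h
      · exact h'
    obtain ⟨r, hr, hc⟩ := hU1.2.2 (x0, y0) hv1
    exact hr (conn_stays hUX hv1 hc)
  have hcount : ∀ B : Finset E2 → Prop, (∀ T, B (insert e1 T) ↔ B T) →
      ((L2.Bases (insert e1 (eIn X)) X).filter B).card =
        ((L2.Bases (eIn X) (X.erase (x0, y0))).filter B).card := by
    intro B hB
    symm
    refine Finset.card_bij (fun T _ => insert e1 T) ?_ ?_ ?_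
    · intro T hT
      rw [Finset.mem_filter] at hT ⊢
      have he1T : e1 ∉ T := fun h => he1X ((MG.mem_Bases.1 hT.1).1 h)
      exact ⟨(key T he1T).2 hT.1, (hB T).2 hT.2⟩
    · intro T hT T' hT' h
      rw [Finset.mem_filter] at hT hT'
      have he1T : e1 ∉ T := fun h => he1X ((MG.mem_Bases.1 hT.1).1 h)
      have he1T' : e1 ∉ T' := fun h => he1X ((MG.mem_Bases.1 hT'.1).1 h)
      rw [← Finset.erase_insert he1T, ← Finset.erase_insert he1T', h]
    · intro U hU
      rw [Finset.mem_filter] at hU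
      have he1U := hall U hU.1
      refine ⟨U.erase e1, ?_, Finset.insert_erase he1U⟩
      rw [Finset.mem_filter]
      refine ⟨(key _ (Finset.notMem_erase e1 U)).1 ?_, (hB _).1 ?_⟩
      · rw [Finset.insert_erase he1U]; exact hU.1
      · rw [Finset.insert_erase he1U]; exact hU.2
  have hpr : L2.pr (insert e1 (eIn X)) X A = L2.pr (eIn X) (X.erase (x0, y0)) A := by
    unfold MG.pr MG.cnt
    have c1 := hcount A (fun T => by
      have := hloc' e1 he1X T
      constructor
      · intro h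
        have hi : ∀ i1 i2 : DecidableEq E2,
            @insert E2 (Finset E2) (@Finset.instInsert E2 i1) e1 T =
              @insert E2 (Finset E2) (@Finset.instInsert E2 i2) e1 T :=
          fun i1 i2 => by rw [Subsingleton.elim i1 i2]
        refine this.1 ?_
        rw [hi _ (fun a b => Classical.propDecidable (a = b))]
        rw [hi _ (fun a b => Classical.propDecidable (a = b))] at h
        exact h
      · intro h; exact hA _ _ (Finset.subset_insert e1 T) h)
    have c2 := hcount (fun _ => True) (fun T => Iff.rfl)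
    simp only [Finset.filter_true] at c2
    rw [c1, c2]
  rw [free_root hx hy hv0 hv1, ← hpr]
  refine pr_le_subset ?_ X A hA ?_ ?_
  · intro e he
    rcases Finset.mem_insert.1 he with rfl | he
    · rw [mem_eTouch, htgt]; exact Or.inr hv1
    · exact eIn_subset_eTouch X he
  · intro f _ hf
    exact hloc' f (fun h => hf (Finset.mem_insert_of_mem h))
  · obtain ⟨T, hT⟩ := bases_free_nonempty (x0 := x0) (x1 := x1) (y0 := y0) (y1 := y1) hv1
    have he1T : e1 ∉ T := fun h => he1X ((MG.mem_Bases.1 hT).1 h)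
    exact ⟨insert e1 T, (key T he1T).2 hT⟩

end Pool.Agent.UST
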