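import Mathlib
import Pool.Agent.UST.Defs

/-!
Project UST, module SYM: invariance of the spanning tree measures and of the crossing events under
translations and under the exchange of the coordinates.
-/

namespace Pool.Agent.UST

open Finset

/-- an isomorphism of multigraphs (edges may be reversed) -/
structure MG.Iso {V E : Type} (G : MG V E) where
  v : V ≃ V
  e : E ≃ E
  ends : ∀ f, (G.src (e f) = v (G.src f) ∧ G.tgt (e f) = v (G.tgt f)) ∨
    (G.src (e f) = v (G.tgt f) ∧ G.tgt (e f) = v (G.src f))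

section general

variable {V E : Type} {G : MG V E} (φ : G.Iso)

theorem MG.Iso.step (T : Finset E) (u w : V) :
    G.Step (T.map φ.e.toEmbedding) (φ.v u) (φ.v w) ↔ G.Step T u w := by
  constructor
  · rintro ⟨f, hf, h⟩
    obtain ⟨g, hg, rfl⟩ := Finset.mem_map.1 hf
    simp only [Equiv.coe_toEmbedding] at h
    refine ⟨g, hg, ?_⟩
    rcases φ.ends g with ⟨h1, h2⟩ | ⟨h1, h2⟩ <;> rw [h1, h2] at h <;>
      simp only [EmbeddingLike.apply_eq_iff_eq] at h <;> tauto
  · rintro ⟨g, hg, h⟩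
    refine ⟨φ.e g, Finset.mem_map.2 ⟨g, hg, rfl⟩, ?_⟩
    rcases φ.ends g with ⟨h1, h2⟩ | ⟨h1, h2⟩ <;> rw [h1, h2] <;>
      simp only [EmbeddingLike.apply_eq_iff_eq] <;> tauto

theorem MG.Iso.conn (T : Finset E) (u w : V) :
    G.Conn (T.map φ.e.toEmbedding) (φ.v u) (φ.v w) ↔ G.Conn T u w := by
  constructor
  · intro h
    have key : ∀ b, G.Conn (T.map φ.e.toEmbedding) (φ.v u) b → G.Conn T u (φ.v.symm b) := by
      intro b hb
      induction hb with
      | refl => rw [Equiv.symm_apply_apply]; exact Relation.ReflTransGen.refl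
      | @tail b c _ hs ih =>
        refine ih.tail ?_
        rw [← φ.step, Equiv.apply_symm_apply, Equiv.apply_symm_apply]; exact hs
    have := key _ h
    rwa [Equiv.symm_apply_apply] at this
  · intro h
    induction h with
    | refl => exact Relation.ReflTransGen.refl
    | tail _ hs ih => exact ih.tail ((φ.step T _ _).2 hs)

theorem MG.Iso.connIn (T : Finset E) (X : Set V) (u w : V) :
    G.ConnIn (T.map φ.e.toEmbedding) (φ.v '' X) (φ.v u) (φ.v w) ↔ G.ConnIn T X u w := by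
  constructor
  · intro h
    have key : ∀ b, G.ConnIn (T.map φ.e.toEmbedding) (φ.v '' X) (φ.v u) b →
        G.ConnIn T X u (φ.v.symm b) := by
      intro b hb
      induction hb with
      | refl => rw [Equiv.symm_apply_apply]; exact Relation.ReflTransGen.refl
      | @tail b c _ hs ih =>
        refine ih.tail ⟨?_, ?_, ?_⟩
        · rw [← φ.step, Equiv.apply_symm_apply, Equiv.apply_symm_apply]; exact hs.1
        · obtain ⟨x, hx, hxb⟩ := hs.2.1
          rw [← hxb, Equiv.symm_apply_apply]; exact hx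
        · obtain ⟨x, hx, hxb⟩ := hs.2.2
          rw [← hxb, Equiv.symm_apply_apply]; exact hx
    have := key _ h
    rwa [Equiv.symm_apply_apply] at this
  · intro h
    induction h with
    | refl => exact Relation.ReflTransGen.refl
    | tail _ hs ih =>
      exact ih.tail ⟨(φ.step T _ _).2 hs.1, Set.mem_image_of_mem _ hs.2.1,
        Set.mem_image_of_mem _ hs.2.2⟩

theorem MG.Iso.bases (S T : Finset E) (W : Finset V) :
    T.map φ.e.toEmbedding ∈ G.Bases (S.map φ.e.toEmbedding) (W.map φ.v.toEmbedding) ↔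
      T ∈ G.Bases S W := by
  rw [MG.mem_Bases, MG.mem_Bases, Finset.card_map, Finset.card_map, Finset.map_subset_map]
  refine and_congr_right (fun _ => and_congr_right (fun _ => ?_))
  constructor
  · intro h w hw
    obtain ⟨r, hr, hc⟩ := h (φ.v w) (Finset.mem_map.2 ⟨w, hw, rfl⟩)
    refine ⟨φ.v.symm r, fun h' => hr (Finset.mem_map.2 ⟨_, h', by simp⟩), ?_⟩
    rw [← φ.conn, Equiv.apply_symm_apply]; exact hc
  · intro h w hw
    obtain ⟨w', hw', rfl⟩ := Finset.mem_map.1 hw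
    obtain ⟨r, hr, hc⟩ := h w' hw'
    refine ⟨φ.v r, fun h' => hr ?_, (φ.conn T _ _).2 hc⟩
    obtain ⟨r', hr', h2⟩ := Finset.mem_map.1 h'
    have : r' = r := φ.v.injective h2
    rw [← this]; exact hr'

theorem MG.Iso.pr (S : Finset E) (W : Finset V) (A : Finset E → Prop) :
    G.pr (S.map φ.e.toEmbedding) (W.map φ.v.toEmbedding) A =
      G.pr S W (fun T => A (T.map φ.e.toEmbedding)) := by
  classical
  have key : ∀ B : Finset E → Prop,
      ((G.Bases (S.map φ.e.toEmbedding) (W.map φ.v.toEmbedding)).filter B).card =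
      ((G.Bases S W).filter (fun T => B (T.map φ.e.toEmbedding))).card := by
    intro B
    symm
    refine Finset.card_bij (fun T _ => T.map φ.e.toEmbedding) ?_ ?_ ?_
    · intro T hT
      rw [Finset.mem_filter] at hT ⊢
      exact ⟨(φ.bases S T W).2 hT.1, hT.2⟩
    · intro T _ T' _ h
      exact Finset.map_injective _ h
    · intro U hU
      rw [Finset.mem_filter] at hU
      have hUe : (U.map φ.e.symm.toEmbedding).map φ.e.toEmbedding = U := by
        ext f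
        simp
      refine ⟨U.map φ.e.symm.toEmbedding, ?_, hUe⟩
      rw [Finset.mem_filter, ← φ.bases, hUe]
      exact hU
  unfold MG.pr MG.cnt
  have k1 := key A
  have k2 := key (fun _ => True)
  simp only [Finset.filter_true] at k2
  rw [k1, k2]

end general

/-! ### the lattice -/

/-- translations -/
def trI (a b : ℤ) : L2.Iso where
  v := ⟨fun p => (p.1 + a, p.2 + b), fun p => (p.1 - a, p.2 - b), fun p => by simp, fun p => by simp⟩
  e := ⟨fun p => (p.1 + a, p.2.1 + b, p.2.2), fun p => (p.1 - a, p.2.1 - b, p.2.2),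
    fun p => by simp, fun p => by simp⟩
  ends f := by
    obtain ⟨x, y, c⟩ := f
    left
    cases c
    · simp only [Equiv.coe_fn_mk, L2_src, L2_tgt_false]
      exact ⟨trivial, by rw [Prod.mk.injEq]; exact ⟨by ring, rfl⟩⟩
    · simp only [Equiv.coe_fn_mk, L2_src, L2_tgt_true]
      exact ⟨trivial, by rw [Prod.mk.injEq]; exact ⟨rfl, by ring⟩⟩

/-- the exchange of the coordinates -/
def swI : L2.Iso where
  v := ⟨fun p => (p.2, p.1), fun p => (p.2, p.1), fun p => rfl, fun p => rfl⟩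
  e := ⟨fun p => (p.2.1, p.1, !p.2.2), fun p => (p.2.1, p.1, !p.2.2), fun p => by simp,
    fun p => by simp⟩
  ends f := by
    obtain ⟨x, y, c⟩ := f
    left
    cases c
    · exact ⟨rfl, rfl⟩
    · exact ⟨rfl, rfl⟩

theorem trI_v (a b : ℤ) (p : V2) : (trI a b).v p = (p.1 + a, p.2 + b) := rfl
theorem trI_e (a b : ℤ) (p : E2) : (trI a b).e p = (p.1 + a, p.2.1 + b, p.2.2) := rfl
theorem swI_v (p : V2) : swI.v p = (p.2, p.1) := rfl
theorem swI_e (p : E2) : swI.e p = (p.2.1, p.1, !p.2.2) := rfl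

theorem MG.Iso.eIn (φ : L2.Iso) (X : Finset V2) :
    (Pool.Agent.UST.eIn X).map φ.e.toEmbedding =
      Pool.Agent.UST.eIn (X.map φ.v.toEmbedding) := by
  ext f
  obtain ⟨g, rfl⟩ := φ.e.surjective f
  have h1 : φ.e g ∈ (Pool.Agent.UST.eIn X).map φ.e.toEmbedding ↔ g ∈ Pool.Agent.UST.eIn X :=
    Finset.mem_map' φ.e.toEmbedding
  have h2 : ∀ x, φ.v x ∈ X.map φ.v.toEmbedding ↔ x ∈ X := fun x => Finset.mem_map' φ.v.toEmbedding
  rw [h1, mem_eIn, mem_eIn]
  rcases φ.ends g with ⟨h3, h4⟩ | ⟨h3, h4⟩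
  · rw [h3, h4, h2, h2]
  · rw [h3, h4, h2, h2]; exact and_comm

theorem MG.Iso.eTouch (φ : L2.Iso) (X : Finset V2) :
    (Pool.Agent.UST.eTouch X).map φ.e.toEmbedding =
      Pool.Agent.UST.eTouch (X.map φ.v.toEmbedding) := by
  ext f
  obtain ⟨g, rfl⟩ := φ.e.surjective f
  have h1 : φ.e g ∈ (Pool.Agent.UST.eTouch X).map φ.e.toEmbedding ↔
      g ∈ Pool.Agent.UST.eTouch X := Finset.mem_map' φ.e.toEmbedding
  have h2 : ∀ x, φ.v x ∈ X.map φ.v.toEmbedding ↔ x ∈ X := fun x => Finset.mem_map' φ.v.toEmbedding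
  rw [h1, mem_eTouch, mem_eTouch]
  rcases φ.ends g with ⟨h3, h4⟩ | ⟨h3, h4⟩
  · rw [h3, h4, h2, h2]
  · rw [h3, h4, h2, h2]; exact or_comm

theorem map_trI_bx (a b x0 x1 y0 y1 : ℤ) : (bx x0 x1 y0 y1).map (trI a b).v.toEmbedding =
    bx (x0 + a) (x1 + a) (y0 + b) (y1 + b) := by
  ext f
  obtain ⟨g, rfl⟩ := (trI a b).v.surjective f
  have h1 : (trI a b).v g ∈ (bx x0 x1 y0 y1).map (trI a b).v.toEmbedding ↔ g ∈ bx x0 x1 y0 y1 :=
    Finset.mem_map' (trI a b).v.toEmbedding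
  rw [h1, mem_bx, mem_bx, trI_v]
  simp only
  omega

theorem map_swI_bx (x0 x1 y0 y1 : ℤ) : (bx x0 x1 y0 y1).map swI.v.toEmbedding =
    bx y0 y1 x0 x1 := by
  ext f
  obtain ⟨g, rfl⟩ := swI.v.surjective f
  have h1 : swI.v g ∈ (bx x0 x1 y0 y1).map swI.v.toEmbedding ↔ g ∈ bx x0 x1 y0 y1 :=
    Finset.mem_map' swI.v.toEmbedding
  rw [h1, mem_bx, mem_bx, swI_v]
  simp only
  omega

theorem image_coe_bx (φ : L2.Iso) (X : Finset V2) :
    φ.v '' (X : Set V2) = ((X.map φ.v.toEmbedding : Finset V2) : Set V2) := by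
  rw [Finset.coe_map]; rfl

theorem hcr_trI (a b x0 x1 y0 y1 : ℤ) (T : Finset E2) :
    HCr (T.map (trI a b).e.toEmbedding) (x0 + a) (x1 + a) (y0 + b) (y1 + b) ↔
      HCr T x0 x1 y0 y1 := by
  unfold HCr
  rw [← map_trI_bx, ← image_coe_bx]
  constructor
  · rintro ⟨u, hu, v, hv, h1, h2, h3⟩
    obtain ⟨u', hu', rfl⟩ := Finset.mem_map.1 hu
    obtain ⟨v', hv', rfl⟩ := Finset.mem_map.1 hv
    simp only [Equiv.coe_toEmbedding, trI_v] at h1 h2
    refine ⟨u', hu', v', hv', by omega, by omega, ?_⟩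
    exact ((trI a b).connIn T _ u' v').1 h3
  · rintro ⟨u, hu, v, hv, h1, h2, h3⟩
    refine ⟨(trI a b).v u, Finset.mem_map.2 ⟨u, hu, rfl⟩, (trI a b).v v,
      Finset.mem_map.2 ⟨v, hv, rfl⟩, ?_, ?_, ((trI a b).connIn T _ u v).2 h3⟩
    · rw [trI_v]; simp only; omega
    · rw [trI_v]; simp only; omega

theorem vcr_trI (a b x0 x1 y0 y1 : ℤ) (T : Finset E2) :
    VCr (T.map (trI a b).e.toEmbedding) (x0 + a) (x1 + a) (y0 + b) (y1 + b) ↔
      VCr T x0 x1 y0 y1 := by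
  unfold VCr
  rw [← map_trI_bx, ← image_coe_bx]
  constructor
  · rintro ⟨u, hu, v, hv, h1, h2, h3⟩
    obtain ⟨u', hu', rfl⟩ := Finset.mem_map.1 hu
    obtain ⟨v', hv', rfl⟩ := Finset.mem_map.1 hv
    simp only [Equiv.coe_toEmbedding, trI_v] at h1 h2
    refine ⟨u', hu', v', hv', by omega, by omega, ?_⟩
    exact ((trI a b).connIn T _ u' v').1 h3
  · rintro ⟨u, hu, v, hv, h1, h2, h3⟩
    refine ⟨(trI a b).v u, Finset.mem_map.2 ⟨u, hu, rfl⟩, (trI a b).v v,
      Finset.mem_map.2 ⟨v, hv, rfl⟩, ?_, ?_, ((trI a b).connIn T _ u v).2 h3⟩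
    · rw [trI_v]; simp only; omega
    · rw [trI_v]; simp only; omega

theorem hcr_swI (x0 x1 y0 y1 : ℤ) (T : Finset E2) :
    HCr (T.map swI.e.toEmbedding) y0 y1 x0 x1 ↔ VCr T x0 x1 y0 y1 := by
  unfold HCr VCr
  rw [← map_swI_bx, ← image_coe_bx]
  constructor
  · rintro ⟨u, hu, v, hv, h1, h2, h3⟩
    obtain ⟨u', hu', rfl⟩ := Finset.mem_map.1 hu
    obtain ⟨v', hv', rfl⟩ := Finset.mem_map.1 hv
    simp only [Equiv.coe_toEmbedding, swI_v] at h1 h2
    refine ⟨u', hu', v', hv', by omega, by omega, ?_⟩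
    exact (swI.connIn T _ u' v').1 h3
  · rintro ⟨u, hu, v, hv, h1, h2, h3⟩
    exact ⟨swI.v u, Finset.mem_map.2 ⟨u, hu, rfl⟩, swI.v v,
      Finset.mem_map.2 ⟨v, hv, rfl⟩, h1, h2, (swI.connIn T _ u v).2 h3⟩

theorem vcr_swI (x0 x1 y0 y1 : ℤ) (T : Finset E2) :
    VCr (T.map swI.e.toEmbedding) y0 y1 x0 x1 ↔ HCr T x0 x1 y0 y1 := by
  unfold HCr VCr
  rw [← map_swI_bx, ← image_coe_bx]
  constructor
  · rintro ⟨u, hu, v, hv, h1, h2, h3⟩
    obtain ⟨u', hu', rfl⟩ := Finset.mem_map.1 hu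
    obtain ⟨v', hv', rfl⟩ := Finset.mem_map.1 hv
    simp only [Equiv.coe_toEmbedding, swI_v] at h1 h2
    refine ⟨u', hu', v', hv', by omega, by omega, ?_⟩
    exact (swI.connIn T _ u' v').1 h3
  · rintro ⟨u, hu, v, hv, h1, h2, h3⟩
    exact ⟨swI.v u, Finset.mem_map.2 ⟨u, hu, rfl⟩, swI.v v,
      Finset.mem_map.2 ⟨v, hv, rfl⟩, h1, h2, (swI.connIn T _ u v).2 h3⟩

/-- translation invariance of the free box -/
theorem free_tr (a b x0 x1 y0 y1 : ℤ) (v0 : V2) (A : Finset E2 → Prop) :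
    L2.pr (eIn (bx (x0 + a) (x1 + a) (y0 + b) (y1 + b)))
      ((bx (x0 + a) (x1 + a) (y0 + b) (y1 + b)).erase (v0.1 + a, v0.2 + b)) A =
      L2.pr (eIn (bx x0 x1 y0 y1)) ((bx x0 x1 y0 y1).erase v0)
        (fun T => A (T.map (trI a b).e.toEmbedding)) := by
  rw [← (trI a b).pr, (trI a b).eIn, map_trI_bx]
  congr 1
  ext f
  obtain ⟨g, rfl⟩ := (trI a b).v.surjective f
  have h1 : ∀ X : Finset V2, (trI a b).v g ∈ X.map (trI a b).v.toEmbedding ↔ g ∈ X :=
    fun X => Finset.mem_map' (trI a b).v.toEmbedding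
  rw [h1, Finset.mem_erase, Finset.mem_erase, ← map_trI_bx, h1]
  have h2 : ((trI a b).v g = (v0.1 + a, v0.2 + b)) ↔ g = v0 := by
    rw [trI_v, Prod.mk.injEq, add_left_inj, add_left_inj]
    exact (Prod.ext_iff).symm
  rw [Ne, Ne, h2]

/-- translation invariance of the wired box -/
theorem wired_tr (a b x0 x1 y0 y1 : ℤ) (A : Finset E2 → Prop) :
    L2.pr (eTouch (bx (x0 + a) (x1 + a) (y0 + b) (y1 + b)))
      (bx (x0 + a) (x1 + a) (y0 + b) (y1 + b)) A =
      L2.pr (eTouch (bx x0 x1 y0 y1)) (bx x0 x1 y0 y1)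
        (fun T => A (T.map (trI a b).e.toEmbedding)) := by
  rw [← (trI a b).pr, (trI a b).eTouch, map_trI_bx]

/-- the exchange of the coordinates for the free box -/
theorem free_sw (x0 x1 y0 y1 : ℤ) (v0 : V2) (A : Finset E2 → Prop) :
    L2.pr (eIn (bx y0 y1 x0 x1)) ((bx y0 y1 x0 x1).erase (v0.2, v0.1)) A =
      L2.pr (eIn (bx x0 x1 y0 y1)) ((bx x0 x1 y0 y1).erase v0)
        (fun T => A (T.map swI.e.toEmbedding)) := by
  rw [← swI.pr, swI.eIn, map_swI_bx]
  congr 1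
  ext f
  obtain ⟨g, rfl⟩ := swI.v.surjective f
  have h1 : ∀ X : Finset V2, swI.v g ∈ X.map swI.v.toEmbedding ↔ g ∈ X :=
    fun X => Finset.mem_map' swI.v.toEmbedding
  rw [h1, Finset.mem_erase, Finset.mem_erase, ← map_swI_bx, h1]
  have h2 : (swI.v g = (v0.2, v0.1)) ↔ g = v0 := by
    rw [swI_v, Prod.mk.injEq, and_comm]
    exact (Prod.ext_iff).symm
  rw [Ne, Ne, h2]

/-- the exchange of the coordinates for the wired box -/
theorem wired_sw (x0 x1 y0 y1 : ℤ) (A : Finset E2 → Prop) :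
    L2.pr (eTouch (bx y0 y1 x0 x1)) (bx y0 y1 x0 x1) A =
      L2.pr (eTouch (bx x0 x1 y0 y1)) (bx x0 x1 y0 y1)
        (fun T => A (T.map swI.e.toEmbedding)) := by
  rw [← swI.pr, swI.eTouch, map_swI_bx]

end Pool.Agent.UST
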