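import Mathlib
import Pool.Agent.UST.MONO
import Pool.Agent.UST.SYM

/-!
Project UST, module FW: the free and the wired spanning tree of the plane agree (expected numbers
of edges), without couplings.
-/

namespace Pool.Agent.UST

open Finset

section general

variable {V E : Type} {G : MG V E}

open Classical in
/-- the indicator of an event -/
noncomputable def ind (A : Finset E → Prop) (T : Finset E) : ℝ := if A T then 1 else 0

/-- the mean of a function over the bases -/
noncomputable def mean (G : MG V E) (S : Finset E) (W : Finset V) (g : Finset E → ℝ) : ℝ :=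
  (∑ T ∈ G.Bases S W, g T) / ((G.Bases S W).card : ℝ)

theorem pr_eq_mean (S : Finset E) (W : Finset V) (A : Finset E → Prop) :
    G.pr S W A = mean G S W (ind A) := by
  classical
  unfold MG.pr MG.cnt mean ind
  congr 1
  rw [Finset.card_filter]
  push_cast
  exact Finset.sum_congr rfl (fun T _ => by congr)

theorem mean_sum {ι : Type*} (S : Finset E) (W : Finset V) (J : Finset ι)
    (g : ι → Finset E → ℝ) :
    ∑ j ∈ J, mean G S W (g j) = mean G S W (fun T => ∑ j ∈ J, g j T) := by
  unfold mean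
  rw [← Finset.sum_div, Finset.sum_comm]

theorem mean_congr {S : Finset E} {W : Finset V} {g h : Finset E → ℝ}
    (hgh : ∀ T ∈ G.Bases S W, g T = h T) : mean G S W g = mean G S W h := by
  unfold mean
  rw [Finset.sum_congr rfl hgh]

theorem mean_const {S : Finset E} {W : Finset V} (hne : (G.Bases S W).Nonempty) (c : ℝ) :
    mean G S W (fun _ => c) = c := by
  unfold mean
  have := hne.card_pos
  have h0 : ((G.Bases S W).card : ℝ) ≠ 0 := by positivity
  rw [Finset.sum_const, nsmul_eq_mul, mul_div_cancel_left₀ _ h0]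

theorem mean_add (S : Finset E) (W : Finset V) (g h : Finset E → ℝ) :
    mean G S W (fun T => g T + h T) = mean G S W g + mean G S W h := by
  unfold mean
  rw [Finset.sum_add_distrib, add_div]

theorem mean_sub (S : Finset E) (W : Finset V) (g h : Finset E → ℝ) :
    mean G S W (fun T => g T - h T) = mean G S W g - mean G S W h := by
  unfold mean
  rw [Finset.sum_sub_distrib, sub_div]

/-- the expected number of edges of the tree in `S0` -/
theorem sum_pr_edges [DecidableEq E] (S : Finset E) (W : Finset V) (S0 : Finset E) :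
    ∑ e ∈ S0, G.pr S W (fun T => e ∈ T) = mean G S W (fun T => ((T ∩ S0).card : ℝ)) := by
  classical
  simp only [pr_eq_mean]
  rw [mean_sum]
  refine mean_congr (fun T _ => ?_)
  have h : ((T ∩ S0).card : ℝ) = ∑ e ∈ S0, (if e ∈ T then (1 : ℝ) else 0) := by
    rw [← Finset.natCast_card_filter]
    congr 2
    ext e
    rw [Finset.mem_filter, Finset.mem_inter]
    exact and_comm
  rw [h]
  refine Finset.sum_congr rfl (fun e _ => ?_)
  unfold ind
  by_cases he : e ∈ T <;> simp [he]

/-- the edge probabilities sum up to the number of vertices -/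
theorem sum_pr_edges_all [DecidableEq E] {S : Finset E} {W : Finset V}
    (hne : (G.Bases S W).Nonempty) :
    ∑ e ∈ S, G.pr S W (fun T => e ∈ T) = (W.card : ℝ) := by
  rw [sum_pr_edges, ← mean_const hne (W.card : ℝ)]
  refine mean_congr (fun T hT => ?_)
  have h := MG.mem_Bases.1 hT
  rw [Finset.inter_eq_left.2 h.1, h.2.1]

/-- the auxiliary increasing events -/
def auxB [DecidableEq E] (S0 : Finset E) (A : Finset E → Prop) (j : ℕ) : Finset E → Prop :=
  fun T => j + 1 ≤ (T ∩ S0).card ∨ (j ≤ (T ∩ S0).card ∧ ¬ A T)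

theorem auxB_inc [DecidableEq E] {S0 : Finset E} {A : Finset E → Prop} (hloc : Loc S0 A)
    (j : ℕ) : Inc (auxB S0 A j) := by
  intro T T' hTT' h
  have hsub : T ∩ S0 ⊆ T' ∩ S0 := Finset.inter_subset_inter_right hTT'
  have hcard := Finset.card_le_card hsub
  rcases h with h | ⟨h1, h2⟩
  · exact Or.inl (h.trans hcard)
  · by_cases hA' : A T'
    · left
      have hne : T ∩ S0 ≠ T' ∩ S0 := by
        intro heq
        exact h2 ((hloc T).2 (heq ▸ (hloc T').1 hA'))
      have := Finset.card_lt_card (Finset.ssubset_iff_subset_ne.2 ⟨hsub, hne⟩)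
      omega
    · exact Or.inr ⟨h1.trans hcard, hA'⟩

theorem auxB_loc [DecidableEq E] {S0 : Finset E} {A : Finset E → Prop} (hloc : Loc S0 A)
    (j : ℕ) : Loc S0 (auxB S0 A j) := by
  intro T
  unfold auxB
  rw [Finset.inter_assoc, Finset.inter_self, hloc T]

theorem sum_ind_auxB [DecidableEq E] (S0 : Finset E) (A : Finset E → Prop) (T : Finset E) :
    ∑ j ∈ Finset.range (S0.card + 1), ind (auxB S0 A j) T =
      ((T ∩ S0).card : ℝ) + 1 - ind A T := by
  classical
  have hle : (T ∩ S0).card ≤ S0.card := Finset.card_le_card Finset.inter_subset_right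
  unfold ind
  rw [← Finset.natCast_card_filter]
  by_cases hA : A T
  · have h1 : (Finset.range (S0.card + 1)).filter (fun j => auxB S0 A j T) =
        Finset.range (T ∩ S0).card := by
      ext j
      simp only [Finset.mem_filter, Finset.mem_range, auxB, hA, not_true, and_false, or_false]
      omega
    rw [if_pos hA]
    have h2 : ((Finset.range (S0.card + 1)).filter (fun j => auxB S0 A j T)).card =
        (T ∩ S0).card := by rw [h1, Finset.card_range]
    rw [← h2]
    have : ∀ z : ℝ, z = z + 1 - 1 := by intro z; ring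
    refine Eq.trans ?_ (this _)
    congr
  · have h1 : (Finset.range (S0.card + 1)).filter (fun j => auxB S0 A j T) =
        Finset.range ((T ∩ S0).card + 1) := by
      ext j
      simp only [Finset.mem_filter, Finset.mem_range, auxB, hA, not_false_iff, and_true]
      omega
    rw [if_neg hA]
    have h2 : ((Finset.range (S0.card + 1)).filter (fun j => auxB S0 A j T)).card =
        (T ∩ S0).card + 1 := by rw [h1, Finset.card_range]
    have h3 : (((T ∩ S0).card : ℝ) + 1 - 0) = (((T ∩ S0).card + 1 : ℕ) : ℝ) := by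
      push_cast; ring
    rw [h3, ← h2]

/-- if the first measure is below the second one on increasing local events, then the difference
of the probabilities of an increasing local event is at most the difference of the expected
numbers of edges -/
theorem pr_diff_le [DecidableEq E] {S S' : Finset E} {W W' : Finset V}
    (hne : (G.Bases S W).Nonempty) (hne' : (G.Bases S' W').Nonempty) (S0 : Finset E)
    (h : ∀ B : Finset E → Prop, Inc B → Loc S0 B → G.pr S W B ≤ G.pr S' W' B)
    (A : Finset E → Prop) (hloc : Loc S0 A) :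
    G.pr S' W' A - G.pr S W A ≤
      ∑ e ∈ S0, (G.pr S' W' (fun T => e ∈ T) - G.pr S W (fun T => e ∈ T)) := by
  have key : ∀ (S : Finset E) (W : Finset V), (G.Bases S W).Nonempty →
      ∑ j ∈ Finset.range (S0.card + 1), G.pr S W (auxB S0 A j) =
        ∑ e ∈ S0, G.pr S W (fun T => e ∈ T) + 1 - G.pr S W A := by
    intro S W hne
    rw [sum_pr_edges]
    simp only [pr_eq_mean]
    rw [mean_sum, mean_congr (fun T _ => sum_ind_auxB S0 A T), mean_sub, mean_add, mean_const hne]
  have h1 := key S W hne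
  have h2 := key S' W' hne'
  have h3 : ∑ j ∈ Finset.range (S0.card + 1), G.pr S W (auxB S0 A j) ≤
      ∑ j ∈ Finset.range (S0.card + 1), G.pr S' W' (auxB S0 A j) :=
    Finset.sum_le_sum (fun j _ => h _ (auxB_inc hloc j) (auxB_loc hloc j))
  rw [Finset.sum_sub_distrib]
  linarith

end general

/-! ### edge probabilities of the lattice -/

/-- the event that an edge is present -/
theorem inc_edge {E : Type} (e : E) : Inc (fun T : Finset E => e ∈ T) := fun _ _ h he => h he

theorem loc_edge {E : Type} [DecidableEq E] {S : Finset E} {e : E} (he : e ∈ S) :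
    Loc S (fun T : Finset E => e ∈ T) := by
  intro T
  beta_reduce
  rw [Finset.mem_inter]
  exact ⟨fun h => ⟨h, he⟩, fun h => h.1⟩

/-- the wired spanning tree of the box of radius `k` -/
noncomputable def wiP (k : ℕ) (A : Finset E2 → Prop) : ℝ := L2.pr (eTouch (Bk k)) (Bk k) A

theorem corner_mem (k : ℕ) : (-(k : ℤ), -(k : ℤ)) ∈ Bk k :=
  mem_bx.2 ⟨le_rfl, by simp only; omega, le_rfl, by simp only; omega⟩

theorem Bk_mono {k l : ℕ} (h : k ≤ l) : Bk k ⊆ Bk l :=
  bx_subset (by omega) (by omega) (by omega) (by omega)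

theorem card_Bk (k : ℕ) : ((Bk k).card : ℝ) = (2 * k + 1) ^ 2 := by
  have h := card_bx (-(k : ℤ)) (-(k : ℤ)) (2 * k) (2 * k)
  have e1 : -(k : ℤ) + ((2 * k : ℕ) : ℤ) = k := by push_cast; ring
  rw [e1] at h
  unfold Bk
  rw [h]; push_cast; ring

theorem card_eIn_Bk (k : ℕ) : ((eIn (Bk k)).card : ℝ) = 4 * k * (2 * k + 1) := by
  have h := card_eIn_bx (-(k : ℤ)) (-(k : ℤ)) (2 * k) (2 * k)
  have e1 : -(k : ℤ) + ((2 * k : ℕ) : ℤ) = k := by push_cast; ring
  rw [e1] at h
  unfold Bk
  rw [h]; push_cast; ring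

/-- horizontal edges: averaging over the box -/
theorem frP_edge_le_pr (k K : ℕ) (hk : 1 ≤ k) (x y : ℤ) (d : Bool)
    (hx : |x| + 2 * k ≤ K) (hy : |y| + 2 * k ≤ K) (e : E2) (he : e ∈ eIn (Bk k)) :
    frP K (fun T => (x, y, d) ∈ T) ≤ frP k (fun T => e ∈ T) := by
  obtain ⟨a, b, c⟩ := e
  have hx1 := le_abs_self x
  have hx2 := neg_abs_le x
  have hy1 := le_abs_self y
  have hy2 := neg_abs_le y
  have hab : (a, b) ∈ Bk k := (mem_eIn.1 he).1
  have hab' := mem_bx.1 hab
  simp only at hab'
  by_cases hcd : c = d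
  · subst hcd
    -- translation
    have h1 := free_tr (x - a) (y - b) (-(k : ℤ)) k (-(k : ℤ)) k (-(k : ℤ), -(k : ℤ))
      (fun T => (x, y, c) ∈ T)
    have h2 : (fun T : Finset E2 => (x, y, c) ∈ T.map (trI (x - a) (y - b)).e.toEmbedding) =
        fun T => (a, b, c) ∈ T := by
      funext T
      have : (x, y, c) = (trI (x - a) (y - b)).e (a, b, c) := by
        rw [trI_e, Prod.mk.injEq, Prod.mk.injEq]; exact ⟨by ring, by ring, rfl⟩
      rw [this]
      exact propext (Finset.mem_map' (trI (x - a) (y - b)).e.toEmbedding)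
    rw [h2] at h1
    have h3 : frP k (fun T => (a, b, c) ∈ T) =
        L2.pr (eIn (bx (-(k : ℤ)) k (-(k : ℤ)) k)) ((bx (-(k : ℤ)) k (-(k : ℤ)) k).erase
          (-(k : ℤ), -(k : ℤ))) (fun T => (a, b, c) ∈ T) := rfl
    rw [h3, ← h1]
    unfold frP Bk
    refine free_mono (by omega) (by omega) (by omega) (by omega) (by omega) (by omega) ?_ ?_ _
      (inc_edge _) (loc_edge ?_)
    · rw [mem_bx]; simp only; omega
    · rw [mem_bx]; simp only; omega
    · have := (trI (x - a) (y - b)).eIn (bx (-(k : ℤ)) k (-(k : ℤ)) k)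
      rw [map_trI_bx] at this
      rw [← this]
      refine Finset.mem_map.2 ⟨(a, b, c), he, ?_⟩
      simp only [Equiv.coe_toEmbedding, trI_e, Prod.mk.injEq]
      exact ⟨by ring, by ring, trivial⟩
  · have hc : c = !d := by cases c <;> cases d <;> simp_all
    subst hc
    -- translation and exchange
    have h0 := free_sw (-(k : ℤ)) k (-(k : ℤ)) k (-(k : ℤ), -(k : ℤ)) (fun T => (b, a, d) ∈ T)
    have h02 : (fun T : Finset E2 => (b, a, d) ∈ T.map swI.e.toEmbedding) =
        fun T => (a, b, !d) ∈ T := by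
      funext T
      have : (b, a, d) = swI.e (a, b, !d) := by rw [swI_e]; simp
      rw [this]
      exact propext (Finset.mem_map' swI.e.toEmbedding)
    rw [h02] at h0
    have h1 := free_tr (x - b) (y - a) (-(k : ℤ)) k (-(k : ℤ)) k (-(k : ℤ), -(k : ℤ))
      (fun T => (x, y, d) ∈ T)
    have h2 : (fun T : Finset E2 => (x, y, d) ∈ T.map (trI (x - b) (y - a)).e.toEmbedding) =
        fun T => (b, a, d) ∈ T := by
      funext T
      have : (x, y, d) = (trI (x - b) (y - a)).e (b, a, d) := by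
        rw [trI_e, Prod.mk.injEq, Prod.mk.injEq]; exact ⟨by ring, by ring, rfl⟩
      rw [this]
      exact propext (Finset.mem_map' (trI (x - b) (y - a)).e.toEmbedding)
    rw [h2] at h1
    have h3 : frP k (fun T => (a, b, !d) ∈ T) =
        L2.pr (eIn (bx (-(k : ℤ)) k (-(k : ℤ)) k)) ((bx (-(k : ℤ)) k (-(k : ℤ)) k).erase
          (-(k : ℤ), -(k : ℤ))) (fun T => (a, b, !d) ∈ T) := rfl
    rw [h3, ← h0, ← h1]
    unfold frP Bk
    refine free_mono (by omega) (by omega) (by omega) (by omega) (by omega) (by omega) ?_ ?_ _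
      (inc_edge _) (loc_edge ?_)
    · rw [mem_bx]; simp only; omega
    · rw [mem_bx]; simp only; omega
    · have := (trI (x - b) (y - a)).eIn (bx (-(k : ℤ)) k (-(k : ℤ)) k)
      rw [map_trI_bx] at this
      rw [← this]
      have hm : (b, a, d) ∈ eIn (bx (-(k : ℤ)) k (-(k : ℤ)) k) := by
        have h5 := swI.eIn (bx (-(k : ℤ)) k (-(k : ℤ)) k)
        rw [map_swI_bx] at h5
        rw [← h5]
        refine Finset.mem_map.2 ⟨(a, b, !d), he, ?_⟩
        simp only [Equiv.coe_toEmbedding, swI_e, Bool.not_not]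
      refine Finset.mem_map.2 ⟨(b, a, d), hm, ?_⟩
      simp only [Equiv.coe_toEmbedding, trI_e, Prod.mk.injEq]
      exact ⟨by ring, by ring, trivial⟩

/-- upper bound of the edge probabilities of the free tree -/
theorem frP_edge_le (k K : ℕ) (hk : 1 ≤ k) (x y : ℤ) (d : Bool)
    (hx : |x| + 2 * k ≤ K) (hy : |y| + 2 * k ≤ K) :
    frP K (fun T => (x, y, d) ∈ T) ≤ ((k : ℝ) + 1) / (2 * k + 1) := by
  have h1 : ∑ e ∈ eIn (Bk k), frP K (fun T => (x, y, d) ∈ T) ≤
      ∑ e ∈ eIn (Bk k), frP k (fun T => e ∈ T) :=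
    Finset.sum_le_sum (fun e he => frP_edge_le_pr k K hk x y d hx hy e he)
  have h2 : ∑ e ∈ eIn (Bk k), frP k (fun T => e ∈ T) = (((Bk k).erase (-(k : ℤ), -(k : ℤ))).card : ℝ) :=
    sum_pr_edges_all (bases_free_nonempty (corner_mem k))
  have h3 : (((Bk k).erase (-(k : ℤ), -(k : ℤ))).card : ℝ) = 4 * k * (k + 1) := by
    have h4 := Finset.card_erase_add_one (corner_mem k)
    have h5 : ((((Bk k).erase (-(k : ℤ), -(k : ℤ))).card + 1 : ℕ) : ℝ) = (2 * k + 1) ^ 2 := by
      rw [h4]; exact card_Bk k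
    push_cast at h5
    linarith
  rw [Finset.sum_const, nsmul_eq_mul, card_eIn_Bk, h2, h3] at h1
  have hk' : (1 : ℝ) ≤ k := by exact_mod_cast hk
  rw [le_div_iff₀ (by linarith)]
  have h6 : (4 * (k : ℝ)) * (frP K (fun T => (x, y, d) ∈ T) * (2 * k + 1)) ≤ (4 * (k : ℝ)) * (k + 1) := by
    linarith
  exact le_of_mul_le_mul_left h6 (by linarith)

/-- lower bound of the edge probabilities of the wired tree -/
theorem wiP_edge_ge (k K : ℕ) (hk : 1 ≤ k) (x y : ℤ) (d : Bool)
    (hx : |x| + 1 + 2 * k ≤ K) (hy : |y| + 1 + 2 * k ≤ K) :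
    (k : ℝ) / (2 * k + 1) ≤ wiP K (fun T => (x, y, d) ∈ T) := by
  obtain ⟨e, he⟩ := dl_surjective (x, y, d)
  have hx1 := le_abs_self x
  have hx2 := neg_abs_le x
  have hy1 := le_abs_self y
  have hy2 := neg_abs_le y
  have hKpos : (-(K : ℤ)) < K := by omega
  have h1 := pr_dual (x0 := -(K : ℤ)) (x1 := K) (y0 := -(K : ℤ)) (y1 := K) hKpos hKpos
    (corner_mem K) (fun T => e ∈ T)
  have heIn : e ∈ eIn (bx (-(K : ℤ)) K (-(K : ℤ)) K) := by
    rw [← dl_mem_eTouch hKpos hKpos, he, mem_eTouch]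
    left
    rw [L2_src, mem_bx]; simp only; omega
  have h2 : (fun T' : Finset E2 => e ∈ cmp (bx (-(K : ℤ)) K (-(K : ℤ)) K) T') =
      fun T' => ¬ ((x, y, d) ∈ T') := by
    funext T'
    rw [mem_cmp, he]
    exact propext ⟨fun h => h.2, fun h => ⟨heIn, h⟩⟩
  rw [h2, MG.pr_not (bases_wired_nonempty _ _ _ _)] at h1
  have h3 : L2.pr (eTouch (bx (-(K : ℤ)) (K - 1) (-(K : ℤ)) (K - 1)))
      (bx (-(K : ℤ)) (K - 1) (-(K : ℤ)) (K - 1)) (fun T => (x, y, d) ∈ T) ≤
      wiP K (fun T => (x, y, d) ∈ T) :=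
    wired_mono (bx_subset le_rfl (by omega) le_rfl (by omega)) _ (inc_edge _)
  have h4 : frP K (fun T => e ∈ T) ≤ ((k : ℝ) + 1) / (2 * k + 1) := by
    obtain ⟨a, b, c⟩ := e
    refine frP_edge_le k K hk a b c ?_ ?_
    · cases c
      · rw [dl_false, Prod.mk.injEq, Prod.mk.injEq] at he
        rw [he.1]; omega
      · rw [dl_true, Prod.mk.injEq, Prod.mk.injEq] at he
        have : a = x + 1 := by omega
        have h5 : |a| ≤ |x| + 1 := by rw [this]; exact (abs_add_le x 1).trans (by simp)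
        omega
    · cases c
      · rw [dl_false, Prod.mk.injEq, Prod.mk.injEq] at he
        have : b = y + 1 := by omega
        have h5 : |b| ≤ |y| + 1 := by rw [this]; exact (abs_add_le y 1).trans (by simp)
        omega
      · rw [dl_true, Prod.mk.injEq, Prod.mk.injEq] at he
        rw [he.2.1]; omega
  have h5 : frP K (fun T => e ∈ T) = 1 - L2.pr (eTouch (bx (-(K : ℤ)) (K - 1) (-(K : ℤ)) (K - 1)))
      (bx (-(K : ℤ)) (K - 1) (-(K : ℤ)) (K - 1)) (fun T => (x, y, d) ∈ T) := h1
  have hk' : (1 : ℝ) ≤ k := by exact_mod_cast hk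
  have h6 : (k : ℝ) / (2 * k + 1) = 1 - ((k : ℝ) + 1) / (2 * k + 1) := by
    field_simp; ring
  rw [h6]
  linarith

theorem frP_antitone {m : ℕ} (hm : 1 ≤ m) {A : Finset E2 → Prop} (hA : Inc A)
    (hloc : Loc (eIn (Bk m)) A) {k l : ℕ} (hk : m ≤ k) (hl : k ≤ l) : frP l A ≤ frP k A := by
  have hloc' : Loc (eIn (Bk k)) A := by
    intro T
    rw [hloc T, hloc (T ∩ eIn (Bk k)), Finset.inter_assoc,
      Finset.inter_eq_right.2 (eIn_mono (Bk_mono hk))]
  exact free_mono (by omega) (by omega) (by omega) (by omega) (by omega) (by omega)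
    (corner_mem k) (corner_mem l) A hA hloc'

theorem wiP_mono {A : Finset E2 → Prop} (hA : Inc A) {k l : ℕ} (hl : k ≤ l) :
    wiP k A ≤ wiP l A := wired_mono (Bk_mono hl) A hA

theorem wiP_le_frP {m : ℕ} (hm : 1 ≤ m) {A : Finset E2 → Prop} (hA : Inc A)
    (hloc : Loc (eIn (Bk m)) A) {k : ℕ} (hk : m ≤ k) : wiP k A ≤ frP k A := by
  have hloc' : Loc (eIn (Bk k)) A := by
    intro T
    rw [hloc T, hloc (T ∩ eIn (Bk k)), Finset.inter_assoc,
      Finset.inter_eq_right.2 (eIn_mono (Bk_mono hk))]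
  exact wired_le_free (by omega) (by omega) (corner_mem k) A hA hloc'

/-- the quantitative comparison of the free and the wired tree -/
theorem frP_sub_wiP_le {m : ℕ} (hm : 1 ≤ m) {A : Finset E2 → Prop}
    (hloc : Loc (eIn (Bk m)) A) (k K : ℕ) (hk : 1 ≤ k) (hK : m + 1 + 2 * k ≤ K) :
    frP K A - wiP K A ≤ ((eIn (Bk m)).card : ℝ) / (2 * k + 1) := by
  have h1 := pr_diff_le (G := L2) (S := eTouch (Bk K)) (W := Bk K) (S' := eIn (Bk K))
    (W' := (Bk K).erase (-(K : ℤ), -(K : ℤ))) (bases_wired_nonempty _ _ _ _)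
    (bases_free_nonempty (corner_mem K)) (eIn (Bk m))
    (fun B hB hBl => wiP_le_frP hm hB hBl (by omega)) A hloc
  refine h1.trans ?_
  have hk' : (1 : ℝ) ≤ k := by exact_mod_cast hk
  have h2 : ∀ e ∈ eIn (Bk m), L2.pr (eIn (Bk K)) ((Bk K).erase (-(K : ℤ), -(K : ℤ)))
      (fun T => e ∈ T) - L2.pr (eTouch (Bk K)) (Bk K) (fun T => e ∈ T) ≤ 1 / (2 * k + 1) := by
    rintro ⟨x, y, d⟩ he
    have hm1 := mem_bx.1 (mem_eIn.1 he).1
    rw [L2_src] at hm1
    simp only at hm1
    have hx : |x| ≤ m := abs_le.2 ⟨by omega, by omega⟩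
    have hy : |y| ≤ m := abs_le.2 ⟨by omega, by omega⟩
    have h3 := frP_edge_le k K hk x y d (by omega) (by omega)
    have h4 := wiP_edge_ge k K hk x y d (by omega) (by omega)
    unfold frP at h3
    unfold wiP at h4
    have h5 : (1 : ℝ) / (2 * k + 1) = ((k : ℝ) + 1) / (2 * k + 1) - (k : ℝ) / (2 * k + 1) := by
      field_simp; ring
    rw [h5]
    linarith
  refine (Finset.sum_le_sum h2).trans ?_
  rw [Finset.sum_const, nsmul_eq_mul]
  apply le_of_eq; ring

end Pool.Agent.UST
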