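import Pool.Agent.UST.MONO

set_option autoImplicit false

/-!
Existence of bases on the lattice.

Proofs. `bases_nonempty` (WIR). `wired_nonempty`: from `v ∈ W` go to the right until `W` is left (`W` finite); all edges
used touch `W`. `S2_nonempty`: go to the right; the edges `(x, y, false)` with `(x,y) ∈ W2` have height `y ≥ y0 - 1`.
`bases_wired`: `bases_congr_touch` (MONO).
-/

namespace Pool.Agent.UST

/-- go to the right until `W` is left -/
theorem LA1_right {S : Finset E2} {W : Finset V2} (hS : ∀ v ∈ W, (v.1, v.2, false) ∈ S) (v : V2) :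
    ∃ r, r ∉ W ∧ L2.Conn S v r := by
  by_contra hcon
  push Not at hcon
  have key : ∀ n : ℕ, L2.Conn S v (v.1 + n, v.2) ∧ (v.1 + (n : ℤ), v.2) ∈ W := by
    intro n
    induction n with
    | zero =>
      have h0 : ((v.1 + ((0 : ℕ) : ℤ), v.2) : V2) = v := by
        ext <;> simp
      rw [h0]
      refine ⟨Relation.ReflTransGen.refl, ?_⟩
      by_contra h
      exact hcon v h Relation.ReflTransGen.refl
    | succ n ih =>
      have h1 : L2.Conn S v (v.1 + ((n + 1 : ℕ) : ℤ), v.2) := by
        refine ih.1.tail ⟨(v.1 + (n : ℤ), v.2, false), hS _ ih.2, Or.inl ⟨rfl, ?_⟩⟩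
        rw [L2_tgt_false]
        ext
        · push_cast; ring
        · rfl
      refine ⟨h1, ?_⟩
      by_contra h
      exact hcon _ h h1
  have hinf : Set.Infinite (W : Set V2) := by
    refine Set.infinite_of_injective_forall_mem (f := fun n : ℕ => ((v.1 + (n : ℤ), v.2) : V2)) ?_
      (fun n => (key n).2)
    intro m n hmn
    have := (Prod.mk.inj hmn).1
    omega
  exact hinf W.finite_toSet

theorem wired_nonempty (W : Finset V2) : (L2.Bases (eTouch W) W).Nonempty := by
  refine bases_nonempty (fun w _ => LA1_right (fun v hv => ?_) w)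
  rw [mem_eTouch]
  exact Or.inl hv

theorem S2_nonempty (x0 x1 y0 y1 : ℤ) : (L2.Bases (S2 x0 x1 y0 y1) (W2 x0 x1 y0 y1)).Nonempty := by
  refine bases_nonempty (fun w _ => LA1_right (fun v hv => ?_) w)
  unfold S2
  rw [Finset.mem_filter, mem_eTouch]
  refine ⟨Or.inl hv, ?_⟩
  unfold W2 at hv
  rw [mem_bx] at hv
  exact hv.2.2.1

theorem bases_wired {S : Finset E2} {W : Finset V2} (h : eTouch W ⊆ S) :
    L2.Bases S W = L2.Bases (eTouch W) W := by
  refine bases_congr_touch h (fun e _ he => ?_)
  rw [mem_eTouch] at he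
  push Not at he
  exact he

end Pool.Agent.UST
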