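import Pool.Agent.UST.LA1

set_option autoImplicit false

/-!
Elementary facts on the lattice: monotonicity and locality of crossing events, sub-crossings.

Proofs. `HCr_loc`: a step inside the box uses an edge
of `eIn`. `conn_cross`: a walk in `bx X0 X1 y0 y1` from a vertex with first coordinate `≤ x0` to one with first coordinate
`≥ x1` (`x0 ≤ x1`): induction on the walk (`Relation.ReflTransGen.head_induction_on`): let `u` be the last vertex in the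
column `x0` before the first visit after it of the column `x1`. Formal version: prove by induction on the walk (from the end): for every
`w` on the walk with `w.1 ≤ x1`: either there is a crossing, or `w` (if `x0 ≤ w.1`) is connected inside
`bx x0 x1 y0 y1` to a vertex of the column `x1`; first coordinates change by at most one in a step.
-/

namespace Pool.Agent.UST

private theorem lat_connIn {T : Finset E2} {X : Finset V2} {Y : Set V2} (hY : Y ⊆ (X : Set V2))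
    {u v : V2} (h : L2.ConnIn T Y u v) : L2.ConnIn (T ∩ eIn X) Y u v := by
  refine Relation.ReflTransGen.mono ?_ _ _ h
  rintro a b ⟨⟨e, he, h1⟩, ha, hb⟩
  refine ⟨⟨e, ?_, h1⟩, ha, hb⟩
  rw [Finset.mem_inter, mem_eIn]
  refine ⟨he, ?_⟩
  rcases h1 with ⟨h2, h3⟩ | ⟨h2, h3⟩
  · rw [h2, h3]; exact ⟨hY ha, hY hb⟩
  · rw [h2, h3]; exact ⟨hY hb, hY ha⟩

private theorem lat_step {T : Finset E2} {u v : V2} (h : L2.Step T u v) :
    (v.1 ≤ u.1 + 1 ∧ u.1 ≤ v.1 + 1) ∧ (v.2 ≤ u.2 + 1 ∧ u.2 ≤ v.2 + 1) := by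
  obtain ⟨⟨x, y, b⟩, _, h1⟩ := h
  rcases h1 with ⟨rfl, rfl⟩ | ⟨rfl, rfl⟩ <;> cases b
  · rw [L2_tgt_false, L2_src]; dsimp only; omega
  · rw [L2_tgt_true, L2_src]; dsimp only; omega
  · rw [L2_tgt_false, L2_src]; dsimp only; omega
  · rw [L2_tgt_true, L2_src]; dsimp only; omega

private theorem lat_gen {T : Finset E2} (c : V2 → ℤ)
    (hc : ∀ w w', L2.Step T w w' → c w' ≤ c w + 1) {Y : Set V2} {a b : ℤ} (hab : a ≤ b)
    {u v : V2} (hu : u ∈ Y) (hu1 : c u ≤ a) (hv1 : b ≤ c v) (h : L2.ConnIn T Y u v) :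
    ∃ u' v', u' ∈ Y ∧ v' ∈ Y ∧ c u' = a ∧ c v' = b ∧
      L2.ConnIn T {w | w ∈ Y ∧ a ≤ c w ∧ c w ≤ b} u' v' := by
  have hvY : v ∈ Y := by
    rcases Relation.ReflTransGen.cases_tail h with h1 | ⟨w, _, h1⟩
    · rw [h1]; exact hu
    · exact h1.2.2
  have key : (∃ u' v', u' ∈ Y ∧ v' ∈ Y ∧ c u' = a ∧ c v' = b ∧
      L2.ConnIn T {w | w ∈ Y ∧ a ≤ c w ∧ c w ≤ b} u' v') ∨
      (a ≤ c u ∧ (c u ≤ b → ∃ z ∈ Y, c z = b ∧
        L2.ConnIn T {w | w ∈ Y ∧ a ≤ c w ∧ c w ≤ b} u z)) := by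
    clear hu1 hu
    induction h using Relation.ReflTransGen.head_induction_on with
    | refl =>
      right
      exact ⟨hab.trans hv1, fun h1 => ⟨v, hvY, le_antisymm h1 hv1, Relation.ReflTransGen.refl⟩⟩
    | @head w w' hstep _ ih =>
      rcases ih with ih | ⟨ih1, ih2⟩
      · exact Or.inl ih
      · obtain ⟨hs, hw, hw'⟩ := hstep
        have h1 := hc w w' hs
        by_cases h2 : a ≤ c w
        · right
          refine ⟨h2, fun h3 => ?_⟩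
          rcases eq_or_lt_of_le h3 with h4 | h4
          · exact ⟨w, hw, h4, Relation.ReflTransGen.refl⟩
          · obtain ⟨z, hz, hz1, hz2⟩ := ih2 (by omega)
            refine ⟨z, hz, hz1, Relation.ReflTransGen.head ⟨hs, ⟨hw, h2, h3⟩, ?_⟩ hz2⟩
            exact ⟨hw', ih1, by omega⟩
        · left
          obtain ⟨z, hz, hz1, hz2⟩ := ih2 (by omega)
          exact ⟨w', z, hw', hz, by omega, hz1, hz2⟩
  rcases key with h1 | ⟨h1, h2⟩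
  · exact h1
  · obtain ⟨z, hz, hz1, hz2⟩ := h2 (by omega)
    exact ⟨u, z, hu, hz, by omega, hz1, hz2⟩

theorem HCr_inc (x0 x1 y0 y1 : ℤ) : Inc fun T => HCr T x0 x1 y0 y1 := by
  rintro T T' hT ⟨u, hu, v, hv, h1, h2, h3⟩
  exact ⟨u, hu, v, hv, h1, h2, h3.mono hT le_rfl⟩

theorem VCr_inc (x0 x1 y0 y1 : ℤ) : Inc fun T => VCr T x0 x1 y0 y1 := by
  rintro T T' hT ⟨u, hu, v, hv, h1, h2, h3⟩
  exact ⟨u, hu, v, hv, h1, h2, h3.mono hT le_rfl⟩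

theorem AJ_inc (x0 x1 y0 y1 : ℤ) (j : ℕ) : Inc fun T => AJ T x0 x1 y0 y1 j := by
  rintro T T' hT ⟨X, h1, h2, h3⟩
  refine ⟨X, h1, h2, fun i => ?_⟩
  obtain ⟨h4, h5, h6⟩ := h3 i
  exact ⟨h4, h5, fun u hu v hv => (h6 u hu v hv).mono hT le_rfl⟩

theorem HCr_loc (x0 x1 y0 y1 : ℤ) : Loc (eIn (bx x0 x1 y0 y1)) fun T => HCr T x0 x1 y0 y1 := by
  intro T
  constructor
  · rintro ⟨u, hu, v, hv, h1, h2, h3⟩
    exact ⟨u, hu, v, hv, h1, h2, lat_connIn le_rfl h3⟩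
  · exact HCr_inc x0 x1 y0 y1 _ _ Finset.inter_subset_left

theorem VCr_loc (x0 x1 y0 y1 : ℤ) : Loc (eIn (bx x0 x1 y0 y1)) fun T => VCr T x0 x1 y0 y1 := by
  intro T
  constructor
  · rintro ⟨u, hu, v, hv, h1, h2, h3⟩
    exact ⟨u, hu, v, hv, h1, h2, lat_connIn le_rfl h3⟩
  · exact VCr_inc x0 x1 y0 y1 _ _ Finset.inter_subset_left

theorem AJ_loc (x0 x1 y0 y1 : ℤ) (j : ℕ) :
    Loc (eIn (bx x0 x1 y0 y1)) fun T => AJ T x0 x1 y0 y1 j := by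
  intro T
  constructor
  · rintro ⟨X, h1, h2, h3⟩
    refine ⟨X, h1, h2, fun i => ?_⟩
    obtain ⟨h4, h5, h6⟩ := h3 i
    exact ⟨h4, h5, fun u hu v hv => lat_connIn (Finset.coe_subset.2 (h1 i)) (h6 u hu v hv)⟩
  · exact AJ_inc x0 x1 y0 y1 j _ _ Finset.inter_subset_left

/-- a walk in the strip from the left of `x0` to the right of `x1` contains a crossing -/
theorem conn_cross {T : Finset E2} {X0 X1 x0 x1 y0 y1 : ℤ} {u v : V2} (hx : x0 ≤ x1)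
    (hu : u ∈ bx X0 X1 y0 y1) (hu1 : u.1 ≤ x0) (hv1 : x1 ≤ v.1)
    (h : L2.ConnIn T (bx X0 X1 y0 y1 : Set V2) u v) : HCr T x0 x1 y0 y1 := by
  obtain ⟨u', v', h1, h2, h3, h4, h5⟩ := lat_gen (fun w : V2 => w.1)
    (fun w w' hs => (lat_step hs).1.1) hx (Finset.mem_coe.2 hu) hu1 hv1 h
  have hsub : {w : V2 | w ∈ (bx X0 X1 y0 y1 : Set V2) ∧ x0 ≤ w.1 ∧ w.1 ≤ x1} ⊆
      (bx x0 x1 y0 y1 : Set V2) := by
    rintro w ⟨hw, hw1, hw2⟩
    rw [Finset.mem_coe, mem_bx] at hw ⊢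
    omega
  rw [Finset.mem_coe, mem_bx] at h1 h2
  refine ⟨u', ?_, v', ?_, h3, h4, h5.mono le_rfl hsub⟩
  · rw [mem_bx]; omega
  · rw [mem_bx]; omega

/-- the same, bottom to top -/
theorem conn_vcross {T : Finset E2} {x0 x1 Y0 Y1 y0 y1 : ℤ} {u v : V2} (hy : y0 ≤ y1)
    (hu : u ∈ bx x0 x1 Y0 Y1) (hu1 : u.2 ≤ y0) (hv1 : y1 ≤ v.2)
    (h : L2.ConnIn T (bx x0 x1 Y0 Y1 : Set V2) u v) : VCr T x0 x1 y0 y1 := by
  obtain ⟨u', v', h1, h2, h3, h4, h5⟩ := lat_gen (fun w : V2 => w.2)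
    (fun w w' hs => (lat_step hs).2.1) hy (Finset.mem_coe.2 hu) hu1 hv1 h
  have hsub : {w : V2 | w ∈ (bx x0 x1 Y0 Y1 : Set V2) ∧ y0 ≤ w.2 ∧ w.2 ≤ y1} ⊆
      (bx x0 x1 y0 y1 : Set V2) := by
    rintro w ⟨hw, hw1, hw2⟩
    rw [Finset.mem_coe, mem_bx] at hw ⊢
    omega
  rw [Finset.mem_coe, mem_bx] at h1 h2
  refine ⟨u', ?_, v', ?_, h3, h4, h5.mono le_rfl hsub⟩
  · rw [mem_bx]; omega
  · rw [mem_bx]; omega

theorem HCr_sub {T : Finset E2} {X0 X1 x0 x1 y0 y1 : ℤ} (h0 : X0 ≤ x0) (h : x0 ≤ x1)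
    (h1 : x1 ≤ X1) (hc : HCr T X0 X1 y0 y1) : HCr T x0 x1 y0 y1 := by
  obtain ⟨u, hu, v, hv, hu1, hv1, huv⟩ := hc
  exact conn_cross h hu (by rw [hu1]; exact h0) (by rw [hv1]; exact h1) huv

/-- taller rectangles are easier to cross -/
theorem HCr_tall {T : Finset E2} {x0 x1 y0 y1 Y0 Y1 : ℤ} (h0 : Y0 ≤ y0) (h1 : y1 ≤ Y1)
    (hc : HCr T x0 x1 y0 y1) : HCr T x0 x1 Y0 Y1 := by
  obtain ⟨u, hu, v, hv, hu1, hv1, huv⟩ := hc
  have hsub : bx x0 x1 y0 y1 ⊆ bx x0 x1 Y0 Y1 := by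
    intro w hw
    rw [mem_bx] at hw ⊢
    omega
  exact ⟨u, hsub hu, v, hsub hv, hu1, hv1, huv.mono le_rfl (Finset.coe_subset.2 hsub)⟩

/-- at least one disjoint crossing is a crossing -/
theorem AJ_one {T : Finset E2} {x0 x1 y0 y1 : ℤ} {j : ℕ} (h : AJ T x0 x1 y0 y1 (j + 1)) :
    HCr T x0 x1 y0 y1 := by
  obtain ⟨X, h1, _, h3⟩ := h
  obtain ⟨⟨u, hu, hu1⟩, ⟨v, hv, hv1⟩, h6⟩ := h3 0
  exact ⟨u, h1 0 hu, v, h1 0 hv, hu1, hv1,
    (h6 u hu v hv).mono le_rfl (Finset.coe_subset.2 (h1 0))⟩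

end Pool.Agent.UST
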