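import Pool.Agent.UST.DOM
import Pool.Agent.UST.LAT
import Pool.Agent.UST.LA1
import Pool.Agent.UST.FW

set_option autoImplicit false

/-!
The infinite volume limit.

Proofs. `fr_anti`: `dom_ext` with `S = eIn (Bk k)`, `W = Bk k` minus a vertex, `S1, W1` for `Bk (k+1)` minus the SAME vertex
(the root can be changed by `root_indep`), for `k` with `Λ ⊆ eIn (Bk k)`. So `frP k A` is antitone from some `k` on,
bounded below: it converges, to its limsup. `pinf_le_free`: the same comparison of a finite connected graph `(X, S)` with the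
big boxes. `wired_le_pinf`: `Bases (eTouch W) W = Bases (eIn (Bk k)) W` for `W` inside `Bk (k-1)` (`bases_touch`: edges not
touching `W` are not used), `dom_wire` with `W ⊆ (Bk k).erase corner`.
-/

namespace Pool.Agent.UST

open Finset Filter Topology

theorem Loc.mono' {E : Type} [DecidableEq E] {S S' : Finset E} {A : Finset E → Prop}
    (h : Loc S A) (hS : S ⊆ S') : Loc S' A := by
  intro T
  rw [h T, h (T ∩ S'), Finset.inter_assoc, Finset.inter_eq_right.2 hS]

/-- every finite set of vertices lies in a centred box -/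
theorem exists_Bk_of_finset (X : Finset V2) : ∃ m : ℕ, 1 ≤ m ∧ X ⊆ Bk m := by
  classical
  refine ⟨X.sup (fun v => v.1.natAbs + v.2.natAbs) + 1, by omega, fun v hv => ?_⟩
  have h : v.1.natAbs + v.2.natAbs ≤ X.sup (fun v : V2 => v.1.natAbs + v.2.natAbs) :=
    Finset.le_sup (f := fun v : V2 => v.1.natAbs + v.2.natAbs) hv
  unfold Bk
  rw [mem_bx]
  omega

/-- every finite set of edges lies in a centred box -/
theorem exists_Bk_of_edges (S : Finset E2) : ∃ m : ℕ, 1 ≤ m ∧ S ⊆ eIn (Bk m) := by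
  classical
  obtain ⟨m, hm, h⟩ := exists_Bk_of_finset (S.image L2.src ∪ S.image L2.tgt)
  refine ⟨m, hm, fun e he => mem_eIn.2 ⟨h ?_, h ?_⟩⟩
  · exact Finset.mem_union_left _ (Finset.mem_image_of_mem _ he)
  · exact Finset.mem_union_right _ (Finset.mem_image_of_mem _ he)

theorem exists_loc_Bk {A : Finset E2 → Prop} {Λ : Finset E2} (hL : Loc Λ A) :
    ∃ m : ℕ, 1 ≤ m ∧ Loc (eIn (Bk m)) A := by
  obtain ⟨m, hm, h⟩ := exists_Bk_of_edges Λ
  exact ⟨m, hm, hL.mono' h⟩

theorem fr_tendsto {A : Finset E2 → Prop} {Λ : Finset E2} (hA : Inc A) (hL : Loc Λ A) :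
    Filter.Tendsto (fun k => frP k A) Filter.atTop (nhds (Pinf A)) := by
  obtain ⟨m, hm, hloc⟩ := exists_loc_Bk hL
  have h1 : Antitone (fun k => frP (k + m) A) := fun k l hkl =>
    frP_antitone hm hA hloc (by omega) (by omega)
  have h2 : BddBelow (Set.range (fun k => frP (k + m) A)) :=
    ⟨0, by rintro _ ⟨k, rfl⟩; exact MG.pr_nonneg _ _ _⟩
  have h3 : Tendsto (fun k => frP k A) atTop (𝓝 (⨅ i, frP (i + m) A)) :=
    (tendsto_add_atTop_iff_nat (f := fun k => frP k A) (l := 𝓝 (⨅ i, frP (i + m) A)) m).1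
      (tendsto_atTop_ciInf h1 h2)
  have h4 : Pinf A = ⨅ i, frP (i + m) A := h3.limsup_eq
  rw [h4]; exact h3

theorem pinf_nonneg {A : Finset E2 → Prop} {Λ : Finset E2} (hA : Inc A) (hL : Loc Λ A) :
    0 ≤ Pinf A := by
  refine ge_of_tendsto (fr_tendsto hA hL) (Filter.Eventually.of_forall fun k => ?_)
  exact MG.pr_nonneg _ _ _

theorem pinf_le_one {A : Finset E2 → Prop} {Λ : Finset E2} (hA : Inc A) (hL : Loc Λ A) :
    Pinf A ≤ 1 := by
  refine le_of_tendsto (fr_tendsto hA hL) (Filter.Eventually.of_forall fun k => ?_)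
  exact MG.pr_le_one _ _ _

theorem pinf_mono {A B : Finset E2 → Prop} {Λ Λ' : Finset E2} (hA : Inc A) (hL : Loc Λ A)
    (hB : Inc B) (hL' : Loc Λ' B) (h : ∀ T, A T → B T) : Pinf A ≤ Pinf B := by
  refine le_of_tendsto_of_tendsto' (fr_tendsto hA hL) (fr_tendsto hB hL') fun k => ?_
  exact MG.pr_mono_event fun T _ => h T

/-- the free box with any root -/
theorem frP_root {k : ℕ} {x : V2} (hx : x ∈ Bk k) (A : Finset E2 → Prop) :
    frP k A = L2.pr (eIn (Bk k)) ((Bk k).erase x) A := by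
  unfold frP MG.pr MG.cnt
  rw [root_indep L2 (fun e he => mem_eIn.1 he) (corner_mem k) hx]

/-- a finite connected graph with free boundary dominates -/
theorem pinf_le_free {A : Finset E2 → Prop} {S : Finset E2} {X : Finset V2} {x : V2}
    (hS : ∀ e ∈ S, L2.src e ∈ X ∧ L2.tgt e ∈ X) (hx : x ∈ X)
    (hne : (L2.Bases S (X.erase x)).Nonempty) (hA : Inc A) (hL : Loc S A) :
    Pinf A ≤ L2.pr S (X.erase x) A := by
  obtain ⟨m, hm, hX⟩ := exists_Bk_of_finset X
  refine le_of_tendsto (fr_tendsto hA hL) ((eventually_ge_atTop m).mono (fun k hk => ?_))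
  have hXk : X ⊆ Bk k := hX.trans (Bk_mono hk)
  rw [frP_root (hXk hx)]
  refine dom_ext L2 (fun e he => mem_eIn.2 ⟨hXk (hS e he).1, hXk (hS e he).2⟩)
    (Finset.erase_subset_erase x hXk) ?_ hne (bases_free_nonempty (hXk hx)) hA hL
  intro e he v hv ht
  refine Finset.mem_erase.2 ⟨Finset.ne_of_mem_erase hv, ?_⟩
  rcases ht with h | h
  · rw [← h]; exact (hS e he).1
  · rw [← h]; exact (hS e he).2

/-- a wired finite graph is dominated -/
theorem wired_le_pinf {A : Finset E2 → Prop} {Λ : Finset E2} (hA : Inc A) (hL : Loc Λ A)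
    (W : Finset V2) : L2.pr (eTouch W) W A ≤ Pinf A := by
  obtain ⟨m, hm, hloc⟩ := exists_loc_Bk hL
  obtain ⟨n, hn, hW⟩ := exists_Bk_of_finset W
  refine ge_of_tendsto (fr_tendsto hA hL) ((eventually_ge_atTop (m + n)).mono (fun k hk => ?_))
  have hWk : W ⊆ Bk k := hW.trans (Bk_mono (by omega))
  refine le_trans (pr_wired_mono (eTouch_mono hWk) hWk ?_ A hA (bases_wired_nonempty _ _ _ _))
    (wiP_le_frP hm hA hloc (k := k) (by omega))
  intro e _ he
  rw [mem_eTouch] at he
  push Not at he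
  exact he

/-- comparison of a connected finite graph containing a wired region with the wired region -/
theorem wired_le_conn {A : Finset E2 → Prop} (hA : Inc A) {S : Finset E2} {X W : Finset V2} {x : V2}
    (hS : ∀ e ∈ S, L2.src e ∈ X ∧ L2.tgt e ∈ X) (hx : x ∈ X) (hxW : x ∉ W)
    (hne : (L2.Bases S (X.erase x)).Nonempty) (hW : W ⊆ X) (hWS : eTouch W ⊆ S) :
    L2.pr (eTouch W) W A ≤ L2.pr S (X.erase x) A := by
  refine pr_wired_mono hWS (fun w hw => Finset.mem_erase.2
    ⟨fun h => hxW (by rw [← h]; exact hw), hW hw⟩) ?_ A hA hne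
  intro e _ he
  rw [mem_eTouch] at he
  push Not at he
  exact he

end Pool.Agent.UST
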