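import Pool.Agent.UST.EXA

set_option autoImplicit false

/-!
The exploration, reflecting bottom side (the induction step).

Proof. `W = W2`, `S = S2`, `Q` = row `y0 - 1` (contained in `W2`), `R` = rectangle. `expl_bound` with
`A T' = AJ (cmp R T') (j+1)`, `Good T' = ¬ VCr T' x0 (x1-1) (y0-1) y1`, `A' F0 Tb = AV .. j (F0 ∪ Q) (cmp R Tb)`,
`q = pr S2 W2 (AJ (cmp R ·) j)`.
h1: `AJ_one`, `hcr_cmp_iff` (RDB); `explored_even`, `drop_one` give `AV` for `T'`, then `AV_inc`, `cmp_anti` for `T' ∩ rest`.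
h2: contrapositive; a dual crossing of `T~ = (T' minus rest) ∪ Tb` starts in `Q`; up to its first vertex in the row `y1` all
its vertices are in `W2` and explored in `T~`, i.e. in `F0` (`fib_glue`), so its edges touch `F0`, are not in `Tb ⊆ rest`,
and belong to `T'`: a dual crossing of `T'`.
h3: `dom_ext` from `(rest, W2 minus F0)` to `(S2, W2)` for the increasing event
`T ↦ ¬ AV .. (cmp R (T ∩ rest))`, which is `Loc rest` and agrees with `¬ A' F0` on subsets of `rest`; `MG.pr_not` on both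
sides; then `AV_rest` (a dual edge `dl e`, `e ∈ eIn R`, not touching `F0 ∪ Q` is in `rest`: it touches `W2`, its height is
at least `y0 - 1`) and `AV_AJ`.
-/

namespace Pool.Agent.UST

theorem st2_mem_rest {V E : Type} {G : MG V E} {S : Finset E} {W F : Finset V} {Q : Set V} {e : E} :
    e ∈ G.rest S W F Q ↔ e ∈ S ∧ (∃ v ∈ W, v ∉ F ∧ G.Touch e v) ∧
      ∀ v, G.Touch e v → v ∉ F ∧ v ∉ Q := by
  classical
  unfold MG.rest
  rw [Finset.mem_filter]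

theorem st2_mem_expl {V E : Type} {G : MG V E} {T : Finset E} {W : Finset V} {Q : Set V} {w : V} :
    w ∈ G.expl T W Q ↔ w ∈ W ∧ ∃ q ∈ Q, G.ConnIn T ((W : Set V) ∪ Q) w q := by
  classical
  unfold MG.expl
  rw [Finset.mem_filter]

theorem st2_mem_W2 {x0 x1 y0 y1 : ℤ} {v : V2} :
    v ∈ W2 x0 x1 y0 y1 ↔ x0 ≤ v.1 ∧ v.1 ≤ x1 - 1 ∧ y0 - 1 ≤ v.2 ∧ v.2 ≤ y1 - 1 := mem_bx

theorem st2_mem_S2 {x0 x1 y0 y1 : ℤ} {e : E2} :
    e ∈ S2 x0 x1 y0 y1 ↔ (L2.src e ∈ W2 x0 x1 y0 y1 ∨ L2.tgt e ∈ W2 x0 x1 y0 y1) ∧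
      y0 - 1 ≤ e.2.1 := by
  unfold S2
  rw [Finset.mem_filter, mem_eTouch]

/-- the dual edges of the rectangle which do not touch the explored part -/
theorem st2_dual {x0 x1 y0 y1 : ℤ} (hx : x0 < x1) {F0 : Finset V2} {Q : Set V2} {e : E2}
    (he : e ∈ eIn (bx x0 x1 y0 y1))
    (h : ∀ f ∈ (F0 : Set V2) ∪ Q, ¬ L2.Touch (dl e) f) :
    dl e ∈ L2.rest (S2 x0 x1 y0 y1) (W2 x0 x1 y0 y1) F0 Q := by
  have hc : ∀ v, L2.Touch (dl e) v → v ∉ F0 ∧ v ∉ Q := fun v hv =>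
    ⟨fun h' => h v (Or.inl h') hv, fun h' => h v (Or.inr h') hv⟩
  obtain ⟨x, y, b⟩ := e
  rw [mem_eIn] at he
  cases b
  · rw [L2_src, L2_tgt_false, mem_bx, mem_bx] at he
    simp only at he
    have hW : (x, y - 1) ∈ W2 x0 x1 y0 y1 := by
      rw [st2_mem_W2]; simp only; omega
    rw [dl_false] at hc ⊢
    have ht : L2.Touch (x, y - 1, true) (x, y - 1) := Or.inl rfl
    refine st2_mem_rest.2 ⟨?_, ⟨(x, y - 1), hW, (hc _ ht).1, ht⟩, hc⟩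
    rw [st2_mem_S2]
    exact ⟨Or.inl hW, by simp only; omega⟩
  · rw [L2_src, L2_tgt_true, mem_bx, mem_bx] at he
    simp only at he
    rw [dl_true] at hc ⊢
    rcases lt_or_ge x x1 with h1 | h1
    · have hW : (x, y) ∈ W2 x0 x1 y0 y1 := by
        rw [st2_mem_W2]; simp only; omega
      have ht : L2.Touch (x - 1, y, false) (x, y) := Or.inr (by rw [L2_tgt_false]; simp)
      refine st2_mem_rest.2 ⟨?_, ⟨(x, y), hW, (hc _ ht).1, ht⟩, hc⟩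
      rw [st2_mem_S2]
      refine ⟨Or.inr ?_, by simp only; omega⟩
      rw [L2_tgt_false, sub_add_cancel]; exact hW
    · have hW : (x - 1, y) ∈ W2 x0 x1 y0 y1 := by
        rw [st2_mem_W2]; simp only; omega
      have ht : L2.Touch (x - 1, y, false) (x - 1, y) := Or.inl rfl
      refine st2_mem_rest.2 ⟨?_, ⟨(x - 1, y), hW, (hc _ ht).1, ht⟩, hc⟩
      rw [st2_mem_S2]
      exact ⟨Or.inl hW, by simp only; omega⟩

/-- a dual crossing of the glued configuration is a dual crossing of the old one -/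
theorem st2_good {x0 x1 y0 y1 : ℤ} (hy : y0 ≤ y1) {T T' Tb : Finset E2} {F0 : Finset V2}
    (hexp : L2.expl T' (W2 x0 x1 y0 y1) (rowQ x0 x1 (y0 - 1)) = F0)
    (hT' : ∀ e ∈ T', e ∈ T ∨ e ∈ Tb) (hTb : ∀ e ∈ Tb, ∀ v, L2.Touch e v → v ∉ F0)
    (h : VCr T' x0 (x1 - 1) (y0 - 1) y1) : VCr T x0 (x1 - 1) (y0 - 1) y1 := by
  obtain ⟨u, hu, v, hv, hu2, hv2, hc⟩ := h
  have hu' := mem_bx.1 hu
  have huQ : u ∈ rowQ x0 x1 (y0 - 1) := ⟨hu'.1, hu'.2.1, hu2⟩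
  have huW : u ∈ W2 x0 x1 y0 y1 := st2_mem_W2.2 ⟨hu'.1, hu'.2.1, hu'.2.2.1, by rw [hu2]; omega⟩
  have key : ∀ w, L2.ConnIn T' (bx x0 (x1 - 1) (y0 - 1) y1 : Set V2) u w →
      VCr T x0 (x1 - 1) (y0 - 1) y1 ∨ (w ∈ W2 x0 x1 y0 y1 ∧
        L2.ConnIn T' ((W2 x0 x1 y0 y1 : Set V2) ∪ rowQ x0 x1 (y0 - 1)) u w ∧
        L2.ConnIn T (bx x0 (x1 - 1) (y0 - 1) y1 : Set V2) u w) := by
    intro w hw
    induction hw with
    | refl => exact Or.inr ⟨huW, Relation.ReflTransGen.refl, Relation.ReflTransGen.refl⟩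
    | @tail b c _ hs ih =>
      rcases ih with h | ⟨hb, h1, h2⟩
      · exact Or.inl h
      obtain ⟨⟨e, he, hend⟩, hbB, hcB⟩ := hs
      have hbF : b ∈ F0 := by
        rw [← hexp]
        exact st2_mem_expl.2 ⟨hb, u, huQ, h1.symm⟩
      have htouch : L2.Touch e b := by
        rcases hend with ⟨h, _⟩ | ⟨_, h⟩
        · exact Or.inl h
        · exact Or.inr h
      have heT : e ∈ T := by
        rcases hT' e he with h | h
        · exact h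
        · exact absurd hbF (hTb e h b htouch)
      have h3 : L2.ConnIn T (bx x0 (x1 - 1) (y0 - 1) y1 : Set V2) u c :=
        h2.tail ⟨⟨e, heT, hend⟩, hbB, hcB⟩
      have hc' := mem_bx.1 (Finset.mem_coe.1 hcB)
      by_cases hcy : c.2 = y1
      · exact Or.inl ⟨u, hu, c, Finset.mem_coe.1 hcB, hu2, hcy, h3⟩
      · have hcW : c ∈ W2 x0 x1 y0 y1 :=
          st2_mem_W2.2 ⟨hc'.1, hc'.2.1, hc'.2.2.1, by omega⟩
        exact Or.inr ⟨hcW, h1.tail ⟨⟨e, he, hend⟩, Or.inl hb, Or.inl hcW⟩, h3⟩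
  rcases key v hc with h | ⟨h, _⟩
  · exact h
  · have := (st2_mem_W2.1 h).2.2.2
    omega

theorem stage2 {x0 x1 y0 y1 : ℤ} (hx : x0 < x1) (hy : y0 ≤ y1) (j : ℕ) :
    L2.pr (S2 x0 x1 y0 y1) (W2 x0 x1 y0 y1)
        (fun T' => AJ (cmp (bx x0 x1 y0 y1) T') x0 x1 y0 y1 (j + 1))
      ≤ L2.pr (S2 x0 x1 y0 y1) (W2 x0 x1 y0 y1) (fun T' => ¬ VCr T' x0 (x1 - 1) (y0 - 1) y1)
        * L2.pr (S2 x0 x1 y0 y1) (W2 x0 x1 y0 y1)
            (fun T' => AJ (cmp (bx x0 x1 y0 y1) T') x0 x1 y0 y1 j) := by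
  have hWc : ∀ v ∈ W2 x0 x1 y0 y1, x0 ≤ v.1 ∧ v.1 ≤ x1 - 1 := fun v hv =>
    ⟨(st2_mem_W2.1 hv).1, (st2_mem_W2.1 hv).2.1⟩
  refine expl_bound L2 (Q := rowQ x0 x1 (y0 - 1))
    (A' := fun F0 Tb => AV x0 x1 y0 y1 j ((F0 : Set V2) ∪ rowQ x0 x1 (y0 - 1))
      (cmp (bx x0 x1 y0 y1) Tb)) (MG.pr_nonneg _ _ _) ?_ ?_ ?_
  · intro T _ hA
    refine ⟨(hcr_cmp_iff T hx hy).1 (AJ_one hA), ?_⟩
    have h1 : AV x0 x1 y0 y1 j
        ((L2.expl T (W2 x0 x1 y0 y1) (rowQ x0 x1 (y0 - 1)) : Set V2) ∪ rowQ x0 x1 (y0 - 1))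
        (cmp (bx x0 x1 y0 y1) T) := by
      refine drop_one hx hA ?_ fun f hf P hP => explored_even hx hWc hf hP
      rintro f (hf | hf)
      · exact hWc f (st2_mem_expl.1 (Finset.mem_coe.1 hf)).1
      · exact ⟨hf.1, hf.2.1⟩
    exact AV_inc _ _ _ _ _ _ _ _ (cmp_anti Finset.inter_subset_left) h1
  · intro T hT hG Tb hTb hV
    apply hG
    obtain ⟨_, hexp⟩ := fib_glue L2 hT hTb
    refine st2_good (Tb := Tb) hy hexp (fun e he => ?_) (fun e he v hv => ?_) hV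
    · rcases Finset.mem_union.1 he with h | h
      · exact Or.inl (Finset.mem_sdiff.1 h).1
      · exact Or.inr h
    · have h1 := (MG.mem_Bases.1 hTb).1 he
      exact ((st2_mem_rest.1 h1).2.2 v hv).1
  · intro T hT _
    set F0 := L2.expl T (W2 x0 x1 y0 y1) (rowQ x0 x1 (y0 - 1)) with hF0
    set RS := L2.rest (S2 x0 x1 y0 y1) (W2 x0 x1 y0 y1) F0 (rowQ x0 x1 (y0 - 1)) with hRS
    have hne : (L2.Bases RS (W2 x0 x1 y0 y1 \ F0)).Nonempty := ⟨_, fib_rest L2 hT⟩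
    have hne1 : (L2.Bases (S2 x0 x1 y0 y1) (W2 x0 x1 y0 y1)).Nonempty := ⟨T, hT⟩
    have hdom := dom_ext L2 (S := RS) (S1 := S2 x0 x1 y0 y1) (W := W2 x0 x1 y0 y1 \ F0)
      (W1 := W2 x0 x1 y0 y1)
      (A := fun T => ¬ AV x0 x1 y0 y1 j ((F0 : Set V2) ∪ rowQ x0 x1 (y0 - 1))
        (cmp (bx x0 x1 y0 y1) (T ∩ RS)))
      (fun e he => (st2_mem_rest.1 he).1) Finset.sdiff_subset
      (fun e he v hv ht => Finset.mem_sdiff.2 ⟨hv, ((st2_mem_rest.1 he).2.2 v ht).1⟩)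
      hne hne1
      (fun T1 T2 h12 h1 h2 => h1 (AV_inc _ _ _ _ _ _ _ _
        (cmp_anti (Finset.inter_subset_inter_right h12)) h2))
      (fun T => by
        simp only [Finset.inter_assoc, Finset.inter_self])
    rw [MG.pr_not hne, MG.pr_not hne1] at hdom
    have h1 : L2.pr RS (W2 x0 x1 y0 y1 \ F0) (fun Tb => AV x0 x1 y0 y1 j
        ((F0 : Set V2) ∪ rowQ x0 x1 (y0 - 1)) (cmp (bx x0 x1 y0 y1) Tb)) =
        L2.pr RS (W2 x0 x1 y0 y1 \ F0) (fun Tb => AV x0 x1 y0 y1 j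
        ((F0 : Set V2) ∪ rowQ x0 x1 (y0 - 1)) (cmp (bx x0 x1 y0 y1) (Tb ∩ RS))) := by
      refine MG.pr_congr fun Tb hTb => ?_
      rw [Finset.inter_eq_left.2 (MG.mem_Bases.1 hTb).1]
    have h2 : L2.pr (S2 x0 x1 y0 y1) (W2 x0 x1 y0 y1) (fun Tb => AV x0 x1 y0 y1 j
        ((F0 : Set V2) ∪ rowQ x0 x1 (y0 - 1)) (cmp (bx x0 x1 y0 y1) (Tb ∩ RS))) ≤
        L2.pr (S2 x0 x1 y0 y1) (W2 x0 x1 y0 y1)
            (fun T' => AJ (cmp (bx x0 x1 y0 y1) T') x0 x1 y0 y1 j) := by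
      refine MG.pr_mono_event fun T1 _ h3 => AV_AJ (AV_rest hx (R' := RS) ?_ h3)
      intro e he hf
      exact st2_dual hx he hf
    show L2.pr RS (W2 x0 x1 y0 y1 \ F0) (fun Tb => AV x0 x1 y0 y1 j
        ((F0 : Set V2) ∪ rowQ x0 x1 (y0 - 1)) (cmp (bx x0 x1 y0 y1) Tb)) ≤ _
    rw [h1]
    linarith

end Pool.Agent.UST
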