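import Pool.Agent.UST.SUC

set_option autoImplicit false

/-!
Lower bound for a dual crossing, reflecting bottom side.

Proof. `a = x1 - x0`, `θ = π / (a + 1) ≤ π/2`, `φ` from `phi_exists`, `xc = (x0 + x1 - 1)/2`, `b = y1 - y0`.
`g(x,y) = cos (θ (x - xc)) cosh (φ (y - y0 + 3/2)) / cosh (φ (b + 3/2))` satisfies `hg` of `max_principle` for `(S2, W2)`: at a
vertex of `W2` above the row `y0 - 1` the four edges are in `S2` (`lap_cosh`); in the row `y0 - 1` the edge down is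
missing, and `g(x, y0-2) = g(x, y0-1)` because `cosh` is even (`-1/2`, `1/2`). Roots reached by an edge of `S2`: columns
`x0 - 1` and `x1` (`g = 0`: `cos (± π/2)`), row `y1` (`g ≤ 1`; `B = {v | v.2 = y1}`; note: a root in the column `x0 - 1` is
never in the row `y1`). Value at `f = (x0 + ⌊a/2⌋, y0 - 1)`: `|f.1 - xc| ≤ 1/2`, `cos_half`, `cosh (φ/2) ≥ 1`,
`cosh z ≤ exp z`, `φ ≤ θ`: `hit f ≥ 0.7 exp (-π (b+3/2)/(a+1)) ≥ (1/2) exp (-π (b+2)/(a+1))`. Finally `hit f ≤ pr VCr`: if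
`T'` connects `f` to a root `r` in the row `y1`, let `f = v_0, ..., v_n` be the walk cut at the first vertex outside `W2`
(that is a root connected to `r`, so it is `r`: `root_unique`); all vertices are in `bx x0 (x1-1) (y0-1) y1`.
-/

namespace Pool.Agent.UST

private theorem mem_W2 {x0 x1 y0 y1 : ℤ} {v : V2} :
    v ∈ W2 x0 x1 y0 y1 ↔ x0 ≤ v.1 ∧ v.1 ≤ x1 - 1 ∧ y0 - 1 ≤ v.2 ∧ v.2 ≤ y1 - 1 := by
  unfold W2; exact mem_bx

private theorem mem_S2 {x0 x1 y0 y1 : ℤ} {e : E2} :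
    e ∈ S2 x0 x1 y0 y1 ↔ (L2.src e ∈ W2 x0 x1 y0 y1 ∨ L2.tgt e ∈ W2 x0 x1 y0 y1) ∧
      y0 - 1 ≤ e.2.1 := by
  unfold S2; rw [Finset.mem_filter, mem_eTouch]

/-- a root reached by an edge of `S2` -/
private theorem root_cases {x0 x1 y0 y1 : ℤ} {e : E2} {w v : V2} (he : e ∈ S2 x0 x1 y0 y1)
    (hw : w ∈ W2 x0 x1 y0 y1) (hv : v ∉ W2 x0 x1 y0 y1)
    (h : (L2.src e = w ∧ L2.tgt e = v) ∨ (L2.src e = v ∧ L2.tgt e = w)) :
    v.1 = x0 - 1 ∨ v.1 = x1 ∨ (v.2 = y1 ∧ x0 ≤ v.1 ∧ v.1 ≤ x1 - 1) := by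
  obtain ⟨x, y, b⟩ := e
  have h2 := (mem_S2.1 he).2
  rw [mem_W2] at hw hv
  cases b
  · rw [L2_src, L2_tgt_false] at h
    rcases h with ⟨rfl, rfl⟩ | ⟨rfl, rfl⟩
    · simp only at *; omega
    · simp only at *; omega
  · rw [L2_src, L2_tgt_true] at h
    rcases h with ⟨rfl, rfl⟩ | ⟨rfl, rfl⟩
    · simp only at *; omega
    · simp only at *; omega

private theorem event {x0 x1 y0 y1 : ℤ} {T : Finset E2} (hy : y0 ≤ y1)
    (hT : T ∈ L2.Bases (S2 x0 x1 y0 y1) (W2 x0 x1 y0 y1)) {f : V2} (hf : f ∈ W2 x0 x1 y0 y1)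
    (hf2 : f.2 = y0 - 1) (h : ∃ r, r ∉ W2 x0 x1 y0 y1 ∧ r ∈ {v : V2 | v.2 = y1} ∧ L2.Conn T f r) :
    VCr T x0 (x1 - 1) (y0 - 1) y1 := by
  obtain ⟨r, hr, hr1, hc⟩ := h
  have hr1' : r.2 = y1 := hr1
  obtain ⟨h1, w, hw, e, he, h2⟩ := suc_root hT hf hr hc
  have hrc := root_cases ((MG.mem_Bases.1 hT).1 he) hw hr h2
  have hf' := mem_W2.1 hf
  have hw' := mem_W2.1 hw
  have hrx : x0 ≤ r.1 ∧ r.1 ≤ x1 - 1 := by
    obtain ⟨x, y, b⟩ := e
    cases b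
    · rw [L2_src, L2_tgt_false] at h2
      rcases h2 with ⟨rfl, rfl⟩ | ⟨rfl, rfl⟩
      · simp only at *; omega
      · simp only at *; omega
    · rw [L2_src, L2_tgt_true] at h2
      rcases h2 with ⟨rfl, rfl⟩ | ⟨rfl, rfl⟩
      · simp only at *; omega
      · simp only at *; omega
  refine ⟨f, ?_, r, ?_, hf2, hr1', ?_⟩
  · rw [mem_bx]; omega
  · rw [mem_bx]; omega
  · refine MG.ConnIn.mono (le_refl T) ?_ h1
    rintro v (hv | hv)
    · have hv' := mem_W2.1 (Finset.mem_coe.1 hv)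
      rw [Finset.mem_coe, mem_bx]; omega
    · rw [Set.mem_singleton_iff] at hv
      subst hv
      rw [Finset.mem_coe, mem_bx]; omega

/-- reflecting bottom side -/
theorem hit_refl {x0 x1 y0 y1 : ℤ} (hx : x0 < x1) (hy : y0 ≤ y1) :
    1 / 2 * Real.exp (-(Real.pi * (y1 - y0 + 2) / (x1 - x0 + 1)))
      ≤ L2.pr (S2 x0 x1 y0 y1) (W2 x0 x1 y0 y1) (fun T' => VCr T' x0 (x1 - 1) (y0 - 1) y1) := by
  have hpi := Real.pi_pos
  have ha : (1 : ℝ) ≤ (x1 : ℝ) - x0 := by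
    have : (x0 : ℝ) + 1 ≤ x1 := by exact_mod_cast hx
    linarith
  have hb : (0 : ℝ) ≤ (y1 : ℝ) - y0 := by
    have : (y0 : ℝ) ≤ y1 := by exact_mod_cast hy
    linarith
  set θ : ℝ := Real.pi / ((x1 : ℝ) - x0 + 1) with hθ
  have hθ0 : 0 < θ := by positivity
  have hθ1 : θ ≤ Real.pi / 2 := by
    rw [hθ]
    apply div_le_div_of_nonneg_left hpi.le (by norm_num) (by linarith)
  obtain ⟨φ, hφ0, hφ1, _, hφ⟩ := phi_exists hθ0 hθ1
  set xc : ℝ := ((x0 : ℝ) + x1 - 1) / 2 with hxc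
  set K : ℝ := Real.cosh (φ * ((y1 : ℝ) - y0 + 3 / 2)) with hK
  have hK0 : 0 < K := Real.cosh_pos _
  set g : V2 → ℝ := fun v => Real.cos (θ * ((v.1 : ℝ) - xc)) *
    Real.cosh (φ * ((v.2 : ℝ) - y0 + 3 / 2)) / K with hg
  have hlap : ∀ x y : ℤ, g (x + 1, y) + g (x - 1, y) + g (x, y + 1) + g (x, y - 1) = 4 * g (x, y) := by
    intro x y
    have h1 := lap_cosh hφ ((x : ℝ) - xc) ((y : ℝ) - y0 + 3 / 2)
    simp only [hg]
    push_cast
    rw [← add_div, ← add_div, ← add_div, ← mul_div_assoc, ← h1]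
    congr 1
    rw [show (x : ℝ) + 1 - xc = (x : ℝ) - xc + 1 by ring,
      show (x : ℝ) - 1 - xc = (x : ℝ) - xc - 1 by ring,
      show (y : ℝ) + 1 - y0 + 3 / 2 = (y : ℝ) - y0 + 3 / 2 + 1 by ring,
      show (y : ℝ) - 1 - y0 + 3 / 2 = (y : ℝ) - y0 + 3 / 2 - 1 by ring]
  have hbot : ∀ x : ℤ, g (x, y0 - 1 - 1) = g (x, y0 - 1) := by
    intro x
    simp only [hg]
    push_cast
    rw [show φ * ((y0 : ℝ) - 1 - 1 - y0 + 3 / 2) = -(φ * ((y0 : ℝ) - 1 - y0 + 3 / 2)) by ring,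
      Real.cosh_neg]
  have hedge : ∀ v : V2, (v.1 = x0 - 1 ∨ v.1 = x1) → g v = 0 := by
    intro v hv
    have hne : ((x1 : ℝ) - x0 + 1) ≠ 0 := by linarith
    have h1 : Real.cos (θ * ((v.1 : ℝ) - xc)) = 0 := by
      rcases hv with hv | hv
      · have : θ * ((v.1 : ℝ) - xc) = -(Real.pi / 2) := by
          rw [hv, hθ, hxc]; push_cast; field_simp; ring
        rw [this, Real.cos_neg, Real.cos_pi_div_two]
      · have : θ * ((v.1 : ℝ) - xc) = Real.pi / 2 := by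
          rw [hv, hθ, hxc]; field_simp; ring
        rw [this, Real.cos_pi_div_two]
    simp only [hg, h1, zero_mul, zero_div]
  have htop : ∀ v : V2, v.2 = y1 → g v ≤ 1 := by
    intro v hv
    simp only [hg]
    rw [div_le_one hK0, hv]
    calc Real.cos (θ * ((v.1 : ℝ) - xc)) * Real.cosh (φ * ((y1 : ℝ) - y0 + 3 / 2))
        ≤ 1 * Real.cosh (φ * ((y1 : ℝ) - y0 + 3 / 2)) := by
          gcongr
          exact Real.cos_le_one _
      _ = K := by rw [one_mul]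
  have hmax := max_principle (S := S2 x0 x1 y0 y1) (W := W2 x0 x1 y0 y1) (B := {v : V2 | v.2 = y1})
    (S2_nonempty x0 x1 y0 y1)
    (by
      intro v hv
      rw [mem_S2]
      refine ⟨Or.inr ?_, ?_⟩
      · rw [L2_tgt_false, sub_add_cancel]; exact hv
      · exact (mem_W2.1 hv).2.2.1)
    g
    (by
      rintro ⟨x, y⟩ hv
      have hv' := mem_W2.1 hv
      simp only at hv'
      rw [suc_sum_src, suc_sum_tgt]
      simp only
      have m1 : (x, y, false) ∈ S2 x0 x1 y0 y1 := mem_S2.2 ⟨Or.inl hv, hv'.2.2.1⟩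
      have m2 : (x, y, true) ∈ S2 x0 x1 y0 y1 := mem_S2.2 ⟨Or.inl hv, hv'.2.2.1⟩
      have m3 : (x - 1, y, false) ∈ S2 x0 x1 y0 y1 := by
        refine mem_S2.2 ⟨Or.inr ?_, hv'.2.2.1⟩
        rw [L2_tgt_false, sub_add_cancel]; exact hv
      rw [if_pos m1, if_pos m2, if_pos m3, L2_tgt_false, L2_tgt_true, L2_src, L2_src]
      have hl := hlap x y
      by_cases hyy : y0 ≤ y
      · have m4 : (x, y - 1, true) ∈ S2 x0 x1 y0 y1 := by
          refine mem_S2.2 ⟨Or.inr ?_, ?_⟩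
          · rw [L2_tgt_true, sub_add_cancel]; exact hv
          · simp only; omega
        rw [if_pos m4]
        linarith
      · have m4 : (x, y - 1, true) ∉ S2 x0 x1 y0 y1 := by
          intro hm
          have := (mem_S2.1 hm).2
          simp only at this
          omega
        have hy1 : y = y0 - 1 := by omega
        rw [if_neg m4]
        subst hy1
        have := hbot x
        linarith)
    (by
      rintro v hv ⟨e, he, w, hw, h1, h2⟩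
      have hwv : w ≠ v := by rintro rfl; exact hv hw
      have h3 : (L2.src e = w ∧ L2.tgt e = v) ∨ (L2.src e = v ∧ L2.tgt e = w) := by
        rcases h1 with h1 | h1 <;> rcases h2 with h2 | h2
        · exact absurd (h1.symm.trans h2) hwv
        · exact Or.inl ⟨h1, h2⟩
        · exact Or.inr ⟨h2, h1⟩
        · exact absurd (h1.symm.trans h2) hwv
      rcases root_cases he hw hv h3 with h4 | h4 | h4
      · rw [hedge v (Or.inl h4)]; split_ifs <;> norm_num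
      · rw [hedge v (Or.inr h4)]; split_ifs <;> norm_num
      · rw [if_pos (show v ∈ {v : V2 | v.2 = y1} from h4.1)]
        exact htop v h4.1)
  set f : V2 := (x0 + (x1 - x0) / 2, y0 - 1) with hf
  have hfW : f ∈ W2 x0 x1 y0 y1 := by
    rw [mem_W2]
    simp only [hf]
    omega
  have h1 := hmax f hfW
  have h2 : L2.hit (S2 x0 x1 y0 y1) (W2 x0 x1 y0 y1) {v : V2 | v.2 = y1} f ≤
      L2.pr (S2 x0 x1 y0 y1) (W2 x0 x1 y0 y1) (fun T' => VCr T' x0 (x1 - 1) (y0 - 1) y1) := by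
    unfold MG.hit
    rw [if_pos hfW]
    exact MG.pr_mono_event (fun T hT hE => event hy hT hfW rfl hE)
  refine le_trans ?_ (le_trans h1 h2)
  have hfx : |((f.1 : ℝ)) - xc| ≤ 1 / 2 := by
    have h3 : 2 * ((x1 - x0) / 2) ≤ x1 - x0 ∧ x1 - x0 ≤ 2 * ((x1 - x0) / 2) + 1 := by omega
    have h4 : (2 : ℝ) * (((x1 - x0) / 2 : ℤ) : ℝ) ≤ (x1 : ℝ) - x0 := by exact_mod_cast h3.1
    have h5 : (x1 : ℝ) - x0 ≤ 2 * (((x1 - x0) / 2 : ℤ) : ℝ) + 1 := by exact_mod_cast h3.2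
    simp only [hf, hxc]
    push_cast
    rw [abs_le]
    constructor <;> linarith
  have hcos : 7 / 10 ≤ Real.cos (θ * ((f.1 : ℝ) - xc)) := cos_half ha hfx
  have hcosh : 1 ≤ Real.cosh (φ * ((f.2 : ℝ) - y0 + 3 / 2)) := Real.one_le_cosh _
  have hKe : K ≤ Real.exp (φ * ((y1 : ℝ) - y0 + 3 / 2)) := by
    have hz : 0 ≤ φ * ((y1 : ℝ) - y0 + 3 / 2) := by positivity
    rw [hK, Real.cosh_eq]
    have : Real.exp (-(φ * ((y1 : ℝ) - y0 + 3 / 2))) ≤ Real.exp (φ * ((y1 : ℝ) - y0 + 3 / 2)) :=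
      Real.exp_le_exp.2 (by linarith)
    linarith
  have hKe2 : K ≤ Real.exp (Real.pi * (y1 - y0 + 2) / (x1 - x0 + 1)) := by
    refine hKe.trans (Real.exp_le_exp.2 ?_)
    calc φ * ((y1 : ℝ) - y0 + 3 / 2) ≤ θ * ((y1 : ℝ) - y0 + 2) := by
          apply mul_le_mul hφ1 (by linarith) (by linarith) hθ0.le
      _ = Real.pi * (y1 - y0 + 2) / (x1 - x0 + 1) := by rw [hθ]; ring
  simp only [hg]
  rw [Real.exp_neg, le_div_iff₀ hK0]
  have he0 := Real.exp_pos (Real.pi * ((y1 : ℝ) - y0 + 2) / (x1 - x0 + 1))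
  calc 1 / 2 * (Real.exp (Real.pi * (y1 - y0 + 2) / (x1 - x0 + 1)))⁻¹ * K
      ≤ 1 / 2 * (Real.exp (Real.pi * (y1 - y0 + 2) / (x1 - x0 + 1)))⁻¹ *
        Real.exp (Real.pi * (y1 - y0 + 2) / (x1 - x0 + 1)) := by gcongr
    _ = 1 / 2 := by field_simp
    _ ≤ 7 / 10 * 1 := by norm_num
    _ ≤ Real.cos (θ * ((f.1 : ℝ) - xc)) * Real.cosh (φ * ((f.2 : ℝ) - y0 + 3 / 2)) := by
      apply mul_le_mul hcos hcosh (by norm_num) (by linarith)

end Pool.Agent.UST
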