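import Pool.Agent.UST.ST1
import Pool.Agent.UST.ST2
import Pool.Agent.UST.SU1
import Pool.Agent.UST.TD
import Pool.Agent.UST.LIM

set_option autoImplicit false

/-!
Exponential tail of the number of disjoint crossings.

Proof. `pinf_le_free` for the rectangle `[0,a] × [0,b]` itself, `pr_dual` (TD), `stage1`, then `stage2` `j` times with
`pr (¬ VCr) = 1 - pr VCr ≤ 1 - δ` (`hit_refl` for the rectangle `[0,a] × [1,b]`: `y1 - y0 + 2 = b + 1`).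
-/

namespace Pool.Agent.UST

private theorem tgt_pow {x0 x1 y0 y1 : ℤ} (hx : x0 < x1) (hy : y0 ≤ y1) {ρ : ℝ} (h0 : 0 ≤ ρ)
    (h : L2.pr (S2 x0 x1 y0 y1) (W2 x0 x1 y0 y1) (fun T' => ¬ VCr T' x0 (x1 - 1) (y0 - 1) y1) ≤ ρ)
    (j : ℕ) : L2.pr (S2 x0 x1 y0 y1) (W2 x0 x1 y0 y1)
        (fun T' => AJ (cmp (bx x0 x1 y0 y1) T') x0 x1 y0 y1 j) ≤ ρ ^ j := by
  induction j with
  | zero =>
    rw [pow_zero]
    exact MG.pr_le_one _ _ _
  | succ j ih =>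
    refine (stage2 hx hy j).trans ?_
    rw [pow_succ']
    exact mul_le_mul h ih (MG.pr_nonneg _ _ _) h0

theorem aj_tail {a b : ℕ} (ha : 1 ≤ a) (hb : 1 ≤ b) (j : ℕ) :
    Pinf (fun T => AJ T 0 a 0 b (j + 1))
      ≤ (1 - 1 / 2 * Real.exp (-(Real.pi * (b + 1) / (a + 1)))) ^ j := by
  have hx : (0 : ℤ) < a := by exact_mod_cast ha
  have hy : (0 : ℤ) < b := by exact_mod_cast hb
  have hy1 : (0 : ℤ) + 1 ≤ b := by exact_mod_cast hb
  have hv0 : ((0, 0) : V2) ∈ bx 0 a 0 b := mem_bx.2 ⟨le_refl _, hx.le, le_refl _, hy.le⟩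
  have h1 := pinf_le_free (A := fun T => AJ T 0 a 0 b (j + 1)) (S := eIn (bx 0 a 0 b))
    (X := bx 0 a 0 b) (x := (0, 0)) (fun e he => mem_eIn.1 he) hv0 (bases_free_nonempty hv0)
    (AJ_inc 0 a 0 b (j + 1)) (AJ_loc 0 a 0 b (j + 1))
  rw [pr_dual hx hy hv0] at h1
  refine h1.trans ((stage1 hx hy j).trans ?_)
  have hexp : Real.exp (-(Real.pi * (b + 1) / (a + 1))) ≤ 1 := by
    rw [Real.exp_le_one_iff, neg_nonpos]
    positivity
  have hρ : 0 ≤ 1 - 1 / 2 * Real.exp (-(Real.pi * (b + 1) / (a + 1))) := by linarith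
  refine tgt_pow hx hy1 hρ ?_ j
  have hne : (L2.Bases (S2 0 a (0 + 1) b) (W2 0 a (0 + 1) b)).Nonempty := S2_nonempty _ _ _ _
  rw [MG.pr_not hne]
  have h2 := hit_refl hx hy1
  have h3 : Real.pi * (((b : ℤ) : ℝ) - (((0 : ℤ) + 1 : ℤ) : ℝ) + 2) /
      (((a : ℤ) : ℝ) - ((0 : ℤ) : ℝ) + 1) = Real.pi * (b + 1) / (a + 1) := by
    push_cast
    congr 2 <;> ring
  rw [h3] at h2
  linarith

end Pool.Agent.UST
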