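import Pool.Agent.UST.OF3
import Pool.Agent.UST.TGT

set_option autoImplicit false

/-! Tail of the number of spanning clusters, for the official formulation. -/

namespace Pool.Agent.UST

/-- number of spanning clusters of the rectangle: connected components of the graph of the open
edges of the rectangle with a vertex on the left side and a vertex on the right side -/
noncomputable def numSpan (a b : ℕ) (T : Finset (Sym2 (ℤ × ℤ))) : ℕ :=
  Set.ncard {κ : (rectGraph a b T).ConnectedComponent |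
    (∃ y : ℤ, 0 ≤ y ∧ y ≤ b ∧ (rectGraph a b T).connectedComponentMk (0, y) = κ) ∧
      ∃ y : ℤ, 0 ≤ y ∧ y ≤ b ∧ (rectGraph a b T).connectedComponentMk ((a : ℤ), y) = κ}

/-- comparison of a general event with an increasing local event, along an exhaustion -/
theorem official_le {H : ℕ → Z2.Subgraph} (hH : Exhausts H)
    {A : Finset (Sym2 (ℤ × ℤ)) → Prop} {B : Finset E2 → Prop} {Λ : Finset E2} (hB : Inc B)
    (hL : Loc Λ B) (hAB : ∀ T : Finset E2, A (T.image enc) → B T) :
    ∃ u : ℕ → ℝ, Filter.Tendsto u Filter.atTop (nhds (Pinf B)) ∧ ∀ k, ustProb (H k) A ≤ u k := by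
  classical
  have hne : ∀ k, ∃ x, x ∈ (H k).verts := fun k => (hH.conn k).nonempty
  choose x hx using hne
  set X : ℕ → Finset V2 := fun k => (hH.fin k).toFinset with hX
  have hXm : ∀ k v, v ∈ X k ↔ v ∈ (H k).verts := fun k v => (hH.fin k).mem_toFinset
  set S : ℕ → Finset E2 := fun k => (eIn (X k)).filter fun e => enc e ∈ (H k).edgeSet with hS
  have hends : ∀ k (e : E2), enc e ∈ (H k).edgeSet → L2.src e ∈ X k ∧ L2.tgt e ∈ X k := by
    intro k e he
    unfold enc at he
    rw [SimpleGraph.Subgraph.mem_edgeSet] at he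
    exact ⟨(hXm k _).2 he.fst_mem, (hXm k _).2 he.snd_mem⟩
  have hSm : ∀ k e, e ∈ S k ↔ enc e ∈ (H k).edgeSet := by
    intro k e
    simp only [hS, Finset.mem_filter, mem_eIn]
    exact ⟨fun h => h.2, fun h => ⟨hends k e h, h⟩⟩
  have key := fun k => ust_eq (hH.conn k) (X := X k) (by
    ext v
    rw [Finset.mem_coe, hXm]) (hSm k) ((hXm k _).2 (hx k)) A
  refine ⟨fun k => L2.pr (S k) ((X k).erase (x k)) B, ?_, fun k => ?_⟩
  · refine exhaust_tendsto hB hL (fun k => (hXm k _).2 (hx k))
      (fun k e he => hends k e ((hSm k e).1 he)) (fun k => (key k).1) fun m => ?_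
    have hall : ∀ᶠ k in Filter.atTop, ∀ e ∈ eTouch (Bk m), enc e ∈ (H k).edgeSet := by
      rw [Filter.eventually_all_finset]
      intro e _
      obtain ⟨k₀, hk₀⟩ := hH.all (enc e) ((enc_edgeSet _).2 ⟨e, rfl⟩)
      filter_upwards [Filter.eventually_ge_atTop k₀] with k hk
      exact SimpleGraph.Subgraph.edgeSet_mono (hH.mono hk) hk₀
    filter_upwards [hall] with k hk
    constructor
    · intro v hv
      have h1 : (v.1, v.2, false) ∈ eTouch (Bk m) := mem_eTouch.2 (Or.inl hv)
      exact (hends k _ (hk _ h1)).1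
    · intro e he
      rw [hSm]
      exact hk e (eIn_subset_eTouch _ he)
  · rw [(key k).2]
    exact MG.pr_mono_event fun T _ => hAB T

private theorem clu_adj (a b : ℕ) (T : Finset E2) {u v : V2}
    (h : (rectGraph a b (T.image enc)).Adj u v) :
    L2.Step T u v ∧ u ∈ bx 0 a 0 b ∧ v ∈ bx 0 a 0 b := by
  classical
  unfold rectGraph at h
  rw [SimpleGraph.fromEdgeSet_adj] at h
  obtain ⟨⟨h1, h2⟩, _⟩ := h
  obtain ⟨e, he, hee⟩ := Finset.mem_image.1 h1
  refine ⟨⟨e, he, ?_⟩, mem_bx.2 ?_, mem_bx.2 ?_⟩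
  · unfold enc at hee
    rw [Sym2.eq_iff] at hee
    exact hee
  · exact h2 u (Sym2.mem_mk_left u v)
  · exact h2 v (Sym2.mem_mk_right u v)

/-- distinct spanning clusters are disjoint crossing sets -/
theorem aj_of_numSpan {a b j : ℕ} {T : Finset E2} (h : j ≤ numSpan a b (T.image enc)) :
    AJ T 0 a 0 b j := by
  classical
  set g := rectGraph a b (T.image enc) with hg
  set K : Set g.ConnectedComponent := {κ |
    (∃ y : ℤ, 0 ≤ y ∧ y ≤ b ∧ g.connectedComponentMk (0, y) = κ) ∧
      ∃ y : ℤ, 0 ≤ y ∧ y ≤ b ∧ g.connectedComponentMk ((a : ℤ), y) = κ} with hK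
  have hj : j ≤ K.ncard := h
  rcases Nat.eq_zero_or_pos j with rfl | hj0
  · exact ⟨fun i => i.elim0, fun i => i.elim0, fun i => i.elim0, fun i => i.elim0⟩
  have hfin : K.Finite := Set.finite_of_ncard_pos (by omega)
  obtain ⟨F, hFK, hFc⟩ := Finset.exists_subset_card_eq (s := hfin.toFinset) (n := j) (by
    rw [← Set.ncard_eq_toFinset_card K hfin]; exact hj)
  set f : Fin j → g.ConnectedComponent := fun i => (F.equivFinOfCardEq hFc).symm i with hf
  have hfK : ∀ i, f i ∈ K := fun i => by
    have := ((F.equivFinOfCardEq hFc).symm i).2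
    exact (Set.Finite.mem_toFinset hfin).1 (hFK this)
  have hfi : Function.Injective f := by
    intro i i' hii
    exact (F.equivFinOfCardEq hFc).symm.injective (Subtype.ext hii)
  have hreach : ∀ (X : Finset V2) (κ : g.ConnectedComponent),
      X = (bx 0 a 0 b).filter (fun v => g.connectedComponentMk v = κ) →
      ∀ u ∈ X, ∀ v, g.Reachable u v → L2.ConnIn T (X : Set V2) u v := by
    intro X κ hX u hu v huv
    obtain ⟨p⟩ := huv
    induction p with
    | nil => exact Relation.ReflTransGen.refl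
    | @cons x y z hxy _ ih =>
      obtain ⟨s1, s2, s3⟩ := clu_adj a b T hxy
      have hy : y ∈ X := by
        rw [hX, Finset.mem_filter] at hu ⊢
        refine ⟨s3, ?_⟩
        rw [← hu.2]
        exact (SimpleGraph.ConnectedComponent.connectedComponentMk_eq_of_adj hxy).symm
      exact Relation.ReflTransGen.head ⟨s1, hu, hy⟩ (ih hy)
  refine ⟨fun i => (bx 0 a 0 b).filter (fun v => g.connectedComponentMk v = f i), fun i => ?_,
    fun i i' hii => ?_, fun i => ?_⟩
  · exact Finset.filter_subset _ _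
  · rw [Finset.disjoint_left]
    intro v hv hv'
    rw [Finset.mem_filter] at hv hv'
    exact hii (hfi (hv.2.symm.trans hv'.2))
  · obtain ⟨⟨y, h1, h2, h3⟩, ⟨y', h1', h2', h3'⟩⟩ := hfK i
    refine ⟨⟨(0, y), Finset.mem_filter.2 ⟨mem_bx.2 ⟨le_rfl, ?_, h1, h2⟩, h3⟩, rfl⟩,
      ⟨((a : ℤ), y'), Finset.mem_filter.2 ⟨mem_bx.2 ⟨?_, le_rfl, h1', h2'⟩, h3'⟩, rfl⟩,
      fun u hu v hv => ?_⟩
    · positivity
    · positivity
    · refine hreach _ (f i) rfl u hu v ?_
      rw [Finset.mem_filter] at hu hv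
      exact SimpleGraph.ConnectedComponent.exact (hu.2.trans hv.2.symm)

/-- exponential tail of the number of spanning clusters -/
theorem span_tail {H : ℕ → Z2.Subgraph} (hH : Exhausts H) {n : ℕ} {c : ℝ} (hn : 1 ≤ n)
    (hc : 0 < c) (j : ℕ) :
    Filter.limsup (fun k => ustProb (H k) fun T => j + 1 ≤ numSpan n ⌊c * n⌋₊ T) Filter.atTop
      ≤ (1 - 1 / 2 * Real.exp (-(Real.pi * max c 1))) ^ j := by
  have hpi := Real.pi_pos
  have hn0 : (0 : ℝ) < n := by exact_mod_cast hn
  obtain ⟨b, hb⟩ : ∃ b : ℕ, b = ⌊c * n⌋₊ := ⟨_, rfl⟩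
  have hb1 : (b : ℝ) ≤ c * n := by rw [hb]; exact Nat.floor_le (by positivity)
  rw [← hb]
  obtain ⟨u, hu, hle⟩ := official_le hH (A := fun T => j + 1 ≤ numSpan n b T)
    (AJ_inc 0 n 0 b (j + 1)) (AJ_loc 0 n 0 b (j + 1)) (fun T hT => aj_of_numSpan hT)
  have hnn : ∀ k, 0 ≤ ustProb (H k) (fun T => j + 1 ≤ numSpan n b T) := by
    intro k
    unfold ustProb
    positivity
  have h1 : Filter.limsup (fun k => ustProb (H k) fun T => j + 1 ≤ numSpan n b T) Filter.atTop
      ≤ Pinf (fun T => AJ T 0 n 0 b (j + 1)) := by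
    rw [← hu.limsup_eq]
    refine Filter.limsup_le_limsup (Filter.Eventually.of_forall hle) ?_ ?_
    · exact ⟨0, by
        intro x hx
        obtain ⟨k, hk⟩ := (Filter.eventually_map.1 hx).exists
        exact (hnn k).trans hk⟩
    · exact hu.isBoundedUnder_le
  refine h1.trans ?_
  have hρ : 0 ≤ 1 - 1 / 2 * Real.exp (-(Real.pi * max c 1)) := by
    have : Real.exp (-(Real.pi * max c 1)) ≤ 1 := by
      rw [Real.exp_le_one_iff]
      have : 0 ≤ Real.pi * max c 1 := by positivity
      linarith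
    linarith
  rcases Nat.eq_zero_or_pos b with hb0 | hb0
  · rcases Nat.eq_zero_or_pos j with hj | hj
    · rw [hj, pow_zero]
      exact pinf_le_one (AJ_inc _ _ _ _ _) (AJ_loc _ _ _ _ _)
    · have h0 : ∀ T : Finset E2, ¬ AJ T 0 n 0 b (j + 1) := by
        rintro T ⟨X, hX, hd, hcs⟩
        have i0 : Fin (j + 1) := ⟨0, by omega⟩
        have hne : (⟨0, by omega⟩ : Fin (j + 1)) ≠ ⟨1, by omega⟩ := by
          intro h
          have := congrArg Fin.val h
          simp at this
        obtain ⟨v, hv, hv1⟩ := (hcs ⟨0, by omega⟩).1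
        obtain ⟨w, hw, hw1⟩ := (hcs ⟨1, by omega⟩).1
        have m1 := mem_bx.1 (hX _ hv)
        have m2 := mem_bx.1 (hX _ hw)
        rw [hb0] at m1 m2
        have hvw : v = w := by
          refine Prod.ext (by rw [hv1, hw1]) ?_
          have := m1.2.2
          have := m2.2.2
          push_cast at *
          omega
        rw [← hvw] at hw
        exact Finset.disjoint_left.1 (hd _ _ hne) hv hw
      have : Pinf (fun T => AJ T 0 n 0 b (j + 1)) ≤ 0 := by
        refine le_of_tendsto (fr_tendsto (AJ_inc _ _ _ _ _) (AJ_loc _ _ _ _ _))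
          (Filter.Eventually.of_forall fun k => ?_)
        unfold frP MG.pr MG.cnt
        classical
        rw [Finset.filter_eq_empty_iff.2 (fun T _ => h0 T)]
        simp
      exact this.trans (pow_nonneg hρ j)
  · refine (aj_tail hn hb0 j).trans ?_
    apply pow_le_pow_left₀
    · have : Real.exp (-(Real.pi * (b + 1) / (n + 1))) ≤ 1 := by
        rw [Real.exp_le_one_iff]
        have : 0 ≤ Real.pi * (b + 1) / ((n : ℝ) + 1) := by positivity
        linarith
      linarith
    · have h3 : Real.exp (-(Real.pi * max c 1)) ≤ Real.exp (-(Real.pi * (b + 1) / (n + 1))) := by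
        apply Real.exp_le_exp.2
        rw [neg_le_neg_iff, div_le_iff₀ (by positivity)]
        have h4 : (b : ℝ) + 1 ≤ max c 1 * (n + 1) := by
          have h5 : c * n ≤ max c 1 * n := mul_le_mul_of_nonneg_right (le_max_left _ _) hn0.le
          have h6 : (1 : ℝ) ≤ max c 1 := le_max_right _ _
          nlinarith
        calc Real.pi * ((b : ℝ) + 1) ≤ Real.pi * (max c 1 * (n + 1)) := by gcongr
          _ = _ := by ring
      linarith

end Pool.Agent.UST
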