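import Pool.Agent.UST.BAS
import Pool.Agent.UST.RAY

set_option autoImplicit false

/-!
Stochastic domination: adding vertices and edges. (Deleting edges: `pr_le_subset` in RAY; wiring: `pr_wire_subset_le` in WIR.)

Proof of `dom_ext`. Induction on `|W1 \\ W|`. If `W ≠ W1` there are `v ∈ W1 \\ W` and an edge `e ∈ S1` from `v` to
`u ∉ W1 \\ W` (path from a vertex of `W1 \\ W` to the complement of `W1`, `exists_exit` in WIR).
`Bases (S + e) (W + v) = {T + e : T ∈ Bases S W}` because no edge of `S` touches `v`; so `pr (S + e) (W + v) A = pr S W A`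
(`A` is `Loc S`; `e ∉ S`). At the end `W = W1`: `pr_le_subset`.
-/

namespace Pool.Agent.UST

variable {V E : Type} [DecidableEq V] [DecidableEq E] (G : MG V E)

theorem dom_del {S S' : Finset E} {W : Finset V} {A : Finset E → Prop} (hS : S ⊆ S')
    (hne : (G.Bases S W).Nonempty) (hA : Inc A) (hL : Loc S A) : G.pr S' W A ≤ G.pr S W A :=
  pr_le_subset hS W A hA (fun _ _ hf => hL.ign hf) hne

omit [DecidableEq E] in
/-- a vertex touched by no edge is connected only to itself -/
theorem DOM_isol {T : Finset E} {a b : V} (h : ∀ e ∈ T, ¬ G.Touch e a) (hc : G.Conn T b a) :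
    b = a := by
  by_contra hne
  obtain ⟨x, y, hx, hy, g, hg, hxy⟩ := exists_exit {v : V | v ≠ a} hc hne (by simp)
  have hya : y = a := by
    by_contra h'
    exact hy h'
  refine h g hg ?_
  rcases hxy with ⟨_, h2⟩ | ⟨h1, _⟩
  · exact Or.inr (h2.trans hya)
  · exact Or.inl (h1.trans hya)

/-- adding a vertex `a` of degree one to a rooted forest -/
theorem DOM_key {S : Finset E} {W : Finset V} {a b : V} {e : E} (haW : a ∉ W) (hab : a ≠ b)
    (hSa : ∀ g ∈ S, ¬ G.Touch g a)
    (he : (G.src e = a ∧ G.tgt e = b) ∨ (G.src e = b ∧ G.tgt e = a)) {T : Finset E}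
    (heT : e ∉ T) (heS : e ∉ S) :
    insert e T ∈ G.Bases (insert e S) (insert a W) ↔ T ∈ G.Bases S W := by
  rw [MG.mem_Bases, MG.mem_Bases, Finset.card_insert_of_notMem haW,
    Finset.card_insert_of_notMem heT]
  constructor
  · rintro ⟨h1, h2, h3⟩
    have hTS : T ⊆ S := fun g hg => by
      rcases Finset.mem_insert.1 (h1 (Finset.mem_insert_of_mem hg)) with h | h
      · exact absurd (h ▸ hg) heT
      · exact h
    have hTa : ∀ g ∈ T, ¬ G.Touch g a := fun g hg => hSa g (hTS hg)
    refine ⟨hTS, by omega, fun w hw => ?_⟩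
    obtain ⟨r, hr, hc⟩ := h3 w (Finset.mem_insert_of_mem hw)
    have hwa : w ≠ a := fun h => haW (h ▸ hw)
    have key : ∀ c, G.Conn (insert e T) w c → G.Conn T w c ∨ (c = a ∧ G.Conn T w b) := by
      intro c hc
      induction hc with
      | refl => exact Or.inl Relation.ReflTransGen.refl
      | @tail c d _ hs ih =>
        obtain ⟨g, hg, hcd⟩ := hs
        rcases Finset.mem_insert.1 hg with rfl | hg
        · rcases ih with ih | ⟨ih1, ih2⟩
          · have hca : c ≠ a := fun h => hwa (DOM_isol G hTa (h ▸ ih))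
            rcases he with ⟨e1, e2⟩ | ⟨e1, e2⟩ <;> rcases hcd with ⟨c1, c2⟩ | ⟨c1, c2⟩
            · exact absurd (c1.symm.trans e1) hca
            · right
              exact ⟨c1.symm.trans e1, by rw [← e2, c2]; exact ih⟩
            · right
              exact ⟨c2.symm.trans e2, by rw [← e1, c1]; exact ih⟩
            · exact absurd (c2.symm.trans e2) hca
          · rcases he with ⟨e1, e2⟩ | ⟨e1, e2⟩ <;> rcases hcd with ⟨c1, c2⟩ | ⟨c1, c2⟩
            · left; rw [← c2, e2]; exact ih2
            · right; exact ⟨c1.symm.trans e1, ih2⟩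
            · right; exact ⟨c2.symm.trans e2, ih2⟩
            · left; rw [← c1, e1]; exact ih2
        · rcases ih with ih | ⟨ih1, ih2⟩
          · exact Or.inl (ih.tail ⟨g, hg, hcd⟩)
          · exfalso
            refine hTa g hg ?_
            rcases hcd with ⟨c1, _⟩ | ⟨_, c2⟩
            · exact Or.inl (c1.trans ih1)
            · exact Or.inr (c2.trans ih1)
    rcases key r hc with h | ⟨h, _⟩
    · exact ⟨r, fun h' => hr (Finset.mem_insert_of_mem h'), h⟩
    · exact absurd (h ▸ Finset.mem_insert_self a W) hr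
  · rintro ⟨h1, h2, h3⟩
    have hTa : ∀ g ∈ T, ¬ G.Touch g a := fun g hg => hSa g (h1 hg)
    have hstep : G.Conn (insert e T) a b :=
      Relation.ReflTransGen.single ⟨e, Finset.mem_insert_self e T, he⟩
    have hW : ∀ w ∈ W, ∃ r, r ∉ insert a W ∧ G.Conn (insert e T) w r := by
      intro w hw
      obtain ⟨r, hr, hc⟩ := h3 w hw
      have hwa : w ≠ a := fun h => haW (h ▸ hw)
      refine ⟨r, fun h' => ?_, hc.mono (Finset.subset_insert e T)⟩
      rcases Finset.mem_insert.1 h' with h' | h'
      · exact hwa (DOM_isol G hTa (h' ▸ hc))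
      · exact hr h'
    refine ⟨Finset.insert_subset_insert e h1, by omega, fun w hw => ?_⟩
    rcases Finset.mem_insert.1 hw with rfl | hw
    · by_cases hbW : b ∈ W
      · obtain ⟨r, hr, hc⟩ := hW b hbW
        exact ⟨r, hr, hstep.trans hc⟩
      · refine ⟨b, fun h' => ?_, hstep⟩
        rcases Finset.mem_insert.1 h' with h' | h'
        · exact hab h'.symm
        · exact hbW h'
    · exact hW w hw

/-- every basis of the extended graph contains the new edge -/
theorem DOM_mem {S : Finset E} {W : Finset V} {a : V} {e : E}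
    (hSa : ∀ g ∈ S, ¬ G.Touch g a) {U : Finset E}
    (hU : U ∈ G.Bases (insert e S) (insert a W)) : e ∈ U := by
  by_contra h
  have hU1 := MG.mem_Bases.1 hU
  have hUS : ∀ g ∈ U, ¬ G.Touch g a := fun g hg => by
    rcases Finset.mem_insert.1 (hU1.1 hg) with h' | h'
    · exact absurd (h' ▸ hg) h
    · exact hSa g h'
  obtain ⟨r, hr, hc⟩ := hU1.2.2 a (Finset.mem_insert_self a W)
  have := DOM_isol G hUS hc.symm
  exact hr (this ▸ Finset.mem_insert_self a W)

/-- adding a pendant vertex and its edge does not change the law on `S` -/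
theorem DOM_pr {S : Finset E} {W : Finset V} {a b : V} {e : E} (haW : a ∉ W) (hab : a ≠ b)
    (hSa : ∀ g ∈ S, ¬ G.Touch g a)
    (he : (G.src e = a ∧ G.tgt e = b) ∨ (G.src e = b ∧ G.tgt e = a))
    (heS : e ∉ S) {A : Finset E → Prop} (hL : Loc S A) :
    G.pr (insert e S) (insert a W) A = G.pr S W A := by
  classical
  have hcount : ∀ B : Finset E → Prop, (∀ T, B (insert e T) ↔ B T) →
      ((G.Bases (insert e S) (insert a W)).filter B).card = ((G.Bases S W).filter B).card := by
    intro B hB
    symm
    refine Finset.card_bij (fun T _ => insert e T) ?_ ?_ ?_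
    · intro T hT
      rw [Finset.mem_filter] at hT ⊢
      have heT : e ∉ T := fun h => heS ((MG.mem_Bases.1 hT.1).1 h)
      exact ⟨(DOM_key G haW hab hSa he heT heS).2 hT.1, (hB T).2 hT.2⟩
    · intro T hT T' hT' h
      rw [Finset.mem_filter] at hT hT'
      have heT : e ∉ T := fun h => heS ((MG.mem_Bases.1 hT.1).1 h)
      have heT' : e ∉ T' := fun h => heS ((MG.mem_Bases.1 hT'.1).1 h)
      rw [← Finset.erase_insert heT, ← Finset.erase_insert heT', h]
    · intro U hU
      rw [Finset.mem_filter] at hU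
      have heU := DOM_mem G (e := e) hSa hU.1
      refine ⟨U.erase e, ?_, Finset.insert_erase heU⟩
      rw [Finset.mem_filter]
      refine ⟨(DOM_key G haW hab hSa he (Finset.notMem_erase e U) heS).1 ?_, (hB _).1 ?_⟩
      · rw [Finset.insert_erase heU]; exact hU.1
      · rw [Finset.insert_erase heU]; exact hU.2
  have hins : ∀ T : Finset E, A (insert e T) ↔ A T := by
    intro T
    rw [hL (insert e T), hL T]
    have : insert e T ∩ S = T ∩ S := by
      ext g
      simp only [Finset.mem_inter, Finset.mem_insert]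
      constructor
      · rintro ⟨h1 | h1, h2⟩
        · exact absurd (h1 ▸ h2) heS
        · exact ⟨h1, h2⟩
      · rintro ⟨h1, h2⟩
        exact ⟨Or.inr h1, h2⟩
    rw [this]
  unfold MG.pr MG.cnt
  have c1 := hcount A hins
  have c2 := hcount (fun _ => True) (fun T => Iff.rfl)
  simp only [Finset.filter_true] at c2
  rw [c1, c2]

theorem dom_ext {S S1 : Finset E} {W W1 : Finset V} {A : Finset E → Prop} (hS : S ⊆ S1)
    (hW : W ⊆ W1) (hends : ∀ e ∈ S, ∀ v ∈ W1, G.Touch e v → v ∈ W)
    (hne : (G.Bases S W).Nonempty) (hne1 : (G.Bases S1 W1).Nonempty) (hA : Inc A)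
    (hL : Loc S A) : G.pr S1 W1 A ≤ G.pr S W A := by
  induction h : (W1 \ W).card generalizing S W with
  | zero =>
    have hWW : W1 = W := Finset.Subset.antisymm
      (Finset.sdiff_eq_empty_iff_subset.1 (Finset.card_eq_zero.1 h)) hW
    subst hWW
    exact dom_del G hS hne hA hL
  | succ n ih =>
    obtain ⟨v, hv⟩ : (W1 \ W).Nonempty := Finset.card_pos.1 (by omega)
    rw [Finset.mem_sdiff] at hv
    obtain ⟨T1, hT1⟩ := hne1
    have hT1' := MG.mem_Bases.1 hT1
    obtain ⟨r, hr, hc⟩ := hT1'.2.2 v hv.1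
    obtain ⟨a, b, ha, hb, e, heT1, he⟩ := exists_exit {x : V | x ∈ W1 ∧ x ∉ W} hc hv
      (fun h' => hr h'.1)
    have heS1 : e ∈ S1 := hT1'.1 heT1
    have hab : a ≠ b := fun h' => hb (h' ▸ ha)
    have hSa : ∀ g ∈ S, ¬ G.Touch g a := fun g hg ht => ha.2 (hends g hg a ha.1 ht)
    have hea : G.Touch e a := by
      rcases he with ⟨h1, _⟩ | ⟨_, h2⟩
      · exact Or.inl h1
      · exact Or.inr h2
    have heS : e ∉ S := fun h' => hSa e h' hea
    rw [← DOM_pr G ha.2 hab hSa he heS hL]
    have hne' : (G.Bases (insert e S) (insert a W)).Nonempty := by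
      obtain ⟨T, hT⟩ := hne
      have heT : e ∉ T := fun h' => heS ((MG.mem_Bases.1 hT).1 h')
      exact ⟨insert e T, (DOM_key G ha.2 hab hSa he heT heS).2 hT⟩
    refine ih (Finset.insert_subset heS1 hS) (Finset.insert_subset ha.1 hW) ?_ hne' ?_ ?_
    · intro g hg x hx ht
      rcases Finset.mem_insert.1 hg with rfl | hg
      · have hxab : x = a ∨ x = b := by
          rcases he with ⟨h1, h2⟩ | ⟨h1, h2⟩ <;> rcases ht with h3 | h3
          · exact Or.inl (h3.symm.trans h1)
          · exact Or.inr (h3.symm.trans h2)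
          · exact Or.inr (h3.symm.trans h1)
          · exact Or.inl (h3.symm.trans h2)
        rcases hxab with rfl | rfl
        · exact Finset.mem_insert_self _ W
        · refine Finset.mem_insert_of_mem ?_
          by_contra hxW
          exact hb ⟨hx, hxW⟩
      · exact Finset.mem_insert_of_mem (hends g hg x hx ht)
    · intro T
      rw [hL T, hL (T ∩ insert e S)]
      have : T ∩ insert e S ∩ S = T ∩ S := by
        ext g
        simp only [Finset.mem_inter, Finset.mem_insert]
        tauto
      rw [this]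
    · have h1 : W1 \ insert a W = (W1 \ W).erase a := by
        ext x
        simp only [Finset.mem_sdiff, Finset.mem_insert, Finset.mem_erase]
        tauto
      rw [h1, Finset.card_erase_of_mem (Finset.mem_sdiff.2 ha), h]
      rfl

end Pool.Agent.UST
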