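import Pool.Agent.UST.LIM
import Pool.Agent.UST.SYM

set_option autoImplicit false

/-!
Invariance of the infinite volume measure under translations and under the exchange of the coordinates.

Proofs. Finite volume: module SYM. Translation by `t`: the shifted box `Bk k + t` lies between
`Bk (k - |t|)` and `Bk (k + |t|)`, `free_mono` (MONO), so
the free measures of the shifted boxes have the same limit. Exchange of coordinates: maps `Bk k` to itself. Then
`HCr (fE T) (x0+s) (x1+s) (y0+t) (y1+t) ↔ HCr T x0 x1 y0 y1`, `VCr (swap T) y0 y1 x0 x1 ↔ HCr T x0 x1 y0 y1`.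
-/

namespace Pool.Agent.UST

open Finset Filter Topology

/-- an isomorphism moves local increasing events -/
theorem inc_map {A : Finset E2 → Prop} (hA : Inc A) (φ : L2.Iso) :
    Inc (fun T => A (T.map φ.e.toEmbedding)) :=
  fun _ _ h ha => hA _ _ (Finset.map_subset_map.2 h) ha

theorem loc_map {A : Finset E2 → Prop} {Λ : Finset E2} (hL : Loc Λ A) (φ : L2.Iso) :
    Loc (Λ.map φ.e.symm.toEmbedding) (fun T => A (T.map φ.e.toEmbedding)) := by
  intro T
  beta_reduce
  rw [hL (T.map φ.e.toEmbedding), hL ((T ∩ Λ.map φ.e.symm.toEmbedding).map φ.e.toEmbedding)]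
  have : T.map φ.e.toEmbedding ∩ Λ =
      (T ∩ Λ.map φ.e.symm.toEmbedding).map φ.e.toEmbedding ∩ Λ := by
    ext f
    obtain ⟨g, rfl⟩ := φ.e.surjective f
    have h1 : ∀ X : Finset E2, φ.e g ∈ X.map φ.e.toEmbedding ↔ g ∈ X :=
      fun X => Finset.mem_map' φ.e.toEmbedding
    have h2 : g ∈ Λ.map φ.e.symm.toEmbedding ↔ φ.e g ∈ Λ := by
      constructor
      · intro h
        obtain ⟨f, hf, h3⟩ := Finset.mem_map.1 h
        simp only [Equiv.coe_toEmbedding] at h3
        rw [← h3, Equiv.apply_symm_apply]; exact hf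
      · intro h
        exact Finset.mem_map.2 ⟨φ.e g, h, by simp⟩
    rw [Finset.mem_inter, Finset.mem_inter, h1, h1, Finset.mem_inter, h2]
    tauto
  rw [this]

/-- the free measure of a shifted box dominates the plane -/
theorem pinf_le_free_box {A : Finset E2 → Prop} {m : ℕ} (hA : Inc A) (hL : Loc (eIn (Bk m)) A)
    {x0 x1 y0 y1 : ℤ} (hb : Bk m ⊆ bx x0 x1 y0 y1) {v0 : V2} (hv0 : v0 ∈ bx x0 x1 y0 y1) :
    Pinf A ≤ L2.pr (eIn (bx x0 x1 y0 y1)) ((bx x0 x1 y0 y1).erase v0) A :=
  pinf_le_free (fun _ he => mem_eIn.1 he) hv0 (bases_free_nonempty hv0) hA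
    (hL.mono' (eIn_mono hb))

/-- translation invariance of the plane measure -/
theorem pinf_tr {A : Finset E2 → Prop} {Λ : Finset E2} (hA : Inc A) (hL : Loc Λ A) (a b : ℤ) :
    Pinf (fun T => A (T.map (trI a b).e.toEmbedding)) = Pinf A := by
  have key : ∀ {A : Finset E2 → Prop} {Λ : Finset E2}, Inc A → Loc Λ A → ∀ a b : ℤ,
      Pinf A ≤ Pinf (fun T => A (T.map (trI a b).e.toEmbedding)) := by
    intro A Λ hA hL a b
    obtain ⟨m, hm, hloc⟩ := exists_loc_Bk hL
    refine ge_of_tendsto (fr_tendsto (inc_map hA (trI a b)) (loc_map hL (trI a b)))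
      ((eventually_ge_atTop (m + a.natAbs + b.natAbs)).mono (fun k hk => ?_))
    have h4 := free_tr a b (-(k : ℤ)) k (-(k : ℤ)) k (-(k : ℤ), -(k : ℤ)) A
    have h5 : frP k (fun T => A (T.map (trI a b).e.toEmbedding)) =
        L2.pr (eIn (bx (-(k : ℤ) + a) ((k : ℤ) + a) (-(k : ℤ) + b) ((k : ℤ) + b)))
          ((bx (-(k : ℤ) + a) ((k : ℤ) + a) (-(k : ℤ) + b) ((k : ℤ) + b)).erase
            (-(k : ℤ) + a, -(k : ℤ) + b)) A := h4.symm
    rw [h5]
    refine pinf_le_free_box hA hloc ?_ ?_
    · exact bx_subset (by omega) (by omega) (by omega) (by omega)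
    · rw [mem_bx]; simp only; omega
  refine le_antisymm ?_ (key hA hL a b)
  have h := key (inc_map hA (trI a b)) (loc_map hL (trI a b)) (-a) (-b)
  have h2 : (fun T : Finset E2 => A ((T.map (trI (-a) (-b)).e.toEmbedding).map
      (trI a b).e.toEmbedding)) = A := by
    funext T
    congr 1
    ext f
    simp only [Finset.mem_map, Equiv.coe_toEmbedding, exists_exists_and_eq_and, trI_e]
    constructor
    · rintro ⟨g, hg, rfl⟩
      simpa using hg
    · intro h
      exact ⟨f, h, by simp⟩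
  rw [h2] at h
  exact h

/-- the plane measure is invariant under the exchange of the coordinates -/
theorem pinf_sw (A : Finset E2 → Prop) :
    Pinf (fun T => A (T.map swI.e.toEmbedding)) = Pinf A := by
  have h : ∀ k, frP k (fun T => A (T.map swI.e.toEmbedding)) = frP k A := by
    intro k
    exact (free_sw (-(k : ℤ)) k (-(k : ℤ)) k (-(k : ℤ), -(k : ℤ)) A).symm
  unfold Pinf
  simp only [h]

theorem pinf_H (x y : ℤ) (a b : ℕ) : Pinf (fun T => HCr T x (x + a) y (y + b)) = C a b := by
  unfold C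
  rw [← pinf_tr (HCr_inc x (x + a) y (y + b)) (HCr_loc x (x + a) y (y + b)) x y]
  congr 1
  funext T
  have := hcr_trI x y 0 a 0 b T
  rw [zero_add, zero_add, add_comm (a : ℤ) x, add_comm (b : ℤ) y] at this
  exact propext this

theorem pinf_V (x y : ℤ) (a b : ℕ) : Pinf (fun T => VCr T x (x + a) y (y + b)) = C b a := by
  rw [← pinf_H y x b a, ← pinf_sw (fun T => HCr T y (y + b) x (x + a))]
  congr 1
  funext T
  exact propext (hcr_swI x (x + a) y (y + b) T).symm

theorem pinf_edge (x y : ℤ) (d : Bool) :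
    Pinf (fun T => (x, y, d) ∈ T) = Pinf (fun T => ((0 : ℤ), (0 : ℤ), d) ∈ T) := by
  rw [← pinf_tr (inc_edge (x, y, d)) (loc_edge (Finset.mem_singleton_self (x, y, d))) x y]
  congr 1
  funext T
  have : (x, y, d) = (trI x y).e (0, 0, d) := by
    rw [trI_e]; simp
  rw [this]
  exact propext (Finset.mem_map' (trI x y).e.toEmbedding)

/-- translation of wired regions, single edges -/
theorem wired_edge_shift (x y : ℤ) (d : Bool) (W : Finset V2) :
    L2.pr (eTouch W) W (fun T => (x, y, d) ∈ T)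
      = L2.pr (eTouch (W.image fun v => (v.1 - x, v.2 - y))) (W.image fun v => (v.1 - x, v.2 - y))
          (fun T => ((0 : ℤ), (0 : ℤ), d) ∈ T) := by
  have h1 : (W.image fun v => (v.1 - x, v.2 - y)) = W.map (trI (-x) (-y)).v.toEmbedding := by
    ext f
    simp only [Finset.mem_image, Finset.mem_map, Equiv.coe_toEmbedding, trI_v, sub_eq_add_neg]
  rw [h1, ← (trI (-x) (-y)).eTouch, (trI (-x) (-y)).pr]
  congr 1
  funext T
  have : ((0 : ℤ), (0 : ℤ), d) = (trI (-x) (-y)).e (x, y, d) := by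
    rw [trI_e]; simp
  rw [this]
  exact propext (Finset.mem_map' (trI (-x) (-y)).e.toEmbedding).symm

end Pool.Agent.UST
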