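import Pool.Agent.UST.LIM
import Pool.Agent.UST.SYP

set_option autoImplicit false

/-!
Single edges: wired = free.

Proof. `∑_{e ∈ S} pr S W (e ∈ T) = |W|` (every basis has `|W|` elements; `edge_sum`). Let `h, v` be `Pinf` of the two edges at
the origin. Free boxes `Bk k` (side `N = 2k+1`): `N² - 1 = ∑_{e ∈ eIn (Bk k)} frP k (e ∈ T) ≥ N (N-1) (h + v)`
(`pinf_le_free` for `Bk k`, `pinf_edge`), so `h + v ≤ 1` (`k → ∞`). Let `w_d` be the supremum over all finite `W` of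
`pr (eTouch W) W ((0,0,d) ∈ T)`; `w_d ≤ Pinf` (`wired_le_pinf`), and by `wired_edge_shift` it bounds
`pr (eTouch W) W ((x,y,d) ∈ T)` for all `W, x, y`. Wired boxes: `N² = ∑_{e ∈ eTouch (Bk k)} pr ≤ N (N-1) (w_0 + w_1) + 4N`, so
`w_0 + w_1 ≥ 1`. Hence `w_0 = h`, `w_1 = v`. `edge_wired`: a finite `W` with `pr ≥ w_d - ε`; larger `W'` are better
(`wiredW_mono`: `pr_wired_mono`).  (Here the quantitative bounds `frP_edge_le`, `wiP_edge_ge` of module FW are used instead.)
-/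

namespace Pool.Agent.UST

open Finset Filter Topology

theorem edge_sum {V E : Type} [DecidableEq V] [DecidableEq E] (G : MG V E) {S : Finset E}
    {W : Finset V} (hne : (G.Bases S W).Nonempty) : ∑ e ∈ S, G.pr S W (fun T => e ∈ T) = W.card :=
  sum_pr_edges_all hne

theorem wiredW_mono {A : Finset E2 → Prop} (hA : Inc A) {W W' : Finset V2} (h : W ⊆ W') :
    L2.pr (eTouch W) W A ≤ L2.pr (eTouch W') W' A := by
  refine pr_wired_mono (eTouch_mono h) h ?_ A hA (wired_nonempty W')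
  intro e _ he
  rw [mem_eTouch] at he
  push Not at he
  exact he

theorem edge_wired (e : E2) {ε : ℝ} (hε : 0 < ε) :
    ∃ m : ℕ, ∀ W : Finset V2, Bk m ⊆ W →
      Pinf (fun T => e ∈ T) - ε ≤ L2.pr (eTouch W) W (fun T => e ∈ T) := by
  obtain ⟨x, y, d⟩ := e
  obtain ⟨k, hk⟩ := exists_nat_gt (1 / ε)
  have hk0 : (0 : ℝ) < k := lt_trans (by positivity) hk
  have hk1 : 1 ≤ k := by exact_mod_cast Nat.one_le_iff_ne_zero.2 (by rintro rfl; simp at hk0)
  refine ⟨x.natAbs + y.natAbs + 1 + 2 * k, fun W hW => ?_⟩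
  have hx : |x| = x.natAbs := Int.abs_eq_natAbs x
  have hy : |y| = y.natAbs := Int.abs_eq_natAbs y
  have h1 : Pinf (fun T => (x, y, d) ∈ T) ≤ ((k : ℝ) + 1) / (2 * k + 1) := by
    refine le_of_tendsto (fr_tendsto (inc_edge (x, y, d))
      (loc_edge (Finset.mem_singleton_self (x, y, d))))
      ((eventually_ge_atTop (x.natAbs + y.natAbs + 2 * k)).mono (fun K hK => ?_))
    exact frP_edge_le k K hk1 x y d (by omega) (by omega)
  have h2 : (k : ℝ) / (2 * k + 1) ≤ wiP (x.natAbs + y.natAbs + 1 + 2 * k)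
      (fun T => (x, y, d) ∈ T) := wiP_edge_ge k _ hk1 x y d (by omega) (by omega)
  have h3 : wiP (x.natAbs + y.natAbs + 1 + 2 * k) (fun T => (x, y, d) ∈ T) ≤
      L2.pr (eTouch W) W (fun T => (x, y, d) ∈ T) := wiredW_mono (inc_edge _) hW
  have h4 : ((k : ℝ) + 1) / (2 * k + 1) - (k : ℝ) / (2 * k + 1) ≤ ε := by
    rw [← sub_div, div_le_iff₀ (by linarith)]
    have h5 : 1 < ε * k := by
      rw [div_lt_iff₀ hε] at hk; linarith
    nlinarith
  linarith

end Pool.Agent.UST
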