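import Pool.Agent.UST.EQ1

set_option autoImplicit false

/-!
Free = wired, and convergence along arbitrary exhaustions.

Proofs. `A` increasing, local (`Λ`). `f(T) = #(T ∩ Λ) - 1_A(T)` is increasing (adding one edge of `Λ` changes the first
term by one, an edge outside `Λ` changes nothing), with values in `-1, ..., |Λ|`: `f + 1 = ∑_{i=0}^{|Λ|} 1_{U_i}`,
`U_i = {T : i + 1_A(T) ≤ #(T ∩ Λ)}` increasing and `Loc Λ`. So for every finite `W`
`∑_{e ∈ Λ} pr_W (e ∈ T) - pr_W A + 1 = ∑_i pr_W (U_i) ≤ ∑_i Pinf (U_i) = ∑_{e ∈ Λ} Pinf (e ∈ T) - Pinf A + 1`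
(the last equation: the same identity for `frP k`, limit `k → ∞`), i.e.
`Pinf A - pr_W A ≤ ∑_{e ∈ Λ} (Pinf (e ∈ T) - pr_W (e ∈ T))`, which is small by `edge_wired`. Together with `wired_le_pinf`:
`wired_tendsto`. `exhaust_tendsto`: lower bound by the wired box `Bk m` (`wired_le_conn`, for `k` with `Bk (m+1) ⊆ X k`,
`eIn (Bk (m+1)) ⊆ S k`, root moved outside `Bk m` by `root_indep`), upper bound: `frP m A` by `dom_ext` (common root,
`root_indep`), then `m → ∞`.  (The quantitative form of the first part is `frP_sub_wiP_le` in FW.)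
-/

namespace Pool.Agent.UST

open Finset Filter Topology

/-- the wired boxes converge to the same limit as the free boxes -/
theorem wiP_tendsto {A : Finset E2 → Prop} {Λ : Finset E2} (hA : Inc A) (hL : Loc Λ A) :
    Tendsto (fun k => wiP k A) atTop (𝓝 (Pinf A)) := by
  obtain ⟨m, hm, hloc⟩ := exists_loc_Bk hL
  have h1 := fr_tendsto hA hL
  -- the difference tends to zero
  have h2 : Tendsto (fun K : ℕ => ((eIn (Bk m)).card : ℝ) / (2 * (((K - m - 1) / 2 : ℕ) : ℝ) + 1))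
      atTop (𝓝 0) := by
    have h3 : Tendsto (fun K : ℕ => (K - m - 1) / 2) atTop atTop := by
      refine tendsto_atTop_atTop.2 (fun b => ⟨2 * b + m + 1, fun a ha => ?_⟩)
      omega
    have h4 : Tendsto (fun K : ℕ => (((K - m - 1) / 2 : ℕ) : ℝ)) atTop atTop :=
      tendsto_natCast_atTop_atTop.comp h3
    have h5 : Tendsto (fun K : ℕ => 2 * (((K - m - 1) / 2 : ℕ) : ℝ) + 1) atTop atTop :=
      tendsto_atTop_add_const_right _ _ (h4.const_mul_atTop (by norm_num))
    exact Tendsto.div_atTop tendsto_const_nhds h5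
  have h5 : Tendsto (fun K : ℕ => frP K A - ((eIn (Bk m)).card : ℝ) /
      (2 * (((K - m - 1) / 2 : ℕ) : ℝ) + 1)) atTop (𝓝 (Pinf A)) := by
    have := h1.sub h2
    rwa [sub_zero] at this
  refine tendsto_of_tendsto_of_tendsto_of_le_of_le' h5 h1 ?_ ?_
  · refine (eventually_ge_atTop (m + 3)).mono (fun K hK => ?_)
    have := frP_sub_wiP_le hm hloc ((K - m - 1) / 2) K (by omega) (by omega)
    linarith
  · exact (eventually_ge_atTop m).mono (fun K hK => wiP_le_frP hm hA hloc hK)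

theorem wired_tendsto {A : Finset E2 → Prop} {Λ : Finset E2} (hA : Inc A) (hL : Loc Λ A)
    {W : ℕ → Finset V2} (hW : ∀ m : ℕ, ∀ᶠ k in Filter.atTop, Bk m ⊆ W k) :
    Filter.Tendsto (fun k => L2.pr (eTouch (W k)) (W k) A) Filter.atTop (nhds (Pinf A)) := by
  refine tendsto_order.2 ⟨fun a ha => ?_, fun a ha => ?_⟩
  · obtain ⟨m, hm⟩ := ((tendsto_order.1 (wiP_tendsto hA hL)).1 a ha).exists
    exact (hW m).mono (fun k hk => lt_of_lt_of_le hm (wiredW_mono hA hk))
  · exact Eventually.of_forall (fun k => lt_of_le_of_lt (wired_le_pinf hA hL (W k)) ha)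

theorem exhaust_tendsto {A : Finset E2 → Prop} {Λ : Finset E2} (hA : Inc A) (hL : Loc Λ A)
    {X : ℕ → Finset V2} {S : ℕ → Finset E2} {x : ℕ → V2} (hx : ∀ k, x k ∈ X k)
    (hS : ∀ k, ∀ e ∈ S k, L2.src e ∈ X k ∧ L2.tgt e ∈ X k)
    (hne : ∀ k, (L2.Bases (S k) ((X k).erase (x k))).Nonempty)
    (hex : ∀ m : ℕ, ∀ᶠ k in Filter.atTop, Bk m ⊆ X k ∧ eIn (Bk m) ⊆ S k) :
    Filter.Tendsto (fun k => L2.pr (S k) ((X k).erase (x k)) A) Filter.atTop (nhds (Pinf A)) := by
  obtain ⟨m0, hm0, hloc⟩ := exists_loc_Bk hL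
  have hroot : ∀ k, ∀ y ∈ X k, L2.pr (S k) ((X k).erase (x k)) A =
      L2.pr (S k) ((X k).erase y) A := by
    intro k y hy
    unfold MG.pr MG.cnt
    rw [root_indep L2 (hS k) (hx k) hy]
  have hneroot : ∀ k, ∀ y ∈ X k, (L2.Bases (S k) ((X k).erase y)).Nonempty := by
    intro k y hy
    rw [← root_indep L2 (hS k) (hx k) hy]; exact hne k
  refine tendsto_order.2 ⟨fun a ha => ?_, fun a ha => ?_⟩
  · obtain ⟨m, hm⟩ := ((tendsto_order.1 (wiP_tendsto hA hL)).1 a ha).exists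
    refine (hex (m + 1)).mono (fun k hk => lt_of_lt_of_le hm ?_)
    have hy : ((m : ℤ) + 1, (0 : ℤ)) ∈ Bk (m + 1) := by
      unfold Bk; rw [mem_bx]; push_cast; omega
    have hyB : ((m : ℤ) + 1, (0 : ℤ)) ∉ Bk m := by
      unfold Bk; rw [mem_bx]; simp only; omega
    rw [hroot k _ (hk.1 hy)]
    refine wired_le_conn hA (hS k) (hk.1 hy) hyB (hneroot k _ (hk.1 hy))
      ((Bk_mono (by omega)).trans hk.1) ?_
    refine subset_trans ?_ hk.2
    rintro ⟨p, q, d⟩ he
    rw [mem_eTouch] at he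
    rw [mem_eIn]
    unfold Bk at he ⊢
    cases d
    · rw [L2_src, L2_tgt_false, mem_bx, mem_bx] at he
      rw [L2_src, L2_tgt_false, mem_bx, mem_bx]
      push_cast
      simp only at he ⊢
      omega
    · rw [L2_src, L2_tgt_true, mem_bx, mem_bx] at he
      rw [L2_src, L2_tgt_true, mem_bx, mem_bx]
      push_cast
      simp only at he ⊢
      omega
  · obtain ⟨m, hmm0, hm⟩ := (((tendsto_order.1 (fr_tendsto hA hL)).2 a ha).and
      (eventually_ge_atTop m0)).exists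
    refine (hex m).mono (fun k hk => lt_of_le_of_lt ?_ hmm0)
    have h0 : ((0 : ℤ), (0 : ℤ)) ∈ Bk m := by unfold Bk; rw [mem_bx]; simp
    rw [hroot k _ (hk.1 h0), frP_root h0]
    refine dom_ext L2 hk.2 (Finset.erase_subset_erase _ hk.1) ?_ (bases_free_nonempty h0)
      (hneroot k _ (hk.1 h0)) hA (hloc.mono' (eIn_mono (Bk_mono hm)))
    intro e he v hv ht
    refine Finset.mem_erase.2 ⟨Finset.ne_of_mem_erase hv, ?_⟩
    rcases ht with h | h
    · rw [← h]; exact (mem_eIn.1 he).1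
    · rw [← h]; exact (mem_eIn.1 he).2

end Pool.Agent.UST
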