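import Pool.Agent.UST.BAS

set_option autoImplicit false

/-!
The spatial Markov property of the exploration of the clusters of `Q`.

Proofs. `F0 := expl T0 W Q`, `R := rest S W F0 Q`. `Q ∩ W ⊆ F0`. Path of `w ∈ W \ F0` in `T0` to its root: stays in
`W \ F0` and the root is not in `Q` (else `w ∈ F0`), so all its edges are in `R`. Path of `w ∈ F0` to its root: all its
vertices in `W` are in `F0`, all its edges touch `F0`, so they are in `T0 \ R`. By `card_le_of_conn`:
`|T0 ∩ R| ≥ |W \ F0|`, `|T0 \ R| ≥ |F0|`, and the sum is `|W|`: equalities. For `Tb ∈ Bases R (W \ F0)` put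
`T = (T0 \ R) ∪ Tb`: cardinality `|W|` (disjoint), `w ∈ F0` is connected by `T0 \ R`, `w ∈ W \ F0` is connected by `Tb` to
some `r ∉ W \ F0`; the last edge is in `R` and does not touch `F0`, so `r ∉ W`. `expl T W Q = F0`: `⊇`: the paths from
`F0` to `Q` inside `W ∪ Q` have all vertices in `F0 ∪ Q` and edges in `T0 \ R`; `⊆`: take a path from `w ∈ W \ F0` to `Q`,
the first edge from `u ∈ W \ F0` to `u' ∈ F0 ∪ Q` is not in `R`, so in `T0`, and then `u ∈ F0`, contradiction.
`expl_bound`: the bases of `(S, W)` are partitioned by the key `(expl T W Q, T \ R)`; the class of `T0` is in bijection with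
`Bases R (W \ F0)` by `Tb ↦ (T0 \ R) ∪ Tb`, inverse `T ↦ T ∩ R`. In a class, `Good` is constant by `h2`; if it is true the
number of `T` with `A` is at most `#{Tb : A' F0 Tb} ≤ q #(class)` by `h1`, `h3`; if it is false there are none by `h1`.
-/

namespace Pool.Agent.UST

variable {V E : Type} [DecidableEq V] [DecidableEq E] (G : MG V E)

omit [DecidableEq V] [DecidableEq E] in
private theorem mem_expl {T : Finset E} {W : Finset V} {Q : Set V} {w : V} :
    w ∈ G.expl T W Q ↔ w ∈ W ∧ ∃ q ∈ Q, G.ConnIn T ((W : Set V) ∪ Q) w q := by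
  classical
  unfold MG.expl
  rw [Finset.mem_filter]

omit [DecidableEq V] [DecidableEq E] in
private theorem mem_rest {S : Finset E} {W F : Finset V} {Q : Set V} {e : E} :
    e ∈ G.rest S W F Q ↔ e ∈ S ∧ (∃ v ∈ W, v ∉ F ∧ G.Touch e v) ∧
      ∀ v, G.Touch e v → v ∉ F ∧ v ∉ Q := by
  classical
  unfold MG.rest
  rw [Finset.mem_filter]

omit [DecidableEq V] [DecidableEq E] in
private theorem touch_of_step {g : E} {b c : V}
    (h : (G.src g = b ∧ G.tgt g = c) ∨ (G.src g = c ∧ G.tgt g = b)) :
    G.Touch g b ∧ G.Touch g c ∧ ∀ v, G.Touch g v → v = b ∨ v = c := by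
  rcases h with ⟨h1, h2⟩ | ⟨h1, h2⟩
  · refine ⟨Or.inl h1, Or.inr h2, fun v hv => ?_⟩
    rcases hv with hv | hv
    · exact Or.inl (by rw [← hv, h1])
    · exact Or.inr (by rw [← hv, h2])
  · refine ⟨Or.inr h2, Or.inl h1, fun v hv => ?_⟩
    rcases hv with hv | hv
    · exact Or.inr (by rw [← hv, h1])
    · exact Or.inl (by rw [← hv, h2])

omit [DecidableEq V] [DecidableEq E] in
private theorem expl_closed {T : Finset E} {W : Finset V} {Q : Set V} {u u' : V} (hu : u ∈ W)
    (hs : G.Step T u u') (hu' : u' ∈ G.expl T W Q ∨ u' ∈ Q) : u ∈ G.expl T W Q := by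
  rw [mem_expl]
  refine ⟨hu, ?_⟩
  rcases hu' with h | h
  · obtain ⟨h1, q, hq, hc⟩ := (mem_expl G).1 h
    exact ⟨q, hq, Relation.ReflTransGen.head ⟨hs, Or.inl hu, Or.inl h1⟩ hc⟩
  · exact ⟨u', h, Relation.ReflTransGen.single ⟨hs, Or.inl hu, Or.inr h⟩⟩

omit [DecidableEq V] [DecidableEq E] in
private theorem expl_q {T : Finset E} {W : Finset V} {Q : Set V} {u : V} (hu : u ∈ W)
    (hq : u ∈ Q) : u ∈ G.expl T W Q := by
  rw [mem_expl]
  exact ⟨hu, u, hq, Relation.ReflTransGen.refl⟩

private theorem conn_out {S T0 : Finset E} {W : Finset V} {Q : Set V} (hT0 : T0 ∈ G.Bases S W)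
    {w : V} (hw : w ∈ W) (hwF : w ∉ G.expl T0 W Q) :
    ∃ r, r ∉ W \ G.expl T0 W Q ∧ G.Conn (T0 ∩ G.rest S W (G.expl T0 W Q) Q) w r := by
  have hT := MG.mem_Bases.1 hT0
  obtain ⟨r, hr, hc⟩ := hT.2.2 w hw
  set F := G.expl T0 W Q with hF
  have key : ∀ b, G.Conn T0 w b → (G.Conn (T0 ∩ G.rest S W F Q) w b ∧ b ∈ W ∧ b ∉ F) ∨
      ∃ r, r ∉ W \ F ∧ G.Conn (T0 ∩ G.rest S W F Q) w r := by
    intro b hb
    induction hb with
    | refl => exact Or.inl ⟨Relation.ReflTransGen.refl, hw, hwF⟩
    | @tail b c _ hs ih =>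
      rcases ih with ⟨h1, h2, h3⟩ | ih
      · have hs' := hs
        obtain ⟨g, hg, hbc⟩ := hs
        obtain ⟨t1, t2, t3⟩ := touch_of_step G hbc
        have hcc : ¬ (c ∈ F ∨ c ∈ Q) := fun h => h3 (expl_closed G h2 hs' h)
        push Not at hcc
        have hbq : b ∉ Q := fun h => h3 (expl_q G h2 h)
        have hgR : g ∈ G.rest S W F Q := by
          rw [mem_rest]
          refine ⟨hT.1 hg, ⟨b, h2, h3, t1⟩, fun v hv => ?_⟩
          rcases t3 v hv with rfl | rfl
          · exact ⟨h3, hbq⟩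
          · exact hcc
        have hc' : G.Conn (T0 ∩ G.rest S W F Q) w c :=
          h1.tail ⟨g, Finset.mem_inter.2 ⟨hg, hgR⟩, hbc⟩
        by_cases hcW : c ∈ W
        · exact Or.inl ⟨hc', hcW, hcc.1⟩
        · exact Or.inr ⟨c, fun h => hcW (Finset.mem_sdiff.1 h).1, hc'⟩
      · exact Or.inr ih
  rcases key r hc with ⟨_, h2, _⟩ | h
  · exact absurd h2 hr
  · exact h

private theorem conn_in {S T0 : Finset E} {W : Finset V} {Q : Set V} (hT0 : T0 ∈ G.Bases S W)
    {w : V} (hwF : w ∈ G.expl T0 W Q) :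
    ∃ r, r ∉ W ∧ G.Conn (T0 \ G.rest S W (G.expl T0 W Q) Q) w r := by
  have hT := MG.mem_Bases.1 hT0
  obtain ⟨r, hr, hc⟩ := hT.2.2 w ((mem_expl G).1 hwF).1
  set F := G.expl T0 W Q with hF
  have key : ∀ b, G.Conn T0 w b → (G.Conn (T0 \ G.rest S W F Q) w b ∧ b ∈ F) ∨
      ∃ r, r ∉ W ∧ G.Conn (T0 \ G.rest S W F Q) w r := by
    intro b hb
    induction hb with
    | refl => exact Or.inl ⟨Relation.ReflTransGen.refl, hwF⟩
    | @tail b c _ hs ih =>
      rcases ih with ⟨h1, h2⟩ | ih
      · have hs' := hs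
        obtain ⟨g, hg, hbc⟩ := hs
        obtain ⟨t1, t2, t3⟩ := touch_of_step G hbc
        have hgR : g ∉ G.rest S W F Q := by
          rw [mem_rest]
          rintro ⟨_, _, h⟩
          exact (h b t1).1 h2
        have hc' : G.Conn (T0 \ G.rest S W F Q) w c :=
          h1.tail ⟨g, Finset.mem_sdiff.2 ⟨hg, hgR⟩, hbc⟩
        by_cases hcW : c ∈ W
        · exact Or.inl ⟨hc', expl_closed G hcW hs'.symm (Or.inl h2)⟩
        · exact Or.inr ⟨c, hcW, hc'⟩
      · exact Or.inr ih
  rcases key r hc with ⟨_, h2⟩ | h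
  · exact absurd ((mem_expl G).1 h2).1 hr
  · exact h

private theorem fib_card {S T0 : Finset E} {W : Finset V} {Q : Set V} (hT0 : T0 ∈ G.Bases S W) :
    (T0 ∩ G.rest S W (G.expl T0 W Q) Q).card = (W \ G.expl T0 W Q).card ∧
      (T0 \ G.rest S W (G.expl T0 W Q) Q).card = (G.expl T0 W Q).card := by
  have hFW : G.expl T0 W Q ⊆ W := fun w hw => ((mem_expl G).1 hw).1
  have h1 : (W \ G.expl T0 W Q).card ≤ (T0 ∩ G.rest S W (G.expl T0 W Q) Q).card := by
    refine card_le_of_conn G fun w hw => ?_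
    rw [Finset.mem_sdiff] at hw
    exact conn_out G hT0 hw.1 hw.2
  have h2 : (G.expl T0 W Q).card ≤ (T0 \ G.rest S W (G.expl T0 W Q) Q).card := by
    refine card_le_of_conn G fun w hw => ?_
    obtain ⟨r, hr, hc⟩ := conn_in G hT0 hw
    exact ⟨r, fun h => hr (hFW h), hc⟩
  have h3 := Finset.card_sdiff_add_card_inter T0 (G.rest S W (G.expl T0 W Q) Q)
  have h4 := Finset.card_sdiff_add_card_eq_card hFW
  have h5 := (MG.mem_Bases.1 hT0).2.1
  omega

theorem fib_rest {S T0 : Finset E} {W : Finset V} {Q : Set V} (hT0 : T0 ∈ G.Bases S W) :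
    T0 ∩ G.rest S W (G.expl T0 W Q) Q ∈
      G.Bases (G.rest S W (G.expl T0 W Q) Q) (W \ G.expl T0 W Q) := by
  rw [MG.mem_Bases]
  refine ⟨Finset.inter_subset_right, (fib_card G hT0).1, fun w hw => ?_⟩
  rw [Finset.mem_sdiff] at hw
  exact conn_out G hT0 hw.1 hw.2

theorem fib_glue {S T0 : Finset E} {W : Finset V} {Q : Set V} (hT0 : T0 ∈ G.Bases S W)
    {Tb : Finset E} (hTb : Tb ∈ G.Bases (G.rest S W (G.expl T0 W Q) Q) (W \ G.expl T0 W Q)) :
    (T0 \ G.rest S W (G.expl T0 W Q) Q) ∪ Tb ∈ G.Bases S W ∧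
      G.expl ((T0 \ G.rest S W (G.expl T0 W Q) Q) ∪ Tb) W Q = G.expl T0 W Q := by
  have hFW : G.expl T0 W Q ⊆ W := fun w hw => ((mem_expl G).1 hw).1
  have hTb' := MG.mem_Bases.1 hTb
  have hT := MG.mem_Bases.1 hT0
  set F := G.expl T0 W Q with hF
  set R := G.rest S W F Q with hR
  have hcard := fib_card G (Q := Q) hT0
  rw [← hF, ← hR] at hcard
  have hRF : ∀ g ∈ R, ∀ v, G.Touch g v → v ∉ F ∧ v ∉ Q := fun g hg => ((mem_rest G).1 hg).2.2
  have hTbF : ∀ u v, u ∉ F → G.Conn Tb u v → v ∉ F := by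
    intro u v hu h
    induction h with
    | refl => exact hu
    | @tail b c _ hs _ =>
      obtain ⟨g, hg, hbc⟩ := hs
      exact (hRF g (hTb'.1 hg) c (touch_of_step G hbc).2.1).1
  constructor
  · rw [MG.mem_Bases]
    refine ⟨?_, ?_, ?_⟩
    · intro e he
      rcases Finset.mem_union.1 he with he | he
      · exact hT.1 (Finset.mem_sdiff.1 he).1
      · exact ((mem_rest G).1 (hTb'.1 he)).1
    · rw [Finset.card_union_of_disjoint]
      · have h4 := Finset.card_sdiff_add_card_eq_card hFW
        rw [hcard.2, hTb'.2.1]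
        omega
      · rw [Finset.disjoint_left]
        intro e he he'
        exact (Finset.mem_sdiff.1 he).2 (hTb'.1 he')
    · intro w hw
      by_cases hwF : w ∈ F
      · obtain ⟨r, hr, hc⟩ := conn_in G hT0 hwF
        exact ⟨r, hr, hc.mono Finset.subset_union_left⟩
      · obtain ⟨r, hr, hc⟩ := hTb'.2.2 w (Finset.mem_sdiff.2 ⟨hw, hwF⟩)
        refine ⟨r, fun h => hr (Finset.mem_sdiff.2 ⟨h, hTbF w r hwF hc⟩), ?_⟩
        exact hc.mono Finset.subset_union_right
  · ext w
    constructor
    · intro hw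
      obtain ⟨hwW, q, hq, hc⟩ := (mem_expl G).1 hw
      have key : ∀ b, G.ConnIn ((T0 \ R) ∪ Tb) ((W : Set V) ∪ Q) b q → b ∈ W → b ∈ F := by
        intro b hb
        induction hb using Relation.ReflTransGen.head_induction_on with
        | refl => exact fun h => expl_q G h hq
        | @head b c hs _ ih =>
          intro hbW
          obtain ⟨⟨g, hg, hbc⟩, hb2, hc2⟩ := hs
          by_contra hbF
          have hcFQ : c ∈ F ∨ c ∈ Q := by
            rcases hc2 with hc2 | hc2
            · exact Or.inl (ih hc2)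
            · exact Or.inr hc2
          have hgR : g ∉ R := by
            intro h
            have := hRF g h c (touch_of_step G hbc).2.1
            rcases hcFQ with h' | h'
            · exact this.1 h'
            · exact this.2 h'
          have hg0 : g ∈ T0 := by
            rcases Finset.mem_union.1 hg with h | h
            · exact (Finset.mem_sdiff.1 h).1
            · exact absurd (hTb'.1 h) hgR
          exact hbF (expl_closed G hbW ⟨g, hg0, hbc⟩ hcFQ)
      exact key w hc hwW
    · intro hw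
      obtain ⟨hwW, q, hq, hc⟩ := (mem_expl G).1 hw
      rw [mem_expl]
      refine ⟨hwW, q, hq, ?_⟩
      clear hw hwW
      induction hc using Relation.ReflTransGen.head_induction_on with
      | refl => exact Relation.ReflTransGen.refl
      | @head b c hs hcq ih =>
        obtain ⟨⟨g, hg, hbc⟩, hb2, hc2⟩ := hs
        refine Relation.ReflTransGen.head ⟨⟨g, ?_, hbc⟩, hb2, hc2⟩ ih
        refine Finset.mem_union_left _ (Finset.mem_sdiff.2 ⟨hg, fun h => ?_⟩)
        have h2 := hRF g h b (touch_of_step G hbc).1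
        rcases hb2 with hb2 | hb2
        · refine h2.1 ((mem_expl G).2 ⟨hb2, q, hq, ?_⟩)
          exact Relation.ReflTransGen.head ⟨⟨g, hg, hbc⟩, Or.inl hb2, hc2⟩ hcq
        · exact h2.2 hb2

theorem expl_bound {S : Finset E} {W : Finset V} {Q : Set V} {A Good : Finset E → Prop}
    {A' : Finset V → Finset E → Prop} {q : ℝ} (hq : 0 ≤ q)
    (h1 : ∀ T ∈ G.Bases S W, A T →
      Good T ∧ A' (G.expl T W Q) (T ∩ G.rest S W (G.expl T W Q) Q))
    (h2 : ∀ T ∈ G.Bases S W, Good T →
      ∀ Tb ∈ G.Bases (G.rest S W (G.expl T W Q) Q) (W \ G.expl T W Q),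
        Good ((T \ G.rest S W (G.expl T W Q) Q) ∪ Tb))
    (h3 : ∀ T ∈ G.Bases S W, Good T →
      G.pr (G.rest S W (G.expl T W Q) Q) (W \ G.expl T W Q) (A' (G.expl T W Q)) ≤ q) :
    G.pr S W A ≤ G.pr S W Good * q := by
  classical
  set κ : Finset E → Finset V × Finset E :=
    fun T => (G.expl T W Q, T \ G.rest S W (G.expl T W Q) Q) with hκ
  have hmain : (G.cnt S W A : ℝ) ≤ q * (G.cnt S W Good : ℝ) := by
    have e1 : G.cnt S W A = ∑ k ∈ (G.Bases S W).image κ,
        (((G.Bases S W).filter A).filter (fun T => κ T = k)).card := by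
      unfold MG.cnt
      refine Finset.card_eq_sum_card_fiberwise fun T hT => ?_
      exact Finset.mem_image_of_mem κ (Finset.mem_filter.1 hT).1
    have e2 : G.cnt S W Good = ∑ k ∈ (G.Bases S W).image κ,
        (((G.Bases S W).filter Good).filter (fun T => κ T = k)).card := by
      unfold MG.cnt
      refine Finset.card_eq_sum_card_fiberwise fun T hT => ?_
      exact Finset.mem_image_of_mem κ (Finset.mem_filter.1 hT).1
    rw [e1, e2]
    push_cast
    rw [Finset.mul_sum]
    refine Finset.sum_le_sum fun k hk => ?_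
    obtain ⟨T0, hT0, rfl⟩ := Finset.mem_image.1 hk
    -- the class of `T0`
    have hcls : ∀ T ∈ G.Bases S W, κ T = κ T0 → G.expl T W Q = G.expl T0 W Q ∧
        T \ G.rest S W (G.expl T0 W Q) Q = T0 \ G.rest S W (G.expl T0 W Q) Q := by
      intro T _ h
      rw [hκ] at h
      simp only [Prod.mk.injEq] at h
      exact ⟨h.1, by rw [← h.2, h.1]⟩
    by_cases hg : Good T0
    · -- all members of the class are good
      have hn : ((((G.Bases S W).filter A).filter (fun T => κ T = κ T0)).card : ℝ) ≤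
          (G.cnt (G.rest S W (G.expl T0 W Q) Q) (W \ G.expl T0 W Q) (A' (G.expl T0 W Q)) : ℝ) := by
        norm_cast
        unfold MG.cnt
        refine Finset.card_le_card_of_injOn (fun T => T ∩ G.rest S W (G.expl T0 W Q) Q) ?_ ?_
        · intro T hT
          have hT' : (T ∈ G.Bases S W ∧ A T) ∧ κ T = κ T0 := by
            simpa only [Finset.coe_filter, Finset.mem_filter, Set.mem_setOf_eq] using hT
          have hc := hcls T hT'.1.1 hT'.2
          have hr := fib_rest G (Q := Q) hT'.1.1
          have ha := (h1 T hT'.1.1 hT'.1.2).2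
          rw [hc.1] at hr ha
          simp only [Finset.coe_filter, Set.mem_setOf_eq]
          exact ⟨hr, ha⟩
        · intro T hT T' hT' h
          have hT1 : (T ∈ G.Bases S W ∧ A T) ∧ κ T = κ T0 := by
            simpa only [Finset.coe_filter, Finset.mem_filter, Set.mem_setOf_eq] using hT
          have hT2 : (T' ∈ G.Bases S W ∧ A T') ∧ κ T' = κ T0 := by
            simpa only [Finset.coe_filter, Finset.mem_filter, Set.mem_setOf_eq] using hT'
          have c1 := (hcls T hT1.1.1 hT1.2).2
          have c2 := (hcls T' hT2.1.1 hT2.2).2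
          rw [← Finset.sdiff_union_inter T (G.rest S W (G.expl T0 W Q) Q),
            ← Finset.sdiff_union_inter T' (G.rest S W (G.expl T0 W Q) Q), c1, c2]
          simp only at h
          rw [h]
      have hm : ((G.Bases (G.rest S W (G.expl T0 W Q) Q) (W \ G.expl T0 W Q)).card : ℝ) ≤
          ((((G.Bases S W).filter Good).filter (fun T => κ T = κ T0)).card : ℝ) := by
        norm_cast
        refine Finset.card_le_card_of_injOn
          (fun Tb => (T0 \ G.rest S W (G.expl T0 W Q) Q) ∪ Tb) ?_ ?_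
        · intro Tb hTb
          have hTb' : Tb ∈ G.Bases (G.rest S W (G.expl T0 W Q) Q) (W \ G.expl T0 W Q) := hTb
          obtain ⟨g1, g2⟩ := fib_glue G hT0 hTb'
          simp only [Finset.coe_filter, Finset.mem_filter, Set.mem_setOf_eq]
          refine ⟨⟨g1, h2 T0 hT0 hg Tb hTb'⟩, ?_⟩
          rw [hκ]
          simp only
          rw [g2]
          congr 1
          ext e
          simp only [Finset.mem_sdiff, Finset.mem_union]
          constructor
          · rintro ⟨h | h, h'⟩
            · exact h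
            · exact absurd ((MG.mem_Bases.1 hTb').1 h) h'
          · rintro ⟨h, h'⟩
            exact ⟨Or.inl ⟨h, h'⟩, h'⟩
        · intro Tb hTb Tb' hTb' h
          have b1 := (MG.mem_Bases.1 (show Tb ∈ G.Bases _ _ from hTb)).1
          have b2 := (MG.mem_Bases.1 (show Tb' ∈ G.Bases _ _ from hTb')).1
          simp only at h
          ext e
          constructor
          · intro he
            have : e ∈ (T0 \ G.rest S W (G.expl T0 W Q) Q) ∪ Tb' := by
              rw [← h]; exact Finset.mem_union_right _ he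
            rcases Finset.mem_union.1 this with h' | h'
            · exact absurd (b1 he) (Finset.mem_sdiff.1 h').2
            · exact h'
          · intro he
            have : e ∈ (T0 \ G.rest S W (G.expl T0 W Q) Q) ∪ Tb := by
              rw [h]; exact Finset.mem_union_right _ he
            rcases Finset.mem_union.1 this with h' | h'
            · exact absurd (b2 he) (Finset.mem_sdiff.1 h').2
            · exact h'
      have hpos : (0 : ℝ) <
          ((G.Bases (G.rest S W (G.expl T0 W Q) Q) (W \ G.expl T0 W Q)).card : ℝ) := by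
        exact_mod_cast Finset.card_pos.2 ⟨_, fib_rest G (Q := Q) hT0⟩
      have h3' := h3 T0 hT0 hg
      unfold MG.pr at h3'
      rw [div_le_iff₀ hpos] at h3'
      calc ((((G.Bases S W).filter A).filter (fun T => κ T = κ T0)).card : ℝ) ≤ _ := hn
        _ ≤ q * ((G.Bases (G.rest S W (G.expl T0 W Q) Q) (W \ G.expl T0 W Q)).card : ℝ) := h3'
        _ ≤ _ := mul_le_mul_of_nonneg_left hm hq
    · have h0 : (((G.Bases S W).filter A).filter (fun T => κ T = κ T0)) = ∅ := by
        rw [Finset.eq_empty_iff_forall_notMem]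
        intro T hT
        rw [Finset.mem_filter, Finset.mem_filter] at hT
        have hc := hcls T hT.1.1 hT.2
        have hgT := (h1 T hT.1.1 hT.1.2).1
        have hr := fib_rest G (Q := Q) hT0
        have := h2 T hT.1.1 hgT (T0 ∩ G.rest S W (G.expl T0 W Q) Q) (by rw [hc.1]; exact hr)
        rw [hc.1, hc.2, Finset.sdiff_union_inter] at this
        exact hg this
      rw [h0]
      simp only [Finset.card_empty, Nat.cast_zero]
      positivity
  unfold MG.pr
  rw [div_mul_eq_mul_div]
  apply div_le_div_of_nonneg_right _ (by positivity)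
  linarith

end Pool.Agent.UST
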