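import Mathlib

/-!
Project UST, module RD: deterministic planar duality for crossings of a rectangle of the square
lattice.  `H x y` says that the edge from `(x, y)` to `(x + 1, y)` is open, `V x y` says that the
edge from `(x, y)` to `(x, y + 1)` is open.  The dual lattice has the vertex `(x, y)` in the middle
of the face with lower left corner `(x, y)`.
-/

namespace UST

/-- one open edge inside the rectangle `[x0, x1] × [y0, y1]` -/
inductive RStep (H V : ℤ → ℤ → Prop) (x0 x1 y0 y1 : ℤ) : ℤ × ℤ → ℤ × ℤ → Prop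
  | hor (x y : ℤ) (h1 : x0 ≤ x) (h2 : x + 1 ≤ x1) (h3 : y0 ≤ y) (h4 : y ≤ y1) (h : H x y) :
      RStep H V x0 x1 y0 y1 (x, y) (x + 1, y)
  | ver (x y : ℤ) (h1 : x0 ≤ x) (h2 : x ≤ x1) (h3 : y0 ≤ y) (h4 : y + 1 ≤ y1) (h : V x y) :
      RStep H V x0 x1 y0 y1 (x, y) (x, y + 1)

/-- two vertices are joined by open edges inside the rectangle -/
def RJoined (H V : ℤ → ℤ → Prop) (x0 x1 y0 y1 : ℤ) : ℤ × ℤ → ℤ × ℤ → Prop :=
  Relation.EqvGen (RStep H V x0 x1 y0 y1)

/-- there is a crossing from the left side to the right side -/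
def LRC (H V : ℤ → ℤ → Prop) (x0 x1 y0 y1 : ℤ) : Prop :=
  ∃ j j' : ℤ, y0 ≤ j ∧ j ≤ y1 ∧ y0 ≤ j' ∧ j' ≤ y1 ∧ RJoined H V x0 x1 y0 y1 (x0, j) (x1, j')

/-- there is a crossing from the bottom side to the top side -/
def BTC (H V : ℤ → ℤ → Prop) (x0 x1 y0 y1 : ℤ) : Prop :=
  ∃ i i' : ℤ, x0 ≤ i ∧ i ≤ x1 ∧ x0 ≤ i' ∧ i' ≤ x1 ∧ RJoined H V x0 x1 y0 y1 (i, y0) (i', y1)

/-- the horizontal dual edges -/
def dualH (V : ℤ → ℤ → Prop) : ℤ → ℤ → Prop := fun x y => ¬ V (x + 1) y

/-- the vertical dual edges -/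
def dualV (H : ℤ → ℤ → Prop) : ℤ → ℤ → Prop := fun x y => ¬ H x (y + 1)

lemma RJoined.const {H V : ℤ → ℤ → Prop} {x0 x1 y0 y1 : ℤ} {β : Type*} (f : ℤ × ℤ → β)
    (hf : ∀ u w, RStep H V x0 x1 y0 y1 u w → f u = f w) {u w : ℤ × ℤ}
    (h : RJoined H V x0 x1 y0 y1 u w) : f u = f w := by
  induction h with
  | rel a b hab => exact hf a b hab
  | refl a => rfl
  | symm a b _ ih => exact ih.symm
  | trans a b c _ _ ih1 ih2 => exact ih1.trans ih2

/-- the mod 2 chain of a connection -/
lemma RJoined.chain {H V : ℤ → ℤ → Prop} {x0 x1 y0 y1 : ℤ} {u w : ℤ × ℤ}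
    (h : RJoined H V x0 x1 y0 y1 u w) :
    ∃ cH cV : ℤ → ℤ → ZMod 2,
      (∀ x y, cH x y ≠ 0 → x0 ≤ x ∧ x + 1 ≤ x1 ∧ y0 ≤ y ∧ y ≤ y1 ∧ H x y) ∧
      (∀ x y, cV x y ≠ 0 → x0 ≤ x ∧ x ≤ x1 ∧ y0 ≤ y ∧ y + 1 ≤ y1 ∧ V x y) ∧
      (∀ x y, cH x y + cH (x - 1) y + cV x y + cV x (y - 1) =
        (if u = (x, y) then 1 else 0) + (if w = (x, y) then 1 else 0)) := by
  induction h with
  | rel a b hab =>
    cases hab with
    | hor x y h1 h2 h3 h4 h =>
      refine ⟨fun s t => if s = x ∧ t = y then 1 else 0, fun _ _ => 0, ?_, ?_, ?_⟩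
      · intro s t hst
        simp only [ne_eq, ite_eq_right_iff, one_ne_zero, imp_false, not_not] at hst
        obtain ⟨rfl, rfl⟩ := hst
        exact ⟨h1, h2, h3, h4, h⟩
      · intro s t hst; exact absurd rfl hst
      · intro s t
        simp only [add_zero, Prod.mk.injEq]
        congr 1
        · exact if_congr (by constructor <;> rintro ⟨h, h'⟩ <;> exact ⟨h.symm, h'.symm⟩) rfl rfl
        · refine if_congr ?_ rfl rfl
          constructor <;> rintro ⟨h, h'⟩ <;> exact ⟨by omega, by omega⟩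
    | ver x y h1 h2 h3 h4 h =>
      refine ⟨fun _ _ => 0, fun s t => if s = x ∧ t = y then 1 else 0, ?_, ?_, ?_⟩
      · intro s t hst; exact absurd rfl hst
      · intro s t hst
        simp only [ne_eq, ite_eq_right_iff, one_ne_zero, imp_false, not_not] at hst
        obtain ⟨rfl, rfl⟩ := hst
        exact ⟨h1, h2, h3, h4, h⟩
      · intro s t
        simp only [add_zero, zero_add, Prod.mk.injEq]
        congr 1
        · exact if_congr (by constructor <;> rintro ⟨h, h'⟩ <;> exact ⟨h.symm, h'.symm⟩) rfl rfl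
        · refine if_congr ?_ rfl rfl
          constructor <;> rintro ⟨h, h'⟩ <;> exact ⟨by omega, by omega⟩
  | refl a =>
    refine ⟨fun _ _ => 0, fun _ _ => 0, fun _ _ h => absurd rfl h, fun _ _ h => absurd rfl h, ?_⟩
    intro x y
    have h2 : ∀ z : ZMod 2, z + z = 0 := by decide
    simp only [add_zero]; exact (h2 _).symm
  | symm a b _ ih =>
    obtain ⟨cH, cV, h1, h2, h3⟩ := ih
    exact ⟨cH, cV, h1, h2, fun x y => by rw [h3, add_comm]⟩
  | trans a b d _ _ ih1 ih2 =>
    obtain ⟨cH, cV, h1, h2, h3⟩ := ih1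
    obtain ⟨cH', cV', h1', h2', h3'⟩ := ih2
    refine ⟨fun x y => cH x y + cH' x y, fun x y => cV x y + cV' x y, ?_, ?_, ?_⟩
    · intro x y hxy
      by_cases h0 : cH x y = 0
      · exact h1' x y (fun h0' => hxy (by simp only [h0, h0', add_zero]))
      · exact h1 x y h0
    · intro x y hxy
      by_cases h0 : cV x y = 0
      · exact h2' x y (fun h0' => hxy (by simp only [h0, h0', add_zero]))
      · exact h2 x y h0
    · intro x y
      have e1 := h3 x y
      have e2 := h3' x y
      have h2 : ∀ z : ZMod 2, z + z = 0 := by decide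
      have e3 : cH x y + cH' x y + (cH (x - 1) y + cH' (x - 1) y) + (cV x y + cV' x y) +
          (cV x (y - 1) + cV' x (y - 1)) =
          (cH x y + cH (x - 1) y + cV x y + cV x (y - 1)) +
          (cH' x y + cH' (x - 1) y + cV' x y + cV' x (y - 1)) := by ring
      rw [e3, e1, e2]
      have e4 : ∀ p q r : ZMod 2, p + q + (q + r) = p + r := by decide
      exact e4 _ _ _

lemma sum_Ico_succ {M : Type*} [AddCommMonoid M] (f : ℤ → M) {a b : ℤ} (hab : a ≤ b) :
    ∑ t ∈ Finset.Ico a (b + 1), f t = ∑ t ∈ Finset.Ico a b, f t + f b := by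
  have h1 : Finset.Ico a (b + 1) = insert b (Finset.Ico a b) := by
    ext t; simp only [Finset.mem_Ico, Finset.mem_insert]; omega
  rw [h1, Finset.sum_insert (by simp), add_comm]

lemma sum_telescope (g : ℤ → ZMod 2) {a b : ℤ} (hab : a ≤ b) :
    ∑ t ∈ Finset.Ico a b, (g t + g (t + 1)) = g a + g b := by
  have h2 : ∀ z : ZMod 2, z + z = 0 := by decide
  induction b, hab using Int.leInduction with
  | base => rw [h2]; simp
  | succ b hab ih =>
    rw [sum_Ico_succ _ hab, ih]
    have e4 : ∀ p q r : ZMod 2, p + q + (q + r) = p + r := by decide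
    exact e4 _ _ _

/-- a left right crossing excludes a dual bottom top crossing -/
theorem not_both {H V : ℤ → ℤ → Prop} {x0 x1 y0 y1 : ℤ} (hx : x0 < x1) (hy : y0 ≤ y1)
    (h1 : LRC H V x0 x1 y0 y1) (h2 : BTC (dualH V) (dualV H) x0 (x1 - 1) (y0 - 1) y1) : False := by
  obtain ⟨j, j', hj1, hj2, hj1', hj2', hP⟩ := h1
  obtain ⟨i, i', hi1, hi2, hi1', hi2', hD⟩ := h2
  obtain ⟨dH, dV, sH, sV, bd⟩ := hD.chain
  have two : ∀ z : ZMod 2, z + z = 0 := by decide
  set s : ℤ × ℤ → ZMod 2 := fun p => ∑ t ∈ Finset.Ico x0 p.1, dV t (p.2 - 1) with hs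
  -- boundary in the rows of inner faces
  have bd0 : ∀ t y : ℤ, y0 ≤ y → y + 1 ≤ y1 → dV t y + dV t (y - 1) = dH t y + dH (t - 1) y := by
    intro t y h3 h4
    have := bd t y
    rw [if_neg (by rw [Prod.mk.injEq]; rintro ⟨_, h⟩; omega),
      if_neg (by rw [Prod.mk.injEq]; rintro ⟨_, h⟩; omega)] at this
    have e : ∀ p q r s : ZMod 2, p + q + r + s = 0 + 0 → r + s = p + q := by decide
    exact e _ _ _ _ this
  have hleft : ∀ y, dH (x0 - 1) y = 0 := by
    intro y; by_contra h; have := (sH _ _ h).1; omega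
  have hvert : ∀ x y : ℤ, x0 ≤ x → y0 ≤ y → y + 1 ≤ y1 → s (x, y + 1) + s (x, y) = dH (x - 1) y := by
    intro x y h3 h4 h5
    simp only [hs]
    rw [← Finset.sum_add_distrib]
    have e1 : ∀ t ∈ Finset.Ico x0 x, dV t (y + 1 - 1) + dV t (y - 1) =
        dH (t - 1) y + dH (t + 1 - 1) y := by
      intro t _
      rw [show y + 1 - 1 = y by ring, show t + 1 - 1 = t by ring, bd0 t y h4 h5, add_comm]
    rw [Finset.sum_congr rfl e1, sum_telescope (fun t => dH (t - 1) y) h3, hleft, zero_add]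
  have hconst : ∀ u w, RStep H V x0 x1 y0 y1 u w → s u = s w := by
    intro u w huw
    cases huw with
    | hor x y h1 h2 h3 h4 h =>
      have : dV x (y - 1) = 0 := by
        by_contra h0
        have := (sV _ _ h0).2.2.2.2
        unfold dualV at this
        rw [show y - 1 + 1 = y by ring] at this
        exact this h
      simp only [hs]
      rw [sum_Ico_succ _ h1, this, add_zero]
    | ver x y h1 h2 h3 h4 h =>
      have h0 : dH (x - 1) y = 0 := by
        by_contra h0
        have := (sH _ _ h0).2.2.2.2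
        unfold dualH at this
        rw [show x - 1 + 1 = x by ring] at this
        exact this h
      have h5 := hvert x y h1 h3 h4
      rw [h0] at h5
      have e : ∀ p q : ZMod 2, p + q = 0 → q = p := by decide
      exact e _ _ h5
  have hsx0 : s (x0, j) = 0 := by simp [hs]
  have hbase : s (x1, y0) = 1 := by
    simp only [hs]
    have e1 : ∀ t ∈ Finset.Ico x0 x1, dV t (y0 - 1) =
        (if i = t then 1 else 0) + (dH (t - 1) (y0 - 1) + dH (t + 1 - 1) (y0 - 1)) := by
      intro t _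
      have h3 := bd t (y0 - 1)
      have h4 : dV t (y0 - 1 - 1) = 0 := by
        by_contra h; have := (sV _ _ h).2.2.1; omega
      have h5 : ¬ ((i', y1) = (t, y0 - 1)) := by
        rw [Prod.mk.injEq]; rintro ⟨_, h⟩; omega
      have h6 : ((i, y0 - 1) = (t, y0 - 1)) ↔ i = t := by
        rw [Prod.mk.injEq]; exact ⟨fun h => h.1, fun h => ⟨h, rfl⟩⟩
      rw [h4, if_neg h5] at h3
      simp only [h6] at h3
      rw [show t + 1 - 1 = t by ring]
      have e : ∀ p q r z : ZMod 2, p + q + r + 0 = z + 0 → r = z + (q + p) := by decide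
      exact e _ _ _ _ h3
    rw [Finset.sum_congr rfl e1, Finset.sum_add_distrib,
      sum_telescope (fun t => dH (t - 1) (y0 - 1)) hx.le, hleft]
    have h7 : dH (x1 - 1) (y0 - 1) = 0 := by
      by_contra h; have := (sH _ _ h).2.1; omega
    rw [h7, Finset.sum_ite_eq, if_pos (Finset.mem_Ico.2 ⟨hi1, by omega⟩)]
    rfl
  have hcol : ∀ y : ℤ, y0 ≤ y → y ≤ y1 → s (x1, y) = 1 := by
    intro y h3
    induction y, h3 using Int.leInduction with
    | base => intro _; exact hbase
    | succ y h3 ih =>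
      intro h4
      have h5 := hvert x1 y hx.le h3 h4
      have h7 : dH (x1 - 1) y = 0 := by
        by_contra h; have := (sH _ _ h).2.1; omega
      rw [h7, ih (by omega)] at h5
      have e : ∀ p : ZMod 2, p + 1 = 0 → p = 1 := by decide
      exact e _ h5
  have := RJoined.const s hconst hP
  rw [hsx0, hcol j' hj1' hj2'] at this
  exact absurd this (by decide)

/-- a left right crossing or a dual bottom top crossing exists -/
theorem one_of_both {H V : ℤ → ℤ → Prop} {x0 x1 y0 y1 : ℤ} (hx : x0 < x1) (hy : y0 ≤ y1)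
    (h1 : ¬ LRC H V x0 x1 y0 y1) :
    BTC (dualH V) (dualV H) x0 (x1 - 1) (y0 - 1) y1 := by
  classical
  by_contra h2
  have two : ∀ z : ZMod 2, z + z = 0 := by decide
  set A : ℤ → ℤ → ZMod 2 := fun x y =>
    if ∃ j, y0 ≤ j ∧ j ≤ y1 ∧ RJoined H V x0 x1 y0 y1 (x0, j) (x, y) then 1 else 0 with hA
  set C : ℤ → ℤ → ZMod 2 := fun x y =>
    if ∃ i, x0 ≤ i ∧ i ≤ x1 - 1 ∧ RJoined (dualH V) (dualV H) x0 (x1 - 1) (y0 - 1) y1
      (i, y0 - 1) (x, y) then 1 else 0 with hC
  have hAleft : ∀ y, y0 ≤ y → y ≤ y1 → A x0 y = 1 := by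
    intro y h3 h4
    rw [hA]; simp only
    rw [if_pos ⟨y, h3, h4, Relation.EqvGen.refl _⟩]
  have hAright : ∀ y, y0 ≤ y → y ≤ y1 → A x1 y = 0 := by
    intro y h3 h4
    rw [hA]; simp only
    rw [if_neg]
    rintro ⟨j, h5, h6, h7⟩
    exact h1 ⟨j, y, h5, h6, h3, h4, h7⟩
  have hCbot : ∀ x, x0 ≤ x → x ≤ x1 - 1 → C x (y0 - 1) = 1 := by
    intro x h3 h4
    rw [hC]; simp only
    rw [if_pos ⟨x, h3, h4, Relation.EqvGen.refl _⟩]
  have hCtop : ∀ x, x0 ≤ x → x ≤ x1 - 1 → C x y1 = 0 := by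
    intro x h3 h4
    rw [hC]; simp only
    rw [if_neg]
    rintro ⟨i, h5, h6, h7⟩
    exact h2 ⟨i, x, h5, h6, h3, h4, h7⟩
  have hAcongr : ∀ u w, RStep H V x0 x1 y0 y1 u w → A u.1 u.2 = A w.1 w.2 := by
    intro u w huw
    rw [hA]; simp only
    refine if_congr ?_ rfl rfl
    constructor
    · rintro ⟨j, h5, h6, h7⟩
      exact ⟨j, h5, h6, Relation.EqvGen.trans _ _ _ h7 (Relation.EqvGen.rel _ _ huw)⟩
    · rintro ⟨j, h5, h6, h7⟩
      exact ⟨j, h5, h6, Relation.EqvGen.trans _ _ _ h7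
        (Relation.EqvGen.symm _ _ (Relation.EqvGen.rel _ _ huw))⟩
  have hCcongr : ∀ u w, RStep (dualH V) (dualV H) x0 (x1 - 1) (y0 - 1) y1 u w →
      C u.1 u.2 = C w.1 w.2 := by
    intro u w huw
    rw [hC]; simp only
    refine if_congr ?_ rfl rfl
    constructor
    · rintro ⟨j, h5, h6, h7⟩
      exact ⟨j, h5, h6, Relation.EqvGen.trans _ _ _ h7 (Relation.EqvGen.rel _ _ huw)⟩
    · rintro ⟨j, h5, h6, h7⟩
      exact ⟨j, h5, h6, Relation.EqvGen.trans _ _ _ h7
        (Relation.EqvGen.symm _ _ (Relation.EqvGen.rel _ _ huw))⟩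
  -- horizontal primal edges
  have hhor : ∀ x y, x0 ≤ x → x + 1 ≤ x1 → y0 ≤ y → y ≤ y1 →
      (A x y + A (x + 1) y) * C x (y - 1) = (A x y + A (x + 1) y) * C x y := by
    intro x y h3 h4 h5 h6
    by_cases hop : H x y
    · have := hAcongr _ _ (RStep.hor (V := V) x y h3 h4 h5 h6 hop)
      simp only at this
      rw [this, two, zero_mul, zero_mul]
    · have hd : dualV H x (y - 1) := by
        unfold dualV; rw [show y - 1 + 1 = y by ring]; exact hop
      have := hCcongr _ _ (RStep.ver (H := dualH V) x (y - 1) h3 (by omega) (by omega)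
        (by omega) hd)
      simp only at this
      rw [this, show y - 1 + 1 = y by ring]
  -- vertical primal edges
  have hver : ∀ x y, x0 < x → x < x1 → y0 ≤ y → y + 1 ≤ y1 →
      (A x y + A x (y + 1)) * C (x - 1) y = (A x y + A x (y + 1)) * C x y := by
    intro x y h3 h4 h5 h6
    by_cases hop : V x y
    · have := hAcongr _ _ (RStep.ver (H := H) x y h3.le h4.le h5 h6 hop)
      simp only at this
      rw [this, two, zero_mul, zero_mul]
    · have hd : dualH V (x - 1) y := by
        unfold dualH; rw [show x - 1 + 1 = x by ring]; exact hop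
      have := hCcongr _ _ (RStep.hor (V := dualV H) (x - 1) y (by omega) (by omega) (by omega)
        (by omega) hd)
      simp only at this
      rw [this, show x - 1 + 1 = x by ring]
  -- the row sums
  have hrow : ∀ y, y0 ≤ y → y ≤ y1 →
      ∑ x ∈ Finset.Ico x0 x1, (A x y + A (x + 1) y) * C x y = 1 := by
    intro y h3
    induction y, h3 using Int.leInduction with
    | base =>
      intro _
      have e1 : ∀ x ∈ Finset.Ico x0 x1, (A x y0 + A (x + 1) y0) * C x y0 =
          A x y0 + A (x + 1) y0 := by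
        intro x hx'
        rw [Finset.mem_Ico] at hx'
        rw [← hhor x y0 hx'.1 (by omega) le_rfl hy, hCbot x hx'.1 (by omega), mul_one]
      rw [Finset.sum_congr rfl e1, sum_telescope (fun x => A x y0) hx.le, hAleft y0 le_rfl hy,
        hAright y0 le_rfl hy, add_zero]
    | succ y h3 ih =>
      intro h4
      have ih' := ih (by omega)
      set g : ℤ → ZMod 2 := fun x => (A x y + A x (y + 1)) * C (x - 1) y with hg
      have hg0 : g x0 = 0 := by
        rw [hg]; simp only
        rw [hAleft y h3 (by omega), hAleft (y + 1) (by omega) h4, two, zero_mul]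
      have hg1 : g x1 = 0 := by
        rw [hg]; simp only
        rw [hAright y h3 (by omega), hAright (y + 1) (by omega) h4, two, zero_mul]
      have e1 : ∀ x ∈ Finset.Ico x0 x1, (A x (y + 1) + A (x + 1) (y + 1)) * C x (y + 1) =
          (A x y + A (x + 1) y) * C x y + (g x + g (x + 1)) := by
        intro x hx'
        rw [Finset.mem_Ico] at hx'
        have e2 : (A x (y + 1) + A (x + 1) (y + 1)) * C x (y + 1) =
            (A x (y + 1) + A (x + 1) (y + 1)) * C x y := by
          have := hhor x (y + 1) hx'.1 (by omega) (by omega) h4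
          rw [show y + 1 - 1 = y by ring] at this
          exact this.symm
        have e3 : g x = (A x y + A x (y + 1)) * C x y := by
          rcases eq_or_lt_of_le hx'.1 with h5 | h5
          · rw [← h5, hg0, hAleft y h3 (by omega), hAleft (y + 1) (by omega) h4, two, zero_mul]
          · exact hver x y h5 hx'.2 h3 h4
        have e4 : g (x + 1) = (A (x + 1) y + A (x + 1) (y + 1)) * C x y := by
          rw [hg]; simp only
          rw [show x + 1 - 1 = x by ring]
        rw [e2, e3, e4]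
        have e5 : ∀ p q r s z : ZMod 2, (q + s) * z = (p + r) * z + ((p + q) * z + (r + s) * z) := by
          decide
        exact e5 _ _ _ _ _
      rw [Finset.sum_congr rfl e1, Finset.sum_add_distrib, ih', sum_telescope g hx.le, hg0, hg1]
      rfl
  have h9 := hrow y1 hy le_rfl
  rw [Finset.sum_eq_zero (fun x hx' => by
    rw [Finset.mem_Ico] at hx'
    rw [hCtop x hx'.1 (by omega), mul_zero])] at h9
  exact absurd h9 (by decide)

/-- planar duality for rectangle crossings -/
theorem rect_duality {H V : ℤ → ℤ → Prop} {x0 x1 y0 y1 : ℤ} (hx : x0 < x1) (hy : y0 ≤ y1) :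
    ¬ LRC H V x0 x1 y0 y1 ↔ BTC (dualH V) (dualV H) x0 (x1 - 1) (y0 - 1) y1 :=
  ⟨one_of_both hx hy, fun h2 h1 => not_both hx hy h1 h2⟩

end UST
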