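import Mathlib
import Pool.Agent.UST.Defs
import Pool.Agent.UST.RD

/-!
Project UST, module RDB: deterministic rectangle duality in the conventions of `Defs`.
-/

namespace Pool.Agent.UST

open Finset

/-- the relation used in `ConnIn` for the lattice and a box -/
theorem connIn_bx_iff (T : Finset E2) (x0 x1 y0 y1 : ℤ) (H V : ℤ → ℤ → Prop)
    (hH : ∀ x y, (x, y) ∈ bx x0 x1 y0 y1 → (x + 1, y) ∈ bx x0 x1 y0 y1 →
      ((x, y, false) ∈ T ↔ H x y))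
    (hV : ∀ x y, (x, y) ∈ bx x0 x1 y0 y1 → (x, y + 1) ∈ bx x0 x1 y0 y1 →
      ((x, y, true) ∈ T ↔ V x y)) (u v : V2) :
    L2.ConnIn T (bx x0 x1 y0 y1 : Set V2) u v ↔ _root_.UST.RJoined H V x0 x1 y0 y1 u v := by
  constructor
  · intro h
    induction h with
    | refl => exact Relation.EqvGen.refl _
    | @tail b c _ hs ih =>
      obtain ⟨⟨⟨x, y, d⟩, he, h1⟩, hb, hc⟩ := hs
      refine Relation.EqvGen.trans _ _ _ ih ?_
      have hb' := Finset.mem_coe.1 hb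
      have hc' := Finset.mem_coe.1 hc
      cases d
      · rw [L2_src, L2_tgt_false] at h1
        rcases h1 with ⟨rfl, rfl⟩ | ⟨rfl, rfl⟩
        · have m1 := mem_bx.1 hb'
          have m2 := mem_bx.1 hc'
          exact Relation.EqvGen.rel _ _ (_root_.UST.RStep.hor x y m1.1 m2.2.1 m1.2.2.1 m1.2.2.2
            ((hH x y hb' hc').1 he))
        · have m1 := mem_bx.1 hb'
          have m2 := mem_bx.1 hc'
          exact Relation.EqvGen.symm _ _ (Relation.EqvGen.rel _ _ (_root_.UST.RStep.hor x y m2.1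
            m1.2.1 m1.2.2.1 m1.2.2.2 ((hH x y hc' hb').1 he)))
      · rw [L2_src, L2_tgt_true] at h1
        rcases h1 with ⟨rfl, rfl⟩ | ⟨rfl, rfl⟩
        · have m1 := mem_bx.1 hb'
          have m2 := mem_bx.1 hc'
          exact Relation.EqvGen.rel _ _ (_root_.UST.RStep.ver x y m1.1 m1.2.1 m1.2.2.1 m2.2.2.2
            ((hV x y hb' hc').1 he))
        · have m1 := mem_bx.1 hb'
          have m2 := mem_bx.1 hc'
          exact Relation.EqvGen.symm _ _ (Relation.EqvGen.rel _ _ (_root_.UST.RStep.ver x y m2.1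
            m2.2.1 m2.2.2.1 m1.2.2.2 ((hV x y hc' hb').1 he)))
  · intro h
    induction h with
    | rel a b hab =>
      cases hab with
      | hor x y h1 h2 h3 h4 h =>
        have m1 : (x, y) ∈ bx x0 x1 y0 y1 := mem_bx.2 ⟨h1, by simp only; omega, h3, h4⟩
        have m2 : (x + 1, y) ∈ bx x0 x1 y0 y1 := mem_bx.2 ⟨by simp only; omega, h2, h3, h4⟩
        exact Relation.ReflTransGen.single ⟨⟨(x, y, false), (hH x y m1 m2).2 h,
          Or.inl ⟨rfl, rfl⟩⟩, Finset.mem_coe.2 m1, Finset.mem_coe.2 m2⟩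
      | ver x y h1 h2 h3 h4 h =>
        have m1 : (x, y) ∈ bx x0 x1 y0 y1 := mem_bx.2 ⟨h1, h2, h3, by simp only; omega⟩
        have m2 : (x, y + 1) ∈ bx x0 x1 y0 y1 := mem_bx.2 ⟨h1, h2, by simp only; omega, h4⟩
        exact Relation.ReflTransGen.single ⟨⟨(x, y, true), (hV x y m1 m2).2 h,
          Or.inl ⟨rfl, rfl⟩⟩, Finset.mem_coe.2 m1, Finset.mem_coe.2 m2⟩
    | refl a => exact Relation.ReflTransGen.refl
    | symm a b _ ih => exact ih.symm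
    | trans a b c _ _ ih1 ih2 => exact ih1.trans ih2

theorem hcr_iff (T : Finset E2) {x0 x1 y0 y1 : ℤ} (hx : x0 ≤ x1) (H V : ℤ → ℤ → Prop)
    (hH : ∀ x y, (x, y) ∈ bx x0 x1 y0 y1 → (x + 1, y) ∈ bx x0 x1 y0 y1 →
      ((x, y, false) ∈ T ↔ H x y))
    (hV : ∀ x y, (x, y) ∈ bx x0 x1 y0 y1 → (x, y + 1) ∈ bx x0 x1 y0 y1 →
      ((x, y, true) ∈ T ↔ V x y)) :
    HCr T x0 x1 y0 y1 ↔ _root_.UST.LRC H V x0 x1 y0 y1 := by
  constructor
  · rintro ⟨⟨a, b⟩, hu, ⟨c, d⟩, hv, h1, h2, h⟩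
    simp only at h1 h2
    subst h1; subst h2
    have m1 := mem_bx.1 hu
    have m2 := mem_bx.1 hv
    exact ⟨b, d, m1.2.2.1, m1.2.2.2, m2.2.2.1, m2.2.2.2,
      (connIn_bx_iff T _ _ _ _ H V hH hV _ _).1 h⟩
  · rintro ⟨j, j', h1, h2, h3, h4, h⟩
    exact ⟨(x0, j), mem_bx.2 ⟨le_rfl, hx, h1, h2⟩, (x1, j'), mem_bx.2 ⟨hx, le_rfl, h3, h4⟩, rfl,
      rfl, (connIn_bx_iff T _ _ _ _ H V hH hV _ _).2 h⟩

theorem vcr_iff (T : Finset E2) {x0 x1 y0 y1 : ℤ} (hy : y0 ≤ y1) (H V : ℤ → ℤ → Prop)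
    (hH : ∀ x y, (x, y) ∈ bx x0 x1 y0 y1 → (x + 1, y) ∈ bx x0 x1 y0 y1 →
      ((x, y, false) ∈ T ↔ H x y))
    (hV : ∀ x y, (x, y) ∈ bx x0 x1 y0 y1 → (x, y + 1) ∈ bx x0 x1 y0 y1 →
      ((x, y, true) ∈ T ↔ V x y)) :
    VCr T x0 x1 y0 y1 ↔ _root_.UST.BTC H V x0 x1 y0 y1 := by
  constructor
  · rintro ⟨⟨a, b⟩, hu, ⟨c, d⟩, hv, h1, h2, h⟩
    simp only at h1 h2
    subst h1; subst h2
    have m1 := mem_bx.1 hu
    have m2 := mem_bx.1 hv
    exact ⟨a, c, m1.1, m1.2.1, m2.1, m2.2.1, (connIn_bx_iff T _ _ _ _ H V hH hV _ _).1 h⟩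
  · rintro ⟨i, i', h1, h2, h3, h4, h⟩
    exact ⟨(i, y0), mem_bx.2 ⟨h1, h2, le_rfl, hy⟩, (i', y1), mem_bx.2 ⟨h3, h4, hy, le_rfl⟩, rfl,
      rfl, (connIn_bx_iff T _ _ _ _ H V hH hV _ _).2 h⟩

/-- planar duality: the complement of a dual configuration crosses the rectangle from left to right
exactly if the dual configuration does not cross the dual rectangle from bottom to top -/
theorem hcr_cmp_iff (T' : Finset E2) {x0 x1 y0 y1 : ℤ} (hx : x0 < x1) (hy : y0 ≤ y1) :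
    HCr (cmp (bx x0 x1 y0 y1) T') x0 x1 y0 y1 ↔ ¬ VCr T' x0 (x1 - 1) (y0 - 1) y1 := by
  set H : ℤ → ℤ → Prop := fun x y => (x, y - 1, true) ∉ T' with hH
  set V : ℤ → ℤ → Prop := fun x y => (x - 1, y, false) ∉ T' with hV
  rw [hcr_iff (cmp (bx x0 x1 y0 y1) T') hx.le H V, vcr_iff T' (by omega)
    (_root_.UST.dualH V) (_root_.UST.dualV H), ← _root_.UST.rect_duality hx hy, not_not]
  · intro x y _ _
    unfold _root_.UST.dualH
    rw [hV]; simp only [not_not, add_sub_cancel_right]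
  · intro x y _ _
    unfold _root_.UST.dualV
    rw [hH]; simp only [not_not, add_sub_cancel_right]
  · intro x y h1 h2
    rw [mem_cmp, mem_eIn, L2_src, L2_tgt_false, dl_false]
    exact ⟨fun h => h.2, fun h => ⟨⟨h1, h2⟩, h⟩⟩
  · intro x y h1 h2
    rw [mem_cmp, mem_eIn, L2_src, L2_tgt_true, dl_true]
    exact ⟨fun h => h.2, fun h => ⟨⟨h1, h2⟩, h⟩⟩

end Pool.Agent.UST
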