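import Pool.Agent.UST.ORD
import Pool.Agent.UST.FIB
import Pool.Agent.UST.DOM
import Pool.Agent.UST.LAT
import Pool.Agent.UST.RDB

set_option autoImplicit false

/-!
The exploration from below, common part.

`AV x0 x1 y0 y1 j D T` : `j` disjoint crossing sets of `T` in the rectangle which are not near the faces of `D`.
`explored_even`: the faces of `expl T' W Q ∪ Q`, `Q` = row `y0 - 1`, `W` one of `bx x0 (x1-1) y0 (y1-1)` and
`W2 x0 x1 y0 y1`, have even `sg P` for every crossing chain `P ⊆ cmp R T'`: along the `T'`-path to `Q` inside `W ∪ Q` use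
`sg_step` (`e ∈ P ⊆ cmp R T'` gives `dl e ∉ T'`), in `Q` use `sg_low`.
`drop_one`: from `AJ (j+1)` at most one of the sets is near a face of `D` (`disjoint_order` for two different sets: if
`i` and `i'` were both near, contradiction), remove it (or any) from `Fin (j+1)`: `Fin j → Fin (j+1)` by
`Fin.succAbove`.
`av_anti`: fewer dual edges, more primal edges: `AV` is monotone in `T` and `cmp R` is antitone.
-/

namespace Pool.Agent.UST

/-- `j` disjoint crossing sets not near the faces of `D` -/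
def AV (x0 x1 y0 y1 : ℤ) (j : ℕ) (D : Set V2) (T : Finset E2) : Prop :=
  ∃ X : Fin j → Finset V2, (∀ i, X i ⊆ bx x0 x1 y0 y1) ∧ (∀ i i', i ≠ i' → Disjoint (X i) (X i')) ∧
    (∀ i, CSet T (X i) x0 x1) ∧ ∀ i, ∀ v ∈ X i, ∀ f ∈ D, ¬ Near f v

theorem AV_inc (x0 x1 y0 y1 : ℤ) (j : ℕ) (D : Set V2) : Inc (AV x0 x1 y0 y1 j D) := by
  rintro T T' hTT ⟨X, h1, h2, h3, h4⟩
  refine ⟨X, h1, h2, fun i => ?_, h4⟩
  obtain ⟨a, b, c⟩ := h3 i
  exact ⟨a, b, fun u hu v hv => (c u hu v hv).mono hTT subset_rfl⟩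

private theorem near_of_touch {e : E2} {f : V2} (h : L2.Touch (dl e) f) : Near f (L2.src e) := by
  obtain ⟨x, y, b⟩ := e
  obtain ⟨f1, f2⟩ := f
  cases b
  · rw [dl_false] at h
    rw [L2_src]
    rcases h with h | h
    · rw [L2_src, Prod.mk.injEq] at h
      exact ⟨Or.inl h.1.symm, Or.inr h.2.symm⟩
    · rw [L2_tgt_true, Prod.mk.injEq, sub_add_cancel] at h
      exact ⟨Or.inl h.1.symm, Or.inl h.2.symm⟩
  · rw [dl_true] at h
    rw [L2_src]
    rcases h with h | h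
    · rw [L2_src, Prod.mk.injEq] at h
      exact ⟨Or.inr h.1.symm, Or.inl h.2.symm⟩
    · rw [L2_tgt_false, Prod.mk.injEq, sub_add_cancel] at h
      exact ⟨Or.inl h.1.symm, Or.inl h.2.symm⟩

private theorem src_mem {e : E2} {X : Set V2} {u v : V2}
    (h : (L2.src e = u ∧ L2.tgt e = v) ∨ (L2.src e = v ∧ L2.tgt e = u)) (hu : u ∈ X)
    (hv : v ∈ X) : L2.src e ∈ X ∧ L2.tgt e ∈ X := by
  rcases h with ⟨h1, h2⟩ | ⟨h1, h2⟩
  · rw [h1, h2]; exact ⟨hu, hv⟩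
  · rw [h1, h2]; exact ⟨hv, hu⟩

private theorem connIn_change {T T' : Finset E2} {X : Set V2}
    (h : ∀ e ∈ T, L2.src e ∈ X → L2.tgt e ∈ X → e ∈ T') {u v : V2} (hc : L2.ConnIn T X u v) :
    L2.ConnIn T' X u v := by
  refine Relation.ReflTransGen.mono ?_ _ _ hc
  rintro a b ⟨⟨e, he, hab⟩, ha, hb⟩
  have h2 := src_mem hab ha hb
  exact ⟨⟨e, h e he h2.1 h2.2, hab⟩, ha, hb⟩

theorem cmp_anti {X : Finset V2} {T T' : Finset E2} (h : T ⊆ T') : cmp X T' ⊆ cmp X T := by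
  intro e he
  rw [mem_cmp] at he ⊢
  exact ⟨he.1, fun h' => he.2 (h h')⟩

theorem explored_even {x0 x1 y0 y1 : ℤ} (hx : x0 < x1) {W : Finset V2}
    (hW : ∀ v ∈ W, x0 ≤ v.1 ∧ v.1 ≤ x1 - 1) {T' : Finset E2} {f : V2}
    (hf : f ∈ ((L2.expl T' W (rowQ x0 x1 (y0 - 1)) : Set V2) ∪ rowQ x0 x1 (y0 - 1)))
    {P : Finset E2} (hP : CrChain (cmp (bx x0 x1 y0 y1) T') x0 x1 y0 y1 P) :
    sg P f % 2 = 0 := by
  classical
  have hQ : ∀ g ∈ rowQ x0 x1 (y0 - 1), sg P g % 2 = 0 := by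
    intro g hg
    have h2 : g.2 = y0 - 1 := hg.2.2
    rw [sg_low hP (by omega)]
  have hd : ∀ e ∈ P, dl e ∉ T' := fun e he => (mem_cmp.1 (hP.1 he)).2
  rcases hf with hf | hf
  · have hf' : f ∈ L2.expl T' W (rowQ x0 x1 (y0 - 1)) := hf
    unfold MG.expl at hf'
    rw [Finset.mem_filter] at hf'
    obtain ⟨hfW, q, hq, hc⟩ := hf'
    have hcol : ∀ g : V2, g ∈ ((W : Set V2) ∪ rowQ x0 x1 (y0 - 1)) → x0 ≤ g.1 ∧ g.1 ≤ x1 - 1 := by
      intro g hg
      rcases hg with hg | hg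
      · exact hW g hg
      · exact ⟨hg.1, hg.2.1⟩
    have key : sg P f % 2 = sg P q % 2 := by
      clear hf hfW
      induction hc using Relation.ReflTransGen.head_induction_on with
      | refl => rfl
      | head hs _ ih =>
        obtain ⟨h1, h2, h3⟩ := hs
        rw [sg_step hP hd h1 (hcol _ h2).1 (hcol _ h2).2 (hcol _ h3).1 (hcol _ h3).2]
        exact ih
    rw [key]
    exact hQ q hq
  · exact hQ f hf

theorem drop_one {T : Finset E2} {x0 x1 y0 y1 : ℤ} (hx : x0 < x1) {j : ℕ}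
    (h : AJ T x0 x1 y0 y1 (j + 1)) {D : Set V2} (hDc : ∀ f ∈ D, x0 ≤ f.1 ∧ f.1 ≤ x1 - 1)
    (hD : ∀ f ∈ D, ∀ P, CrChain T x0 x1 y0 y1 P → sg P f % 2 = 0) :
    AV x0 x1 y0 y1 j D T := by
  obtain ⟨X, h1, h2, h3⟩ := h
  by_cases hn : ∃ i0, ¬ ∀ f ∈ D, ∀ v ∈ X i0, ¬ Near f v
  · obtain ⟨i0, hi0⟩ := hn
    refine ⟨fun i => X (i0.succAbove i), fun i => h1 _,
      fun i i' hii => h2 _ _ fun h => hii (Fin.succAbove_right_injective h), fun i => h3 _,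
      fun i v hv f hf => ?_⟩
    have hne : i0 ≠ i0.succAbove i := (Fin.succAbove_ne i0 i).symm
    rcases disjoint_order hx (h1 i0) (h1 _) (h2 _ _ hne) (h3 i0) (h3 _) hDc hD with h | h
    · exact absurd h hi0
    · exact h f hf v hv
  · push Not at hn
    exact ⟨fun i => X ((0 : Fin (j + 1)).succAbove i), fun i => h1 _,
      fun i i' hii => h2 _ _ fun h => hii (Fin.succAbove_right_injective h), fun i => h3 _,
      fun i v hv f hf => hn _ f hf v hv⟩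

/-- the dual edges at crossing sets which avoid `D` lie in any edge set `R'` that contains all dual
edges of the rectangle not touching `D`: passing to `T' ∩ R'` does not change `AV` -/
theorem AV_rest {x0 x1 y0 y1 : ℤ} (hx : x0 < x1) {j : ℕ} {D : Set V2} {R' T' : Finset E2}
    (hR : ∀ e ∈ eIn (bx x0 x1 y0 y1), (∀ f ∈ D, ¬ L2.Touch (dl e) f) → dl e ∈ R')
    (h : AV x0 x1 y0 y1 j D (cmp (bx x0 x1 y0 y1) (T' ∩ R'))) :
    AV x0 x1 y0 y1 j D (cmp (bx x0 x1 y0 y1) T') := by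
  obtain ⟨X, h1, h2, h3, h4⟩ := h
  refine ⟨X, h1, h2, fun i => ?_, h4⟩
  obtain ⟨a, b, c⟩ := h3 i
  refine ⟨a, b, fun u hu v hv => connIn_change (fun e he hs _ => ?_) (c u hu v hv)⟩
  rw [mem_cmp] at he ⊢
  refine ⟨he.1, fun hdl => he.2 (Finset.mem_inter.2 ⟨hdl, hR e he.1 fun f hf ht => ?_⟩)⟩
  exact h4 i _ (Finset.mem_coe.1 hs) f hf (near_of_touch ht)

theorem AV_AJ {T : Finset E2} {x0 x1 y0 y1 : ℤ} {j : ℕ} {D : Set V2}
    (h : AV x0 x1 y0 y1 j D T) : AJ T x0 x1 y0 y1 j := by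
  obtain ⟨X, h1, h2, h3, _⟩ := h
  exact ⟨X, h1, h2, h3⟩

/-- crossing sets not near the row `y0 - 1` of faces lie above the row `y0` of vertices -/
theorem AV_up {T' : Finset E2} {x0 x1 y0 y1 : ℤ} (hx : x0 < x1) {j : ℕ} {D : Set V2}
    (hD : rowQ x0 x1 (y0 - 1) ⊆ D) (h : AV x0 x1 y0 y1 j D (cmp (bx x0 x1 y0 y1) T')) :
    AJ (cmp (bx x0 x1 (y0 + 1) y1) T') x0 x1 (y0 + 1) y1 j := by
  obtain ⟨X, h1, h2, h3, h4⟩ := h
  have hup : ∀ i, X i ⊆ bx x0 x1 (y0 + 1) y1 := by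
    intro i v hv
    have hb := mem_bx.1 (h1 i hv)
    rw [mem_bx]
    refine ⟨hb.1, hb.2.1, ?_, hb.2.2.2⟩
    by_contra hlt
    have hv2 : v.2 = y0 := by omega
    by_cases hv1 : v.1 ≤ x1 - 1
    · exact h4 i v hv (v.1, y0 - 1) (hD ⟨hb.1, hv1, rfl⟩) ⟨Or.inl rfl, Or.inr (by rw [hv2])⟩
    · have hv1' : v.1 = x1 := by omega
      refine h4 i v hv (x1 - 1, y0 - 1) (hD ⟨?_, le_rfl, rfl⟩)
        ⟨Or.inr (by rw [hv1']), Or.inr (by rw [hv2])⟩
      change x0 ≤ x1 - 1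
      omega
  refine ⟨X, hup, h2, fun i => ?_⟩
  obtain ⟨a, b, c⟩ := h3 i
  refine ⟨a, b, fun u hu v hv => connIn_change (fun e he hs ht => ?_) (c u hu v hv)⟩
  rw [mem_cmp] at he ⊢
  rw [mem_eIn]
  exact ⟨⟨hup i (Finset.mem_coe.1 hs), hup i (Finset.mem_coe.1 ht)⟩, he.2⟩

end Pool.Agent.UST
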