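import Pool.Agent.UST.LAT

set_option autoImplicit false

/-!
Shifted rectangles: disjoint crossings from the event: crossed, but the longer rectangle is not crossed.

Proof of `shift_count`. For `i ∈ J` there is a crossing of `[-ik, a-ik] × [0,b]`; by `conn_cross` (or its proof) choose
`u_i` in the column `0` such that `u_i` is connected inside `R' = [0, a-m] × [0,b]` to the column `a - m`, and `u_i` is
connected inside `[-ik, a-ik] × [0,b]` to the column `-ik` and to the column `a - ik` (a sub-walk of the crossing); `X_i :=`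
vertices of `R'` connected to `u_i` inside `R'`; a crossing set. If `i < i'` and `w ∈ X_i ∩ X_{i'}`: the column `-i'k` is
connected to `u_{i'}` in `[-i'k, a-i'k]`, to `w`, to `u_i`, to the column `a - ik` in `[-ik, a-ik]`: altogether inside
`[-i'k, a-ik]`; as `a - ik ≥ a - i'k + k` `conn_cross` gives a crossing of `[-i'k, a-i'k+k]`, contradiction.
(`i k ≤ m` for `i < q`.) `shift_prob`: for the free box of radius `K`: `∑_{i<q} (pr H_i - pr H'_i) = E #J(T)`,
`J(T) = {i < q : H_i ∧ ¬ H'_i}` (`H'_i → H_i` by `HCr_sub`), `E #J = ∑_{j=1}^{q} P(#J ≥ j) ≤ ∑_{j<q} P(AJ (j+1))`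
(`AJ` is antitone in `j`).
-/

namespace Pool.Agent.UST

private theorem shf_step {T : Finset E2} {u v : V2} (h : L2.Step T u v) :
    u.1 ≤ v.1 + 1 ∧ v.1 ≤ u.1 + 1 := by
  obtain ⟨⟨x, y, b⟩, -, h1⟩ := h
  cases b
  · rw [L2_src, L2_tgt_false] at h1
    rcases h1 with ⟨rfl, rfl⟩ | ⟨rfl, rfl⟩ <;> constructor <;> simp <;> omega
  · rw [L2_src, L2_tgt_true] at h1
    rcases h1 with ⟨rfl, rfl⟩ | ⟨rfl, rfl⟩ <;> constructor <;> simp

/-- a walk in the strip contains a crossing whose first vertex is on the walk -/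
private theorem shf_cross {T : Finset E2} {X0 X1 x0 x1 y0 y1 : ℤ} {u v : V2} (hx : x0 ≤ x1)
    (hu : u ∈ bx X0 X1 y0 y1) (hu1 : u.1 ≤ x0) (hv1 : x1 ≤ v.1)
    (h : L2.ConnIn T (bx X0 X1 y0 y1 : Set V2) u v) :
    ∃ u' ∈ bx x0 x1 y0 y1, ∃ v' ∈ bx x0 x1 y0 y1, u'.1 = x0 ∧ v'.1 = x1 ∧
      L2.ConnIn T (bx x0 x1 y0 y1 : Set V2) u' v' ∧
      L2.ConnIn T (bx X0 X1 y0 y1 : Set V2) u' v := by
  have key : ∀ w, w ∈ bx X0 X1 y0 y1 → L2.ConnIn T (bx X0 X1 y0 y1 : Set V2) w v →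
      (∃ u' ∈ bx x0 x1 y0 y1, ∃ v' ∈ bx x0 x1 y0 y1, u'.1 = x0 ∧ v'.1 = x1 ∧
        L2.ConnIn T (bx x0 x1 y0 y1 : Set V2) u' v' ∧
        L2.ConnIn T (bx X0 X1 y0 y1 : Set V2) u' v) ∨ x1 ≤ w.1 ∨
      (w ∈ bx x0 x1 y0 y1 ∧ ∃ v' ∈ bx x0 x1 y0 y1, v'.1 = x1 ∧
        L2.ConnIn T (bx x0 x1 y0 y1 : Set V2) w v') := by
    intro w hw hc
    induction hc using Relation.ReflTransGen.head_induction_on with
    | refl => exact Or.inr (Or.inl hv1)
    | @head x y hs hyv ih =>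
      obtain ⟨hs1, hxm, hym⟩ := hs
      have hstep := shf_step hs1
      have mx := mem_bx.1 hw
      have my := mem_bx.1 (Finset.mem_coe.1 hym)
      rcases ih hym with h1 | h1 | ⟨h1, v', hv', hv'1, h2⟩
      · exact Or.inl h1
      · by_cases h3 : x1 ≤ x.1
        · exact Or.inr (Or.inl h3)
        · have hyb : y ∈ bx x0 x1 y0 y1 := mem_bx.2 (by omega)
          by_cases h4 : x0 ≤ x.1
          · have hxb : x ∈ bx x0 x1 y0 y1 := mem_bx.2 (by omega)
            exact Or.inr (Or.inr ⟨hxb, y, hyb, by omega,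
              Relation.ReflTransGen.single ⟨hs1, hxb, hyb⟩⟩)
          · exact Or.inl ⟨y, hyb, y, hyb, by omega, by omega, Relation.ReflTransGen.refl, hyv⟩
      · have my' := mem_bx.1 h1
        by_cases h3 : x1 ≤ x.1
        · exact Or.inr (Or.inl h3)
        · by_cases h4 : x0 ≤ x.1
          · have hxb : x ∈ bx x0 x1 y0 y1 := mem_bx.2 (by omega)
            exact Or.inr (Or.inr ⟨hxb, v', hv', hv'1,
              Relation.ReflTransGen.head ⟨hs1, hxb, h1⟩ h2⟩)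
          · exact Or.inl ⟨y, h1, v', hv', by omega, hv'1, h2, hyv⟩
  have mu := mem_bx.1 hu
  rcases key u hu h with h1 | h1 | ⟨h1, v', hv', hv'1, h2⟩
  · exact h1
  · have hub : u ∈ bx x0 x1 y0 y1 := mem_bx.2 (by omega)
    exact ⟨u, hub, u, hub, by omega, by omega, Relation.ReflTransGen.refl, h⟩
  · have mu' := mem_bx.1 h1
    exact ⟨u, h1, v', hv', by omega, hv'1, h2, h⟩

open Classical in
/-- the cluster of `u` in the box -/
private noncomputable def shfX (T : Finset E2) (R : Finset V2) (u : V2) : Finset V2 :=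
  R.filter fun w => L2.ConnIn T (R : Set V2) u w

private theorem mem_shfX {T : Finset E2} {R : Finset V2} {u w : V2} :
    w ∈ shfX T R u ↔ w ∈ R ∧ L2.ConnIn T (R : Set V2) u w := by
  classical
  unfold shfX
  rw [Finset.mem_filter]

private theorem shfX_conn {T : Finset E2} {R : Finset V2} {u w : V2}
    (h : L2.ConnIn T (R : Set V2) u w) : L2.ConnIn T (shfX T R u : Set V2) u w := by
  induction h with
  | refl => exact Relation.ReflTransGen.refl
  | tail h1 hs ih =>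
    refine ih.tail ⟨hs.1, ?_, ?_⟩
    · exact Finset.mem_coe.2 (mem_shfX.2 ⟨hs.2.1, h1⟩)
    · exact Finset.mem_coe.2 (mem_shfX.2 ⟨hs.2.2, h1.tail hs⟩)

private theorem shfX_cset {T : Finset E2} {x0 x1 y0 y1 : ℤ} {u v : V2}
    (hu : u ∈ bx x0 x1 y0 y1) (hv : v ∈ bx x0 x1 y0 y1) (hu1 : u.1 = x0) (hv1 : v.1 = x1)
    (h : L2.ConnIn T (bx x0 x1 y0 y1 : Set V2) u v) :
    CSet T (shfX T (bx x0 x1 y0 y1) u) x0 x1 := by
  refine ⟨⟨u, mem_shfX.2 ⟨hu, Relation.ReflTransGen.refl⟩, hu1⟩, ⟨v, mem_shfX.2 ⟨hv, h⟩, hv1⟩, ?_⟩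
  intro a ha b hb
  exact (shfX_conn (mem_shfX.1 ha).2).symm.trans (shfX_conn (mem_shfX.1 hb).2)

theorem shift_count {T : Finset E2} {a b m k q : ℕ} (hm : m ≤ a) (hq : ∀ i < q, i * k ≤ m)
    (J : Finset ℕ) (hJ : ∀ i ∈ J, i < q ∧ HCr T (-(i * k : ℤ)) (a - i * k) 0 b ∧
      ¬ HCr T (-(i * k : ℤ)) (a - i * k + k) 0 b) :
    AJ T 0 ((a : ℤ) - m) 0 b J.card := by
  classical
  have hmz : (m : ℤ) ≤ a := by exact_mod_cast hm
  have hqz : ∀ i ∈ J, (i * k : ℤ) ≤ m := fun i hi => by exact_mod_cast hq i (hJ i hi).1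
  have hk0 : (0 : ℤ) ≤ k := by positivity
  have hik0 : ∀ i : ℕ, (0 : ℤ) ≤ i * k := fun i => by positivity
  have hch : ∀ i ∈ J, ∃ u, u ∈ bx 0 ((a : ℤ) - m) 0 b ∧
      CSet T (shfX T (bx 0 ((a : ℤ) - m) 0 b) u) 0 ((a : ℤ) - m) ∧
      (∃ p ∈ bx (-(i * k : ℤ)) (a - i * k) 0 b, p.1 = -(i * k : ℤ) ∧
        L2.ConnIn T (bx (-(i * k : ℤ)) (a - i * k) 0 b : Set V2) p u) ∧
      (∃ p, p.1 = (a : ℤ) - i * k ∧
        L2.ConnIn T (bx (-(i * k : ℤ)) (a - i * k) 0 b : Set V2) u p) := by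
    intro i hi
    have h1 := hqz i hi
    have h2 := hik0 i
    obtain ⟨u, hu, v, hv, hu1, hv1, huv⟩ := (hJ i hi).2.1
    obtain ⟨u', hu', v', hv', hu'1, hv'1, hc, hc'⟩ :=
      shf_cross (x0 := 0) (x1 := (a : ℤ) - m) (by omega) hu (by omega) (by omega) huv
    exact ⟨u', hu', shfX_cset hu' hv' hu'1 hv'1 hc, ⟨u, hu, hu1, huv.trans hc'.symm⟩,
      ⟨v, hv1, hc'⟩⟩
  choose! U hU1 hU2 hU3 hU4 using hch
  have hdis : ∀ i ∈ J, ∀ i' ∈ J, i < i' →
      Disjoint (shfX T (bx 0 ((a : ℤ) - m) 0 b) (U i)) (shfX T (bx 0 ((a : ℤ) - m) 0 b) (U i')) := by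
    intro i hi i' hi' hlt
    rw [Finset.disjoint_left]
    intro w hw hw'
    have c1 := (mem_shfX.1 hw).2
    have c2 := (mem_shfX.1 hw').2
    obtain ⟨p, hp, hp1, hp2⟩ := hU3 i' hi'
    obtain ⟨r, hr1, hr2⟩ := hU4 i hi
    have h1 := hqz i hi
    have h2 := hik0 i
    have h3 := hqz i' hi'
    have h4 : (i * k : ℤ) + k ≤ i' * k := by
      have : (i : ℤ) + 1 ≤ i' := by exact_mod_cast hlt
      nlinarith
    have sub1 : (bx (-(i' * k : ℤ)) (a - i' * k) 0 b : Set V2) ⊆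
        (bx (-(i' * k : ℤ)) (a - i * k) 0 b : Set V2) := by
      intro z hz
      have := mem_bx.1 (Finset.mem_coe.1 hz)
      exact Finset.mem_coe.2 (mem_bx.2 (by omega))
    have sub2 : (bx 0 ((a : ℤ) - m) 0 b : Set V2) ⊆
        (bx (-(i' * k : ℤ)) (a - i * k) 0 b : Set V2) := by
      intro z hz
      have := mem_bx.1 (Finset.mem_coe.1 hz)
      exact Finset.mem_coe.2 (mem_bx.2 (by omega))
    have sub3 : (bx (-(i * k : ℤ)) (a - i * k) 0 b : Set V2) ⊆
        (bx (-(i' * k : ℤ)) (a - i * k) 0 b : Set V2) := by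
      intro z hz
      have := mem_bx.1 (Finset.mem_coe.1 hz)
      exact Finset.mem_coe.2 (mem_bx.2 (by omega))
    have hall : L2.ConnIn T (bx (-(i' * k : ℤ)) (a - i * k) 0 b : Set V2) p r :=
      (((hp2.mono (Finset.Subset.refl _) sub1).trans (c2.mono (Finset.Subset.refl _) sub2)).trans
        (c1.symm.mono (Finset.Subset.refl _) sub2)).trans (hr2.mono (Finset.Subset.refl _) sub3)
    refine (hJ i' hi').2.2 (conn_cross (by omega) (Finset.mem_coe.1 (sub1 (Finset.mem_coe.2 hp)))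
      (by omega) (by omega) hall)
  refine ⟨fun j => shfX T (bx 0 ((a : ℤ) - m) 0 b) (U (J.orderEmbOfFin rfl j)), ?_, ?_, ?_⟩
  · intro j w hw
    exact (mem_shfX.1 hw).1
  · intro j j' hne
    have m1 := J.orderEmbOfFin_mem rfl j
    have m2 := J.orderEmbOfFin_mem rfl j'
    rcases lt_or_gt_of_ne hne with h | h
    · exact hdis _ m1 _ m2 ((J.orderEmbOfFin rfl).strictMono h)
    · exact (hdis _ m2 _ m1 ((J.orderEmbOfFin rfl).strictMono h)).symm
  · intro j
    exact hU2 _ (J.orderEmbOfFin_mem rfl j)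

private theorem shf_anti {T : Finset E2} {x0 x1 y0 y1 : ℤ} {n n' : ℕ} (h : n' ≤ n)
    (hA : AJ T x0 x1 y0 y1 n) : AJ T x0 x1 y0 y1 n' := by
  obtain ⟨X, h1, h2, h3⟩ := hA
  refine ⟨fun i => X (Fin.castLE h i), fun i => h1 _, fun i i' hne => h2 _ _ ?_, fun i => h3 _⟩
  intro h4
  exact hne (Fin.castLE_injective h h4)

open Classical in
private theorem shf_frP (K : ℕ) (A : Finset E2 → Prop) :
    frP K A = (∑ T ∈ L2.Bases (eIn (Bk K)) ((Bk K).erase (-(K : ℤ), -(K : ℤ))),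
      if A T then (1 : ℝ) else 0) /
      ((L2.Bases (eIn (Bk K)) ((Bk K).erase (-(K : ℤ), -(K : ℤ)))).card : ℝ) := by
  unfold frP MG.pr MG.cnt
  rw [Finset.card_filter]
  push_cast
  congr

theorem shift_prob {a b m k q : ℕ} (hm : m ≤ a) (hq : ∀ i < q, i * k ≤ m) (K : ℕ) :
    ∑ i ∈ Finset.range q, (frP K (fun T => HCr T (-(i * k : ℤ)) (a - i * k) 0 b)
        - frP K (fun T => HCr T (-(i * k : ℤ)) (a - i * k + k) 0 b))
      ≤ ∑ j ∈ Finset.range q, frP K (fun T => AJ T 0 ((a : ℤ) - m) 0 b (j + 1)) := by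
  classical
  simp only [shf_frP, ← sub_div, ← Finset.sum_div]
  refine div_le_div_of_nonneg_right ?_ (by positivity)
  simp only [← Finset.sum_sub_distrib]
  rw [Finset.sum_comm, Finset.sum_comm (s := Finset.range q)]
  refine Finset.sum_le_sum fun T _ => ?_
  set J : Finset ℕ := (Finset.range q).filter (fun i => HCr T (-(i * k : ℤ)) (a - i * k) 0 b ∧
      ¬ HCr T (-(i * k : ℤ)) (a - i * k + k) 0 b) with hJ
  have h1 : ∑ i ∈ Finset.range q, ((if HCr T (-(i * k : ℤ)) (a - i * k) 0 b then (1 : ℝ) else 0)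
      - if HCr T (-(i * k : ℤ)) (a - i * k + k) 0 b then (1 : ℝ) else 0) ≤ (J.card : ℝ) := by
    rw [hJ, Finset.card_filter]
    push_cast
    refine Finset.sum_le_sum fun i _ => ?_
    by_cases h2 : HCr T (-(i * k : ℤ)) (a - i * k) 0 b <;>
      by_cases h3 : HCr T (-(i * k : ℤ)) (a - i * k + k) 0 b <;> simp [h2, h3]
  refine h1.trans ?_
  have hAJ : AJ T 0 ((a : ℤ) - m) 0 b J.card := by
    refine shift_count hm hq J fun i hi => ?_
    rw [hJ, Finset.mem_filter, Finset.mem_range] at hi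
    exact hi
  have hJq : J.card ≤ q := by
    have := Finset.card_filter_le (Finset.range q) (fun i => HCr T (-(i * k : ℤ)) (a - i * k) 0 b ∧
      ¬ HCr T (-(i * k : ℤ)) (a - i * k + k) 0 b)
    rw [Finset.card_range] at this
    exact this
  calc (J.card : ℝ) = ∑ j ∈ Finset.range J.card, (1 : ℝ) := by simp
    _ = ∑ j ∈ Finset.range J.card, if AJ T 0 ((a : ℤ) - m) 0 b (j + 1) then (1 : ℝ) else 0 := by
        refine Finset.sum_congr rfl fun j hj => ?_
        rw [if_pos (shf_anti (Finset.mem_range.1 hj) hAJ)]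
    _ ≤ _ := by
        refine Finset.sum_le_sum_of_subset_of_nonneg
          (Finset.range_subset_range.2 hJq) fun j _ _ => ?_
        split_ifs
        · exact zero_le_one
        · exact le_refl _

end Pool.Agent.UST
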