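import Pool.Agent.UST.TGT
import Pool.Agent.UST.SHF
import Pool.Agent.UST.SYP

set_option autoImplicit false

/-!
The crossing probabilities are Lipschitz on the macroscopic scale.

Proof. `m = ⌊a/2⌋`, `q = ⌊m/k⌋ + 1` (`k ≥ 1`). `shift_prob`, limit `K → ∞` (`fr_tendsto`), `pinf_H`:
`q (C a b - C (a+k) b) ≤ ∑_{j<q} Pinf (AJ 0 (a-m) 0 b (j+1)) ≤ ∑_j ρ^j ≤ 1/δ`, `δ = (1/2) exp (-π (b+1)/(a-m+1))`
(`aj_tail`), `a - m + 1 ≥ (a+1)/2`, so `1/δ ≤ 2 exp (2π (b+1)/(a+1))`; `1/q ≤ k/m ≤ 3k/a` for `a ≥ 2`, and for `a = 1`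
`1/q ≤ 1 ≤ k/a`.
-/

namespace Pool.Agent.UST

open Filter Topology

theorem C_anti {a b k : ℕ} : C (a + k) b ≤ C a b :=
  pinf_mono (HCr_inc 0 ((a + k : ℕ) : ℤ) 0 b) (HCr_loc 0 ((a + k : ℕ) : ℤ) 0 b) (HCr_inc 0 a 0 b)
    (HCr_loc 0 a 0 b) fun _ hT => HCr_sub le_rfl (by positivity) (by push_cast; omega) hT

private theorem lip_sum {a b m k q : ℕ} (hm : m ≤ a) (hq : ∀ i < q, i * k ≤ m) :
    (q : ℝ) * (C a b - C (a + k) b) ≤
      ∑ j ∈ Finset.range q, Pinf (fun T => AJ T 0 ((a : ℤ) - m) 0 b (j + 1)) := by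
  have h1 : ∀ i : ℕ, Tendsto (fun K => frP K (fun T => HCr T (-(i * k : ℤ)) (a - i * k) 0 b)) atTop
      (𝓝 (C a b)) := by
    intro i
    have h2 := pinf_H (-(i * k : ℤ)) 0 a b
    rw [← h2]
    have h3 := fr_tendsto (HCr_inc (-(i * k : ℤ)) (-(i * k : ℤ) + a) 0 (0 + b))
      (HCr_loc (-(i * k : ℤ)) (-(i * k : ℤ) + a) 0 (0 + b))
    have e1 : (-(i * k : ℤ) + a) = (a - i * k : ℤ) := by ring
    rw [e1, zero_add] at h3 ⊢
    exact h3
  have h1' : ∀ i : ℕ, Tendsto (fun K => frP K (fun T => HCr T (-(i * k : ℤ)) (a - i * k + k) 0 b))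
      atTop (𝓝 (C (a + k) b)) := by
    intro i
    have h2 := pinf_H (-(i * k : ℤ)) 0 (a + k) b
    rw [← h2]
    have h3 := fr_tendsto (HCr_inc (-(i * k : ℤ)) (-(i * k : ℤ) + ((a + k : ℕ) : ℤ)) 0 (0 + b))
      (HCr_loc (-(i * k : ℤ)) (-(i * k : ℤ) + ((a + k : ℕ) : ℤ)) 0 (0 + b))
    have e1 : (-(i * k : ℤ) + ((a + k : ℕ) : ℤ)) = (a - i * k + k : ℤ) := by push_cast; ring
    rw [e1, zero_add] at h3 ⊢
    exact h3
  have h4 : Tendsto (fun K => ∑ i ∈ Finset.range q,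
      (frP K (fun T => HCr T (-(i * k : ℤ)) (a - i * k) 0 b)
        - frP K (fun T => HCr T (-(i * k : ℤ)) (a - i * k + k) 0 b))) atTop
      (𝓝 (∑ _i ∈ Finset.range q, (C a b - C (a + k) b))) :=
    tendsto_finsetSum _ fun i _ => (h1 i).sub (h1' i)
  have h5 : Tendsto (fun K => ∑ j ∈ Finset.range q,
      frP K (fun T => AJ T 0 ((a : ℤ) - m) 0 b (j + 1))) atTop
      (𝓝 (∑ j ∈ Finset.range q, Pinf (fun T => AJ T 0 ((a : ℤ) - m) 0 b (j + 1)))) :=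
    tendsto_finsetSum _ fun j _ => fr_tendsto (AJ_inc 0 ((a : ℤ) - m) 0 b (j + 1))
      (AJ_loc 0 ((a : ℤ) - m) 0 b (j + 1))
  have h6 := le_of_tendsto_of_tendsto' h4 h5 fun K => shift_prob hm hq K
  rwa [Finset.sum_const, Finset.card_range, nsmul_eq_mul] at h6

theorem C_lip {a b k : ℕ} (ha : 1 ≤ a) (hb : 1 ≤ b) :
    C a b - C (a + k) b ≤ 6 * (k / a) * Real.exp (2 * Real.pi * (b + 1) / (a + 1)) := by
  rcases Nat.eq_zero_or_pos k with rfl | hk
  · simp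
  set m := a / 2 with hm
  set q := m / k + 1 with hq
  have hma : m ≤ a := Nat.div_le_self _ _
  have hqk : ∀ i < q, i * k ≤ m := by
    intro i hi
    have h1 : i ≤ m / k := by omega
    exact (Nat.le_div_iff_mul_le hk).1 h1
  have h1 := lip_sum (b := b) hma hqk
  have ham : 1 ≤ a - m := by omega
  have hcast : ((a : ℤ) - m) = ((a - m : ℕ) : ℤ) := by omega
  set δ : ℝ := 1 / 2 * Real.exp (-(Real.pi * (b + 1) / (((a - m : ℕ) : ℝ) + 1))) with hδ
  have hδ0 : 0 < δ := by positivity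
  have hδ1 : δ ≤ 1 := by
    have h2 : Real.exp (-(Real.pi * (b + 1) / (((a - m : ℕ) : ℝ) + 1))) ≤ 1 := by
      rw [Real.exp_le_one_iff]
      have : 0 ≤ Real.pi * (b + 1) / (((a - m : ℕ) : ℝ) + 1) := by positivity
      linarith
    rw [hδ]; linarith
  have h2 : ∑ j ∈ Finset.range q, Pinf (fun T => AJ T 0 ((a : ℤ) - m) 0 b (j + 1)) ≤
      ∑ j ∈ Finset.range q, (1 - δ) ^ j := by
    refine Finset.sum_le_sum fun j _ => ?_
    rw [hcast]
    exact aj_tail ham hb j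
  have h3 : (∑ j ∈ Finset.range q, (1 - δ) ^ j) * δ ≤ 1 := by
    have h4 := geom_sum_mul_neg (1 - δ) q
    have h5 : 0 ≤ (1 - δ) ^ q := pow_nonneg (by linarith) _
    rw [sub_sub_cancel] at h4
    rw [h4]; linarith
  have h4 : (q : ℝ) * (C a b - C (a + k) b) * δ ≤ 1 :=
    le_trans (mul_le_mul_of_nonneg_right (h1.trans h2) hδ0.le) h3
  have hq0 : (0 : ℝ) < q := by rw [hq]; positivity
  have hk0 : (0 : ℝ) < k := by exact_mod_cast hk
  have ha0 : (0 : ℝ) < a := by exact_mod_cast ha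
  -- the number of shifts
  have hqm : m + 1 ≤ q * k := by
    have h5 := Nat.lt_div_mul_add (a := m) hk
    rw [hq, add_mul, one_mul]
    omega
  have h6 : (a : ℝ) ≤ 2 * (q * k) := by
    have : a ≤ 2 * (q * k) := by omega
    exact_mod_cast this
  have h7 : (1 : ℝ) / q ≤ 2 * (k / a) := by
    rw [div_le_iff₀ hq0]
    have e : 2 * ((k : ℝ) / a) * q = 2 * (q * k) / a := by ring
    rw [e, le_div_iff₀ ha0]
    linarith
  -- the exponent
  have h8 : 1 / δ ≤ 2 * Real.exp (2 * Real.pi * (b + 1) / (a + 1)) := by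
    have e : 1 / δ = 2 * Real.exp (Real.pi * (b + 1) / (((a - m : ℕ) : ℝ) + 1)) := by
      rw [hδ, Real.exp_neg]
      field_simp
    rw [e]
    refine mul_le_mul_of_nonneg_left (Real.exp_le_exp.2 ?_) (by norm_num)
    have h9 : ((a : ℝ) + 1) / 2 ≤ ((a - m : ℕ) : ℝ) + 1 := by
      have : a + 1 ≤ 2 * ((a - m) + 1) := by omega
      have h10 : ((a : ℝ) + 1) ≤ 2 * (((a - m : ℕ) : ℝ) + 1) := by exact_mod_cast this
      linarith
    have e2 : 2 * Real.pi * (b + 1) / ((a : ℝ) + 1) = Real.pi * (b + 1) / (((a : ℝ) + 1) / 2) := by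
      field_simp
    rw [e2]
    exact div_le_div_of_nonneg_left (by positivity) (by positivity) h9
  have h9 : C a b - C (a + k) b ≤ 1 / q * (1 / δ) := by
    rw [div_mul_div_comm, one_mul, le_div_iff₀ (by positivity)]
    calc (C a b - C (a + k) b) * ((q : ℝ) * δ) = (q : ℝ) * (C a b - C (a + k) b) * δ := by ring
      _ ≤ 1 := h4
  calc C a b - C (a + k) b ≤ 1 / q * (1 / δ) := h9
    _ ≤ 2 * (k / a) * (2 * Real.exp (2 * Real.pi * (b + 1) / (a + 1))) :=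
      mul_le_mul h7 h8 (by positivity) (by positivity)
    _ ≤ 6 * (k / a) * Real.exp (2 * Real.pi * (b + 1) / (a + 1)) := by
      have : 0 ≤ (k : ℝ) / a * Real.exp (2 * Real.pi * (b + 1) / (a + 1)) := by positivity
      nlinarith

end Pool.Agent.UST
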