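import Pool.Agent.UST.LIM
import Pool.Agent.UST.SYP

set_option autoImplicit false

/-!
Submultiplicativity.

Proof. `na_pr_loc` (RAY) for the box of radius `k` and the crossings of `[0,a] × [0,b]` and `[a+1, a+1+a'] × [0,b]` (disjoint
edge sets), `HCr_sub`, limits, `pinf_H`.
-/

namespace Pool.Agent.UST

open Filter Topology

theorem C_nonneg' (a b : ℕ) : 0 ≤ C a b := pinf_nonneg (HCr_inc 0 a 0 b) (HCr_loc 0 a 0 b)

theorem C_submul (a a' b : ℕ) : C (a + a' + 1) b ≤ C a b * C a' b := by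
  have h1 := pinf_H ((a : ℤ) + 1) 0 a' b
  rw [← h1]
  unfold C
  have hA := fr_tendsto (HCr_inc 0 a 0 b) (HCr_loc 0 a 0 b)
  have hB := fr_tendsto (HCr_inc ((a : ℤ) + 1) ((a : ℤ) + 1 + a') 0 (0 + b))
    (HCr_loc ((a : ℤ) + 1) ((a : ℤ) + 1 + a') 0 (0 + b))
  have hC := fr_tendsto (HCr_inc 0 ((a + a' + 1 : ℕ) : ℤ) 0 b) (HCr_loc 0 ((a + a' + 1 : ℕ) : ℤ) 0 b)
  refine le_of_tendsto_of_tendsto' hC (hA.mul hB) fun k => ?_
  have hd : Disjoint (eIn (bx 0 a 0 b)) (eIn (bx ((a : ℤ) + 1) ((a : ℤ) + 1 + a') 0 (0 + b))) := by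
    rw [Finset.disjoint_left]
    intro e he he'
    have h2 := (mem_bx.1 (mem_eIn.1 he).1).2.1
    have h3 := (mem_bx.1 (mem_eIn.1 he').1).1
    omega
  refine le_trans (MG.pr_mono_event fun T _ hT => ?_)
    (na_pr_loc (G := L2) (eIn (Bk k)) ((Bk k).erase (-(k : ℤ), -(k : ℤ))) hd
      (HCr_inc 0 a 0 b) (HCr_inc ((a : ℤ) + 1) ((a : ℤ) + 1 + a') 0 (0 + b))
      (HCr_loc 0 a 0 b) (HCr_loc ((a : ℤ) + 1) ((a : ℤ) + 1 + a') 0 (0 + b)))
  refine ⟨HCr_sub le_rfl (by positivity) (by push_cast; omega) hT, ?_⟩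
  rw [zero_add]
  exact HCr_sub (by positivity) (by omega) (by push_cast; omega) hT

/-- `q` disjoint rectangles of width `w` -/
theorem C_pow (q w b : ℕ) : C (q * (w + 1) + w) b ≤ C w b ^ (q + 1) := by
  induction q with
  | zero => simp
  | succ q ih =>
    have e : (q + 1) * (w + 1) + w = (q * (w + 1) + w) + w + 1 := by ring
    rw [e, pow_succ]
    exact (C_submul _ w b).trans (mul_le_mul_of_nonneg_right ih (C_nonneg' w b))

theorem C_mono_height {a b b' : ℕ} (h : b ≤ b') : C a b ≤ C a b' :=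
  pinf_mono (HCr_inc 0 a 0 b) (HCr_loc 0 a 0 b) (HCr_inc 0 a 0 b') (HCr_loc 0 a 0 b')
    fun _ hT => HCr_tall le_rfl (by exact_mod_cast h) hT

theorem C_zero (b : ℕ) : C 0 b = 1 := by
  have h : ∀ T : Finset E2, HCr T 0 ((0 : ℕ) : ℤ) 0 b := by
    intro T
    have hm : ((0, 0) : V2) ∈ bx 0 ((0 : ℕ) : ℤ) 0 b :=
      mem_bx.2 ⟨le_rfl, by simp, le_rfl, by positivity⟩
    exact ⟨(0, 0), hm, (0, 0), hm, rfl, by simp, Relation.ReflTransGen.refl⟩
  have h1 : ∀ k : ℕ, frP k (fun T => HCr T 0 ((0 : ℕ) : ℤ) 0 b) = 1 := by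
    intro k
    have h2 := (bases_free_nonempty (corner_mem k)).card_pos
    have h3 : L2.cnt (eIn (Bk k)) ((Bk k).erase (-(k : ℤ), -(k : ℤ)))
        (fun T => HCr T 0 ((0 : ℕ) : ℤ) 0 b) =
        (L2.Bases (eIn (Bk k)) ((Bk k).erase (-(k : ℤ), -(k : ℤ)))).card := by
      classical
      unfold MG.cnt
      congr 1
      exact Finset.filter_true_of_mem fun T _ => h T
    unfold frP MG.pr
    rw [h3]
    refine div_self ?_
    exact_mod_cast h2.ne'
  unfold C Pinf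
  simp only [h1]
  exact limsup_const 1

end Pool.Agent.UST
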