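import Pool.Agent.UST.SU2
import Pool.Agent.UST.LIM
import Pool.Agent.UST.SYP

set_option autoImplicit false

/-!
Lower bound for all rectangles.

Proof. `a = 0`: `C 0 b = 1`. `a ≥ 1`: `hit_wired` with `x0 = 0`, `x1 = b + 1`, `y0 = 0`, `y1 = a - 1` (height `a` between the
rows `-1` and `a - 1`), `wired_le_pinf` for `VCr 0 b (-1) (a-1)`, `pinf_V`.
-/

namespace Pool.Agent.UST

theorem RSL_zero (b : ℕ) : C 0 b = 1 := by
  classical
  have ht := fr_tendsto (HCr_inc 0 ((0 : ℕ) : ℤ) 0 b) (HCr_loc 0 ((0 : ℕ) : ℤ) 0 b)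
  have h1 : ∀ T : Finset E2, HCr T 0 ((0 : ℕ) : ℤ) 0 b := by
    intro T
    refine ⟨(0, 0), ?_, (0, 0), ?_, rfl, rfl, Relation.ReflTransGen.refl⟩
    · rw [mem_bx]
      simp
    · rw [mem_bx]
      simp
  have h2 : ∀ k : ℕ, frP k (fun T => HCr T 0 ((0 : ℕ) : ℤ) 0 b) = 1 := by
    intro k
    unfold frP
    have hne : (L2.Bases (eIn (Bk k)) ((Bk k).erase (-(k : ℤ), -(k : ℤ)))).Nonempty := by
      apply bases_free_nonempty
      rw [mem_bx]
      refine ⟨le_refl _, by simp, le_refl _, by simp⟩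
    unfold MG.pr MG.cnt
    rw [Finset.filter_true_of_mem fun T _ => h1 T]
    have := hne.card_pos
    exact div_self (by positivity)
  have h3 : Filter.Tendsto (fun k : ℕ => frP k (fun T => HCr T 0 ((0 : ℕ) : ℤ) 0 b))
      Filter.atTop (nhds 1) := by
    simp only [h2]
    exact tendsto_const_nhds
  exact tendsto_nhds_unique ht h3

theorem C_lower (a b : ℕ) : 1 / 2 * Real.exp (-(Real.pi * a / (b + 2))) ≤ C a b := by
  rcases Nat.eq_zero_or_pos a with rfl | ha
  · rw [RSL_zero]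
    simp
    norm_num
  · have h1 := hit_wired (x0 := 0) (x1 := b + 1) (y0 := 0) (y1 := a - 1) (by omega) (by omega)
    have h2 := wired_le_pinf (A := fun T' => VCr T' 0 ((b : ℤ) + 1 - 1) (0 - 1) ((a : ℤ) - 1))
      (VCr_inc _ _ _ _) (VCr_loc _ _ _ _)
      (bx 0 ((b : ℤ) + 1 - 1) (0 - 1 - ((b : ℤ) + 1 - 0)) ((a : ℤ) - 1 - 1))
    have h3 := h1.trans h2
    have h4 := pinf_V 0 (-1) b a
    have e1 : (0 : ℤ) + b = b + 1 - 1 := by ring
    have e2 : (-1 : ℤ) + a = a - 1 := by ring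
    have e3 : (-1 : ℤ) = 0 - 1 := by ring
    rw [e2, e1, e3] at h4
    rw [h4] at h3
    refine le_trans (le_of_eq ?_) h3
    congr 3
    push_cast
    congr 1
    · ring
    · ring

end Pool.Agent.UST
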