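import Pool.Agent.UST.IDN
import Pool.Agent.UST.LIP
import Pool.Agent.UST.NAB
import Pool.Agent.UST.RSL

set_option autoImplicit false

/-!
The statements on `p_n(c) = C n ⌊c n⌋`, first part.

Proofs. `P_lower`: `C_lower`, `⌊cn⌋ + 2 ≥ cn`. `P_mono`: `C_mono_height`. `P_lip`: `n = (n-1) + 1`, `C_dual`:
`C n b = 1 - C (b+1) (n-1)`, so `C n b' - C n b = C (b+1) (n-1) - C (b'+1) (n-1) ≤ 6 ((b'-b)/(b+1)) exp (2π n/(b+2))` with
`b = ⌊cn⌋`, `b' = ⌊c'n⌋`, `b' - b ≤ (c'-c) n + 1`, `b + 1 ≥ cn`. `P_one`: `C (n+1) n = 1/2` and `C_anti`, `C_lip` with `k = 1`.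
-/

namespace Pool.Agent.UST

/-- the crossing probability of the problem -/
noncomputable def P (n : ℕ) (c : ℝ) : ℝ := C n ⌊c * n⌋₊

theorem P_lower {n : ℕ} {c : ℝ} (hn : 1 ≤ n) (hc : 0 < c) :
    1 / 2 * Real.exp (-(Real.pi / c)) ≤ P n c := by
  refine le_trans ?_ (C_lower n ⌊c * n⌋₊)
  have hn' : (1 : ℝ) ≤ n := by exact_mod_cast hn
  have h1 : c * n < ⌊c * n⌋₊ + 1 := Nat.lt_floor_add_one _
  have h2 : Real.pi * n / (⌊c * n⌋₊ + 2) ≤ Real.pi / c := by
    rw [div_le_div_iff₀ (by positivity) hc]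
    have := Real.pi_pos
    nlinarith
  gcongr

theorem P_mono {n : ℕ} {c c' : ℝ} (h : c ≤ c') : P n c ≤ P n c' := by
  apply C_mono_height
  apply Nat.floor_mono
  gcongr

theorem C_lip_height_aux {a b k : ℕ} (ha : 2 ≤ a) :
    C a (b + k) - C a b ≤ 6 * (k / (b + 1)) * Real.exp (2 * Real.pi * a / (b + 2)) := by
  obtain ⟨m, rfl⟩ : ∃ m, a = m + 1 := ⟨a - 1, by omega⟩
  have h1 := C_dual m b
  have h2 := C_dual m (b + k)
  have h3 := C_lip (a := b + 1) (b := m) (k := k) (by omega) (by omega)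
  rw [show b + 1 + k = b + k + 1 by ring] at h3
  have h4 : ((b + 1 : ℕ) : ℝ) + 1 = b + 2 := by push_cast; ring
  rw [h4] at h3
  push_cast at h3 ⊢
  linarith

theorem P_lip {n : ℕ} {c c' : ℝ} (hn : 2 ≤ n) (hc : 0 < c) (h : c ≤ c') :
    P n c' - P n c ≤ 6 / c * Real.exp (2 * Real.pi / c) * (c' - c + 1 / n) := by
  unfold P
  set b := ⌊c * n⌋₊ with hb
  set b' := ⌊c' * n⌋₊ with hb'
  have hn0 : (0 : ℝ) < n := by
    have : 0 < n := by omega
    exact_mod_cast this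
  have hbb : b ≤ b' := by
    apply Nat.floor_mono
    gcongr
  obtain ⟨k, hk⟩ : ∃ k, b' = b + k := ⟨b' - b, by omega⟩
  have hb1 : c * n < b + 1 := Nat.lt_floor_add_one _
  have hb2 : (b' : ℝ) ≤ c' * n := Nat.floor_le (by have : 0 < c' := by linarith
                                                   positivity)
  have hkr : (k : ℝ) ≤ (c' - c) * n + 1 := by
    have : (b' : ℝ) = b + k := by rw [hk]; push_cast; ring
    linarith
  have h1 := C_lip_height_aux (a := n) (b := b) (k := k) hn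
  rw [← hk] at h1
  refine h1.trans ?_
  have h2 : (k : ℝ) / (b + 1) ≤ 1 / c * (c' - c + 1 / n) := by
    have h3 : (k : ℝ) / (b + 1) ≤ ((c' - c) * n + 1) / (c * n) := by
      have h5 : 0 ≤ c' - c := by linarith
      gcongr
    refine h3.trans (le_of_eq ?_)
    field_simp
  have h4 : 2 * Real.pi * n / (b + 2) ≤ 2 * Real.pi / c := by
    rw [div_le_div_iff₀ (by positivity) hc]
    have := Real.pi_pos
    nlinarith
  calc 6 * ((k : ℝ) / (b + 1)) * Real.exp (2 * Real.pi * n / (b + 2))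
      ≤ 6 * (1 / c * (c' - c + 1 / n)) * Real.exp (2 * Real.pi / c) := by
        have h6 : 0 ≤ (k : ℝ) / (b + 1) := by positivity
        gcongr
    _ = _ := by ring

theorem P_one {n : ℕ} (hn : 1 ≤ n) :
    1 / 2 ≤ P n 1 ∧ P n 1 ≤ 1 / 2 + 6 * Real.exp (2 * Real.pi) / n := by
  have h0 : P n 1 = C n n := by
    unfold P
    rw [one_mul, Nat.floor_natCast]
  rw [h0]
  have h1 := C_dual n n
  have h2 : C (n + 1) n ≤ C n n := C_anti
  have h3 := C_lip (a := n) (b := n) (k := 1) hn hn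
  have hn0 : (0 : ℝ) < n := by
    have : 0 < n := by omega
    exact_mod_cast this
  have h4 : 2 * Real.pi * ((n : ℝ) + 1) / (n + 1) = 2 * Real.pi := by
    field_simp
  rw [h4] at h3
  constructor
  · linarith
  · have h5 : 6 * (((1 : ℕ) : ℝ) / n) * Real.exp (2 * Real.pi) = 6 * Real.exp (2 * Real.pi) / n := by
      push_cast
      ring
    rw [h5] at h3
    linarith

end Pool.Agent.UST
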