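import Pool.Agent.UST.FI1

set_option autoImplicit false

/-!
The reflection law.

Proof. `b = ⌊cn⌋`, `n' = ⌊b/c⌋`, `n - 1/c - 1 ≤ n' ≤ n`; `C n b = 1 - C (b+1) (n-1)`, so the claim is
`C (b+1) (n-1) - C b n' → 0`. Both directions: `C b n' ≥ C (b+1) n' - ...`: the difference is at most a bounded number of unit
steps; widths: `C_anti`, `C_lip`; heights: `C_dual` turns `C w h' - C w h` into `C (h+1) (w-1) - C (h'+1) (w-1)`, again `C_lip`
(`w, h ≥ 2` for `n` large); all bounds are `O(1/n)`.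
-/

namespace Pool.Agent.UST

/-- changing the height -/
theorem C_lip_height {a b k : ℕ} (ha : 2 ≤ a) :
    C a (b + k) - C a b ≤ 6 * (k / (b + 1)) * Real.exp (2 * Real.pi * a / (b + 2)) :=
  C_lip_height_aux ha

theorem P_refl_bound {c : ℝ} (hc : 0 < c) {n b n' : ℕ} (hb : b = ⌊c * n⌋₊)
    (hn' : n' = ⌊1 / c * b⌋₊) (hn1 : 1 ≤ n) (hb2 : 2 ≤ b) :
    |P n c + P b (1 / c) - 1| ≤ 6 * (1 / c + 1) * Real.exp (2 * Real.pi * c) * (1 / ((n' : ℝ) + 1))
      + 6 * Real.exp (2 * Real.pi * (1 / c + 1)) * (1 / (b : ℝ))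
      + 6 * Real.exp (2 * Real.pi * (c + 1)) * (1 / (n : ℝ)) := by
  have hn0 : (0 : ℝ) < n := by
    have : 0 < n := by omega
    exact_mod_cast this
  have hb0 : (0 : ℝ) < b := by
    have : 0 < b := by omega
    exact_mod_cast this
  have hπ := Real.pi_pos
  have e1 : P n c = C n b := by unfold P; rw [← hb]
  have e2 : P b (1 / c) = C b n' := by unfold P; rw [← hn']
  -- real inequalities
  have hb_le : (b : ℝ) ≤ c * n := by rw [hb]; exact Nat.floor_le (by positivity)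
  have hb_lt : c * n < b + 1 := by rw [hb]; exact Nat.lt_floor_add_one _
  have hn'_le : (n' : ℝ) ≤ 1 / c * b := by rw [hn']; exact Nat.floor_le (by positivity)
  have hn'_lt : 1 / c * b < n' + 1 := by rw [hn']; exact Nat.lt_floor_add_one _
  have hbc : (b : ℝ) < c * (n' + 1) := by
    have := mul_lt_mul_of_pos_left hn'_lt hc
    have h2 : c * (1 / c * b) = b := by field_simp
    rwa [h2] at this
  have hn'n : n' ≤ n := by
    have : (n' : ℝ) ≤ n := by
      refine hn'_le.trans ?_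
      rw [div_mul_eq_mul_div, div_le_iff₀ hc]
      linarith
    exact_mod_cast this
  have hdiff : (n : ℝ) - n' ≤ 1 / c + 1 := by
    have h1 : (n : ℝ) < 1 / c * (b + 1) := by
      rw [div_mul_eq_mul_div, lt_div_iff₀ hc]
      linarith
    have h2 : 1 / c * ((b : ℝ) + 1) = 1 / c * b + 1 / c := by ring
    linarith
  obtain ⟨k, hk⟩ : ∃ k, n = n' + k := ⟨n - n', by omega⟩
  have hkr : (k : ℝ) = n - n' := by rw [hk]; push_cast; ring
  -- (i)
  have i1 := C_lip_height (a := b) (b := n') (k := k) hb2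
  rw [← hk] at i1
  have i0 : C b n' ≤ C b n := C_mono_height hn'n
  have i2 : 6 * ((k : ℝ) / (n' + 1)) * Real.exp (2 * Real.pi * b / (n' + 2)) ≤
      6 * (1 / c + 1) * Real.exp (2 * Real.pi * c) * (1 / ((n' : ℝ) + 1)) := by
    have h1 : 2 * Real.pi * b / (n' + 2) ≤ 2 * Real.pi * c := by
      rw [div_le_iff₀ (by positivity)]
      have : (b : ℝ) ≤ c * (n' + 2) := by nlinarith
      nlinarith
    have h2 : (k : ℝ) / (n' + 1) ≤ (1 / c + 1) * (1 / ((n' : ℝ) + 1)) := by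
      rw [div_eq_mul_one_div]
      have : (k : ℝ) ≤ 1 / c + 1 := by rw [hkr]; exact hdiff
      gcongr
    calc 6 * ((k : ℝ) / (n' + 1)) * Real.exp (2 * Real.pi * b / (n' + 2))
        ≤ 6 * ((1 / c + 1) * (1 / ((n' : ℝ) + 1))) * Real.exp (2 * Real.pi * c) := by
          gcongr
      _ = _ := by ring
  -- (ii)
  have ii1 := C_lip (a := b) (b := n) (k := 1) (by omega) hn1
  have ii0 : C (b + 1) n ≤ C b n := C_anti
  have ii2 : 6 * (((1 : ℕ) : ℝ) / b) * Real.exp (2 * Real.pi * (n + 1) / (b + 1)) ≤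
      6 * Real.exp (2 * Real.pi * (1 / c + 1)) * (1 / (b : ℝ)) := by
    have h1 : 2 * Real.pi * (n + 1) / (b + 1) ≤ 2 * Real.pi * (1 / c + 1) := by
      rw [div_le_iff₀ (by positivity)]
      have h2 : (n : ℝ) ≤ 1 / c * (b + 1) := by
        rw [div_mul_eq_mul_div, le_div_iff₀ hc]
        linarith
      have h3 : (n : ℝ) + 1 ≤ (1 / c + 1) * (b + 1) := by nlinarith
      nlinarith
    calc 6 * (((1 : ℕ) : ℝ) / b) * Real.exp (2 * Real.pi * (n + 1) / (b + 1))
        ≤ 6 * (((1 : ℕ) : ℝ) / b) * Real.exp (2 * Real.pi * (1 / c + 1)) := by gcongr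
      _ = _ := by push_cast; ring
  -- (iii)
  obtain ⟨m, hm⟩ : ∃ m, n = m + 1 := ⟨n - 1, by omega⟩
  have iii1 := C_lip_height (a := b + 1) (b := m) (k := 1) (by omega)
  rw [← hm] at iii1
  have iii0 : C (b + 1) m ≤ C (b + 1) n := C_mono_height (by omega)
  have hm1 : (m : ℝ) + 1 = n := by rw [hm]; push_cast; ring
  have hm2 : (m : ℝ) + 2 = n + 1 := by rw [← hm1]; ring
  rw [hm1, hm2] at iii1
  have iii2 : 6 * (((1 : ℕ) : ℝ) / n) * Real.exp (2 * Real.pi * ((b + 1 : ℕ) : ℝ) / (n + 1)) ≤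
      6 * Real.exp (2 * Real.pi * (c + 1)) * (1 / (n : ℝ)) := by
    have h1 : 2 * Real.pi * ((b + 1 : ℕ) : ℝ) / (n + 1) ≤ 2 * Real.pi * (c + 1) := by
      rw [div_le_iff₀ (by positivity)]
      push_cast
      have h3 : (b : ℝ) + 1 ≤ (c + 1) * (n + 1) := by nlinarith
      nlinarith
    calc 6 * (((1 : ℕ) : ℝ) / n) * Real.exp (2 * Real.pi * ((b + 1 : ℕ) : ℝ) / (n + 1))
        ≤ 6 * (((1 : ℕ) : ℝ) / n) * Real.exp (2 * Real.pi * (c + 1)) := by gcongr
      _ = _ := by push_cast; ring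
  have hdual := C_dual m b
  rw [← hm] at hdual
  rw [e1, e2, abs_le]
  constructor
  · linarith
  · have p1 : 0 ≤ 6 * (1 / c + 1) * Real.exp (2 * Real.pi * c) * (1 / ((n' : ℝ) + 1)) := by positivity
    linarith

theorem P_refl {c : ℝ} (hc : 0 < c) :
    Filter.Tendsto (fun n : ℕ => P n c + P ⌊c * n⌋₊ (1 / c)) Filter.atTop (nhds 1) := by
  have hb : Filter.Tendsto (fun n : ℕ => ⌊c * (n : ℝ)⌋₊) Filter.atTop Filter.atTop :=
    tendsto_nat_floor_atTop.comp (tendsto_natCast_atTop_atTop.const_mul_atTop hc)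
  have hn' : Filter.Tendsto (fun n : ℕ => ⌊1 / c * (⌊c * (n : ℝ)⌋₊ : ℝ)⌋₊) Filter.atTop
      Filter.atTop :=
    tendsto_nat_floor_atTop.comp
      ((tendsto_natCast_atTop_atTop.comp hb).const_mul_atTop (by positivity))
  have t1 : Filter.Tendsto (fun n : ℕ =>
      6 * (1 / c + 1) * Real.exp (2 * Real.pi * c) *
        (1 / ((⌊1 / c * (⌊c * (n : ℝ)⌋₊ : ℝ)⌋₊ : ℝ) + 1)))
      Filter.atTop (nhds (6 * (1 / c + 1) * Real.exp (2 * Real.pi * c) * 0)) :=
    (tendsto_one_div_add_atTop_nhds_zero_nat.comp hn').const_mul _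
  have t2 : Filter.Tendsto (fun n : ℕ =>
      6 * Real.exp (2 * Real.pi * (1 / c + 1)) * (1 / (⌊c * (n : ℝ)⌋₊ : ℝ)))
      Filter.atTop (nhds (6 * Real.exp (2 * Real.pi * (1 / c + 1)) * 0)) :=
    (tendsto_one_div_atTop_nhds_zero_nat.comp hb).const_mul _
  have t3 : Filter.Tendsto (fun n : ℕ =>
      6 * Real.exp (2 * Real.pi * (c + 1)) * (1 / (n : ℝ)))
      Filter.atTop (nhds (6 * Real.exp (2 * Real.pi * (c + 1)) * 0)) :=
    tendsto_one_div_atTop_nhds_zero_nat.const_mul _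
  have t := (t1.add t2).add t3
  simp only [mul_zero, add_zero] at t
  rw [← tendsto_sub_nhds_zero_iff]
  apply squeeze_zero_norm' _ t
  filter_upwards [Filter.eventually_ge_atTop 1, hb.eventually_ge_atTop 2] with n h1 h2
  exact P_refl_bound hc rfl rfl h1 h2

end Pool.Agent.UST
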