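import Pool.Agent.UST.BAS

set_option autoImplicit false

/-!
The end point distribution of the tree path is harmonic (without Wilson's algorithm).

Proof of `harmonic` (double counting). Let `F' ∈ Bases S (W \ v)`. For an edge `g ∈ S` touching `v` (no loops) let `u_g`
be the other end point. `F' + g` is a basis of `(S, W)` iff `u_g` is not `F'`-connected to `v` (`v` is now a root; in
particular `g ∉ F'`). Conversely every `T ∈ Bases S W` is `F' + g` for exactly one pair `(F', g)` with `g` touching `v`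
(the first edge of the path from `v` to its root; every other edge of `T` at `v` when removed cuts off a vertex of `W` from
all roots). Let `a_B, a_N, a_v` be the numbers of edges `g ∈ S` at `v` with `u_g` `F'`-connected to a root (outside `W`) in
`B`, not in `B`, to `v`. In `T = F' + g` the root of `v` is that of `u_g`, the root of a vertex `x` not `F'`-connected to
`v` is its `F'`-root, the root of the others is the root of `u_g`. So
`∑_T ∑_{g' at v} (1[u_{g'} → B in T] - 1[v → B in T]) = ∑_{F'} ((a_B + a_N) a_B + a_v a_B - (a_B + a_N + a_v) a_B) = 0`.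
-/

namespace Pool.Agent.UST

variable {V E : Type} [DecidableEq V] [DecidableEq E] (G : MG V E)

/-- removing one edge from a path -/
private theorem hrm_split {T : Finset E} {g : E} {x y : V} (h : G.Conn T x y) :
    G.Conn (T.erase g) x y ∨
      (G.Conn (T.erase g) x (G.src g) ∧ G.Conn (T.erase g) (G.tgt g) y) ∨
      (G.Conn (T.erase g) x (G.tgt g) ∧ G.Conn (T.erase g) (G.src g) y) := by
  induction h with
  | refl => exact Or.inl Relation.ReflTransGen.refl
  | tail _ hs ih =>
    obtain ⟨e, he, h1⟩ := hs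
    by_cases heg : e = g
    · subst heg
      rcases h1 with ⟨h1, h2⟩ | ⟨h1, h2⟩
      · subst h1
        subst h2
        rcases ih with ih | ⟨ih, _⟩ | ⟨ih, _⟩
        · exact Or.inr (Or.inl ⟨ih, Relation.ReflTransGen.refl⟩)
        · exact Or.inr (Or.inl ⟨ih, Relation.ReflTransGen.refl⟩)
        · exact Or.inl ih
      · subst h1
        subst h2
        rcases ih with ih | ⟨ih, _⟩ | ⟨ih, _⟩
        · exact Or.inr (Or.inr ⟨ih, Relation.ReflTransGen.refl⟩)
        · exact Or.inl ih
        · exact Or.inr (Or.inr ⟨ih, Relation.ReflTransGen.refl⟩)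
    · have hs' : G.Step (T.erase g) _ _ := ⟨e, Finset.mem_erase.2 ⟨heg, he⟩, h1⟩
      rcases ih with ih | ⟨ih, ih'⟩ | ⟨ih, ih'⟩
      · exact Or.inl (ih.tail hs')
      · exact Or.inr (Or.inl ⟨ih, ih'.tail hs'⟩)
      · exact Or.inr (Or.inr ⟨ih, ih'.tail hs'⟩)

/-- the other end point of an edge at `v` -/
private def hrmO (v : V) (e : E) : V := if G.src e = v then G.tgt e else G.src e

/-- the edge `g` is at `v` and `v`, `o` are its end points -/
private theorem hrm_split' {T : Finset E} {g : E} {v x y : V} (hg : G.src g = v ∨ G.tgt g = v)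
    (h : G.Conn T x y) :
    G.Conn (T.erase g) x y ∨
      (G.Conn (T.erase g) x v ∧ G.Conn (T.erase g) (hrmO G v g) y) ∨
      (G.Conn (T.erase g) x (hrmO G v g) ∧ G.Conn (T.erase g) v y) := by
  have h1 := hrm_split G (g := g) h
  unfold hrmO
  by_cases h2 : G.src g = v
  · rw [if_pos h2]
    rw [h2] at h1
    exact h1
  · rw [if_neg h2]
    have h3 : G.tgt g = v := hg.resolve_left h2
    rw [h3] at h1
    rcases h1 with h1 | h1 | h1
    · exact Or.inl h1
    · exact Or.inr (Or.inr h1)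
    · exact Or.inr (Or.inl h1)

private theorem hrm_edge {T : Finset E} {g : E} {v : V} (hg : G.src g = v ∨ G.tgt g = v)
    (hgT : g ∈ T) : G.Conn T v (hrmO G v g) := by
  unfold hrmO
  by_cases h2 : G.src g = v
  · rw [if_pos h2]
    exact Relation.ReflTransGen.single ⟨g, hgT, Or.inl ⟨h2, rfl⟩⟩
  · rw [if_neg h2]
    have h3 : G.tgt g = v := hg.resolve_left h2
    exact Relation.ReflTransGen.single ⟨g, hgT, Or.inr ⟨rfl, h3⟩⟩

/-- `v` is cut off from the roots when `g` is removed -/
private def HrmP (W : Finset V) (v : V) (T : Finset E) (g : E) : Prop :=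
  g ∈ T ∧ ∀ r, r ∉ W → ¬ G.Conn (T.erase g) v r

private theorem hrm_other {S T : Finset E} {W : Finset V} {v : V} (hv : v ∈ W)
    (hT : T ∈ G.Bases S W) {g : E} (hg : G.src g = v ∨ G.tgt g = v) (hP : HrmP G W v T g) :
    ∃ r, r ∉ W ∧ G.Conn (T.erase g) (hrmO G v g) r := by
  obtain ⟨r, hr, hc⟩ := (MG.mem_Bases.1 hT).2.2 v hv
  refine ⟨r, hr, ?_⟩
  rcases hrm_split' G hg hc with h | ⟨_, h⟩ | ⟨_, h⟩
  · exact absurd h (hP.2 r hr)
  · exact h
  · exact absurd h (hP.2 r hr)

private theorem hrm_exists {S T : Finset E} {W : Finset V} {v : V} (hv : v ∈ W)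
    (hT : T ∈ G.Bases S W) :
    ∃ g ∈ S, (G.src g = v ∨ G.tgt g = v) ∧ HrmP G W v T g := by
  obtain ⟨r, hr, hc⟩ := (MG.mem_Bases.1 hT).2.2 v hv
  have hvr : v ≠ r := fun h => hr (h ▸ hv)
  -- last exit from `v`
  have key : ∀ x, G.Conn T x r → G.ConnIn T ({v}ᶜ : Set V) x r ∨
      ∃ g ∈ T, (G.src g = v ∨ G.tgt g = v) ∧ G.ConnIn T ({v}ᶜ : Set V) (hrmO G v g) r := by
    intro x hx
    induction hx using Relation.ReflTransGen.head_induction_on with
    | refl => exact Or.inl Relation.ReflTransGen.refl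
    | @head x y hs _ ih =>
      rcases ih with ih | ih
      · have hy : y ≠ v := by
          intro hyv
          rcases Relation.ReflTransGen.cases_head ih with h | ⟨z, h, _⟩
          · exact hvr (hyv ▸ h)
          · exact h.2.1 hyv
        by_cases hx : x = v
        · right
          obtain ⟨e, he, h1⟩ := hs
          rcases h1 with ⟨h1, h2⟩ | ⟨h1, h2⟩
          · refine ⟨e, he, Or.inl (h1.trans hx), ?_⟩
            unfold hrmO
            rw [if_pos (h1.trans hx), h2]
            exact ih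
          · refine ⟨e, he, Or.inr (h2.trans hx), ?_⟩
            unfold hrmO
            rw [if_neg (fun h => hy (h1.symm.trans h)), h1]
            exact ih
        · left
          exact Relation.ReflTransGen.head ⟨hs, hx, hy⟩ ih
      · exact Or.inr ih
  rcases key v hc with h | ⟨g, hgT, hgv, hg⟩
  · exfalso
    rcases Relation.ReflTransGen.cases_head h with h | ⟨z, h, _⟩
    · exact hvr h
    · exact h.2.1 rfl
  · refine ⟨g, (MG.mem_Bases.1 hT).1 hgT, hgv, hgT, ?_⟩
    -- the path avoiding `v` does not use `g`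
    have h1 : G.Conn (T.erase g) (hrmO G v g) r := by
      refine Relation.ReflTransGen.mono (fun a b hab => ?_) _ _ hg
      obtain ⟨⟨e, he, h2⟩, ha, hb⟩ := hab
      refine ⟨e, Finset.mem_erase.2 ⟨?_, he⟩, h2⟩
      rintro rfl
      rcases hgv with h3 | h3 <;> rcases h2 with ⟨h4, h5⟩ | ⟨h4, h5⟩
      · exact ha (h4.symm.trans h3)
      · exact hb (h4.symm.trans h3)
      · exact hb (h5.symm.trans h3)
      · exact ha (h5.symm.trans h3)
    obtain ⟨w, hw, hwr⟩ := bases_minimal hT hgT
    obtain ⟨r', hr', hc'⟩ := (MG.mem_Bases.1 hT).2.2 w hw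
    have hwv : G.Conn (T.erase g) w v := by
      rcases hrm_split' G hgv hc' with h | ⟨h, _⟩ | ⟨h, _⟩
      · exact absurd h (hwr r' hr')
      · exact h
      · exact absurd (h.trans h1) (hwr r hr)
    intro r'' hr'' hc''
    exact hwr r'' hr'' (hwv.trans hc'')

private theorem hrm_unique {S T : Finset E} {W : Finset V} {v : V} (hv : v ∈ W)
    (hT : T ∈ G.Bases S W) {g g' : E} (hg : G.src g = v ∨ G.tgt g = v)
    (hg' : G.src g' = v ∨ G.tgt g' = v) (hP : HrmP G W v T g) (hP' : HrmP G W v T g') :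
    g = g' := by
  by_contra hne
  obtain ⟨r, hr, hc⟩ := hrm_other G hv hT hg hP
  have hm : (T.erase g).erase g' ⊆ T.erase g := Finset.erase_subset _ _
  have hm' : (T.erase g).erase g' ⊆ T.erase g' := by
    rw [Finset.erase_right_comm]
    exact Finset.erase_subset _ _
  have hgm : g ∈ T.erase g' := Finset.mem_erase.2 ⟨hne, hP.1⟩
  have hgm' : g' ∈ T.erase g := Finset.mem_erase.2 ⟨fun h => hne h.symm, hP'.1⟩
  rcases hrm_split' G hg' hc with h | ⟨_, h⟩ | ⟨_, h⟩
  · exact hP'.2 r hr ((hrm_edge G hg hgm).trans (h.mono hm'))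
  · exact hP.2 r hr ((hrm_edge G hg' hgm').trans (h.mono hm))
  · exact hP.2 r hr (h.mono hm)

private theorem hrm_erase {S T : Finset E} {W : Finset V} {v : V} (hv : v ∈ W)
    (hT : T ∈ G.Bases S W) {g : E} (hg : G.src g = v ∨ G.tgt g = v) (hP : HrmP G W v T g) :
    T.erase g ∈ G.Bases S (W.erase v) ∧ ¬ G.Conn (T.erase g) (hrmO G v g) v := by
  obtain ⟨r, hr, hc⟩ := hrm_other G hv hT hg hP
  obtain ⟨h1, h2, h3⟩ := MG.mem_Bases.1 hT
  refine ⟨MG.mem_Bases.2 ⟨(Finset.erase_subset _ _).trans h1, ?_, ?_⟩, ?_⟩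
  · rw [Finset.card_erase_of_mem hP.1, Finset.card_erase_of_mem hv, h2]
  · intro w hw
    obtain ⟨r', hr', hc'⟩ := h3 w (Finset.mem_of_mem_erase hw)
    rcases hrm_split' G hg hc' with h | ⟨h, _⟩ | ⟨h, _⟩
    · exact ⟨r', fun hh => hr' (Finset.mem_of_mem_erase hh), h⟩
    · exact ⟨v, Finset.notMem_erase v W, h⟩
    · exact ⟨r, fun hh => hr (Finset.mem_of_mem_erase hh), h.trans hc⟩
  · intro h
    exact hP.2 r hr (h.symm.trans hc)

private theorem hrm_insert {S F : Finset E} {W : Finset V} {v : V} (hv : v ∈ W)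
    (hl : ∀ e ∈ S, G.src e ≠ G.tgt e)
    (hF : F ∈ G.Bases S (W.erase v)) {g : E} (hgS : g ∈ S) (hg : G.src g = v ∨ G.tgt g = v)
    (hn : ¬ G.Conn F (hrmO G v g) v) :
    insert g F ∈ G.Bases S W ∧ HrmP G W v (insert g F) g ∧ g ∉ F := by
  obtain ⟨h1, h2, h3⟩ := MG.mem_Bases.1 hF
  have hgF : g ∉ F := fun h => hn (hrm_edge G hg h).symm
  have hov : hrmO G v g ≠ v := by
    unfold hrmO
    intro h
    by_cases h4 : G.src g = v
    · rw [if_pos h4] at h
      exact hl g hgS (h4.trans h.symm)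
    · rw [if_neg h4] at h
      exact h4 h
  obtain ⟨r, hr, hc⟩ : ∃ r, r ∉ W ∧ G.Conn F (hrmO G v g) r := by
    by_cases h4 : hrmO G v g ∈ W
    · obtain ⟨r, hr, hc⟩ := h3 _ (Finset.mem_erase.2 ⟨hov, h4⟩)
      refine ⟨r, fun h5 => hr (Finset.mem_erase.2 ⟨?_, h5⟩), hc⟩
      rintro rfl
      exact hn hc
    · exact ⟨_, h4, Relation.ReflTransGen.refl⟩
  have hsub : F ⊆ insert g F := Finset.subset_insert _ _
  have hvr : G.Conn (insert g F) v r :=
    (hrm_edge G hg (Finset.mem_insert_self g F)).trans (hc.mono hsub)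
  refine ⟨MG.mem_Bases.2 ⟨Finset.insert_subset hgS h1, ?_, ?_⟩, ⟨Finset.mem_insert_self _ _, ?_⟩, hgF⟩
  · have hpos : 0 < W.card := Finset.card_pos.2 ⟨v, hv⟩
    rw [Finset.card_insert_of_notMem hgF, h2, Finset.card_erase_of_mem hv]
    omega
  · intro w hw
    by_cases hwv : w = v
    · exact ⟨r, hr, hwv ▸ hvr⟩
    · obtain ⟨r', hr', hc'⟩ := h3 w (Finset.mem_erase.2 ⟨hwv, hw⟩)
      by_cases h5 : r' = v
      · exact ⟨r, hr, (hc'.mono hsub).trans (h5 ▸ hvr)⟩
      · exact ⟨r', fun h6 => hr' (Finset.mem_erase.2 ⟨h5, h6⟩), hc'.mono hsub⟩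
  · intro r' hr' hc'
    rw [Finset.erase_insert hgF] at hc'
    have := root_unique G hF (Finset.notMem_erase v W)
      (fun h => hr' (Finset.mem_of_mem_erase h)) hc'
    exact hr' (this ▸ hv)

open Classical in
/-- indicator: the path of `x` in `T` ends in `B` -/
private noncomputable def hrmR (W : Finset V) (B : Set V) (T : Finset E) (x : V) : ℝ :=
  if ∃ r, r ∉ W ∧ r ∈ B ∧ G.Conn T x r then 1 else 0

private theorem hrm_hit {S : Finset E} {W : Finset V} {B : Set V}
    (hne : (G.Bases S W).Nonempty) (x : V) :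
    G.hit S W B x * (G.Bases S W).card = ∑ T ∈ G.Bases S W, hrmR G W B T x := by
  classical
  have h0 : ((G.Bases S W).card : ℝ) ≠ 0 := by
    have := hne.card_pos
    positivity
  unfold MG.hit
  split_ifs with h1 h2
  · unfold MG.pr MG.cnt
    rw [div_mul_cancel₀ _ h0, Finset.card_filter]
    push_cast
    refine Finset.sum_congr rfl fun T _ => ?_
    unfold hrmR
    congr
  · rw [one_mul]
    have : ∀ T ∈ G.Bases S W, hrmR G W B T x = 1 := by
      intro T hT
      unfold hrmR
      rw [if_pos ⟨x, h1, h2, Relation.ReflTransGen.refl⟩]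
    rw [Finset.sum_congr rfl this]
    simp
  · rw [zero_mul]
    symm
    refine Finset.sum_eq_zero fun T hT => ?_
    unfold hrmR
    rw [if_neg]
    rintro ⟨r, hr, hrB, hc⟩
    have := root_unique G hT h1 hr hc
    exact h2 (this ▸ hrB)

private theorem hrmR_congr {W : Finset V} {B : Set V} {T : Finset E} {x y : V}
    (h : G.Conn T x y) : hrmR G W B T x = hrmR G W B T y := by
  classical
  unfold hrmR
  congr 1
  apply propext
  constructor
  · rintro ⟨r, h1, h2, h3⟩
    exact ⟨r, h1, h2, h.symm.trans h3⟩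
  · rintro ⟨r, h1, h2, h3⟩
    exact ⟨r, h1, h2, h.trans h3⟩

/-- a vertex not connected to `v` keeps its root -/
private theorem hrmR_insert {S F : Finset E} {W : Finset V} {B : Set V} {v : V} (hv : v ∈ W)
    (hl : ∀ e ∈ S, G.src e ≠ G.tgt e)
    (hF : F ∈ G.Bases S (W.erase v)) {g : E} (hgS : g ∈ S) (hg : G.src g = v ∨ G.tgt g = v)
    (hn : ¬ G.Conn F (hrmO G v g) v) {x : V} (hx : ¬ G.Conn F x v) :
    hrmR G W B (insert g F) x = hrmR G W B F x := by
  classical
  obtain ⟨hT, hP, hgF⟩ := hrm_insert G hv hl hF hgS hg hn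
  unfold hrmR
  congr 1
  apply propext
  constructor
  · rintro ⟨r, h1, h2, h3⟩
    refine ⟨r, h1, h2, ?_⟩
    have h4 := hrm_split' G hg h3
    rw [Finset.erase_insert hgF] at h4
    rcases h4 with h | ⟨h, _⟩ | ⟨_, h⟩
    · exact h
    · exact absurd h hx
    · exfalso
      have := root_unique G hF (Finset.notMem_erase v W)
        (fun h => h1 (Finset.mem_of_mem_erase h)) h
      exact h1 (this ▸ hv)
  · rintro ⟨r, h1, h2, h3⟩
    exact ⟨r, h1, h2, h3.mono (Finset.subset_insert _ _)⟩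

private theorem hrm_sum_antisymm {ι : Type*} (X : Finset ι) (b : ι → ℝ) :
    ∑ g ∈ X, ∑ e ∈ X, (b e - b g) = 0 := by
  simp only [Finset.sum_sub_distrib]
  rw [Finset.sum_comm]
  simp

theorem harmonic {S : Finset E} {W : Finset V} {B : Set V} (hl : ∀ e ∈ S, G.src e ≠ G.tgt e)
    (hne : (G.Bases S W).Nonempty) {v : V} (hv : v ∈ W) :
    ∑ e ∈ S.filter (fun e => G.src e = v), (G.hit S W B (G.tgt e) - G.hit S W B v)
      + ∑ e ∈ S.filter (fun e => G.tgt e = v), (G.hit S W B (G.src e) - G.hit S W B v) = 0 := by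
  classical
  have h0 : ((G.Bases S W).card : ℝ) ≠ 0 := by
    have := hne.card_pos
    positivity
  set Sv : Finset E := S.filter (fun e => G.src e = v ∨ G.tgt e = v) with hSv
  have hmemSv : ∀ {e}, e ∈ Sv ↔ e ∈ S ∧ (G.src e = v ∨ G.tgt e = v) := by
    intro e
    rw [hSv, Finset.mem_filter]
  -- one sum over the edges at `v`
  have hsum : ∑ e ∈ S.filter (fun e => G.src e = v), (G.hit S W B (G.tgt e) - G.hit S W B v)
      + ∑ e ∈ S.filter (fun e => G.tgt e = v), (G.hit S W B (G.src e) - G.hit S W B v) =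
      ∑ e ∈ Sv, (G.hit S W B (hrmO G v e) - G.hit S W B v) := by
    rw [hSv, Finset.filter_or, Finset.sum_union]
    · congr 1
      · refine Finset.sum_congr rfl fun e he => ?_
        unfold hrmO
        rw [if_pos (Finset.mem_filter.1 he).2]
      · refine Finset.sum_congr rfl fun e he => ?_
        unfold hrmO
        have h1 := (Finset.mem_filter.1 he)
        rw [if_neg (fun h => hl e h1.1 (h.trans h1.2.symm))]
    · rw [Finset.disjoint_left]
      intro e he he'
      have h1 := (Finset.mem_filter.1 he)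
      have h2 := (Finset.mem_filter.1 he')
      exact hl e h1.1 (h1.2.trans h2.2.symm)
  rw [hsum]
  suffices hs : (∑ e ∈ Sv, (G.hit S W B (hrmO G v e) - G.hit S W B v)) *
      ((G.Bases S W).card : ℝ) = 0 by
    exact (mul_eq_zero.1 hs).resolve_right h0
  -- as a sum over the bases
  set Φ : Finset E → ℝ := fun T => ∑ e ∈ Sv, (hrmR G W B T (hrmO G v e) - hrmR G W B T v) with hΦ
  have h1 : (∑ e ∈ Sv, (G.hit S W B (hrmO G v e) - G.hit S W B v)) *
      ((G.Bases S W).card : ℝ) = ∑ T ∈ G.Bases S W, Φ T := by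
    rw [Finset.sum_mul, hΦ, Finset.sum_comm]
    refine Finset.sum_congr rfl fun e _ => ?_
    rw [sub_mul, hrm_hit G hne, hrm_hit G hne, Finset.sum_sub_distrib]
  rw [h1]
  -- insert the unique edge
  have h2 : ∑ T ∈ G.Bases S W, Φ T =
      ∑ T ∈ G.Bases S W, ∑ g ∈ Sv, if HrmP G W v T g then Φ T else 0 := by
    refine Finset.sum_congr rfl fun T hT => ?_
    obtain ⟨g, hgS, hgv, hgP⟩ := hrm_exists G hv hT
    rw [Finset.sum_eq_single g]
    · rw [if_pos hgP]
    · intro g' hg' hne'
      rw [if_neg]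
      intro hP'
      exact hne' (hrm_unique G hv hT (hmemSv.1 hg').2 hgv hP' hgP)
    · intro hg
      exact absurd (hmemSv.2 ⟨hgS, hgv⟩) hg
  rw [h2, Finset.sum_comm]
  -- change of variables
  have h3 : ∀ g ∈ Sv, (∑ T ∈ G.Bases S W, if HrmP G W v T g then Φ T else 0) =
      ∑ F ∈ G.Bases S (W.erase v),
        if ¬ G.Conn F (hrmO G v g) v then Φ (insert g F) else 0 := by
    intro g hg
    obtain ⟨hgS, hgv⟩ := hmemSv.1 hg
    rw [← Finset.sum_filter, ← Finset.sum_filter]
    refine Finset.sum_bij' (fun T _ => T.erase g) (fun F _ => insert g F) ?_ ?_ ?_ ?_ ?_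
    · intro T hT
      rw [Finset.mem_filter] at hT ⊢
      exact hrm_erase G hv hT.1 hgv hT.2
    · intro F hF
      rw [Finset.mem_filter] at hF ⊢
      obtain ⟨h4, h5, _⟩ := hrm_insert G hv hl hF.1 hgS hgv hF.2
      exact ⟨h4, h5⟩
    · intro T hT
      rw [Finset.mem_filter] at hT
      exact Finset.insert_erase hT.2.1
    · intro F hF
      rw [Finset.mem_filter] at hF
      exact Finset.erase_insert (hrm_insert G hv hl hF.1 hgS hgv hF.2).2.2
    · intro T hT
      rw [Finset.mem_filter] at hT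
      rw [Finset.insert_erase hT.2.1]
  rw [Finset.sum_congr rfl h3, Finset.sum_comm]
  refine Finset.sum_eq_zero fun F hF => ?_
  rw [← Finset.sum_filter]
  set X : Finset E := Sv.filter (fun g => ¬ G.Conn F (hrmO G v g) v) with hX
  rw [← hrm_sum_antisymm X (fun e => hrmR G W B F (hrmO G v e))]
  refine Finset.sum_congr rfl fun g hg => ?_
  rw [hX, Finset.mem_filter] at hg
  obtain ⟨hgSv, hgn⟩ := hg
  obtain ⟨hgS, hgv⟩ := hmemSv.1 hgSv
  have hv1 : hrmR G W B (insert g F) v = hrmR G W B F (hrmO G v g) := by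
    rw [hrmR_congr G (hrm_edge G hgv (Finset.mem_insert_self g F)),
      hrmR_insert G hv hl hF hgS hgv hgn hgn]
  have hR : ∑ e ∈ X, (hrmR G W B F (hrmO G v e) - hrmR G W B F (hrmO G v g)) =
      ∑ e ∈ Sv, if ¬ G.Conn F (hrmO G v e) v then
        (hrmR G W B F (hrmO G v e) - hrmR G W B F (hrmO G v g)) else 0 := by
    rw [hX, Finset.sum_filter]
  rw [hR]
  simp only [hΦ]
  refine Finset.sum_congr rfl fun e _ => ?_
  by_cases h4 : G.Conn F (hrmO G v e) v
  · rw [if_neg (not_not.2 h4), hrmR_congr G (h4.mono (Finset.subset_insert g F)), sub_self]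
  · rw [if_pos h4, hv1, hrmR_insert G hv hl hF hgS hgv hgn h4]

theorem hit_root {S : Finset E} {W : Finset V} {B : Set V} {v : V} (hv : v ∉ W) (hB : v ∈ B) :
    G.hit S W B v = 1 := by
  unfold MG.hit
  rw [if_neg hv, if_pos hB]

theorem hit_root' {S : Finset E} {W : Finset V} {B : Set V} {v : V} (hv : v ∉ W) (hB : v ∉ B) :
    G.hit S W B v = 0 := by
  unfold MG.hit
  rw [if_neg hv, if_neg hB]

theorem hit_nonneg (S : Finset E) (W : Finset V) (B : Set V) (v : V) : 0 ≤ G.hit S W B v := by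
  unfold MG.hit
  split_ifs
  · exact MG.pr_nonneg _ _ _
  · exact zero_le_one
  · exact le_refl _

end Pool.Agent.UST
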