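import Pool.Agent.UST.EQF
import Pool.Agent.UST.TD
import Pool.Agent.UST.RDB

set_option autoImplicit false

/-!
The exact duality of the crossing probabilities.

Proof. Boxes `[-k,k]²`: `pr_dual` (TD) and `hcr_cmp_iff` (RDB) give
`frP k (HCr 0 (a+1) 0 b) = pr_wired (faces) (¬ VCr T' 0 a (-1) b) = 1 - pr_wired (VCr T' 0 a (-1) b)` for `k` large (`HCr (cmp X T')` depends only on `cmp X T' ∩ eIn R = cmp R T'`, `X ⊇ R`). Limits: `fr_tendsto`, `wired_tendsto`, `pinf_V`.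
-/

namespace Pool.Agent.UST

open Finset Filter Topology

theorem C_dual (a b : ℕ) : C (a + 1) b + C (b + 1) a = 1 := by
  have h1 := fr_tendsto (HCr_inc 0 ((a : ℤ) + 1) 0 b) (HCr_loc 0 ((a : ℤ) + 1) 0 b)
  have h2 := wired_tendsto (VCr_inc 0 (a : ℤ) (-1) b) (VCr_loc 0 (a : ℤ) (-1) b)
    (W := fun k => bx (-(k : ℤ)) ((k : ℤ) - 1) (-(k : ℤ)) ((k : ℤ) - 1)) (fun m => by
      refine (eventually_ge_atTop (m + 1)).mono (fun k hk => ?_)
      exact bx_subset (by omega) (by omega) (by omega) (by omega))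
  have h3 : Pinf (fun T => VCr T 0 (a : ℤ) (-1) b) = C (b + 1) a := by
    have := pinf_V 0 (-1) a (b + 1)
    have e1 : (-1 : ℤ) + ((b + 1 : ℕ) : ℤ) = b := by push_cast; ring
    rw [e1, zero_add] at this
    exact this
  have h4 : Pinf (fun T => HCr T 0 ((a : ℤ) + 1) 0 b) = C (a + 1) b := by
    unfold C; push_cast; rfl
  have h5 : ∀ᶠ k : ℕ in atTop, frP k (fun T => HCr T 0 ((a : ℤ) + 1) 0 b) =
      1 - L2.pr (eTouch (bx (-(k : ℤ)) ((k : ℤ) - 1) (-(k : ℤ)) ((k : ℤ) - 1)))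
        (bx (-(k : ℤ)) ((k : ℤ) - 1) (-(k : ℤ)) ((k : ℤ) - 1))
        (fun T => VCr T 0 (a : ℤ) (-1) b) := by
    refine (eventually_ge_atTop (a + b + 2)).mono (fun k hk => ?_)
    have h6 := pr_dual (x0 := -(k : ℤ)) (x1 := k) (y0 := -(k : ℤ)) (y1 := k) (by omega)
      (by omega) (corner_mem k) (fun T => HCr T 0 ((a : ℤ) + 1) 0 b)
    have h7 : frP k (fun T => HCr T 0 ((a : ℤ) + 1) 0 b) =
        L2.pr (eIn (bx (-(k : ℤ)) k (-(k : ℤ)) k)) ((bx (-(k : ℤ)) k (-(k : ℤ)) k).erase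
          (-(k : ℤ), -(k : ℤ))) (fun T => HCr T 0 ((a : ℤ) + 1) 0 b) := rfl
    rw [h7, h6, ← MG.pr_not (bases_wired_nonempty _ _ _ _)]
    refine MG.pr_congr (fun T' _ => ?_)
    have h8 := hcr_cmp_iff T' (x0 := 0) (x1 := (a : ℤ) + 1) (y0 := 0) (y1 := b) (by omega)
      (by omega)
    have e1 : (a : ℤ) + 1 - 1 = a := by ring
    rw [e1, zero_sub] at h8
    rw [← h8]
    have hloc := HCr_loc 0 ((a : ℤ) + 1) 0 b (cmp (bx (-(k : ℤ)) k (-(k : ℤ)) k) T')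
    have hbsub : bx 0 ((a : ℤ) + 1) 0 b ⊆ bx (-(k : ℤ)) k (-(k : ℤ)) k :=
      bx_subset (by omega) (by omega) (by omega) (by omega)
    have h9 : cmp (bx (-(k : ℤ)) k (-(k : ℤ)) k) T' ∩ eIn (bx 0 ((a : ℤ) + 1) 0 b) =
        cmp (bx 0 ((a : ℤ) + 1) 0 b) T' := by
      ext e
      rw [Finset.mem_inter, mem_cmp, mem_cmp]
      constructor
      · rintro ⟨⟨_, ha⟩, hb⟩; exact ⟨hb, ha⟩
      · rintro ⟨ha, hb⟩; exact ⟨⟨eIn_mono hbsub ha, hb⟩, ha⟩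
    rw [h9] at hloc
    exact hloc
  have h10 := tendsto_nhds_unique (h1.congr' h5) (tendsto_const_nhds.sub h2)
  rw [h3, h4] at h10
  linarith

end Pool.Agent.UST
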