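import Pool.Agent.UST.HRM

set_option autoImplicit false

/-!
Maximum principle.

Proof. `u = g - hit`. Suppose `u > 0` somewhere on `W`; let `M = max_W u > 0`, `v ∈ W` a maximum point with least first
coordinate. `∑_{e at v} (u(other end) - u(v)) = 0` by `hg` and `harmonic`; all terms are `≤ 0` (other end in `W`: maximum; not
in `W`: `u ≤ 0` by `hr`, `hit_root`, `hit_root'`), so all are zero; the left edge `(v.1 - 1, v.2, false)` is in `S`, so
`u(v.1 - 1, v.2) = M > 0`: this vertex is in `W` (roots have `u ≤ 0`), contradiction to the choice of `v`.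
-/

namespace Pool.Agent.UST

open Classical in
theorem max_principle {S : Finset E2} {W : Finset V2} {B : Set V2}
    (hne : (L2.Bases S W).Nonempty) (hleft : ∀ v ∈ W, (v.1 - 1, v.2, false) ∈ S) (g : V2 → ℝ)
    (hg : ∀ v ∈ W, ∑ e ∈ S.filter (fun e => L2.src e = v), (g (L2.tgt e) - g v)
      + ∑ e ∈ S.filter (fun e => L2.tgt e = v), (g (L2.src e) - g v) = 0)
    (hr : ∀ v, v ∉ W → (∃ e ∈ S, ∃ w ∈ W, L2.Touch e w ∧ L2.Touch e v) →
      g v ≤ if v ∈ B then 1 else 0) :
    ∀ v ∈ W, g v ≤ L2.hit S W B v := by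
  by_contra hcon
  push Not at hcon
  obtain ⟨v1, hv1, hlt⟩ := hcon
  set u : V2 → ℝ := fun v => g v - L2.hit S W B v with hu
  obtain ⟨v2, hv2, hmax⟩ := Finset.exists_max_image W u ⟨v1, hv1⟩
  have hM : 0 < u v2 := by
    have h1 := hmax v1 hv1
    have h2 : 0 < u v1 := by rw [hu]; simp only; linarith
    linarith
  obtain ⟨v, hv, hmin⟩ := Finset.exists_min_image (W.filter fun w => u w = u v2) (fun w => w.1)
    ⟨v2, Finset.mem_filter.2 ⟨hv2, rfl⟩⟩
  rw [Finset.mem_filter] at hv
  obtain ⟨hvW, hvM⟩ := hv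
  -- values at neighbours
  have hroot : ∀ z, z ∉ W → (∃ e ∈ S, ∃ w ∈ W, L2.Touch e w ∧ L2.Touch e z) → u z ≤ 0 := by
    intro z hz he
    have h1 := hr z hz he
    rw [hu]
    simp only
    by_cases hB : z ∈ B
    · rw [if_pos hB] at h1
      rw [hit_root L2 hz hB]
      linarith
    · rw [if_neg hB] at h1
      rw [hit_root' L2 hz hB]
      linarith
  have hle : ∀ z, (∃ e ∈ S, L2.Touch e v ∧ L2.Touch e z) → u z ≤ u v := by
    rintro z ⟨e, he, h1, h2⟩
    by_cases hz : z ∈ W
    · rw [hvM]; exact hmax z hz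
    · have := hroot z hz ⟨e, he, v, hvW, h1, h2⟩
      rw [hvM]; linarith
  have hl : ∀ e ∈ S, L2.src e ≠ L2.tgt e := by
    rintro ⟨x, y, b⟩ _ h
    cases b
    · rw [L2_src, L2_tgt_false, Prod.mk.injEq] at h; omega
    · rw [L2_src, L2_tgt_true, Prod.mk.injEq] at h; omega
  have hh := harmonic L2 (B := B) hl hne hvW
  have hgv := hg v hvW
  have hsum : ∑ e ∈ S.filter (fun e => L2.src e = v), (u (L2.tgt e) - u v)
      + ∑ e ∈ S.filter (fun e => L2.tgt e = v), (u (L2.src e) - u v) = 0 := by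
    have e1 : ∑ e ∈ S.filter (fun e => L2.src e = v), (u (L2.tgt e) - u v)
        = ∑ e ∈ S.filter (fun e => L2.src e = v), (g (L2.tgt e) - g v)
          - ∑ e ∈ S.filter (fun e => L2.src e = v),
            (L2.hit S W B (L2.tgt e) - L2.hit S W B v) := by
      rw [← Finset.sum_sub_distrib]
      refine Finset.sum_congr rfl fun e _ => ?_
      rw [hu]; simp only; ring
    have e2 : ∑ e ∈ S.filter (fun e => L2.tgt e = v), (u (L2.src e) - u v)
        = ∑ e ∈ S.filter (fun e => L2.tgt e = v), (g (L2.src e) - g v)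
          - ∑ e ∈ S.filter (fun e => L2.tgt e = v),
            (L2.hit S W B (L2.src e) - L2.hit S W B v) := by
      rw [← Finset.sum_sub_distrib]
      refine Finset.sum_congr rfl fun e _ => ?_
      rw [hu]; simp only; ring
    rw [e1, e2]
    have hh' : ∑ e ∈ S.filter (fun e => L2.src e = v), (L2.hit S W B (L2.tgt e) - L2.hit S W B v)
        + ∑ e ∈ S.filter (fun e => L2.tgt e = v),
          (L2.hit S W B (L2.src e) - L2.hit S W B v) = 0 := by
      convert hh using 2
    linarith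
  have hn1 : ∑ e ∈ S.filter (fun e => L2.src e = v), (u (L2.tgt e) - u v) ≤ 0 := by
    refine Finset.sum_nonpos fun e he => ?_
    rw [Finset.mem_filter] at he
    have := hle (L2.tgt e) ⟨e, he.1, Or.inl he.2, Or.inr rfl⟩
    linarith
  have hn2 : ∀ e ∈ S.filter (fun e => L2.tgt e = v), u (L2.src e) - u v ≤ 0 := by
    intro e he
    rw [Finset.mem_filter] at he
    have := hle (L2.src e) ⟨e, he.1, Or.inr he.2, Or.inl rfl⟩
    linarith
  have hz2 : ∑ e ∈ S.filter (fun e => L2.tgt e = v), (u (L2.src e) - u v) = 0 := by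
    have := Finset.sum_nonpos hn2
    linarith
  have hall := (Finset.sum_eq_zero_iff_of_nonpos hn2).1 hz2
  have he0 : (v.1 - 1, v.2, false) ∈ S.filter (fun e => L2.tgt e = v) := by
    rw [Finset.mem_filter]
    refine ⟨hleft v hvW, ?_⟩
    rw [L2_tgt_false, sub_add_cancel]
  have h0 := hall _ he0
  rw [L2_src] at h0
  have hzW : (v.1 - 1, v.2) ∈ W := by
    by_contra hz
    have := hroot (v.1 - 1, v.2) hz ⟨(v.1 - 1, v.2, false), hleft v hvW, v, hvW,
      Or.inr (by rw [L2_tgt_false, sub_add_cancel]), Or.inl rfl⟩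
    rw [hvM] at h0
    linarith
  have := hmin (v.1 - 1, v.2) (Finset.mem_filter.2 ⟨hzW, by rw [← hvM]; linarith⟩)
  simp only at this
  omega

end Pool.Agent.UST
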