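import Pool.Agent.UST.BAS
import Pool.Agent.UST.LAT

set_option autoImplicit false

/-!
The official formulation: uniform spanning trees of finite connected subgraphs of `ℤ²` in the sense of Mathlib.

Proof. `enc e = s(src e, tgt e)` is a bijection of `E2` onto the edge set of `Z2`. `H` finite connected subgraph,
`X = H.verts`, `S = {e : enc e ∈ H.edgeSet}`, `x ∈ X`: `T ↦ enc '' T` is a bijection from `Bases S (X.erase x)` onto the sets
with `IsSpTree H`: a graph on `X` is a tree iff it is connected and has `|X| - 1` edges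
(`SimpleGraph.isTree_iff_connected_and_card` or similar); connectedness of the induced graph vs `Conn` (all edges of `S` have
their end points in `X`; `Conn` to some `r ∉ X.erase x` means `Conn` to `x`).
-/

namespace Pool.Agent.UST

/-- the square lattice as a simple graph -/
def Z2 : SimpleGraph (ℤ × ℤ) where
  Adj u v := |u.1 - v.1| + |u.2 - v.2| = 1
  symm := ⟨fun u v h => by rw [abs_sub_comm v.1 u.1, abs_sub_comm v.2 u.2]; exact h⟩
  loopless := ⟨fun u h => by simp at h⟩

/-- `T` is the edge set of a spanning tree of the subgraph `H` -/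
def IsSpTree (H : Z2.Subgraph) (T : Finset (Sym2 (ℤ × ℤ))) : Prop :=
  (T : Set (Sym2 (ℤ × ℤ))) ⊆ H.edgeSet ∧
    ((SimpleGraph.fromEdgeSet (T : Set (Sym2 (ℤ × ℤ)))).induce H.verts).IsTree

/-- probability under the uniform spanning tree of the finite connected graph `H` -/
noncomputable def ustProb (H : Z2.Subgraph) (A : Finset (Sym2 (ℤ × ℤ)) → Prop) : ℝ :=
  (Set.ncard {T | IsSpTree H T ∧ A T} : ℝ) / (Set.ncard {T | IsSpTree H T} : ℝ)

/-- the edge of `Z2` encoded by `e` -/
def enc (e : E2) : Sym2 (ℤ × ℤ) := s(L2.src e, L2.tgt e)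

theorem of1_enc_false (x y : ℤ) : enc (x, y, false) = s((x, y), (x + 1, y)) := rfl
theorem of1_enc_true (x y : ℤ) : enc (x, y, true) = s((x, y), (x, y + 1)) := rfl

theorem enc_injective : Function.Injective enc := by
  rintro ⟨x, y, b⟩ ⟨x', y', b'⟩ h
  cases b <;> cases b' <;>
    simp only [of1_enc_false, of1_enc_true, Sym2.eq_iff, Prod.mk.injEq] at h ⊢ <;>
    rcases h with ⟨⟨h1, h2⟩, h3, h4⟩ | ⟨⟨h1, h2⟩, h3, h4⟩ <;> simp <;> omega

theorem enc_edgeSet (z : Sym2 (ℤ × ℤ)) : z ∈ Z2.edgeSet ↔ ∃ e, enc e = z := by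
  induction z using Sym2.ind with
  | _ u v =>
  obtain ⟨u1, u2⟩ := u
  obtain ⟨v1, v2⟩ := v
  rw [SimpleGraph.mem_edgeSet]
  change |u1 - v1| + |u2 - v2| = 1 ↔ _
  constructor
  · intro h
    have h1 : (u1 = v1 ∧ u2 = v2 + 1) ∨ (u1 = v1 ∧ v2 = u2 + 1) ∨ (u1 = v1 + 1 ∧ u2 = v2) ∨
        (v1 = u1 + 1 ∧ u2 = v2) := by
      rcases abs_cases (u1 - v1) with ⟨h1, h2⟩ | ⟨h1, h2⟩ <;>
        rcases abs_cases (u2 - v2) with ⟨h3, h4⟩ | ⟨h3, h4⟩ <;> omega
    rcases h1 with ⟨rfl, rfl⟩ | ⟨rfl, rfl⟩ | ⟨rfl, rfl⟩ | ⟨rfl, rfl⟩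
    · exact ⟨(u1, v2, true), Sym2.eq_swap⟩
    · exact ⟨(u1, u2, true), rfl⟩
    · exact ⟨(v1, u2, false), Sym2.eq_swap⟩
    · exact ⟨(u1, u2, false), rfl⟩
  · rintro ⟨⟨x, y, b⟩, h⟩
    cases b <;> simp only [of1_enc_false, of1_enc_true, Sym2.eq_iff, Prod.mk.injEq] at h <;>
      rcases h with ⟨⟨rfl, rfl⟩, rfl, rfl⟩ | ⟨⟨rfl, rfl⟩, rfl, rfl⟩ <;> simp

/-- steps of `T` and edges of the encoded graph -/
theorem of1_step {T : Finset E2} {u v : V2} :
    L2.Step T u v ↔ s(u, v) ∈ ((T.image enc : Finset (Sym2 (ℤ × ℤ))) : Set (Sym2 (ℤ × ℤ))) := by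
  rw [Finset.mem_coe, Finset.mem_image]
  unfold MG.Step enc
  simp only [Sym2.eq_iff]

theorem of1_enc_not_diag (e : E2) : ¬ (enc e).IsDiag := by
  obtain ⟨x, y, b⟩ := e
  cases b <;> simp [of1_enc_false, of1_enc_true]

theorem of1_step_ne {T : Finset E2} {u v : V2} (h : L2.Step T u v) : u ≠ v := by
  rintro rfl
  obtain ⟨e, -, h⟩ := h
  apply of1_enc_not_diag e
  unfold enc
  rcases h with ⟨h1, h2⟩ | ⟨h1, h2⟩ <;> simp [h1, h2]

/-- the induced graph of a set of edges -/
theorem of1_adj {T : Finset E2} {X : Set V2} (u v : X) :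
    ((SimpleGraph.fromEdgeSet
      ((T.image enc : Finset (Sym2 (ℤ × ℤ))) : Set (Sym2 (ℤ × ℤ)))).induce X).Adj u v ↔
      L2.Step T u v := by
  rw [SimpleGraph.comap_adj, SimpleGraph.fromEdgeSet_adj]
  constructor
  · rintro ⟨h, -⟩
    exact of1_step.2 h
  · intro h
    exact ⟨of1_step.1 h, of1_step_ne h⟩

theorem of1_reach {T : Finset E2} {X : Set V2}
    (hT : ∀ e ∈ T, L2.src e ∈ X ∧ L2.tgt e ∈ X) {u v : V2} (hu : u ∈ X) (h : L2.Conn T u v) :
    ∃ hv : v ∈ X, ((SimpleGraph.fromEdgeSet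
      ((T.image enc : Finset (Sym2 (ℤ × ℤ))) : Set (Sym2 (ℤ × ℤ)))).induce X).Reachable
        ⟨u, hu⟩ ⟨v, hv⟩ := by
  induction h with
  | refl => exact ⟨hu, SimpleGraph.Reachable.refl _⟩
  | @tail w v _ hs ih =>
    obtain ⟨hw, ih⟩ := ih
    have hv : v ∈ X := by
      obtain ⟨e, he, h | h⟩ := hs
      · rw [← h.2]; exact (hT e he).2
      · rw [← h.1]; exact (hT e he).1
    refine ⟨hv, ih.trans (SimpleGraph.Adj.reachable ?_)⟩
    exact (of1_adj _ _).2 hs

theorem of1_conn {T : Finset E2} {X : Set V2} {u v : X}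
    (h : ((SimpleGraph.fromEdgeSet
      ((T.image enc : Finset (Sym2 (ℤ × ℤ))) : Set (Sym2 (ℤ × ℤ)))).induce X).Reachable u v) :
    L2.Conn T u v := by
  rw [SimpleGraph.reachable_iff_reflTransGen] at h
  exact Relation.ReflTransGen.lift Subtype.val (fun a b hab => (of1_adj a b).1 hab) _ _ h

/-- the number of edges of the induced graph -/
theorem of1_card {T : Finset E2} {X : Set V2}
    (hT : ∀ e ∈ T, L2.src e ∈ X ∧ L2.tgt e ∈ X) :
    Nat.card ((SimpleGraph.fromEdgeSet
      ((T.image enc : Finset (Sym2 (ℤ × ℤ))) : Set (Sym2 (ℤ × ℤ)))).induce X).edgeSet = T.card := by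
  set G := (SimpleGraph.fromEdgeSet
      ((T.image enc : Finset (Sym2 (ℤ × ℤ))) : Set (Sym2 (ℤ × ℤ)))).induce X with hG
  have h1 : (Sym2.map (Subtype.val : X → V2)) '' G.edgeSet = ((T.image enc : Finset _) : Set _) := by
    ext z
    constructor
    · rintro ⟨z', hz', rfl⟩
      induction z' using Sym2.ind with
      | _ u v =>
      rw [SimpleGraph.mem_edgeSet] at hz'
      exact of1_step.1 ((of1_adj u v).1 hz')
    · intro hz
      rw [Finset.mem_coe, Finset.mem_image] at hz
      obtain ⟨e, he, rfl⟩ := hz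
      refine ⟨s(⟨L2.src e, (hT e he).1⟩, ⟨L2.tgt e, (hT e he).2⟩), ?_, rfl⟩
      rw [SimpleGraph.mem_edgeSet]
      exact (of1_adj _ _).2 ⟨e, he, Or.inl ⟨rfl, rfl⟩⟩
  have h2 : Function.Injective (Sym2.map (Subtype.val : X → V2)) :=
    Sym2.map.injective Subtype.val_injective
  have h3 := Set.ncard_image_of_injective G.edgeSet h2
  rw [h1, Set.ncard_coe_finset, Finset.card_image_of_injective _ enc_injective] at h3
  rw [h3]
  rfl

/-- spanning trees and bases -/
theorem of1_iff {H : Z2.Subgraph} {X : Finset V2} (hX : (X : Set V2) = H.verts)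
    {S : Finset E2} (hS : ∀ e, e ∈ S ↔ enc e ∈ H.edgeSet) {x : V2} (hx : x ∈ X) (T : Finset E2) :
    IsSpTree H (T.image enc) ↔ T ∈ L2.Bases S (X.erase x) := by
  have hends : ∀ e ∈ S, L2.src e ∈ H.verts ∧ L2.tgt e ∈ H.verts := by
    intro e he
    have h1 := (hS e).1 he
    unfold enc at h1
    rw [SimpleGraph.Subgraph.mem_edgeSet] at h1
    exact ⟨h1.fst_mem, h1.snd_mem⟩
  have hsub : (((T.image enc : Finset _) : Set (Sym2 (ℤ × ℤ))) ⊆ H.edgeSet) ↔ T ⊆ S := by
    constructor
    · intro h e he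
      exact (hS e).2 (h (Finset.mem_coe.2 (Finset.mem_image_of_mem enc he)))
    · intro h z hz
      rw [Finset.mem_coe, Finset.mem_image] at hz
      obtain ⟨e, he, rfl⟩ := hz
      exact (hS e).1 (h he)
  unfold IsSpTree
  rw [MG.mem_Bases, hsub]
  refine and_congr_right fun hTS => ?_
  have hT : ∀ e ∈ T, L2.src e ∈ H.verts ∧ L2.tgt e ∈ H.verts := fun e he => hends e (hTS he)
  have hxH : x ∈ H.verts := hX ▸ (Finset.mem_coe.2 hx)
  have hfin : Finite H.verts := by rw [← hX]; exact Finset.finite_toSet X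
  have hcX : Nat.card H.verts = X.card := by
    rw [← hX]; simp
  rw [SimpleGraph.isTree_iff_connected_and_card, of1_card hT, hcX, and_comm,
    Finset.card_erase_of_mem hx]
  have hpos : 0 < X.card := Finset.card_pos.2 ⟨x, hx⟩
  refine and_congr (by omega) ?_
  constructor
  · intro hc w hw
    have hwH : w ∈ H.verts := hX ▸ (Finset.mem_coe.2 (Finset.mem_of_mem_erase hw))
    exact ⟨x, Finset.notMem_erase x X, of1_conn (hc.preconnected ⟨w, hwH⟩ ⟨x, hxH⟩)⟩
  · intro h
    have key : ∀ w : H.verts, ((SimpleGraph.fromEdgeSet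
      ((T.image enc : Finset (Sym2 (ℤ × ℤ))) : Set (Sym2 (ℤ × ℤ)))).induce H.verts).Reachable
        w ⟨x, hxH⟩ := by
      rintro ⟨w, hw⟩
      by_cases hwx : w = x
      · subst hwx
        exact SimpleGraph.Reachable.refl _
      · have hwX : w ∈ X := by
          rw [← Finset.mem_coe, hX]; exact hw
        obtain ⟨r, hr, hc⟩ := h w (Finset.mem_erase.2 ⟨hwx, hwX⟩)
        obtain ⟨hrH, hreach⟩ := of1_reach hT hw hc
        have hrX : r ∈ X := by
          rw [← Finset.mem_coe, hX]; exact hrH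
        have hrx : r = x := by
          by_contra hne
          exact hr (Finset.mem_erase.2 ⟨hne, hrX⟩)
        subst hrx
        exact hreach
    have : Nonempty H.verts := ⟨⟨x, hxH⟩⟩
    exact ⟨fun u v => (key u).trans (key v).symm⟩

/-- the uniform spanning tree of `H` in the encoding of this project -/
theorem ust_eq {H : Z2.Subgraph} (hc : H.Connected) {X : Finset V2} (hX : (X : Set V2) = H.verts)
    {S : Finset E2} (hS : ∀ e, e ∈ S ↔ enc e ∈ H.edgeSet) {x : V2} (hx : x ∈ X)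
    (A : Finset (Sym2 (ℤ × ℤ)) → Prop) :
    (L2.Bases S (X.erase x)).Nonempty ∧
      ustProb H A = L2.pr S (X.erase x) (fun T => A (T.image enc)) := by
  classical
  have hxH : x ∈ H.verts := hX ▸ (Finset.mem_coe.2 hx)
  constructor
  · apply bases_nonempty
    intro w hw
    have hwH : w ∈ H.verts := hX ▸ (Finset.mem_coe.2 (Finset.mem_of_mem_erase hw))
    refine ⟨x, Finset.notMem_erase x X, ?_⟩
    have h1 : H.coe.Reachable ⟨w, hwH⟩ ⟨x, hxH⟩ := hc.coe.preconnected _ _
    rw [SimpleGraph.reachable_iff_reflTransGen] at h1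
    refine Relation.ReflTransGen.lift Subtype.val (fun a b hab => ?_) _ _ h1
    have h2 : H.Adj a b := hab
    obtain ⟨e, he⟩ := (enc_edgeSet s((a : V2), (b : V2))).1 (H.adj_sub h2)
    have heS : e ∈ S := by
      rw [hS, he, SimpleGraph.Subgraph.mem_edgeSet]
      exact h2
    refine ⟨e, heS, ?_⟩
    unfold enc at he
    rw [Sym2.eq_iff] at he
    exact he
  · have key : ∀ B : Finset (Sym2 (ℤ × ℤ)) → Prop,
        Set.ncard {T | IsSpTree H T ∧ B T} =
          ((L2.Bases S (X.erase x)).filter (fun T => B (T.image enc))).card := by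
      intro B
      have h1 : {T | IsSpTree H T ∧ B T} =
          (((L2.Bases S (X.erase x)).filter (fun T => B (T.image enc))).image
            (fun T => T.image enc) : Set (Finset (Sym2 (ℤ × ℤ)))) := by
        ext T'
        rw [Finset.mem_coe, Finset.mem_image, Set.mem_ofPred_eq]
        constructor
        · rintro ⟨h1, h2⟩
          have h3 : (S.filter (fun e => enc e ∈ T')).image enc = T' := by
            ext z
            rw [Finset.mem_image]
            constructor
            · rintro ⟨e, he, rfl⟩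
              exact (Finset.mem_filter.1 he).2
            · intro hz
              have h4 : z ∈ H.edgeSet := h1.1 (Finset.mem_coe.2 hz)
              obtain ⟨e, rfl⟩ := (enc_edgeSet z).1 (H.edgeSet_subset h4)
              exact ⟨e, Finset.mem_filter.2 ⟨(hS e).2 h4, hz⟩, rfl⟩
          refine ⟨S.filter (fun e => enc e ∈ T'), ?_, h3⟩
          rw [Finset.mem_filter, h3]
          refine ⟨(of1_iff hX hS hx _).1 ?_, h2⟩
          rw [h3]
          exact h1
        · rintro ⟨T, hT, rfl⟩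
          rw [Finset.mem_filter] at hT
          exact ⟨(of1_iff hX hS hx T).2 hT.1, hT.2⟩
      rw [h1, Set.ncard_coe_finset,
        Finset.card_image_of_injective _ (Finset.image_injective enc_injective)]
    have h2 := key A
    have h3 := key (fun _ => True)
    simp only [and_true, Finset.filter_true] at h3
    unfold ustProb MG.pr MG.cnt
    rw [h2, h3]

end Pool.Agent.UST
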