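import Pool.Agent.UST.OF1
import Pool.Agent.UST.EQF

set_option autoImplicit false

/-!
The official formulation, crossings and exhaustions.

Proof. `cross_enc`: reachability in `rectGraph a b (enc '' T)` vs `ConnIn T (bx 0 a 0 b)`. `official`: `X k = (H k).verts`
(finite), `S k = {e : enc e ∈ (H k).edgeSet}` (finite: subset of `eIn (X k)`), `ust_eq`, `exhaust_tendsto`; `hex`: every edge of
the finite set `eIn (Bk m)` is in `H k` for `k` large (`mono`), every vertex is an end point of such an edge.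
-/

namespace Pool.Agent.UST

/-- the open edges of `T` inside the rectangle `{0,...,a} × {0,...,b}` -/
def rectGraph (a b : ℕ) (T : Finset (Sym2 (ℤ × ℤ))) : SimpleGraph (ℤ × ℤ) :=
  SimpleGraph.fromEdgeSet {e | e ∈ T ∧ ∀ v ∈ e, 0 ≤ v.1 ∧ v.1 ≤ a ∧ 0 ≤ v.2 ∧ v.2 ≤ b}

/-- the rectangle has a spanning cluster -/
def Cross (a b : ℕ) (T : Finset (Sym2 (ℤ × ℤ))) : Prop :=
  ∃ y y' : ℤ, 0 ≤ y ∧ y ≤ b ∧ 0 ≤ y' ∧ y' ≤ b ∧
    (rectGraph a b T).Reachable ((0 : ℤ), y) ((a : ℤ), y')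

/-- a sequence of finite connected subgraphs increasing to `ℤ²` -/
structure Exhausts (H : ℕ → Z2.Subgraph) : Prop where
  fin : ∀ k, (H k).verts.Finite
  conn : ∀ k, (H k).Connected
  mono : Monotone H
  all : ∀ e ∈ Z2.edgeSet, ∃ k, e ∈ (H k).edgeSet

private theorem of2_ne (e : E2) : L2.src e ≠ L2.tgt e := by
  obtain ⟨x, y, b⟩ := e
  cases b
  · rw [L2_src, L2_tgt_false]; intro h; simp at h
  · rw [L2_src, L2_tgt_true]; intro h; simp at h

private theorem of2_adj (a b : ℕ) (T : Finset E2) (u v : V2) :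
    (rectGraph a b (T.image enc)).Adj u v ↔
      (L2.Step T u v ∧ u ∈ (bx 0 a 0 b : Set V2) ∧ v ∈ (bx 0 a 0 b : Set V2)) := by
  unfold rectGraph
  rw [SimpleGraph.fromEdgeSet_adj]
  constructor
  · rintro ⟨⟨hT, hb⟩, hne⟩
    rw [Finset.mem_image] at hT
    obtain ⟨e, he, h⟩ := hT
    unfold enc at h
    refine ⟨⟨e, he, ?_⟩, ?_, ?_⟩
    · rcases Sym2.eq_iff.1 h with ⟨h1, h2⟩ | ⟨h1, h2⟩
      · exact Or.inl ⟨h1, h2⟩
      · exact Or.inr ⟨h1, h2⟩
    · exact Finset.mem_coe.2 (mem_bx.2 (by have := hb u (Sym2.mem_mk_left u v); tauto))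
    · exact Finset.mem_coe.2 (mem_bx.2 (by have := hb v (Sym2.mem_mk_right u v); tauto))
  · rintro ⟨⟨e, he, h⟩, hu, hv⟩
    have hu' := mem_bx.1 (Finset.mem_coe.1 hu)
    have hv' := mem_bx.1 (Finset.mem_coe.1 hv)
    refine ⟨⟨?_, ?_⟩, ?_⟩
    · rw [Finset.mem_image]
      refine ⟨e, he, ?_⟩
      unfold enc
      rw [Sym2.eq_iff]
      rcases h with h | h
      · exact Or.inl h
      · exact Or.inr h
    · intro w hw
      rcases Sym2.mem_iff.1 hw with rfl | rfl
      · exact ⟨hu'.1, hu'.2.1, hu'.2.2.1, hu'.2.2.2⟩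
      · exact ⟨hv'.1, hv'.2.1, hv'.2.2.1, hv'.2.2.2⟩
    · rintro rfl
      have := of2_ne e
      rcases h with ⟨h1, h2⟩ | ⟨h1, h2⟩
      · exact this (h1.trans h2.symm)
      · exact this (h1.trans h2.symm)

theorem cross_enc (a b : ℕ) (T : Finset E2) : Cross a b (T.image enc) ↔ HCr T 0 a 0 b := by
  have hrel : (rectGraph a b (T.image enc)).Adj = fun u v => L2.Step T u v ∧
      u ∈ (bx 0 a 0 b : Set V2) ∧ v ∈ (bx 0 a 0 b : Set V2) := by
    funext u v
    exact propext (of2_adj a b T u v)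
  unfold Cross HCr MG.ConnIn
  constructor
  · rintro ⟨y, y', h1, h2, h3, h4, h5⟩
    rw [SimpleGraph.reachable_iff_reflTransGen, hrel] at h5
    exact ⟨(0, y), mem_bx.2 ⟨le_rfl, by simp, h1, h2⟩, (a, y'), mem_bx.2 ⟨by simp, le_rfl, h3, h4⟩,
      rfl, rfl, h5⟩
  · rintro ⟨⟨p, q⟩, hu, ⟨p', q'⟩, hv, h1, h2, h5⟩
    simp only at h1 h2
    subst h1; subst h2
    have hu' := mem_bx.1 hu
    have hv' := mem_bx.1 hv
    refine ⟨q, q', hu'.2.2.1, hu'.2.2.2, hv'.2.2.1, hv'.2.2.2, ?_⟩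
    rw [SimpleGraph.reachable_iff_reflTransGen, hrel]
    exact h5

theorem official {H : ℕ → Z2.Subgraph} (hH : Exhausts H) (a b : ℕ) :
    Filter.Tendsto (fun k => ustProb (H k) (Cross a b)) Filter.atTop (nhds (C a b)) := by
  classical
  have hne : ∀ k, ∃ x, x ∈ (H k).verts := fun k => (hH.conn k).nonempty
  choose x hx using hne
  set X : ℕ → Finset V2 := fun k => (hH.fin k).toFinset with hX
  have hXm : ∀ k v, v ∈ X k ↔ v ∈ (H k).verts := fun k v => (hH.fin k).mem_toFinset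
  set S : ℕ → Finset E2 := fun k => (eIn (X k)).filter fun e => enc e ∈ (H k).edgeSet with hS
  have hends : ∀ k (e : E2), enc e ∈ (H k).edgeSet → L2.src e ∈ X k ∧ L2.tgt e ∈ X k := by
    intro k e he
    unfold enc at he
    rw [SimpleGraph.Subgraph.mem_edgeSet] at he
    exact ⟨(hXm k _).2 he.fst_mem, (hXm k _).2 he.snd_mem⟩
  have hSm : ∀ k e, e ∈ S k ↔ enc e ∈ (H k).edgeSet := by
    intro k e
    simp only [hS, Finset.mem_filter, mem_eIn]
    exact ⟨fun h => h.2, fun h => ⟨hends k e h, h⟩⟩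
  have key := fun k => ust_eq (hH.conn k) (X := X k) (by
    ext v
    rw [Finset.mem_coe, hXm]) (hSm k) ((hXm k _).2 (hx k)) (Cross a b)
  have heq : (fun k => ustProb (H k) (Cross a b)) = fun k =>
      L2.pr (S k) ((X k).erase (x k)) (fun T => HCr T 0 a 0 b) := by
    funext k
    rw [(key k).2]
    exact MG.pr_congr fun T _ => cross_enc a b T
  rw [heq]
  unfold C
  refine exhaust_tendsto (HCr_inc 0 a 0 b) (HCr_loc 0 a 0 b) (fun k => (hXm k _).2 (hx k))
    (fun k e he => hends k e ((hSm k e).1 he)) (fun k => (key k).1) fun m => ?_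
  -- every edge touching the box is eventually present
  have hall : ∀ᶠ k in Filter.atTop, ∀ e ∈ eTouch (Bk m), enc e ∈ (H k).edgeSet := by
    rw [Filter.eventually_all_finset]
    intro e _
    obtain ⟨k₀, hk₀⟩ := hH.all (enc e) ((enc_edgeSet _).2 ⟨e, rfl⟩)
    filter_upwards [Filter.eventually_ge_atTop k₀] with k hk
    exact SimpleGraph.Subgraph.edgeSet_mono (hH.mono hk) hk₀
  filter_upwards [hall] with k hk
  constructor
  · intro v hv
    have h1 : (v.1, v.2, false) ∈ eTouch (Bk m) := mem_eTouch.2 (Or.inl hv)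
    exact (hends k _ (hk _ h1)).1
  · intro e he
    rw [hSm]
    exact hk e (eIn_subset_eTouch _ he)

end Pool.Agent.UST
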