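import Pool.Agent.UST.OF2
import Pool.Agent.UST.TD

set_option autoImplicit false

/-! The boxes form a sequence of finite connected subgraphs increasing to the lattice. -/

namespace Pool.Agent.UST

private theorem z2_of_step {T : Finset E2} {u v : V2} (h : L2.Step T u v) : Z2.Adj u v := by
  obtain ⟨⟨x, y, b⟩, _, h⟩ := h
  have key : Z2.Adj (L2.src (x, y, b)) (L2.tgt (x, y, b)) := by
    cases b
    · rw [L2_src, L2_tgt_false]
      show |x - (x + 1)| + |y - y| = 1
      have e1 : x - (x + 1) = -1 := by ring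
      rw [e1, sub_self]
      norm_num
    · rw [L2_src, L2_tgt_true]
      show |x - x| + |y - (y + 1)| = 1
      have e1 : y - (y + 1) = -1 := by ring
      rw [e1, sub_self]
      norm_num
  rcases h with ⟨h1, h2⟩ | ⟨h1, h2⟩
  · rw [h1, h2] at key
    exact key
  · rw [h1, h2] at key
    exact key.symm

/-- the box of radius `k` as a subgraph -/
noncomputable def boxSub (k : ℕ) : Z2.Subgraph := (⊤ : Z2.Subgraph).induce (Bk k : Set V2)

private theorem mem_Bk {k : ℕ} {v : V2} :
    v ∈ Bk k ↔ -(k : ℤ) ≤ v.1 ∧ v.1 ≤ k ∧ -(k : ℤ) ≤ v.2 ∧ v.2 ≤ k := by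
  unfold Bk
  exact mem_bx

theorem exists_exhausts : ∃ H : ℕ → Z2.Subgraph, Exhausts H := by
  refine ⟨boxSub, ?_, ?_, ?_, ?_⟩
  · intro k
    exact (Bk k).finite_toSet
  · intro k
    have h0 : ((0 : ℤ), (0 : ℤ)) ∈ Bk k := by
      rw [mem_Bk]
      simp only
      omega
    have hreach : ∀ u (hu : u ∈ (boxSub k).verts), (boxSub k).coe.Reachable
        ⟨((0 : ℤ), (0 : ℤ)), h0⟩ ⟨u, hu⟩ := by
      intro u hu
      have hu' : u ∈ Bk k := hu
      have hc := connIn_box (x0 := -(k : ℤ)) (x1 := k) (y0 := -(k : ℤ)) (y1 := k) h0 hu'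
      have key : ∀ b, L2.ConnIn (eIn (Bk k)) ((Bk k : Finset V2) : Set V2) (0, 0) b →
          ∀ hb : b ∈ (boxSub k).verts, (boxSub k).coe.Reachable
            ⟨((0 : ℤ), (0 : ℤ)), h0⟩ ⟨b, hb⟩ := by
        intro b hb
        induction hb with
        | refl => exact fun _ => SimpleGraph.Reachable.refl _
        | @tail b c _ hs ih =>
          intro hc
          have hb' : b ∈ (boxSub k).verts := hs.2.1
          refine (ih hb').trans (SimpleGraph.Adj.reachable ?_)
          show (boxSub k).Adj b c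
          exact ⟨hs.2.1, hs.2.2, z2_of_step hs.1⟩
      exact key u hc hu
    refine ⟨?_⟩
    haveI : Nonempty (boxSub k).verts := ⟨⟨_, h0⟩⟩
    refine ⟨fun u v => ?_⟩
    exact (hreach u.1 u.2).symm.trans (hreach v.1 v.2)
  · intro k l hkl
    refine SimpleGraph.Subgraph.induce_mono_right ?_
    intro v hv
    have hv' : v ∈ Bk k := hv
    have h1 : (k : ℤ) ≤ l := by exact_mod_cast hkl
    show v ∈ Bk l
    rw [mem_Bk] at hv' ⊢
    omega
  · intro e he
    induction e using Sym2.ind with
    | _ u v =>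
      rw [SimpleGraph.mem_edgeSet] at he
      refine ⟨u.1.natAbs + u.2.natAbs + v.1.natAbs + v.2.natAbs, ?_⟩
      rw [SimpleGraph.Subgraph.mem_edgeSet]
      refine ⟨?_, ?_, he⟩
      · show u ∈ Bk _
        rw [mem_Bk]
        omega
      · show v ∈ Bk _
        rw [mem_Bk]
        omega

end Pool.Agent.UST
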