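import Pool.Agent.UST.CHN

set_option autoImplicit false

/-!
Two disjoint crossing sets: one is above the other; the explored faces do not touch the upper one.

Proof. Let `P ⊆ T` be a chain in `X` joining the columns `x0` and `x1` (from `CSet` and `chain_of_conn`), `P'` the same for
`X'`. For a vertex `v` of the box with `v ∉ X` no edge of `P` touches `v`, so `sg P` has the same parity on all faces
`f` near `v` with `x0 ≤ f.1 ≤ x1 - 1` (`sg_vert`, `sg_horz` with `chain_even`); along a `T`-step inside `X'` from `v` to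
`v'` the two have a near face in common (both sides of the edge; the columns are fine since the edge is in the box and
`x0 < x1`); so there is one parity `σ` for all near faces of all vertices of `X'` (`CSet` says that `X'` is connected).
Similarly `σ'` for `sg P'` at `X`. Claim `σ + σ' = 1` modulo 2: look at the column `x0` of faces: `H`, `H'` the sets of
heights of the horizontal edges `(x0, y, false)` of `P`, `P'`: disjoint, of odd cardinality (`sg_top`).
`#{y ∈ H : y < y'} ≡ σ` for `y' ∈ H'` (the face `(x0, y')` is near the vertex `(x0,y') ∈ X'`, and `y' ∉ H`), and vice versa;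
`∑_{y' ∈ H'} #{y ∈ H : y < y'} + ∑_{y ∈ H} #{y' ∈ H' : y' < y} = |H| |H'|` is odd. If `σ = 1`: no face of `D` is near a
vertex of `X'` (`sg P` is even on `D` by `hD` as `P` is a `CrChain`); if `σ' = 1`: the same for `X`.
-/

namespace Pool.Agent.UST

/-- a near face in the columns of the rectangle -/
private def nf (x1 : ℤ) (v : V2) : V2 := if v.1 ≤ x1 - 1 then (v.1, v.2) else (v.1 - 1, v.2)

private theorem ord_vert {T P : Finset E2} {x0 x1 y0 y1 : ℤ} {X : Finset V2}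
    (hP : CrChain T x0 x1 y0 y1 P) (hPX : ∀ e ∈ P, L2.src e ∈ X ∧ L2.tgt e ∈ X) {a b : ℤ}
    (hv : (a, b) ∉ X) :
    sg P (a, b) = sg P (a, b - 1) ∧ sg P (a - 1, b) = sg P (a - 1, b - 1) ∧
      (x0 ≤ a - 1 → a ≤ x1 - 1 → sg P (a, b) % 2 = sg P (a - 1, b) % 2) := by
  refine ⟨?_, ?_, fun h0 h1 => ?_⟩
  · have h1 := sg_vert P a b
    rw [if_neg, add_zero] at h1
    · exact h1
    · intro he
      exact hv (hPX _ he).1
  · have h1 := sg_vert P (a - 1) b
    rw [if_neg, add_zero] at h1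
    · exact h1
    · intro he
      have h2 := (hPX _ he).2
      rw [L2_tgt_false, sub_add_cancel] at h2
      exact hv h2
  · have h2 := sg_horz P a b (fun y _ => chain_even hP (by omega) (by omega))
    rw [if_neg] at h2
    · omega
    · intro he
      exact hv (hPX _ he).1

private theorem ord_near {T P : Finset E2} {x0 x1 y0 y1 : ℤ} {X : Finset V2}
    (hP : CrChain T x0 x1 y0 y1 P) (hPX : ∀ e ∈ P, L2.src e ∈ X ∧ L2.tgt e ∈ X) {v f : V2}
    (hv : v ∉ X) (hn : Near f v) (h0 : x0 ≤ f.1) (h1 : f.1 ≤ x1 - 1) :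
    sg P f % 2 = sg P (nf x1 v) % 2 := by
  obtain ⟨a, b⟩ := v
  obtain ⟨i, j⟩ := f
  obtain ⟨k1, k2, k3⟩ := ord_vert hP hPX hv
  unfold Near at hn
  simp only at hn h0 h1
  unfold nf
  simp only
  obtain ⟨h2, h3⟩ := hn
  split_ifs with h4
  · rcases h2 with rfl | rfl <;> rcases h3 with rfl | rfl
    · rfl
    · rw [k1]
    · exact (k3 h0 h4).symm
    · rw [← k2]; exact (k3 h0 h4).symm
  · have h5 : i = a - 1 := by omega
    subst h5
    rcases h3 with rfl | rfl
    · rfl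
    · rw [k2]

private theorem ord_step {T P : Finset E2} {x0 x1 y0 y1 : ℤ} (hx : x0 < x1) {X X' : Finset V2}
    (hP : CrChain T x0 x1 y0 y1 P) (hPX : ∀ e ∈ P, L2.src e ∈ X ∧ L2.tgt e ∈ X)
    (hX' : X' ⊆ bx x0 x1 y0 y1) (hd : Disjoint X X') {v w : V2} (hv : v ∈ X') (hw : w ∈ X')
    (hs : L2.Step T v w) : sg P (nf x1 v) % 2 = sg P (nf x1 w) % 2 := by
  have hn : ∀ u ∈ X', u ∉ X := fun u hu hu' => (Finset.disjoint_left.1 hd) hu' hu
  have key : ∀ (e : E2), L2.src e ∈ X' → L2.tgt e ∈ X' →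
      sg P (nf x1 (L2.src e)) % 2 = sg P (nf x1 (L2.tgt e)) % 2 := by
    rintro ⟨a, b, c⟩ h1 h2
    have h3 := hX' h1
    have h4 := hX' h2
    rw [mem_bx] at h3 h4
    have h5 := hn _ h1
    have h6 := hn _ h2
    cases c
    · rw [L2_tgt_false] at h4 h6 ⊢
      rw [L2_src] at h3 h5 ⊢
      simp only at h3 h4
      rw [← ord_near hP hPX h5 (f := (a, b)) ⟨Or.inl rfl, Or.inl rfl⟩ (by simp only; omega)
        (by simp only; omega)]
      exact ord_near hP hPX h6 (f := (a, b))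
        ⟨Or.inr (by simp only; omega), Or.inl rfl⟩ (by simp only; omega) (by simp only; omega)
    · rw [L2_tgt_true] at h4 h6 ⊢
      rw [L2_src] at h3 h5 ⊢
      simp only at h3 h4
      by_cases h7 : a ≤ x1 - 1
      · rw [← ord_near hP hPX h5 (f := (a, b)) ⟨Or.inl rfl, Or.inl rfl⟩ (by simp only; omega)
          (by simp only; omega)]
        exact ord_near hP hPX h6 (f := (a, b))
          ⟨Or.inl rfl, Or.inr (by simp only; omega)⟩ (by simp only; omega) (by simp only; omega)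
      · rw [← ord_near hP hPX h5 (f := (a - 1, b)) ⟨Or.inr rfl, Or.inl rfl⟩ (by simp only; omega)
          (by simp only; omega)]
        exact ord_near hP hPX h6 (f := (a - 1, b))
          ⟨Or.inr rfl, Or.inr (by simp only; omega)⟩ (by simp only; omega) (by simp only; omega)
  obtain ⟨e, _, h1⟩ := hs
  rcases h1 with ⟨h2, h3⟩ | ⟨h2, h3⟩
  · rw [← h2, ← h3]
    exact key e (by rw [h2]; exact hv) (by rw [h3]; exact hw)
  · rw [← h2, ← h3]
    exact (key e (by rw [h2]; exact hw) (by rw [h3]; exact hv)).symm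

private theorem ord_const {T P : Finset E2} {x0 x1 y0 y1 : ℤ} (hx : x0 < x1) {X X' : Finset V2}
    (hP : CrChain T x0 x1 y0 y1 P) (hPX : ∀ e ∈ P, L2.src e ∈ X ∧ L2.tgt e ∈ X)
    (hX' : X' ⊆ bx x0 x1 y0 y1) (hd : Disjoint X X') (h' : CSet T X' x0 x1) :
    ∃ σ : ℕ, σ < 2 ∧ ∀ v ∈ X', ∀ f, Near f v → x0 ≤ f.1 → f.1 ≤ x1 - 1 → sg P f % 2 = σ := by
  obtain ⟨⟨u, hu, _⟩, _, hc⟩ := h'
  refine ⟨sg P (nf x1 u) % 2, Nat.mod_lt _ two_pos, ?_⟩
  intro v hv f hf h0 h1
  have hn : v ∉ X := fun hv' => (Finset.disjoint_left.1 hd) hv' hv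
  rw [ord_near hP hPX hn hf h0 h1]
  have h2 := hc u hu v hv
  have h3 : ∀ w, L2.ConnIn T (X' : Set V2) u w → sg P (nf x1 w) % 2 = sg P (nf x1 u) % 2 := by
    intro w hw
    induction hw with
    | refl => rfl
    | tail _ hstep ih =>
      rw [← ih]
      exact (ord_step hx hP hPX hX' hd hstep.2.1 hstep.2.2 hstep.1).symm
  exact h3 v h2

private theorem ord_chain {T : Finset E2} {x0 x1 y0 y1 : ℤ} {X : Finset V2}
    (hX : X ⊆ bx x0 x1 y0 y1) (h : CSet T X x0 x1) :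
    ∃ P, CrChain T x0 x1 y0 y1 P ∧ ∀ e ∈ P, L2.src e ∈ X ∧ L2.tgt e ∈ X := by
  obtain ⟨⟨u, hu, hu1⟩, ⟨v, hv, hv1⟩, hc⟩ := h
  obtain ⟨P, hPT, hPX, hB⟩ := chain_of_conn (hc u hu v hv)
  refine ⟨P, ⟨hPT, ?_, u, v, hu1, hv1, hB⟩, hPX⟩
  intro e he
  rw [mem_eIn]
  exact ⟨hX (hPX e he).1, hX (hPX e he).2⟩

/-- the horizontal edges in the column `x0` -/
private def colE (P : Finset E2) (x0 : ℤ) : Finset E2 :=
  P.filter fun e => e.2.2 = false ∧ e.1 = x0

private theorem sg_col (P : Finset E2) (x0 y : ℤ) :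
    sg P (x0, y) = ((colE P x0).filter fun e => e.2.1 ≤ y).card := by
  unfold sg colE
  rw [Finset.filter_filter]
  congr 1
  ext e
  simp only [Finset.mem_filter, and_assoc]

private theorem ord_count (A B : Finset E2) (h : ∀ e ∈ A, ∀ e' ∈ B, e.2.1 ≠ e'.2.1) :
    ∑ e' ∈ B, (A.filter fun e => e.2.1 ≤ e'.2.1).card +
      ∑ e ∈ A, (B.filter fun e' => e'.2.1 ≤ e.2.1).card = A.card * B.card := by
  have h1 : ∑ e' ∈ B, (A.filter fun e => e.2.1 ≤ e'.2.1).card =
      ∑ e ∈ A, ∑ e' ∈ B, if e.2.1 ≤ e'.2.1 then 1 else 0 := by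
    rw [Finset.sum_comm]
    exact Finset.sum_congr rfl fun e' _ => Finset.card_filter _ _
  have h2 : ∑ e ∈ A, (B.filter fun e' => e'.2.1 ≤ e.2.1).card =
      ∑ e ∈ A, ∑ e' ∈ B, if e'.2.1 ≤ e.2.1 then 1 else 0 :=
    Finset.sum_congr rfl fun e _ => Finset.card_filter _ _
  rw [h1, h2, ← Finset.sum_add_distrib, Finset.card_eq_sum_ones, Finset.sum_mul]
  refine Finset.sum_congr rfl fun e he => ?_
  rw [← Finset.sum_add_distrib, one_mul, Finset.card_eq_sum_ones]
  refine Finset.sum_congr rfl fun e' he' => ?_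
  have h3 := h e he e' he'
  rcases lt_or_gt_of_ne h3 with h4 | h4
  · rw [if_pos h4.le, if_neg (not_le.2 h4)]
  · rw [if_neg (not_le.2 h4), if_pos h4.le]

private theorem ord_odd {T P : Finset E2} {x0 x1 y0 y1 : ℤ} (hx : x0 < x1)
    (hP : CrChain T x0 x1 y0 y1 P) : (colE P x0).card % 2 = 1 := by
  have h1 := sg_top hx hP (f := (x0, y1)) le_rfl (by simp only; omega) le_rfl
  rw [sg_col] at h1
  have h2 : (colE P x0).filter (fun e => e.2.1 ≤ y1) = colE P x0 := by
    refine Finset.filter_true_of_mem ?_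
    rintro ⟨a, b, c⟩ he
    have h3 := hP.2.1 (Finset.mem_filter.1 he).1
    rw [mem_eIn, L2_src, mem_bx] at h3
    exact h3.1.2.2.2
  rw [h2] at h1
  exact h1

private theorem ord_mod {A : Finset E2} {g : E2 → ℕ} {σ : ℕ} (hσ : σ < 2)
    (h : ∀ e ∈ A, g e % 2 = σ) : (∑ e ∈ A, g e) % 2 = (A.card * σ) % 2 := by
  rw [Finset.sum_nat_mod, Finset.sum_congr rfl h, Finset.sum_const, smul_eq_mul]

theorem disjoint_order {T : Finset E2} {x0 x1 y0 y1 : ℤ} (hx : x0 < x1) {X X' : Finset V2}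
    (hX : X ⊆ bx x0 x1 y0 y1) (hX' : X' ⊆ bx x0 x1 y0 y1) (hd : Disjoint X X')
    (h : CSet T X x0 x1) (h' : CSet T X' x0 x1) {D : Set V2}
    (hDc : ∀ f ∈ D, x0 ≤ f.1 ∧ f.1 ≤ x1 - 1)
    (hD : ∀ f ∈ D, ∀ P, CrChain T x0 x1 y0 y1 P → sg P f % 2 = 0) :
    (∀ f ∈ D, ∀ v ∈ X, ¬ Near f v) ∨ (∀ f ∈ D, ∀ v ∈ X', ¬ Near f v) := by
  obtain ⟨P, hP, hPX⟩ := ord_chain hX h
  obtain ⟨P', hP', hPX'⟩ := ord_chain hX' h'
  obtain ⟨σ, hσ, hσ'⟩ := ord_const hx hP hPX hX' hd h'
  obtain ⟨τ, hτ, hτ'⟩ := ord_const hx hP' hPX' hX hd.symm h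
  have hA := ord_odd hx hP
  have hB := ord_odd hx hP'
  have hcol : ∀ e ∈ colE P x0, (x0, e.2.1) ∈ X := by
    rintro ⟨a, b, c⟩ he
    obtain ⟨h1, h2, h3⟩ := Finset.mem_filter.1 he
    simp only at h3
    subst h3
    exact (hPX _ h1).1
  have hcol' : ∀ e ∈ colE P' x0, (x0, e.2.1) ∈ X' := by
    rintro ⟨a, b, c⟩ he
    obtain ⟨h1, h2, h3⟩ := Finset.mem_filter.1 he
    simp only at h3
    subst h3
    exact (hPX' _ h1).1
  have hcount := ord_count (colE P x0) (colE P' x0) (by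
    intro e he e' he' heq
    have h1 := hcol e he
    rw [heq] at h1
    exact (Finset.disjoint_left.1 hd) h1 (hcol' e' he'))
  have h1 : (∑ e' ∈ colE P' x0, ((colE P x0).filter fun e => e.2.1 ≤ e'.2.1).card) % 2 =
      ((colE P' x0).card * σ) % 2 := by
    refine ord_mod hσ fun e' he' => ?_
    rw [← sg_col]
    exact hσ' _ (hcol' e' he') (x0, e'.2.1) ⟨Or.inl rfl, Or.inl rfl⟩ le_rfl (by simp only; omega)
  have h2 : (∑ e ∈ colE P x0, ((colE P' x0).filter fun e' => e'.2.1 ≤ e.2.1).card) % 2 =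
      ((colE P x0).card * τ) % 2 := by
    refine ord_mod hτ fun e he => ?_
    rw [← sg_col]
    exact hτ' _ (hcol e he) (x0, e.2.1) ⟨Or.inl rfl, Or.inl rfl⟩ le_rfl (by simp only; omega)
  have h3 : ((colE P' x0).card * σ + (colE P x0).card * τ) % 2 = 1 := by
    have h4 : ((colE P x0).card * (colE P' x0).card) % 2 = 1 := by
      rw [Nat.mul_mod, hA, hB]
    rw [← hcount] at h4
    omega
  have h5 : σ = 1 ∨ τ = 1 := by
    by_contra hcon
    push Not at hcon
    have e1 : σ = 0 := by omega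
    have e2 : τ = 0 := by omega
    rw [e1, e2] at h3
    simp at h3
  rcases h5 with h6 | h6
  · right
    intro f hf v hv hn
    have h7 := hσ' v hv f hn (hDc f hf).1 (hDc f hf).2
    have h8 := hD f hf P hP
    omega
  · left
    intro f hf v hv hn
    have h7 := hτ' v hv f hn (hDc f hf).1 (hDc f hf).2
    have h8 := hD f hf P' hP'
    omega

end Pool.Agent.UST
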