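import Pool.Agent.UST.OF3
import Pool.Agent.UST.FI1

set_option autoImplicit false

/-! The crossing probabilities of the problem. -/

namespace Pool.Agent.UST

/-- `p n c` is the probability that the uniform spanning tree of `ℤ²`, restricted to the rectangle
`{0,...,n} × {0,...,⌊cn⌋}`, has a spanning cluster: for every sequence of finite connected
subgraphs increasing to `ℤ²` (such sequences exist) it is the limit of the probabilities for
the uniform spanning trees of these subgraphs. -/
def IsCrossProb (p : ℕ → ℝ → ℝ) : Prop :=
  (∃ H : ℕ → Z2.Subgraph, Exhausts H) ∧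
  ∀ H : ℕ → Z2.Subgraph, Exhausts H → ∀ (n : ℕ) (c : ℝ), 0 < c →
    Filter.Tendsto (fun k => ustProb (H k) (Cross n ⌊c * n⌋₊)) Filter.atTop (nhds (p n c))

theorem isCrossProb_P : IsCrossProb P :=
  ⟨exists_exhausts, fun _ hH n c _ => official hH n ⌊c * n⌋₊⟩

end Pool.Agent.UST
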