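import Pool.Agent.UST.EXA

set_option autoImplicit false

/-!
The exploration, first step (wired dual = free primal rectangle).

Proof. `expl_bound` with `W = W1 = bx x0 (x1-1) y0 (y1-1)`, `S = eTouch W1`, `Q` = row `y0 - 1` (roots), `Good = True`,
`A T' = AJ (cmp R T') (j+1)`, `A' F0 Tb = AV .. j (F0 ∪ Q) (cmp R Tb)`, `q` = the right hand side.
h1: `explored_even`, `drop_one`, then `AV_inc`, `cmp_anti`. h3: comparison `dom_ext` from `(rest, W1 minus F0)` to
`(S2 x0 x1 (y0+1) y1, W2 x0 x1 (y0+1) y1)`, where `W2 x0 x1 (y0+1) y1 = W1`, for the increasing event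
`T ↦ ¬ AV .. (cmp R (T ∩ rest))` (`Loc rest`), `MG.pr_not`; the edges of `rest` do not touch `Q`, so their height is at
least `y0`, i.e. `rest ⊆ S2 x0 x1 (y0+1) y1`; `AV_rest` (a dual edge `dl e`, `e ∈ eIn R`, not touching `F0 ∪ Q` is in `rest`:
it touches `W1` because `y0 < y1`), `AV_up`.
-/

namespace Pool.Agent.UST

private theorem st1_mem_rest {V E : Type} {G : MG V E} {S : Finset E} {W F : Finset V} {Q : Set V}
    {e : E} : e ∈ G.rest S W F Q ↔ e ∈ S ∧ (∃ v ∈ W, v ∉ F ∧ G.Touch e v) ∧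
      ∀ v, G.Touch e v → v ∉ F ∧ v ∉ Q := by
  classical
  unfold MG.rest
  rw [Finset.mem_filter]

private theorem st1_expl_sub {V E : Type} {G : MG V E} {T : Finset E} {W : Finset V} {Q : Set V} :
    G.expl T W Q ⊆ W := by
  classical
  unfold MG.expl
  exact Finset.filter_subset _ _

private theorem st1_W {x0 x1 y0 y1 : ℤ} : W2 x0 x1 (y0 + 1) y1 = bx x0 (x1 - 1) y0 (y1 - 1) := by
  unfold W2
  rw [show y0 + 1 - 1 = y0 by ring]

/-- a dual edge of the rectangle touches a face of the rectangle -/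
private theorem st1_face {x0 x1 y0 y1 : ℤ} (hx : x0 < x1) (hy : y0 < y1) {e : E2}
    (he : e ∈ eIn (bx x0 x1 y0 y1)) :
    ∃ v ∈ bx x0 (x1 - 1) y0 (y1 - 1), L2.Touch (dl e) v := by
  obtain ⟨x, y, b⟩ := e
  rw [mem_eIn] at he
  cases b
  · rw [L2_src, L2_tgt_false, mem_bx, mem_bx] at he
    simp only at he
    rw [dl_false]
    by_cases h : y ≤ y1 - 1
    · refine ⟨(x, y), mem_bx.2 ⟨?_, ?_, ?_, ?_⟩, Or.inr ?_⟩
      · simp only; omega
      · simp only; omega
      · simp only; omega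
      · simp only; omega
      · rw [L2_tgt_true, sub_add_cancel]
    · refine ⟨(x, y - 1), mem_bx.2 ⟨?_, ?_, ?_, ?_⟩, Or.inl ?_⟩
      · simp only; omega
      · simp only; omega
      · simp only; omega
      · simp only; omega
      · rw [L2_src]
  · rw [L2_src, L2_tgt_true, mem_bx, mem_bx] at he
    simp only at he
    rw [dl_true]
    by_cases h : x ≤ x1 - 1
    · refine ⟨(x, y), mem_bx.2 ⟨?_, ?_, ?_, ?_⟩, Or.inr ?_⟩
      · simp only; omega
      · simp only; omega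
      · simp only; omega
      · simp only; omega
      · rw [L2_tgt_false, sub_add_cancel]
    · refine ⟨(x - 1, y), mem_bx.2 ⟨?_, ?_, ?_, ?_⟩, Or.inl ?_⟩
      · simp only; omega
      · simp only; omega
      · simp only; omega
      · simp only; omega
      · rw [L2_src]

theorem stage1 {x0 x1 y0 y1 : ℤ} (hx : x0 < x1) (hy : y0 < y1) (j : ℕ) :
    L2.pr (eTouch (bx x0 (x1 - 1) y0 (y1 - 1))) (bx x0 (x1 - 1) y0 (y1 - 1))
        (fun T' => AJ (cmp (bx x0 x1 y0 y1) T') x0 x1 y0 y1 (j + 1))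
      ≤ L2.pr (S2 x0 x1 (y0 + 1) y1) (W2 x0 x1 (y0 + 1) y1)
          (fun T' => AJ (cmp (bx x0 x1 (y0 + 1) y1) T') x0 x1 (y0 + 1) y1 j) := by
  set W1 := bx x0 (x1 - 1) y0 (y1 - 1) with hW1
  set Q := rowQ x0 x1 (y0 - 1) with hQ
  set R := bx x0 x1 y0 y1 with hR
  set q := L2.pr (S2 x0 x1 (y0 + 1) y1) (W2 x0 x1 (y0 + 1) y1)
          (fun T' => AJ (cmp (bx x0 x1 (y0 + 1) y1) T') x0 x1 (y0 + 1) y1 j) with hq
  have hq0 : 0 ≤ q := MG.pr_nonneg _ _ _
  have hWc : ∀ v ∈ W1, x0 ≤ v.1 ∧ v.1 ≤ x1 - 1 := fun v hv => by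
    rw [hW1, mem_bx] at hv; exact ⟨hv.1, hv.2.1⟩
  have key := expl_bound L2 (S := eTouch W1) (W := W1) (Q := Q)
    (A := fun T' => AJ (cmp R T') x0 x1 y0 y1 (j + 1)) (Good := fun _ => True)
    (A' := fun F0 Tb => AV x0 x1 y0 y1 j ((F0 : Set V2) ∪ Q) (cmp R Tb)) (q := q) hq0 ?_ ?_ ?_
  · refine key.trans ?_
    have h1 : L2.pr (eTouch W1) W1 (fun _ => True) ≤ 1 := MG.pr_le_one _ _ _
    nlinarith
  · intro T _ hA
    refine ⟨trivial, ?_⟩
    have h1 : AV x0 x1 y0 y1 j ((L2.expl T W1 Q : Set V2) ∪ Q) (cmp R T) := by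
      refine drop_one hx hA ?_ ?_
      · rintro f (hf | hf)
        · exact hWc f (st1_expl_sub hf)
        · exact ⟨hf.1, hf.2.1⟩
      · intro f hf P hP
        exact explored_even hx hWc hf hP
    exact AV_inc _ _ _ _ _ _ _ _ (cmp_anti Finset.inter_subset_left) h1
  · intro _ _ _ _ _
    trivial
  · intro T hT _
    set F := L2.expl T W1 Q with hF
    set Sr := L2.rest (eTouch W1) W1 F Q with hSr
    have hbr : (L2.Bases Sr (W1 \ F)).Nonempty := ⟨_, fib_rest L2 hT⟩
    have hb2 : (L2.Bases (S2 x0 x1 (y0 + 1) y1) (W2 x0 x1 (y0 + 1) y1)).Nonempty := S2_nonempty _ _ _ _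
    set B : Finset E2 → Prop := fun U => AV x0 x1 y0 y1 j ((F : Set V2) ∪ Q) (cmp R (U ∩ Sr)) with hB
    have hinc : Inc fun U => ¬ B U := by
      intro U U' hU h h'
      refine h ?_
      rw [hB] at h' ⊢
      exact AV_inc _ _ _ _ _ _ _ _ (cmp_anti (Finset.inter_subset_inter_right hU)) h'
    have hloc : Loc Sr fun U => ¬ B U := by
      intro U
      rw [hB]
      simp only
      rw [Finset.inter_assoc, Finset.inter_self]
    have hsub : Sr ⊆ S2 x0 x1 (y0 + 1) y1 := by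
      intro e he
      obtain ⟨h1, _, h3⟩ := st1_mem_rest.1 he
      unfold S2
      rw [Finset.mem_filter, st1_W]
      refine ⟨h1, ?_⟩
      by_contra hlt
      rw [mem_eTouch] at h1
      obtain ⟨x, y, b⟩ := e
      simp only at hlt
      cases b
      · rw [L2_src, L2_tgt_false, hW1, mem_bx, mem_bx] at h1
        simp only at h1
        omega
      · rw [L2_src, L2_tgt_true, hW1, mem_bx, mem_bx] at h1
        simp only at h1
        refine (h3 (x, y) (Or.inl rfl)).2 ?_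
        rw [hQ]
        refine ⟨?_, ?_, ?_⟩
        · simp only; omega
        · simp only; omega
        · simp only; omega
    have hd : L2.pr (S2 x0 x1 (y0 + 1) y1) (W2 x0 x1 (y0 + 1) y1) (fun U => ¬ B U)
        ≤ L2.pr Sr (W1 \ F) (fun U => ¬ B U) := by
      refine dom_ext L2 hsub ?_ ?_ hbr hb2 hinc hloc
      · rw [st1_W]
        exact Finset.sdiff_subset
      · intro e he v hv ht
        rw [st1_W] at hv
        exact Finset.mem_sdiff.2 ⟨hv, ((st1_mem_rest.1 he).2.2 v ht).1⟩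
    rw [MG.pr_not hbr, MG.pr_not hb2] at hd
    have h1 : L2.pr Sr (W1 \ F) (fun Tb => AV x0 x1 y0 y1 j ((F : Set V2) ∪ Q) (cmp R Tb))
        = L2.pr Sr (W1 \ F) B := by
      refine MG.pr_congr fun U hU => ?_
      rw [hB]
      simp only
      rw [Finset.inter_eq_left.2 (MG.mem_Bases.1 hU).1]
    have h2 : L2.pr (S2 x0 x1 (y0 + 1) y1) (W2 x0 x1 (y0 + 1) y1) B ≤ q := by
      rw [hq]
      refine MG.pr_mono_event fun U _ hU => ?_
      refine AV_up hx Set.subset_union_right (AV_rest hx ?_ hU)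
      intro e he hn
      rw [hSr, st1_mem_rest]
      obtain ⟨v, hv, ht⟩ := st1_face hx hy he
      refine ⟨?_, ⟨v, hv, fun h => hn v (Or.inl h) ht, ht⟩, fun w hw =>
        ⟨fun h => hn w (Or.inl h) hw, fun h => hn w (Or.inr h) hw⟩⟩
      rw [mem_eTouch]
      rcases ht with ht | ht
      · exact Or.inl (by rw [ht]; exact hv)
      · exact Or.inr (by rw [ht]; exact hv)
    have h3 : L2.pr Sr (W1 \ F) (fun Tb => AV x0 x1 y0 y1 j ((F : Set V2) ∪ Q) (cmp R Tb)) ≤ q := by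
      rw [h1]
      linarith
    exact h3

end Pool.Agent.UST
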