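import Pool.Agent.UST.SUC

set_option autoImplicit false

/-!
Lower bound for a dual crossing, all sides wired, with some room below.

Proof. As `SU1` with `L = x1 - x0 = a`, `W = bx x0 (x1-1) (y0-1-L) (y1-1)`, `S = eTouch W`,
`g(x,y) = cos (θ (x - xc)) sinh (φ (y - y0 + 2 + L)) / sinh (φ (y1 - y0 + 2 + L))`, zero at the roots in the row
`y0 - 2 - L` and in the columns `x0 - 1`, `x1`, at most one at the roots in the row `y1`. At `f = (x0 + ⌊a/2⌋, y0 - 1)`: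
`sinh (φ(L+1)) / sinh (φ (L+1+n)) ≥ 4/5 exp (-φ n)`, `n = y1 - y0 + 1` (`sinh_ratio`; `φ (L+1) ≥ θ (a+1)/π = 1`),
`0.7 * 4/5 ≥ 1/2`. The path from `f` to the root in the row `y1` may go below the row `y0 - 1`: use `conn_vcross`.
-/

namespace Pool.Agent.UST

private theorem root_cases2 {x0 x1 Y0 y1 : ℤ} {e : E2} {w v : V2}
    (hw : w ∈ bx x0 (x1 - 1) Y0 (y1 - 1)) (hv : v ∉ bx x0 (x1 - 1) Y0 (y1 - 1))
    (h : (L2.src e = w ∧ L2.tgt e = v) ∨ (L2.src e = v ∧ L2.tgt e = w)) :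
    v.1 = x0 - 1 ∨ v.1 = x1 ∨ (v.2 = Y0 - 1 ∧ x0 ≤ v.1 ∧ v.1 ≤ x1 - 1) ∨
      (v.2 = y1 ∧ x0 ≤ v.1 ∧ v.1 ≤ x1 - 1) := by
  obtain ⟨x, y, b⟩ := e
  rw [mem_bx] at hw hv
  cases b
  · rw [L2_src, L2_tgt_false] at h
    rcases h with ⟨rfl, rfl⟩ | ⟨rfl, rfl⟩
    · simp only at *; omega
    · simp only at *; omega
  · rw [L2_src, L2_tgt_true] at h
    rcases h with ⟨rfl, rfl⟩ | ⟨rfl, rfl⟩
    · simp only at *; omega
    · simp only at *; omega

private theorem event2 {x0 x1 y0 y1 Y0 : ℤ} {T : Finset E2} (hy : y0 ≤ y1) (hY : Y0 ≤ y0 - 1)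
    {S : Finset E2} (hT : T ∈ L2.Bases S (bx x0 (x1 - 1) Y0 (y1 - 1))) {f : V2}
    (hf : f ∈ bx x0 (x1 - 1) Y0 (y1 - 1)) (hf2 : f.2 = y0 - 1)
    (h : ∃ r, r ∉ bx x0 (x1 - 1) Y0 (y1 - 1) ∧ r ∈ {v : V2 | v.2 = y1} ∧ L2.Conn T f r) :
    VCr T x0 (x1 - 1) (y0 - 1) y1 := by
  obtain ⟨r, hr, hr1, hc⟩ := h
  have hr1' : r.2 = y1 := hr1
  obtain ⟨h1, w, hw, e, he, h2⟩ := suc_root hT hf hr hc
  have hf' := mem_bx.1 hf
  have hw' := mem_bx.1 hw
  have hrx : x0 ≤ r.1 ∧ r.1 ≤ x1 - 1 := by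
    obtain ⟨x, y, b⟩ := e
    cases b
    · rw [L2_src, L2_tgt_false] at h2
      rcases h2 with ⟨rfl, rfl⟩ | ⟨rfl, rfl⟩
      · simp only at *; omega
      · simp only at *; omega
    · rw [L2_src, L2_tgt_true] at h2
      rcases h2 with ⟨rfl, rfl⟩ | ⟨rfl, rfl⟩
      · simp only at *; omega
      · simp only at *; omega
  have h3 : L2.ConnIn T (bx x0 (x1 - 1) Y0 y1 : Set V2) f r := by
    refine MG.ConnIn.mono (le_refl T) ?_ h1
    rintro v (hv | hv)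
    · have hv' := mem_bx.1 (Finset.mem_coe.1 hv)
      rw [Finset.mem_coe, mem_bx]; omega
    · rw [Set.mem_singleton_iff] at hv
      subst hv
      rw [Finset.mem_coe, mem_bx]; omega
  refine conn_vcross (Y0 := Y0) (Y1 := y1) (by omega) ?_ hf2.le hr1'.ge h3
  rw [mem_bx]; omega

/-- all sides wired, with some room below -/
theorem hit_wired {x0 x1 y0 y1 : ℤ} (hx : x0 < x1) (hy : y0 ≤ y1) :
    1 / 2 * Real.exp (-(Real.pi * (y1 - y0 + 1) / (x1 - x0 + 1)))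
      ≤ L2.pr (eTouch (bx x0 (x1 - 1) (y0 - 1 - (x1 - x0)) (y1 - 1)))
          (bx x0 (x1 - 1) (y0 - 1 - (x1 - x0)) (y1 - 1))
          (fun T' => VCr T' x0 (x1 - 1) (y0 - 1) y1) := by
  have hpi := Real.pi_pos
  have ha : (1 : ℝ) ≤ (x1 : ℝ) - x0 := by
    have : (x0 : ℝ) + 1 ≤ x1 := by exact_mod_cast hx
    linarith
  have hb : (0 : ℝ) ≤ (y1 : ℝ) - y0 := by
    have : (y0 : ℝ) ≤ y1 := by exact_mod_cast hy
    linarith
  set θ : ℝ := Real.pi / ((x1 : ℝ) - x0 + 1) with hθ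
  have hθ0 : 0 < θ := by positivity
  have hθ1 : θ ≤ Real.pi / 2 := by
    rw [hθ]
    apply div_le_div_of_nonneg_left hpi.le (by norm_num) (by linarith)
  obtain ⟨φ, hφ0, hφ1, hφ2, hφ⟩ := phi_exists hθ0 hθ1
  set xc : ℝ := ((x0 : ℝ) + x1 - 1) / 2 with hxc
  set L : ℝ := (x1 : ℝ) - x0 with hL
  set K : ℝ := Real.sinh (φ * ((y1 : ℝ) - y0 + 2 + L)) with hK
  have hK0 : 0 < K := Real.sinh_pos_iff.2 (by positivity)
  set g : V2 → ℝ := fun v => Real.cos (θ * ((v.1 : ℝ) - xc)) *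
    Real.sinh (φ * ((v.2 : ℝ) - y0 + 2 + L)) / K with hg
  set Y0 : ℤ := y0 - 1 - (x1 - x0) with hY0
  have hlap : ∀ x y : ℤ, g (x + 1, y) + g (x - 1, y) + g (x, y + 1) + g (x, y - 1) = 4 * g (x, y) := by
    intro x y
    have h1 := lap_sinh hφ ((x : ℝ) - xc) ((y : ℝ) - y0 + 2 + L)
    simp only [hg]
    push_cast
    rw [← add_div, ← add_div, ← add_div, ← mul_div_assoc, ← h1]
    congr 1
    rw [show (x : ℝ) + 1 - xc = (x : ℝ) - xc + 1 by ring,
      show (x : ℝ) - 1 - xc = (x : ℝ) - xc - 1 by ring,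
      show (y : ℝ) + 1 - y0 + 2 + L = (y : ℝ) - y0 + 2 + L + 1 by ring,
      show (y : ℝ) - 1 - y0 + 2 + L = (y : ℝ) - y0 + 2 + L - 1 by ring]
  have hedge : ∀ v : V2, (v.1 = x0 - 1 ∨ v.1 = x1) → g v = 0 := by
    intro v hv
    have hne : ((x1 : ℝ) - x0 + 1) ≠ 0 := by linarith
    have h1 : Real.cos (θ * ((v.1 : ℝ) - xc)) = 0 := by
      rcases hv with hv | hv
      · have : θ * ((v.1 : ℝ) - xc) = -(Real.pi / 2) := by
          rw [hv, hθ, hxc, hL]; push_cast; field_simp; ring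
        rw [this, Real.cos_neg, Real.cos_pi_div_two]
      · have : θ * ((v.1 : ℝ) - xc) = Real.pi / 2 := by
          rw [hv, hθ, hxc, hL]; field_simp; ring
        rw [this, Real.cos_pi_div_two]
    simp only [hg, h1, zero_mul, zero_div]
  have hlow : ∀ v : V2, v.2 = Y0 - 1 → g v = 0 := by
    intro v hv
    have h1 : Real.sinh (φ * ((v.2 : ℝ) - y0 + 2 + L)) = 0 := by
      rw [hv, hY0, hL]; push_cast
      rw [Real.sinh_eq_zero]; ring
    simp only [hg, h1, mul_zero, zero_div]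
  have htop : ∀ v : V2, v.2 = y1 → g v ≤ 1 := by
    intro v hv
    simp only [hg]
    rw [div_le_one hK0, hv]
    calc Real.cos (θ * ((v.1 : ℝ) - xc)) * Real.sinh (φ * ((y1 : ℝ) - y0 + 2 + L))
        ≤ 1 * Real.sinh (φ * ((y1 : ℝ) - y0 + 2 + L)) := by
          gcongr
          exact Real.cos_le_one _
      _ = K := by rw [one_mul]
  have hmax := max_principle (S := eTouch (bx x0 (x1 - 1) Y0 (y1 - 1)))
    (W := bx x0 (x1 - 1) Y0 (y1 - 1)) (B := {v : V2 | v.2 = y1})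
    (wired_nonempty _)
    (by
      intro v hv
      rw [mem_eTouch]
      refine Or.inr ?_
      rw [L2_tgt_false, sub_add_cancel]; exact hv)
    g
    (by
      rintro ⟨x, y⟩ hv
      rw [suc_sum_src, suc_sum_tgt]
      simp only
      have m1 : (x, y, false) ∈ eTouch (bx x0 (x1 - 1) Y0 (y1 - 1)) := mem_eTouch.2 (Or.inl hv)
      have m2 : (x, y, true) ∈ eTouch (bx x0 (x1 - 1) Y0 (y1 - 1)) := mem_eTouch.2 (Or.inl hv)
      have m3 : (x - 1, y, false) ∈ eTouch (bx x0 (x1 - 1) Y0 (y1 - 1)) := by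
        refine mem_eTouch.2 (Or.inr ?_)
        rw [L2_tgt_false, sub_add_cancel]; exact hv
      have m4 : (x, y - 1, true) ∈ eTouch (bx x0 (x1 - 1) Y0 (y1 - 1)) := by
        refine mem_eTouch.2 (Or.inr ?_)
        rw [L2_tgt_true, sub_add_cancel]; exact hv
      rw [if_pos m1, if_pos m2, if_pos m3, if_pos m4, L2_tgt_false, L2_tgt_true, L2_src, L2_src]
      have hl := hlap x y
      linarith)
    (by
      rintro v hv ⟨e, he, w, hw, h1, h2⟩
      have hwv : w ≠ v := by rintro rfl; exact hv hw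
      have h3 : (L2.src e = w ∧ L2.tgt e = v) ∨ (L2.src e = v ∧ L2.tgt e = w) := by
        rcases h1 with h1 | h1 <;> rcases h2 with h2 | h2
        · exact absurd (h1.symm.trans h2) hwv
        · exact Or.inl ⟨h1, h2⟩
        · exact Or.inr ⟨h2, h1⟩
        · exact absurd (h1.symm.trans h2) hwv
      rcases root_cases2 hw hv h3 with h4 | h4 | h4 | h4
      · rw [hedge v (Or.inl h4)]; split_ifs <;> norm_num
      · rw [hedge v (Or.inr h4)]; split_ifs <;> norm_num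
      · rw [hlow v h4.1]; split_ifs <;> norm_num
      · rw [if_pos (show v ∈ {v : V2 | v.2 = y1} from h4.1)]
        exact htop v h4.1)
  set f : V2 := (x0 + (x1 - x0) / 2, y0 - 1) with hf
  have hfW : f ∈ bx x0 (x1 - 1) Y0 (y1 - 1) := by
    rw [mem_bx]
    simp only [hf]
    omega
  have h1 := hmax f hfW
  have h2 : L2.hit (eTouch (bx x0 (x1 - 1) Y0 (y1 - 1))) (bx x0 (x1 - 1) Y0 (y1 - 1))
      {v : V2 | v.2 = y1} f ≤
      L2.pr (eTouch (bx x0 (x1 - 1) Y0 (y1 - 1))) (bx x0 (x1 - 1) Y0 (y1 - 1))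
        (fun T' => VCr T' x0 (x1 - 1) (y0 - 1) y1) := by
    unfold MG.hit
    rw [if_pos hfW]
    exact MG.pr_mono_event (fun T hT hE => event2 hy (by omega) hT hfW rfl hE)
  refine le_trans ?_ (le_trans h1 h2)
  have hfx : |((f.1 : ℝ)) - xc| ≤ 1 / 2 := by
    have h3 : 2 * ((x1 - x0) / 2) ≤ x1 - x0 ∧ x1 - x0 ≤ 2 * ((x1 - x0) / 2) + 1 := by omega
    have h4 : (2 : ℝ) * (((x1 - x0) / 2 : ℤ) : ℝ) ≤ (x1 : ℝ) - x0 := by exact_mod_cast h3.1
    have h5 : (x1 : ℝ) - x0 ≤ 2 * (((x1 - x0) / 2 : ℤ) : ℝ) + 1 := by exact_mod_cast h3.2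
    simp only [hf, hxc]
    push_cast
    rw [abs_le]
    constructor <;> linarith
  have hcos : 7 / 10 ≤ Real.cos (θ * ((f.1 : ℝ) - xc)) := cos_half ha hfx
  set n : ℝ := (y1 : ℝ) - y0 + 1 with hn
  have hp : 1 ≤ φ * (L + 1) := by
    calc (1 : ℝ) = θ / Real.pi * (L + 1) := by
          rw [hθ]
          have : L + 1 ≠ 0 := by linarith
          field_simp
      _ ≤ φ * (L + 1) := by gcongr
  have hsr := sinh_ratio hp (show 0 ≤ φ * n by positivity)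
  have hKn : Real.sinh (φ * (L + 1) + φ * n) = K := by
    rw [hK]; congr 1; rw [hn]; ring
  rw [hKn] at hsr
  have hs0 : 0 < Real.sinh (φ * (L + 1)) := Real.sinh_pos_iff.2 (by linarith)
  have hfs : Real.sinh (φ * ((f.2 : ℝ) - y0 + 2 + L)) = Real.sinh (φ * (L + 1)) := by
    simp only [hf]; push_cast
    congr 1; ring
  have hexp : Real.exp (-(Real.pi * (y1 - y0 + 1) / (x1 - x0 + 1))) ≤ Real.exp (-(φ * n)) := by
    apply Real.exp_le_exp.2
    have : φ * n ≤ θ * n := by gcongr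
    have h5 : θ * n = Real.pi * (y1 - y0 + 1) / (x1 - x0 + 1) := by rw [hθ, hn]; ring
    linarith
  simp only [hg]
  rw [le_div_iff₀ hK0, hfs]
  have he0 := Real.exp_pos (-(φ * n))
  calc 1 / 2 * Real.exp (-(Real.pi * (y1 - y0 + 1) / (x1 - x0 + 1))) * K
      ≤ 1 / 2 * Real.exp (-(φ * n)) * K := by gcongr
    _ ≤ 7 / 10 * (4 / 5 * Real.exp (-(φ * n)) * K) := by nlinarith [mul_pos he0 hK0]
    _ ≤ 7 / 10 * Real.sinh (φ * (L + 1)) := by gcongr
    _ ≤ Real.cos (θ * ((f.1 : ℝ) - xc)) * Real.sinh (φ * (L + 1)) := by gcongr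

end Pool.Agent.UST
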