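import Pool.Agent.UST.MAX
import Pool.Agent.UST.LAT
import Pool.Agent.UST.ANA
import Pool.Agent.UST.BAS

set_option autoImplicit false

/-!
Common lemmas for `SU1` and `SU2`: sums over the edges at a vertex, cutting a walk at the first root.
-/

namespace Pool.Agent.UST

theorem suc_sum_src (S : Finset E2) (v : V2) (F : E2 → ℝ) :
    ∑ e ∈ S.filter (fun e => L2.src e = v), F e =
      (if (v.1, v.2, false) ∈ S then F (v.1, v.2, false) else 0) +
      (if (v.1, v.2, true) ∈ S then F (v.1, v.2, true) else 0) := by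
  have h1 : S.filter (fun e => L2.src e = v) =
      ({(v.1, v.2, false), (v.1, v.2, true)} : Finset E2).filter (fun e => e ∈ S) := by
    ext ⟨x, y, b⟩
    obtain ⟨p, q⟩ := v
    simp only [Finset.mem_filter, Finset.mem_insert, Finset.mem_singleton, L2_src, Prod.mk.injEq]
    cases b <;> simp <;> tauto
  rw [h1, Finset.sum_filter, Finset.sum_pair (by simp)]

theorem suc_sum_tgt (S : Finset E2) (v : V2) (F : E2 → ℝ) :
    ∑ e ∈ S.filter (fun e => L2.tgt e = v), F e =
      (if (v.1 - 1, v.2, false) ∈ S then F (v.1 - 1, v.2, false) else 0) +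
      (if (v.1, v.2 - 1, true) ∈ S then F (v.1, v.2 - 1, true) else 0) := by
  have h1 : S.filter (fun e => L2.tgt e = v) =
      ({(v.1 - 1, v.2, false), (v.1, v.2 - 1, true)} : Finset E2).filter (fun e => e ∈ S) := by
    ext ⟨x, y, b⟩
    obtain ⟨p, q⟩ := v
    simp only [Finset.mem_filter, Finset.mem_insert, Finset.mem_singleton, Prod.mk.injEq]
    cases b
    · rw [L2_tgt_false]
      simp only [Prod.mk.injEq, and_true, Bool.false_eq_true, and_false, or_false]
      constructor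
      · rintro ⟨h, rfl, rfl⟩; exact ⟨⟨by ring, rfl⟩, h⟩
      · rintro ⟨⟨rfl, rfl⟩, h⟩; exact ⟨h, by ring, rfl⟩
    · rw [L2_tgt_true]
      simp only [Prod.mk.injEq, and_true, Bool.true_eq_false, and_false, false_or]
      constructor
      · rintro ⟨h, rfl, rfl⟩; exact ⟨⟨rfl, by ring⟩, h⟩
      · rintro ⟨⟨rfl, rfl⟩, h⟩; exact ⟨h, rfl, by ring⟩
  rw [h1, Finset.sum_filter, Finset.sum_pair (by simp)]

/-- cut a walk at the first vertex outside `W` -/
theorem suc_cut {T : Finset E2} {W : Finset V2} {f r : V2} (hf : f ∈ W) (hr : r ∉ W)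
    (h : L2.Conn T f r) : ∃ r', r' ∉ W ∧ L2.ConnIn T ((W : Set V2) ∪ {r'}) f r' ∧
      L2.Conn T r' r ∧ ∃ w ∈ W, L2.Step T w r' := by
  induction h using Relation.ReflTransGen.head_induction_on with
  | refl => exact absurd hf hr
  | @head a c hac hcr ih =>
    by_cases hc : c ∈ W
    · obtain ⟨r', h1, h2, h3, h4⟩ := ih hc
      refine ⟨r', h1, ?_, h3, h4⟩
      exact Relation.ReflTransGen.head ⟨hac, Or.inl hf, Or.inl hc⟩ h2
    · refine ⟨c, hc, ?_, hcr, a, hf, hac⟩
      exact Relation.ReflTransGen.single ⟨hac, Or.inl hf, Or.inr rfl⟩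

theorem suc_root {S T : Finset E2} {W : Finset V2} (hT : T ∈ L2.Bases S W) {f r : V2} (hf : f ∈ W)
    (hr : r ∉ W) (h : L2.Conn T f r) : L2.ConnIn T ((W : Set V2) ∪ {r}) f r ∧
      ∃ w ∈ W, L2.Step T w r := by
  obtain ⟨r', h1, h2, h3, h4⟩ := suc_cut hf hr h
  have h5 := root_unique L2 hT h1 hr h3
  subst h5
  exact ⟨h2, h4⟩

end Pool.Agent.UST
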